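import Pool.Agent.Lib_MP_2c424f_lo.Stat
import Pool.Agent.Lib_MP_2c424f_lo.Cube

/-!
# Blocks and sites (piece BSUM)

`(t, a, b) ↦ (pt t a b, b)` is a bijection onto pairs (site, bit vector); `a j = b j` iff the coordinate
`pt t a b j` is even.
-/

set_option autoImplicit false

open Finset

namespace Pool.Agent.LO

variable {d k q : ℕ}

private theorem bsum_two_dvd (k n : ℕ) : Even (n % 2 ^ (k + 1)) ↔ Even n := by
  rw [Nat.even_iff, Nat.even_iff, Nat.mod_mod_of_dvd n (dvd_pow_self 2 (Nat.succ_ne_zero k))]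

private theorem bsum_pt (t : Blk d k) (a b : Bt d) (j : Fin d) :
    pt t a b j = ((2 * (t j).val + (if a j then 1 else 0) + (if b j then 1 else 0) : ℕ) :
      ZMod (2 ^ (k + 1))) := by
  simp only [pt, bas, bv, Pi.add_apply]
  push_cast
  rfl

theorem val_pt (t : Blk d k) (a b : Bt d) (j : Fin d) : Even ((pt t a b j).val) ↔ a j = b j := by
  rw [bsum_pt, ZMod.val_natCast, bsum_two_dvd]
  cases a j <;> cases b j <;> simp [parity_simps]

theorem evn_pt (t : Blk d k) (a b : Bt d) : evn (pt t a b) ↔ ¬ od a b := by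
  unfold evn od
  rw [Finset.even_sum_iff_even_card_odd, Nat.not_odd_iff_even]
  have : (univ.filter fun i => Odd ((pt t a b i).val)) = univ.filter fun i => a i ≠ b i := by
    refine Finset.filter_congr fun i _ => ?_
    rw [← Nat.not_even_iff_odd, val_pt]
  rw [this]

private theorem bsum_flp_self (a : Bt d) (j : Fin d) : flp a j j = !a j := by
  unfold flp
  exact Function.update_self _ _ _

private theorem bsum_flp_ne (a : Bt d) (i j : Fin d) (h : i ≠ j) : flp a j i = a i := by
  unfold flp
  exact Function.update_of_ne h _ _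

private theorem bsum_bv (a : Bt d) (j : Fin d) :
    (bv (flp a j) : Site d (k + 1)) = bv a + sv (j, !a j) := by
  funext i
  rw [Pi.add_apply]
  unfold bv sv
  by_cases hi : i = j
  · subst hi
    have h := bsum_flp_self a i
    rw [Pi.single_eq_same]
    simp only [h]
    cases a i <;> simp
  · have h := bsum_flp_ne a i j hi
    rw [Pi.single_eq_of_ne hi, add_zero]
    simp only [h]

private theorem bsum_flp (t : Blk d k) (a b : Bt d) (j : Fin d) :
    pt t (flp a j) b = pt t a b + sv (j, !a j) ∧ pt t a (flp b j) = pt t a b + sv (j, !b j) := by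
  unfold pt
  rw [bsum_bv, bsum_bv]
  constructor
  · abel
  · abel

/-- steps inside the block -/
theorem pt_step (t : Blk d k) (a b : Bt d) (σ : Stp d) (h : alw a b σ) :
    ∃ a' b', pt t a b + sv σ = pt t a' b' := by
  obtain ⟨j, s⟩ := σ
  unfold alw at h
  have h1 := (bsum_flp t a b j).1
  have h2 := (bsum_flp t a b j).2
  cases s with
  | true =>
    simp only [if_true] at h
    by_cases ha : a j = true
    · have hb : b j = false := by
        cases hbj : b j with
        | false => rfl
        | true => exact absurd ⟨ha, hbj⟩ h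
      rw [hb] at h2
      exact ⟨a, flp b j, h2.symm⟩
    · have ha' : a j = false := by simpa using ha
      rw [ha'] at h1
      exact ⟨flp a j, b, h1.symm⟩
  | false =>
    simp only [Bool.false_eq_true, if_false] at h
    rcases h with h | h
    · rw [h] at h1
      exact ⟨flp a j, b, h1.symm⟩
    · rw [h] at h2
      exact ⟨a, flp b j, h2.symm⟩

/-- flipping a bit is a step inside the block -/
theorem pt_flp (t : Blk d k) (a b : Bt d) (j : Fin d) :
    pt t (flp a j) b = pt t a b + sv (j, !a j) ∧ pt t a (flp b j) = pt t a b + sv (j, !b j) :=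
  bsum_flp t a b j

/-- the bijection for one coordinate -/
private noncomputable def bsumE (k : ℕ) : ZMod (2 ^ k) × Bool ≃ ZMod (2 ^ (k + 1)) :=
  Equiv.ofBijective
    (fun p => ((2 * p.1.val + (if p.2 then 1 else 0) : ℕ) : ZMod (2 ^ (k + 1)))) (by
      rw [Fintype.bijective_iff_injective_and_card]
      constructor
      · rintro ⟨s, a⟩ ⟨t, b⟩ h
        simp only at h
        have hs := ZMod.val_lt s
        have ht := ZMod.val_lt t
        have hp : 2 ^ (k + 1) = 2 * 2 ^ k := by ring
        rw [ZMod.natCast_eq_natCast_iff', Nat.mod_eq_of_lt, Nat.mod_eq_of_lt] at h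
        · have hab : a = b := by
            cases a <;> cases b <;> simp at h ⊢ <;> omega
          subst hab
          have : s.val = t.val := by omega
          rw [ZMod.val_injective _ this]
        · split_ifs <;> omega
        · split_ifs <;> omega
      · rw [Fintype.card_prod, ZMod.card, ZMod.card, Fintype.card_bool]
        ring)

private theorem bsum_ta (G : Site d (k + 1) → ℝ) :
    ∑ t : Blk d k, ∑ a : Bt d, G (bas t + bv a) = ∑ x, G x := by
  rw [← Finset.sum_product', Finset.univ_product_univ]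
  refine Fintype.sum_equiv
    ((Equiv.arrowProdEquivProdArrow (Fin d) (fun _ => ZMod (2 ^ k)) (fun _ => Bool)).symm.trans
      (Equiv.piCongrRight fun _ => bsumE k)) _ _ ?_
  rintro ⟨t, a⟩
  congr 1
  funext i
  simp only [bas, bv, Pi.add_apply, Equiv.trans_apply, Equiv.piCongrRight_apply, Pi.map_apply, bsumE,
    Equiv.ofBijective_apply, Equiv.arrowProdEquivProdArrow, Equiv.coe_fn_symm_mk]
  push_cast
  rfl

/-- the bijection -/
theorem sum_pt (H : Site d (k + 1) → Bt d → ℝ) :
    ∑ t : Blk d k, ∑ a, ∑ b, H (pt t a b) b = ∑ x, ∑ b, H x b := by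
  have h1 : ∀ b : Bt d, ∑ t : Blk d k, ∑ a : Bt d, H (pt t a b) b = ∑ x, H x b := by
    intro b
    rw [← Equiv.sum_comp (Equiv.addRight (bv b : Site d (k + 1))) (fun x => H x b)]
    exact bsum_ta (fun x => H (x + bv b) b)
  calc ∑ t : Blk d k, ∑ a, ∑ b, H (pt t a b) b
      = ∑ t : Blk d k, ∑ b, ∑ a, H (pt t a b) b := by
        refine sum_congr rfl fun t _ => ?_
        rw [sum_comm]
    _ = ∑ b, ∑ t : Blk d k, ∑ a, H (pt t a b) b := by rw [sum_comm]
    _ = ∑ b, ∑ x, H x b := sum_congr rfl fun b _ => h1 b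
    _ = ∑ x, ∑ b, H x b := by rw [sum_comm]

private theorem bsum_card_bt (d : ℕ) : ((univ : Finset (Bt d)).card : ℝ) = 2 ^ d := by
  rw [Finset.card_univ, Fintype.card_fun, Fintype.card_bool, Fintype.card_fin]
  push_cast
  rfl

/-- sum of block means over all blocks -/
theorem sum_EB (hd : 1 ≤ d) (G : Site d (k + 1) → ℝ) :
    ∑ t : Blk d k, EB (fun a b => G (pt t a b)) = 2 / 2 ^ d * ∑ v ∈ ods d (k + 1), G v := by
  classical
  have h4 : (4 : ℝ) ^ d = 2 ^ d * 2 ^ d := by
    rw [← mul_pow]; norm_num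
  have h2 : (2 : ℝ) ^ d ≠ 0 := by positivity
  have h := sum_pt (d := d) (k := k) (fun x _ => if ¬ evn x then G x else 0)
  have hL : ∑ t : Blk d k, EB (fun a b => G (pt t a b)) =
      2 / 4 ^ d * ∑ t : Blk d k, ∑ a, ∑ b, (if ¬ evn (pt t a b) then G (pt t a b) else 0) := by
    rw [mul_sum]
    refine sum_congr rfl fun t _ => ?_
    unfold EB
    rw [mul_div_right_comm]
    congr 1
    refine sum_congr rfl fun a _ => sum_congr rfl fun b _ => ?_
    by_cases hod : od a b
    · rw [if_pos hod, if_pos]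
      rw [evn_pt]
      exact not_not.mpr hod
    · rw [if_neg hod, if_neg]
      rw [evn_pt]
      exact not_not.mpr hod
  rw [hL, h]
  have hR : ∑ x : Site d (k + 1), ∑ _b : Bt d, (if ¬ evn x then G x else 0) =
      2 ^ d * ∑ v ∈ ods d (k + 1), G v := by
    unfold ods
    rw [Finset.sum_filter, mul_sum]
    refine sum_congr rfl fun x _ => ?_
    rw [Finset.sum_const, nsmul_eq_mul, bsum_card_bt]
  rw [hR, h4]
  field_simp

private theorem bsum_half (j : Fin d) (φ : Bool → ℝ) :
    2 * ∑ b : Bt d, φ (b j) = 2 ^ d * (φ true + φ false) := by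
  have h1 : ∑ b : Bt d, φ (b j) = ∑ b : Bt d, φ (!b j) := by
    have hinv : Function.Involutive (fun b : Bt d => flp b j) := by
      intro b
      funext i
      simp only [flp]
      by_cases hi : i = j
      · subst hi
        rw [Function.update_self, Function.update_self, Bool.not_not]
      · rw [Function.update_of_ne hi, Function.update_of_ne hi]
    rw [← Equiv.sum_comp hinv.toPerm (fun b : Bt d => φ (b j))]
    refine sum_congr rfl fun b _ => ?_
    rw [Function.Involutive.coe_toPerm]
    simp only [flp, Function.update_self]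
  have h2 : ∑ b : Bt d, (φ (b j) + φ (!b j)) = 2 ^ d * (φ true + φ false) := by
    rw [← bsum_card_bt, ← nsmul_eq_mul, ← Finset.sum_const]
    refine sum_congr rfl fun b _ => ?_
    cases b j
    · rw [Bool.not_false]; ring
    · rw [Bool.not_true]
  rw [two_mul, ← h2, sum_add_distrib, ← h1]

/-- sum of the changes over all blocks -/
theorem sum_cut (j : Fin d) (χ : Site d (k + 1) → ℝ) :
    ∑ t : Blk d k, ∑ a, ∑ b, (|χ (pt t (flp a j) b) - χ (pt t a b)| + |χ (pt t a (flp b j)) - χ (pt t a b)|) =
      2 ^ d * (∑ x, (|χ (x + sv (j, true)) - χ x| + |χ (x + sv (j, false)) - χ x|)) := by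
  have hsym : ∀ (t : Blk d k) (a b : Bt d), pt t a b = pt t b a := by
    intro t a b
    unfold pt
    abel
  have e2 : ∑ t : Blk d k, ∑ a : Bt d, ∑ b : Bt d, |χ (pt t a (flp b j)) - χ (pt t a b)| =
      ∑ x, ∑ b : Bt d, |χ (x + sv (j, !b j)) - χ x| := by
    rw [← sum_pt]
    refine sum_congr rfl fun t _ => sum_congr rfl fun a _ => sum_congr rfl fun b _ => ?_
    rw [(bsum_flp t a b j).2]
  have e1 : ∑ t : Blk d k, ∑ a : Bt d, ∑ b : Bt d, |χ (pt t (flp a j) b) - χ (pt t a b)| =
      ∑ t : Blk d k, ∑ a : Bt d, ∑ b : Bt d, |χ (pt t a (flp b j)) - χ (pt t a b)| := by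
    refine sum_congr rfl fun t _ => ?_
    rw [sum_comm]
    refine sum_congr rfl fun a _ => sum_congr rfl fun b _ => ?_
    rw [hsym t (flp b j) a, hsym t b a]
  calc ∑ t : Blk d k, ∑ a, ∑ b,
        (|χ (pt t (flp a j) b) - χ (pt t a b)| + |χ (pt t a (flp b j)) - χ (pt t a b)|)
      = ∑ t : Blk d k, ∑ a : Bt d, ∑ b : Bt d, |χ (pt t (flp a j) b) - χ (pt t a b)| +
        ∑ t : Blk d k, ∑ a : Bt d, ∑ b : Bt d, |χ (pt t a (flp b j)) - χ (pt t a b)| := by
        simp only [sum_add_distrib]
    _ = 2 * ∑ x, ∑ b : Bt d, |χ (x + sv (j, !b j)) - χ x| := by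
        rw [e1, e2, two_mul]
    _ = ∑ x, 2 * ∑ b : Bt d, |χ (x + sv (j, !b j)) - χ x| := by rw [mul_sum]
    _ = 2 ^ d * (∑ x, (|χ (x + sv (j, true)) - χ x| + |χ (x + sv (j, false)) - χ x|)) := by
        rw [mul_sum]
        refine sum_congr rfl fun x _ => ?_
        rw [bsum_half j (fun s => |χ (x + sv (j, !s)) - χ x|)]
        simp only [Bool.not_true, Bool.not_false]
        ring

end Pool.Agent.LO
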