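import Pool.Agent.Lib_MP_2c424f_lo.Defs

/-!
# Multiscale argument (piece MULTI)

Abstract: `Ω` a finite set of configurations, `Bad ω` a set of blocks, `lab ω t` a label.  A block is a
`0`-cube; an `(e+1)`-cube (aligned, inside `{0,…,2^k-1}^d`) consists of `2^d` `e`-cubes and is bad if at
least two of them are bad.  A bad `e`-cube contains a witness set of `2^e` bad blocks, at most
`4^(d (2^e - 1))` possible sets: probability at most `(4^d r)^(2^e)`.  A block is fine if all cubes which
contain it are good.  Adjacent good `e`-cubes contain adjacent `e`-fine blocks (`2^(d-1) ≥ 3` pairs, at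
most two spoiled), hence all `e`-fine blocks of a good `e`-cube have the same label (Hamming induction:
if two cells `≠ p` differ in at least two coordinates there is a cell `≠ p` in between).
-/

set_option autoImplicit false

open Finset

namespace Pool.Agent.LO

variable {d k : ℕ}

/-- next block in direction `j` -/
def nxt (t : Blk d k) (j : Fin d) : Blk d k := Function.update t j (t j + 1)

/-! ### cells, natural coordinates -/

/-- the cell of level `e` containing the block `t` -/
private def multiUp (e : ℕ) (t : Fin d → ℕ) : Fin d → ℕ := fun i => t i / 2 ^ e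

/-- bad cells -/
private def multiBc (B : (Fin d → ℕ) → Prop) : ℕ → (Fin d → ℕ) → Prop
  | 0, s => B s
  | e + 1, s => ∃ s1 s2, s1 ≠ s2 ∧ multiUp 1 s1 = s ∧ multiUp 1 s2 = s ∧
      multiBc B e s1 ∧ multiBc B e s2

/-- fine blocks -/
private def multiFine (B : (Fin d → ℕ) → Prop) (e : ℕ) (t : Fin d → ℕ) : Prop :=
  ∀ e' ≤ e, ¬ multiBc B e' (multiUp e' t)

private theorem multi_up_zero (t : Fin d → ℕ) : multiUp 0 t = t := by
  funext i; simp [multiUp]

private theorem multi_up_succ (e : ℕ) (t : Fin d → ℕ) : multiUp (e + 1) t = multiUp 1 (multiUp e t) := by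
  funext i
  simp only [multiUp, pow_one]
  rw [Nat.div_div_eq_div_mul, pow_succ]

private theorem multi_fine_succ (B : (Fin d → ℕ) → Prop) (e : ℕ) (t : Fin d → ℕ)
    (h : multiFine B e t) (h' : ¬ multiBc B (e + 1) (multiUp (e + 1) t)) : multiFine B (e + 1) t := by
  intro e' he'
  rcases Nat.lt_or_ge e' (e + 1) with h1 | h1
  · exact h e' (by omega)
  · have : e' = e + 1 := by omega
    subst this
    exact h'

private theorem multi_fine_mono (B : (Fin d → ℕ) → Prop) (e : ℕ) (t : Fin d → ℕ)
    (h : multiFine B (e + 1) t) : multiFine B e t := fun e' he' => h e' (by omega)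

private theorem multi_pig (P0 P1 P2 Q0 Q1 Q2 : Prop) (a : ¬ (P0 ∧ P1)) (b : ¬ (P0 ∧ P2))
    (c : ¬ (P1 ∧ P2)) (a' : ¬ (Q0 ∧ Q1)) (b' : ¬ (Q0 ∧ Q2)) (c' : ¬ (Q1 ∧ Q2)) :
    (¬ P0 ∧ ¬ Q0) ∨ (¬ P1 ∧ ¬ Q1) ∨ (¬ P2 ∧ ¬ Q2) := by
  by_cases h0 : P0
  · have h1 : ¬ P1 := fun h => a ⟨h0, h⟩
    have h2 : ¬ P2 := fun h => b ⟨h0, h⟩
    by_cases h3 : Q1
    · exact Or.inr (Or.inr ⟨h2, fun h => c' ⟨h3, h⟩⟩)
    · exact Or.inr (Or.inl ⟨h1, h3⟩)
  · by_cases h3 : Q0
    · have h1 : ¬ Q1 := fun h => a' ⟨h3, h⟩
      have h2 : ¬ Q2 := fun h => b' ⟨h3, h⟩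
      by_cases h4 : P1
      · exact Or.inr (Or.inr ⟨fun h => c ⟨h4, h⟩, h2⟩)
      · exact Or.inr (Or.inl ⟨h4, h1⟩)
    · exact Or.inl ⟨h0, h3⟩

/-- adjacent good cells contain adjacent fine blocks -/
private theorem multi_adj (hd : 3 ≤ d) (B : (Fin d → ℕ) → Prop) (j : Fin d) (e : ℕ) :
    ∀ p : Fin d → ℕ, ¬ multiBc B e p → ¬ multiBc B e (Function.update p j (p j + 1)) →
    ∃ t : Fin d → ℕ, multiUp e t = p ∧ multiFine B e t ∧
      multiUp e (Function.update t j (t j + 1)) = Function.update p j (p j + 1) ∧
      multiFine B e (Function.update t j (t j + 1)) := by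
  induction e with
  | zero =>
    intro p hp hp'
    refine ⟨p, multi_up_zero p, ?_, multi_up_zero _, ?_⟩
    · intro e' he'
      have : e' = 0 := by omega
      subst this
      rw [multi_up_zero]; exact hp
    · intro e' he'
      have : e' = 0 := by omega
      subst this
      rw [multi_up_zero]; exact hp'
  | succ e ih =>
    intro p hp hp'
    -- two other coordinates
    have hi : ∃ i1 i2 : Fin d, i1 ≠ j ∧ i2 ≠ j ∧ i1 ≠ i2 := by
      have hc : 1 < ((Finset.univ : Finset (Fin d)).erase j).card := by
        rw [Finset.card_erase_of_mem (Finset.mem_univ _), Finset.card_univ, Fintype.card_fin]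
        omega
      obtain ⟨i1, h1, i2, h2, h12⟩ := Finset.one_lt_card.1 hc
      exact ⟨i1, i2, Finset.ne_of_mem_erase h1, Finset.ne_of_mem_erase h2, h12⟩
    obtain ⟨i1, i2, hi1, hi2, hi12⟩ := hi
    set q0 : Fin d → ℕ := Function.update (fun i => 2 * p i) j (2 * p j + 1) with hq0
    set nx : (Fin d → ℕ) → (Fin d → ℕ) := fun q => Function.update q j (q j + 1) with hnx
    set q1 : Fin d → ℕ := Function.update q0 i1 (2 * p i1 + 1) with hq1
    set q2 : Fin d → ℕ := Function.update q0 i2 (2 * p i2 + 1) with hq2
    have fam : ∀ q : Fin d → ℕ, q j = 2 * p j + 1 → (∀ i, i ≠ j → q i = 2 * p i ∨ q i = 2 * p i + 1) →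
        multiUp 1 q = p ∧ multiUp 1 (nx q) = Function.update p j (p j + 1) := by
      intro q hqj hq
      constructor
      · funext i
        by_cases hij : i = j
        · subst hij
          simp only [multiUp, pow_one, hqj]; omega
        · rcases hq i hij with h | h <;> simp only [multiUp, pow_one, h] <;> omega
      · funext i
        by_cases hij : i = j
        · subst hij
          simp only [multiUp, pow_one, hnx, Function.update_self, hqj]; omega
        · simp only [multiUp, pow_one, hnx, Function.update_of_ne hij]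
          rcases hq i hij with h | h <;> rw [h] <;> omega
    have e0j : q0 j = 2 * p j + 1 := by simp [hq0]
    have e0 : ∀ i, i ≠ j → q0 i = 2 * p i := by
      intro i hij
      simp [hq0, Function.update_of_ne hij]
    have f0 := fam q0 e0j fun i hij => Or.inl (e0 i hij)
    have e1j : q1 j = 2 * p j + 1 := by
      simp only [hq1]
      rw [Function.update_of_ne hi1.symm, e0j]
    have f1 := fam q1 e1j (by
      intro i hij
      by_cases h : i = i1
      · subst h; right; simp [hq1]
      · left
        simp only [hq1]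
        rw [Function.update_of_ne h, e0 i hij])
    have e2j : q2 j = 2 * p j + 1 := by
      simp only [hq2]
      rw [Function.update_of_ne hi2.symm, e0j]
    have f2 := fam q2 e2j (by
      intro i hij
      by_cases h : i = i2
      · subst h; right; simp [hq2]
      · left
        simp only [hq2]
        rw [Function.update_of_ne h, e0 i hij])
    have a0 : q0 i1 = 2 * p i1 := e0 i1 hi1
    have a0' : q0 i2 = 2 * p i2 := e0 i2 hi2
    have a1 : q1 i1 = 2 * p i1 + 1 := by simp [hq1]
    have a2 : q2 i2 = 2 * p i2 + 1 := by simp [hq2]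
    have a1' : q1 i2 = 2 * p i2 := by
      simp only [hq1]
      rw [Function.update_of_ne hi12.symm, a0']
    have n01 : q0 ≠ q1 := by
      intro h
      have := congrFun h i1
      omega
    have n02 : q0 ≠ q2 := by
      intro h
      have := congrFun h i2
      omega
    have n12 : q1 ≠ q2 := by
      intro h
      have := congrFun h i2
      omega
    have hnxinj : ∀ q q', nx q = nx q' → q = q' := by
      intro q q' h
      funext i
      by_cases hij : i = j
      · subst hij
        have := congrFun h i
        simp only [hnx, Function.update_self] at this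
        omega
      · have := congrFun h i
        simpa only [hnx, Function.update_of_ne hij] using this
    have two : ∀ q q', q ≠ q' → multiUp 1 q = p → multiUp 1 q' = p →
        ¬ (multiBc B e q ∧ multiBc B e q') := fun q q' hne h h' hb => hp ⟨q, q', hne, h, h', hb.1, hb.2⟩
    have two' : ∀ q q', q ≠ q' → multiUp 1 (nx q) = Function.update p j (p j + 1) →
        multiUp 1 (nx q') = Function.update p j (p j + 1) →
        ¬ (multiBc B e (nx q) ∧ multiBc B e (nx q')) := fun q q' hne h h' hb =>
      hp' ⟨nx q, nx q', fun hc => hne (hnxinj q q' hc), h, h', hb.1, hb.2⟩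
    have hex : ∃ q : Fin d → ℕ, ¬ multiBc B e q ∧ ¬ multiBc B e (nx q) ∧
        multiUp 1 q = p ∧ multiUp 1 (nx q) = Function.update p j (p j + 1) := by
      have t01 := two q0 q1 n01 f0.1 f1.1
      have t02 := two q0 q2 n02 f0.1 f2.1
      have t12 := two q1 q2 n12 f1.1 f2.1
      have t01' := two' q0 q1 n01 f0.2 f1.2
      have t02' := two' q0 q2 n02 f0.2 f2.2
      have t12' := two' q1 q2 n12 f1.2 f2.2
      rcases multi_pig _ _ _ _ _ _ t01 t02 t12 t01' t02' t12' with h | h | h
      · exact ⟨q0, h.1, h.2, f0.1, f0.2⟩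
      · exact ⟨q1, h.1, h.2, f1.1, f1.2⟩
      · exact ⟨q2, h.1, h.2, f2.1, f2.2⟩
    obtain ⟨q, hq1', hq2', hq3, hq4⟩ := hex
    obtain ⟨t, ht1, ht2, ht3, ht4⟩ := ih q hq1' hq2'
    refine ⟨t, ?_, ?_, ?_, ?_⟩
    · rw [multi_up_succ, ht1, hq3]
    · refine multi_fine_succ B e t ht2 ?_
      rw [multi_up_succ, ht1, hq3]; exact hp
    · rw [multi_up_succ, ht3]; exact hq4
    · refine multi_fine_succ B e _ ht4 ?_
      rw [multi_up_succ, ht3]
      have : multiUp 1 (Function.update q j (q j + 1)) = Function.update p j (p j + 1) := hq4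
      rw [this]; exact hp'

/-- good cells contain fine blocks -/
private theorem multi_exists (hd : 3 ≤ d) (B : (Fin d → ℕ) → Prop) (e : ℕ) :
    ∀ p : Fin d → ℕ, ¬ multiBc B e p → ∃ t : Fin d → ℕ, multiUp e t = p ∧ multiFine B e t := by
  induction e with
  | zero =>
    intro p hp
    refine ⟨p, multi_up_zero p, ?_⟩
    intro e' he'
    have : e' = 0 := by omega
    subst this
    rw [multi_up_zero]; exact hp
  | succ e ih =>
    intro p hp
    set q0 : Fin d → ℕ := fun i => 2 * p i with hq0
    set j : Fin d := ⟨0, by omega⟩ with hj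
    set q1 : Fin d → ℕ := Function.update q0 j (2 * p j + 1) with hq1
    have h0 : multiUp 1 q0 = p := by
      funext i
      simp [multiUp, hq0]
    have h1 : multiUp 1 q1 = p := by
      funext i
      by_cases hij : i = j
      · subst hij
        simp only [multiUp, pow_one, hq1, Function.update_self]; omega
      · simp only [multiUp, pow_one, hq1, Function.update_of_ne hij, hq0]; omega
    have hne : q0 ≠ q1 := by
      intro h
      have := congrFun h j
      simp only [hq1, Function.update_self, hq0] at this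
      omega
    have hq : ∃ q, ¬ multiBc B e q ∧ multiUp 1 q = p := by
      by_cases b0 : multiBc B e q0
      · by_cases b1 : multiBc B e q1
        · exact absurd ⟨q0, q1, hne, h0, h1, b0, b1⟩ hp
        · exact ⟨q1, b1, h1⟩
      · exact ⟨q0, b0, h0⟩
    obtain ⟨q, hqb, hqp⟩ := hq
    obtain ⟨t, ht1, ht2⟩ := ih q hqb
    refine ⟨t, ?_, ?_⟩
    · rw [multi_up_succ, ht1, hqp]
    · refine multi_fine_succ B e t ht2 ?_
      rw [multi_up_succ, ht1, hqp]; exact hp

/-- fine blocks of a cell have the same label -/
private theorem multi_label (hd : 3 ≤ d) (B L : (Fin d → ℕ) → Prop)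
    (h2 : ∀ s : Fin d → ℕ, (∀ i, s i < 2 ^ k) → ∀ j, s j + 1 < 2 ^ k → ¬ B s →
      ¬ B (Function.update s j (s j + 1)) → (L s ↔ L (Function.update s j (s j + 1)))) (e : ℕ) :
    ∀ s : Fin d → ℕ, (∀ i, (s i + 1) * 2 ^ e ≤ 2 ^ k) → ∀ t t', multiUp e t = s → multiUp e t' = s →
      multiFine B e t → multiFine B e t' → (L t ↔ L t') := by
  induction e with
  | zero =>
    intro s _ t t' ht ht' _ _
    rw [multi_up_zero] at ht ht'
    rw [ht, ht']
  | succ e ih =>
    intro s hs t t' ht ht' hf hf'
    have hsb : ¬ multiBc B (e + 1) s := by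
      have := hf (e + 1) le_rfl
      rwa [ht] at this
    -- subcells are inside the box
    have hbox : ∀ q : Fin d → ℕ, multiUp 1 q = s → ∀ i, (q i + 1) * 2 ^ e ≤ 2 ^ k := by
      intro q hq i
      have h1 : q i / 2 = s i := by
        have := congrFun hq i
        simpa [multiUp] using this
      have h3 : q i + 1 ≤ (s i + 1) * 2 := by omega
      calc (q i + 1) * 2 ^ e ≤ ((s i + 1) * 2) * 2 ^ e := Nat.mul_le_mul_right _ h3
        _ = (s i + 1) * 2 ^ (e + 1) := by rw [pow_succ]; ring
        _ ≤ 2 ^ k := hs i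
    have hin : ∀ (q u : Fin d → ℕ), (∀ i, (q i + 1) * 2 ^ e ≤ 2 ^ k) → multiUp e u = q →
        ∀ i, u i < 2 ^ k := by
      intro q u hq hu i
      have h1 : u i / 2 ^ e = q i := congrFun hu i
      have h3 : u i < (u i / 2 ^ e + 1) * 2 ^ e := by
        have := Nat.lt_mul_div_succ (u i) (show 0 < 2 ^ e by positivity)
        rw [mul_comm]
        exact this
      rw [h1] at h3
      exact lt_of_lt_of_le h3 (hq i)
    -- adjacent subcells
    have hadj : ∀ (q : Fin d → ℕ) (j : Fin d), ¬ multiBc B e q →
        ¬ multiBc B e (Function.update q j (q j + 1)) → multiUp 1 q = s →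
        multiUp 1 (Function.update q j (q j + 1)) = s →
        ∀ u u', multiUp e u = q → multiUp e u' = Function.update q j (q j + 1) →
        multiFine B e u → multiFine B e u' → (L u ↔ L u') := by
      intro q j hq hq' hqs hqs' u u' hu hu' hfu hfu'
      obtain ⟨v, hv1, hv2, hv3, hv4⟩ := multi_adj hd B j e q hq hq'
      have hb1 := hbox q hqs
      have hb2 := hbox _ hqs'
      have k1 := ih q hb1 u v hu hv1 hfu hv2
      have k2 := ih _ hb2 u' _ hu' hv3 hfu' hv4
      have k3 := h2 v (hin q v hb1 hv1) j
        (by have := hin _ _ hb2 hv3 j; simpa using this)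
        (by have := hv2 0 (by omega); rwa [multi_up_zero] at this)
        (by have := hv4 0 (by omega); rwa [multi_up_zero] at this)
      exact k1.trans (k3.trans k2.symm)
    -- cells which differ in one coordinate
    have hone : ∀ (q q' : Fin d → ℕ) (j : Fin d), q' = Function.update q j (q' j) →
        ¬ multiBc B e q → ¬ multiBc B e q' → multiUp 1 q = s → multiUp 1 q' = s →
        ∀ u u', multiUp e u = q → multiUp e u' = q' →
        multiFine B e u → multiFine B e u' → (L u ↔ L u') := by
      intro q q' j hqq hq hq' hqs hqs' u u' hu hu' hfu hfu'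
      have a1 : q j / 2 = s j := by
        have := congrFun hqs j
        simpa [multiUp] using this
      have a2 : q' j / 2 = s j := by
        have := congrFun hqs' j
        simpa [multiUp] using this
      rcases lt_trichotomy (q j) (q' j) with h | h | h
      · have hj : q' j = q j + 1 := by omega
        rw [hj] at hqq
        rw [hqq] at hq' hqs' hu'
        exact hadj q j hq hq' hqs hqs' u u' hu hu' hfu hfu'
      · have hj : q' = q := by
          rw [hqq, ← h, Function.update_eq_self]
        rw [hj] at hu'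
        exact ih q (hbox q hqs) u u' hu hu' hfu hfu'
      · have hj : q j = q' j + 1 := by omega
        have hqq' : q = Function.update q' j (q' j + 1) := by
          rw [← hj, hqq]
          funext i
          by_cases hij : i = j
          · subst hij; simp
          · simp [Function.update_of_ne hij]
        rw [hqq'] at hq hqs hu
        exact (hadj q' j hq' hq hqs' hqs u' u hu' hu hfu' hfu).symm
    -- Hamming induction
    have hham : ∀ (m : ℕ) (q q' : Fin d → ℕ), (univ.filter fun i => q i ≠ q' i).card ≤ m →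
        ¬ multiBc B e q → ¬ multiBc B e q' → multiUp 1 q = s → multiUp 1 q' = s →
        ∀ u u', multiUp e u = q → multiUp e u' = q' →
        multiFine B e u → multiFine B e u' → (L u ↔ L u') := by
      intro m
      induction m with
      | zero =>
        intro q q' hm hq hq' hqs hqs' u u' hu hu' hfu hfu'
        have h0 : (univ.filter fun i => q i ≠ q' i) = ∅ := Finset.card_eq_zero.1 (by omega)
        have h1 : q = q' := by
          funext i
          by_contra hne
          have : i ∈ (univ.filter fun i => q i ≠ q' i) := by simp [hne]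
          rw [h0] at this
          simp at this
        rw [← h1] at hu'
        exact ih q (hbox q hqs) u u' hu hu' hfu hfu'
      | succ m ihm =>
        intro q q' hm hq hq' hqs hqs' u u' hu hu' hfu hfu'
        by_cases hc : (univ.filter fun i => q i ≠ q' i).card ≤ 1
        · have hne : Nonempty (Fin d) := ⟨⟨0, by omega⟩⟩
          rw [Finset.card_le_one_iff_subset_singleton] at hc
          obtain ⟨j, hj⟩ := hc
          refine hone q q' j ?_ hq hq' hqs hqs' u u' hu hu' hfu hfu'
          funext i
          by_cases hij : i = j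
          · subst hij; simp
          · rw [Function.update_of_ne hij]
            by_contra hne
            have : i ∈ ({j} : Finset (Fin d)) := hj (by simp [Ne.symm hne])
            exact hij (Finset.mem_singleton.1 this)
        · obtain ⟨j1, hj1, j2, hj2, hj12⟩ := Finset.one_lt_card.1 (not_le.1 hc)
          rw [Finset.mem_filter] at hj1 hj2
          have step : ∀ j, q j ≠ q' j → ¬ multiBc B e (Function.update q j (q' j)) →
              (L u ↔ L u') := by
            intro j hjne hb
            set q1 := Function.update q j (q' j) with hq1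
            have hq1s : multiUp 1 q1 = s := by
              funext i
              by_cases hij : i = j
              · subst hij
                have := congrFun hqs' i
                simpa [multiUp, hq1] using this
              · have := congrFun hqs i
                simpa [multiUp, hq1, Function.update_of_ne hij] using this
            obtain ⟨v, hv1, hv2⟩ := multi_exists hd B e q1 hb
            have k1 := hone q q1 j (by simp [hq1]) hq hb hqs hq1s u v hu hv1 hfu hv2
            have k2 := ihm q1 q' (by
              have hsub : (univ.filter fun i => q1 i ≠ q' i) ⊆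
                  (univ.filter fun i => q i ≠ q' i).erase j := by
                intro i hi
                rw [Finset.mem_filter] at hi
                by_cases hij : i = j
                · subst hij
                  exact absurd (by simp [hq1]) hi.2
                · rw [Finset.mem_erase, Finset.mem_filter]
                  refine ⟨hij, Finset.mem_univ _, ?_⟩
                  have := hi.2
                  rwa [hq1, Function.update_of_ne hij] at this
              have h3 := Finset.card_le_card hsub
              rw [Finset.card_erase_of_mem (by simp [hjne])] at h3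
              omega) hb hq' hq1s hqs' v u' hv1 hu' hv2 hfu'
            exact k1.trans k2
          by_cases b1 : multiBc B e (Function.update q j1 (q' j1))
          · refine step j2 hj2.2 fun b2 => hsb ⟨_, _, ?_, ?_, ?_, b1, b2⟩
            · intro hc'
              have := congrFun hc' j1
              rw [Function.update_self, Function.update_of_ne hj12] at this
              exact hj1.2 this.symm
            · funext i
              by_cases hij : i = j1
              · subst hij
                have := congrFun hqs' i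
                simpa [multiUp] using this
              · have := congrFun hqs i
                simpa [multiUp, Function.update_of_ne hij] using this
            · funext i
              by_cases hij : i = j2
              · subst hij
                have := congrFun hqs' i
                simpa [multiUp] using this
              · have := congrFun hqs i
                simpa [multiUp, Function.update_of_ne hij] using this
          · exact step j1 hj1.2 b1
    have ht2 : multiUp 1 (multiUp e t) = s := by rw [← multi_up_succ, ht]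
    have ht2' : multiUp 1 (multiUp e t') = s := by rw [← multi_up_succ, ht']
    exact hham _ (multiUp e t) (multiUp e t') le_rfl (hf e (by omega)) (hf' e (by omega)) ht2 ht2'
      t t' rfl rfl (multi_fine_mono B e t hf) (multi_fine_mono B e t' hf')

/-- witness sets -/
private theorem multi_witness (d : ℕ) (e : ℕ) : ∀ s : Fin d → ℕ, ∃ W : Finset (Finset (Fin d → ℕ)),
    (∀ A ∈ W, A.card = 2 ^ e ∧ ∀ t ∈ A, multiUp e t = s) ∧ W.card ≤ (4 ^ d) ^ (2 ^ e - 1) ∧
    ∀ B : (Fin d → ℕ) → Prop, multiBc B e s → ∃ A ∈ W, ∀ t ∈ A, B t := by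
  classical
  induction e with
  | zero =>
    intro s
    refine ⟨{{s}}, ?_, by simp, ?_⟩
    · intro A hA
      rw [Finset.mem_singleton] at hA
      subst hA
      refine ⟨by simp, fun t ht => ?_⟩
      rw [Finset.mem_singleton] at ht
      rw [ht, multi_up_zero]
    · intro B hB
      refine ⟨{s}, by simp, fun t ht => ?_⟩
      rw [Finset.mem_singleton] at ht
      rw [ht]; exact hB
  | succ e ih =>
    choose W hW1 hW2 hW3 using ih
    intro s
    set sub : Finset (Fin d → ℕ) := Fintype.piFinset (fun i => ({2 * s i, 2 * s i + 1} : Finset ℕ))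
      with hsub
    have hsubc : sub.card = 2 ^ d := by
      rw [hsub, Fintype.card_piFinset]
      have : ∀ i, ({2 * s i, 2 * s i + 1} : Finset ℕ).card = 2 := by
        intro i
        rw [Finset.card_pair (by omega)]
      simp [this]
    have hsubm : ∀ q : Fin d → ℕ, multiUp 1 q = s ↔ q ∈ sub := by
      intro q
      rw [hsub, Fintype.mem_piFinset, funext_iff]
      refine forall_congr' fun i => ?_
      simp only [multiUp, pow_one, Finset.mem_insert, Finset.mem_singleton]
      omega
    refine ⟨((sub ×ˢ sub).filter fun p => p.1 ≠ p.2).biUnion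
      fun p => (W p.1 ×ˢ W p.2).image fun AB => AB.1 ∪ AB.2, ?_, ?_, ?_⟩
    · intro A hA
      rw [Finset.mem_biUnion] at hA
      obtain ⟨p, hp, hA⟩ := hA
      rw [Finset.mem_filter, Finset.mem_product] at hp
      rw [Finset.mem_image] at hA
      obtain ⟨AB, hAB, rfl⟩ := hA
      rw [Finset.mem_product] at hAB
      have a1 := hW1 p.1 AB.1 hAB.1
      have a2 := hW1 p.2 AB.2 hAB.2
      constructor
      · rw [Finset.card_union_of_disjoint, a1.1, a2.1, pow_succ]
        · ring
        · rw [Finset.disjoint_left]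
          intro t h1 h2'
          apply hp.2
          rw [← a1.2 t h1, ← a2.2 t h2']
      · intro t ht
        rw [multi_up_succ]
        rw [Finset.mem_union] at ht
        rcases ht with ht | ht
        · rw [a1.2 t ht]; exact (hsubm _).2 hp.1.1
        · rw [a2.2 t ht]; exact (hsubm _).2 hp.1.2
    · refine Finset.card_biUnion_le.trans ?_
      have hterm : ∀ p ∈ (sub ×ˢ sub).filter (fun p => p.1 ≠ p.2),
          ((W p.1 ×ˢ W p.2).image fun AB => AB.1 ∪ AB.2).card ≤
            (4 ^ d) ^ (2 ^ e - 1) * (4 ^ d) ^ (2 ^ e - 1) := by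
        intro p _
        refine Finset.card_image_le.trans ?_
        rw [Finset.card_product]
        exact Nat.mul_le_mul (hW2 _) (hW2 _)
      refine (Finset.sum_le_card_nsmul _ _ _ hterm).trans ?_
      rw [smul_eq_mul]
      have hcard : ((sub ×ˢ sub).filter fun p => p.1 ≠ p.2).card ≤ 4 ^ d := by
        refine (Finset.card_filter_le _ _).trans ?_
        rw [Finset.card_product, hsubc, ← mul_pow]
        norm_num
      refine (Nat.mul_le_mul_right _ hcard).trans ?_
      have h1 : 2 ^ (e + 1) - 1 = 1 + ((2 ^ e - 1) + (2 ^ e - 1)) := by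
        have : 1 ≤ 2 ^ e := Nat.one_le_two_pow
        rw [pow_succ]; omega
      rw [h1, pow_add, pow_one, pow_add]
    · intro B hB
      obtain ⟨s1, s2, hne, h1, h2, hb1, hb2⟩ := hB
      obtain ⟨A1, hA1, hA1'⟩ := hW3 s1 B hb1
      obtain ⟨A2, hA2, hA2'⟩ := hW3 s2 B hb2
      refine ⟨A1 ∪ A2, ?_, ?_⟩
      · rw [Finset.mem_biUnion]
        refine ⟨(s1, s2), ?_, ?_⟩
        · rw [Finset.mem_filter, Finset.mem_product]
          exact ⟨⟨(hsubm _).1 h1, (hsubm _).1 h2⟩, hne⟩
        · rw [Finset.mem_image]
          exact ⟨(A1, A2), Finset.mem_product.2 ⟨hA1, hA2⟩, rfl⟩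
      · intro t ht
        rw [Finset.mem_union] at ht
        rcases ht with ht | ht
        · exact hA1' t ht
        · exact hA2' t ht

open scoped Classical in
/-- probability of a bad cell -/
private theorem multi_prob {Ω : Type} (S : Finset Ω) (Bad : Ω → (Fin d → ℕ) → Prop) (r : ℝ)
    (hr : 0 ≤ r)
    (h1 : ∀ Γ : Finset (Fin d → ℕ), (∀ s ∈ Γ, ∀ i, s i < 2 ^ k) →
      ((S.filter fun ω => ∀ t ∈ Γ, Bad ω t).card : ℝ) ≤ S.card * r ^ Γ.card)
    (e : ℕ) (s : Fin d → ℕ) (hs : ∀ i, (s i + 1) * 2 ^ e ≤ 2 ^ k) :
    ((S.filter fun ω => multiBc (Bad ω) e s).card : ℝ) ≤ S.card * (4 ^ d * r) ^ (2 ^ e) := by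
  obtain ⟨W, hW1, hW2, hW3⟩ := multi_witness d e s
  have hsub : (S.filter fun ω => multiBc (Bad ω) e s) ⊆
      W.biUnion fun A => S.filter fun ω => ∀ t ∈ A, Bad ω t := by
    intro ω hω
    rw [Finset.mem_filter] at hω
    obtain ⟨A, hA, hA'⟩ := hW3 (Bad ω) hω.2
    rw [Finset.mem_biUnion]
    exact ⟨A, hA, Finset.mem_filter.2 ⟨hω.1, hA'⟩⟩
  have h2 : ((S.filter fun ω => multiBc (Bad ω) e s).card : ℝ) ≤
      ∑ A ∈ W, ((S.filter fun ω => ∀ t ∈ A, Bad ω t).card : ℝ) := by
    have := (Finset.card_le_card hsub).trans Finset.card_biUnion_le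
    exact_mod_cast this
  refine h2.trans ?_
  have h3 : ∀ A ∈ W, ((S.filter fun ω => ∀ t ∈ A, Bad ω t).card : ℝ) ≤ S.card * r ^ (2 ^ e) := by
    intro A hA
    have a1 := hW1 A hA
    have := h1 A (by
      intro u hu i
      have b1 : u i / 2 ^ e = s i := congrFun (a1.2 u hu) i
      have b3 : u i < (u i / 2 ^ e + 1) * 2 ^ e := by
        have := Nat.lt_mul_div_succ (u i) (show 0 < 2 ^ e by positivity)
        rw [mul_comm]
        exact this
      rw [b1] at b3
      exact lt_of_lt_of_le b3 (hs i))
    rwa [a1.1] at this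
  refine (Finset.sum_le_sum h3).trans ?_
  rw [Finset.sum_const, nsmul_eq_mul, mul_pow]
  have h4 : (W.card : ℝ) ≤ (4 ^ d) ^ (2 ^ e) := by
    have h5 : W.card ≤ (4 ^ d) ^ (2 ^ e) :=
      hW2.trans (Nat.pow_le_pow_right (by positivity) (Nat.sub_le _ _))
    exact_mod_cast h5
  have h6 : (0 : ℝ) ≤ S.card * r ^ (2 ^ e) := by positivity
  calc (W.card : ℝ) * (S.card * r ^ (2 ^ e)) ≤ (4 ^ d) ^ (2 ^ e) * (S.card * r ^ (2 ^ e)) :=
        mul_le_mul_of_nonneg_right h4 h6
    _ = _ := by ring

private theorem multi_geom (x : ℝ) (hx : 0 ≤ x) (hx1 : x ≤ 1 / 2) (n : ℕ) :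
    ∑ e ∈ Finset.range n, x ^ (2 ^ e) ≤ 2 * x := by
  have h1 : ∀ e, x ^ (2 ^ e) ≤ x * (1 / 2) ^ e := by
    intro e
    have h2 : 2 ^ e = (2 ^ e - 1) + 1 := by
      have : 1 ≤ 2 ^ e := Nat.one_le_two_pow
      omega
    have h3 : e ≤ 2 ^ e - 1 := by
      have : e < 2 ^ e := Nat.lt_two_pow_self
      omega
    rw [h2, pow_succ, mul_comm]
    refine mul_le_mul_of_nonneg_left ?_ hx
    calc x ^ (2 ^ e - 1) ≤ (1 / 2 : ℝ) ^ (2 ^ e - 1) := pow_le_pow_left₀ hx hx1 _
      _ ≤ (1 / 2 : ℝ) ^ e := pow_le_pow_of_le_one (by norm_num) (by norm_num) h3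
  refine (Finset.sum_le_sum fun e _ => h1 e).trans ?_
  rw [← Finset.mul_sum, mul_comm]
  refine mul_le_mul_of_nonneg_right ?_ hx
  have h4 : ∑ e ∈ Finset.range n, (1 / 2 : ℝ) ^ e = 2 - 2 * (1 / 2) ^ n := by
    induction n with
    | zero => simp
    | succ n ih =>
      rw [Finset.sum_range_succ, ih, pow_succ]; ring
  rw [h4]
  have : (0 : ℝ) ≤ (1 / 2) ^ n := by positivity
  linarith

open scoped Classical in
theorem multi {Ω : Type} (S : Finset Ω) (hd : 3 ≤ d) (Bad : Ω → Blk d k → Prop)
    (lab : Ω → Blk d k → Prop) (r : ℝ) (hr : 0 ≤ r) (hr1 : 4 ^ d * r ≤ 1 / 2)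
    (h1 : ∀ Γ : Finset (Blk d k), ((S.filter fun ω => ∀ t ∈ Γ, Bad ω t).card : ℝ) ≤ S.card * r ^ Γ.card)
    (h2 : ∀ ω ∈ S, ∀ t j, (t j).val + 1 < 2 ^ k → ¬ Bad ω t → ¬ Bad ω (nxt t j) →
      (lab ω t ↔ lab ω (nxt t j)))
    (t t' : Blk d k) :
    ((S.filter fun ω => Bad ω t ∨ ¬ (lab ω t ↔ lab ω t')).card : ℝ) ≤ S.card * (4 * (4 ^ d * r)) := by
  have hne : NeZero (2 ^ k) := ⟨by positivity⟩
  set cs : (Fin d → ℕ) → Blk d k := fun s i => (s i : ZMod (2 ^ k)) with hcs
  have hinj : ∀ s s' : Fin d → ℕ, (∀ i, s i < 2 ^ k) → (∀ i, s' i < 2 ^ k) → cs s = cs s' →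
      s = s' := by
    intro s s' hs hs' h
    funext i
    have h3 : ((s i : ℕ) : ZMod (2 ^ k)) = ((s' i : ℕ) : ZMod (2 ^ k)) := congrFun h i
    have h4 := congrArg ZMod.val h3
    rwa [ZMod.val_natCast, ZMod.val_natCast, Nat.mod_eq_of_lt (hs i), Nat.mod_eq_of_lt (hs' i)] at h4
  set B : Ω → (Fin d → ℕ) → Prop := fun ω s => Bad ω (cs s) with hB
  set L : Ω → (Fin d → ℕ) → Prop := fun ω s => lab ω (cs s) with hL
  have h1' : ∀ Γ : Finset (Fin d → ℕ), (∀ s ∈ Γ, ∀ i, s i < 2 ^ k) →
      ((S.filter fun ω => ∀ t ∈ Γ, B ω t).card : ℝ) ≤ S.card * r ^ Γ.card := by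
    intro Γ hΓ
    have h3 := h1 (Γ.image cs)
    rw [Finset.card_image_of_injOn (fun a ha b hb hab => hinj a b (hΓ a ha) (hΓ b hb) hab)] at h3
    have h4 : (S.filter fun ω => ∀ t ∈ Γ, B ω t) = S.filter fun ω => ∀ t ∈ Γ.image cs, Bad ω t := by
      refine Finset.filter_congr fun ω _ => ?_
      simp only [Finset.mem_image, forall_exists_index, and_imp, forall_apply_eq_imp_iff₂, hB]
    rw [h4]
    exact h3
  have h2' : ∀ ω ∈ S, ∀ s : Fin d → ℕ, (∀ i, s i < 2 ^ k) → ∀ j, s j + 1 < 2 ^ k → ¬ B ω s →
      ¬ B ω (Function.update s j (s j + 1)) → (L ω s ↔ L ω (Function.update s j (s j + 1))) := by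
    intro ω hω s hs j hj hb hb'
    have hnx : cs (Function.update s j (s j + 1)) = nxt (cs s) j := by
      funext i
      by_cases hij : i = j
      · subst hij
        simp [hcs, nxt]
      · simp [hcs, nxt, Function.update_of_ne hij]
    simp only [hB, hL] at hb hb' ⊢
    rw [hnx] at hb' ⊢
    refine h2 ω hω (cs s) j ?_ hb hb'
    have : (cs s j).val = s j := by
      simp only [hcs]
      rw [ZMod.val_natCast, Nat.mod_eq_of_lt (hs j)]
    rw [this]
    exact hj
  set u : Fin d → ℕ := fun i => (t i).val with hu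
  set u' : Fin d → ℕ := fun i => (t' i).val with hu'
  have hcu : cs u = t := by
    funext i
    simp [hcs, hu]
  have hcu' : cs u' = t' := by
    funext i
    simp [hcs, hu']
  have hul : ∀ i, u i < 2 ^ k := fun i => ZMod.val_lt _
  have hul' : ∀ i, u' i < 2 ^ k := fun i => ZMod.val_lt _
  have hsub : (S.filter fun ω => Bad ω t ∨ ¬ (lab ω t ↔ lab ω t')) ⊆
      (Finset.range (k + 1)).biUnion fun e => (S.filter fun ω => multiBc (B ω) e (multiUp e u)) ∪
        (S.filter fun ω => multiBc (B ω) e (multiUp e u')) := by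
    intro ω hω
    rw [Finset.mem_filter] at hω
    rw [Finset.mem_biUnion]
    by_contra hcon
    have hf : multiFine (B ω) k u := by
      intro e he hb
      exact hcon ⟨e, Finset.mem_range.2 (by omega), Finset.mem_union_left _
        (Finset.mem_filter.2 ⟨hω.1, hb⟩)⟩
    have hf' : multiFine (B ω) k u' := by
      intro e he hb
      exact hcon ⟨e, Finset.mem_range.2 (by omega), Finset.mem_union_right _
        (Finset.mem_filter.2 ⟨hω.1, hb⟩)⟩
    rcases hω.2 with h | h
    · have := hf 0 (by omega)
      rw [multi_up_zero] at this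
      apply this
      change Bad ω (cs u)
      rw [hcu]; exact h
    · apply h
      have hz : ∀ v : Fin d → ℕ, (∀ i, v i < 2 ^ k) → multiUp k v = fun _ => 0 := by
        intro v hv
        funext i
        exact Nat.div_eq_of_lt (hv i)
      have := multi_label (k := k) hd (B ω) (L ω) (h2' ω hω.1) k (fun _ => 0) (by intro i; simp) u u'
        (hz u hul) (hz u' hul') hf hf'
      simp only [hL] at this
      rwa [hcu, hcu'] at this
  have hbox : ∀ v : Fin d → ℕ, (∀ i, v i < 2 ^ k) → ∀ e ∈ Finset.range (k + 1),
      ∀ i, (multiUp e v i + 1) * 2 ^ e ≤ 2 ^ k := by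
    intro v hv e he i
    have hek : e ≤ k := by
      have := Finset.mem_range.1 he
      omega
    have h3 : v i / 2 ^ e < 2 ^ (k - e) := by
      rw [Nat.div_lt_iff_lt_mul (by positivity), ← pow_add, Nat.sub_add_cancel hek]
      exact hv i
    calc (multiUp e v i + 1) * 2 ^ e ≤ 2 ^ (k - e) * 2 ^ e := Nat.mul_le_mul_right _ h3
      _ = 2 ^ k := by rw [← pow_add, Nat.sub_add_cancel hek]
  have hcard : ((S.filter fun ω => Bad ω t ∨ ¬ (lab ω t ↔ lab ω t')).card : ℝ) ≤
      ∑ e ∈ Finset.range (k + 1), (((S.filter fun ω => multiBc (B ω) e (multiUp e u)).card : ℝ) +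
        ((S.filter fun ω => multiBc (B ω) e (multiUp e u')).card : ℝ)) := by
    have h3 := (Finset.card_le_card hsub).trans Finset.card_biUnion_le
    have h4 : ∀ e ∈ Finset.range (k + 1), ((S.filter fun ω => multiBc (B ω) e (multiUp e u)) ∪
        (S.filter fun ω => multiBc (B ω) e (multiUp e u'))).card ≤
        (S.filter fun ω => multiBc (B ω) e (multiUp e u)).card +
        (S.filter fun ω => multiBc (B ω) e (multiUp e u')).card :=
      fun e _ => Finset.card_union_le _ _
    have h5 := h3.trans (Finset.sum_le_sum h4)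
    exact_mod_cast h5
  refine hcard.trans ?_
  have hx0 : 0 ≤ 4 ^ d * r := by positivity
  have hterm : ∀ e ∈ Finset.range (k + 1),
      (((S.filter fun ω => multiBc (B ω) e (multiUp e u)).card : ℝ) +
        ((S.filter fun ω => multiBc (B ω) e (multiUp e u')).card : ℝ)) ≤
      S.card * (2 * (4 ^ d * r) ^ (2 ^ e)) := by
    intro e he
    have k1 := multi_prob (k := k) S B r hr h1' e (multiUp e u) (hbox u hul e he)
    have k2 := multi_prob (k := k) S B r hr h1' e (multiUp e u') (hbox u' hul' e he)
    linarith
  refine (Finset.sum_le_sum hterm).trans ?_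
  rw [← Finset.mul_sum, ← Finset.mul_sum]
  refine mul_le_mul_of_nonneg_left ?_ (Nat.cast_nonneg _)
  have := multi_geom (4 ^ d * r) hx0 hr1 (k + 1)
  linarith

end Pool.Agent.LO
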