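import Pool.Agent.Lib_MP_2c424f_lo.Refl

/-!
# Reflection positivity (piece RP)

Planes: the sites with `x j = 2 α` and `x j = 2 α + 2^k` (fixed points of `rs j α`).  Left closed half:
`(x j - 2 α).val ≤ 2^k`; right closed half: `x j = 2 α` or `2^k ≤ (x j - 2 α).val`.  A colouring `f` is
the gluing of two `rs`-symmetric colourings `f₁` (equal to `f` on the left half), `f₂` (on the right half)
which agree on the planes.  So `cE E Γ = ∑_h A h * B h` over the colourings `h` of the planes, with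
`∑ A^2 = cE E (syL Γ)`, `∑ B^2 = cE E (syR Γ)`.
-/

set_option autoImplicit false

open Finset

namespace Pool.Agent.LO

variable {d k q : ℕ}

/-- the distance from the first plane -/
private def rpV (j : Fin d) (α : ZMod (2 ^ k)) (x : Site d (k + 1)) : ℕ :=
  (x j - ((2 * α.val : ℕ) : ZMod (2 ^ (k + 1)))).val

private def rpL (j : Fin d) (α : ZMod (2 ^ k)) (x : Site d (k + 1)) : Prop := rpV j α x ≤ 2 ^ k
private def rpR (j : Fin d) (α : ZMod (2 ^ k)) (x : Site d (k + 1)) : Prop :=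
  rpV j α x = 0 ∨ 2 ^ k ≤ rpV j α x

private theorem rpV_lt (j : Fin d) (α : ZMod (2 ^ k)) (x : Site d (k + 1)) :
    rpV j α x < 2 ^ (k + 1) := ZMod.val_lt _

private theorem rp_or (j : Fin d) (α : ZMod (2 ^ k)) (x : Site d (k + 1)) :
    rpL j α x ∨ rpR j α x := by
  unfold rpL rpR
  omega

private theorem rpV_rs (hk : 1 ≤ k) (j : Fin d) (α : ZMod (2 ^ k)) (x : Site d (k + 1)) :
    rpV j α (rs j α x) = if rpV j α x = 0 then 0 else 2 ^ (k + 1) - rpV j α x :=
  rs_half hk j α x

private theorem rpL_rs (hk : 1 ≤ k) (j : Fin d) (α : ZMod (2 ^ k)) (x : Site d (k + 1))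
    (h : rpR j α x) : rpL j α (rs j α x) := by
  unfold rpL
  unfold rpR at h
  rw [rpV_rs hk]
  have h1 := rpV_lt j α x
  rw [pow_succ] at h1 ⊢
  split_ifs <;> omega

private theorem rpR_rs (hk : 1 ≤ k) (j : Fin d) (α : ZMod (2 ^ k)) (x : Site d (k + 1))
    (h : rpL j α x) : rpR j α (rs j α x) := by
  unfold rpR
  unfold rpL at h
  rw [rpV_rs hk]
  have h1 := rpV_lt j α x
  rw [pow_succ] at h1 ⊢
  split_ifs <;> omega

private theorem rp_fix (hk : 1 ≤ k) (j : Fin d) (α : ZMod (2 ^ k)) (x : Site d (k + 1))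
    (h : rpL j α x) (h' : rpR j α x) : rs j α x = x := by
  have h1 : rpV j α (rs j α x) = rpV j α x := by
    rw [rpV_rs hk]
    unfold rpL at h
    unfold rpR at h'
    have h2 : 2 ^ (k + 1) = 2 * 2 ^ k := by rw [pow_succ]; ring
    rw [h2]
    split_ifs <;> omega
  have h2 : (rs j α x) j = x j := by
    have := ZMod.val_injective (2 ^ (k + 1)) h1
    exact sub_left_injective this
  funext i
  by_cases hij : i = j
  · subst hij; exact h2
  · unfold rs
    rw [Function.update_of_ne hij]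

open scoped Classical in
/-- symmetrisation of the left half -/
private noncomputable def syfL (j : Fin d) (α : ZMod (2 ^ k)) (f : Site d (k + 1) → Fin q) :
    Site d (k + 1) → Fin q := fun x => if rpL j α x then f x else f (rs j α x)

open scoped Classical in
/-- symmetrisation of the right half -/
private noncomputable def syfR (j : Fin d) (α : ZMod (2 ^ k)) (f : Site d (k + 1) → Fin q) :
    Site d (k + 1) → Fin q := fun x => if rpR j α x then f x else f (rs j α x)

private theorem syfL_of_L {j : Fin d} {α : ZMod (2 ^ k)} {f : Site d (k + 1) → Fin q}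
    {x : Site d (k + 1)} (h : rpL j α x) : syfL j α f x = f x := if_pos h

private theorem syfR_of_R {j : Fin d} {α : ZMod (2 ^ k)} {f : Site d (k + 1) → Fin q}
    {x : Site d (k + 1)} (h : rpR j α x) : syfR j α f x = f x := if_pos h

private theorem syfL_of_R (hk : 1 ≤ k) {j : Fin d} {α : ZMod (2 ^ k)}
    {f : Site d (k + 1) → Fin q} {x : Site d (k + 1)} (h : rpR j α x) :
    syfL j α f x = f (rs j α x) := by
  by_cases hL : rpL j α x
  · rw [syfL_of_L hL, rp_fix hk j α x hL h]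
  · exact if_neg hL

private theorem syfR_of_L (hk : 1 ≤ k) {j : Fin d} {α : ZMod (2 ^ k)}
    {f : Site d (k + 1) → Fin q} {x : Site d (k + 1)} (h : rpL j α x) :
    syfR j α f x = f (rs j α x) := by
  by_cases hR : rpR j α x
  · rw [syfR_of_R hR, rp_fix hk j α x h hR]
  · exact if_neg hR

private theorem syfL_sym (hk : 1 ≤ k) (j : Fin d) (α : ZMod (2 ^ k))
    (f : Site d (k + 1) → Fin q) (x : Site d (k + 1)) :
    syfL j α f (rs j α x) = syfL j α f x := by
  rcases rp_or j α x with h | h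
  · rw [syfL_of_R hk (rpR_rs hk j α x h), rs_rs, syfL_of_L h]
  · rw [syfL_of_R hk h, syfL_of_L (rpL_rs hk j α x h)]

private theorem syfR_sym (hk : 1 ≤ k) (j : Fin d) (α : ZMod (2 ^ k))
    (f : Site d (k + 1) → Fin q) (x : Site d (k + 1)) :
    syfR j α f (rs j α x) = syfR j α f x := by
  rcases rp_or j α x with h | h
  · rw [syfR_of_L hk h, syfR_of_R (rpR_rs hk j α x h)]
  · rw [syfR_of_L hk (rpL_rs hk j α x h), rs_rs, syfR_of_R h]

private theorem rp_step (hk : 1 ≤ k) (j : Fin d) (α : ZMod (2 ^ k)) (x : Site d (k + 1))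
    (σ : Stp d) : (rpL j α x ∧ rpL j α (x + sv σ)) ∨ (rpR j α x ∧ rpR j α (x + sv σ)) :=
  step_half hk j α x σ

private theorem rp_rs_ne {j : Fin d} {α : ZMod (2 ^ k)} {f : Site d (k + 1) → Fin q}
    (hf : Prp f) (x : Site d (k + 1)) (σ : Stp d) :
    f (rs j α (x + sv σ)) ≠ f (rs j α x) := by
  obtain ⟨i, β⟩ := σ
  rw [rs_step]
  exact hf _ _

private theorem syfL_prp (hk : 1 ≤ k) (j : Fin d) (α : ZMod (2 ^ k))
    {f : Site d (k + 1) → Fin q} (hf : Prp f) : Prp (syfL j α f) := by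
  intro x σ
  rcases rp_step hk j α x σ with ⟨h, h'⟩ | ⟨h, h'⟩
  · rw [syfL_of_L h, syfL_of_L h']
    exact hf x σ
  · rw [syfL_of_R hk h, syfL_of_R hk h']
    exact rp_rs_ne hf x σ

private theorem syfR_prp (hk : 1 ≤ k) (j : Fin d) (α : ZMod (2 ^ k))
    {f : Site d (k + 1) → Fin q} (hf : Prp f) : Prp (syfR j α f) := by
  intro x σ
  rcases rp_step hk j α x σ with ⟨h, h'⟩ | ⟨h, h'⟩
  · rw [syfR_of_L hk h, syfR_of_L hk h']
    exact rp_rs_ne hf x σ
  · rw [syfR_of_R h, syfR_of_R h']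
    exact hf x σ

open scoped Classical in
/-- gluing -/
private noncomputable def rpG (j : Fin d) (α : ZMod (2 ^ k)) (f g : Site d (k + 1) → Fin q) :
    Site d (k + 1) → Fin q := fun x => if rpL j α x then f x else g x

/-- the sites of the planes -/
private abbrev RpP (j : Fin d) (α : ZMod (2 ^ k)) : Type :=
  {x : Site d (k + 1) // rpL j α x ∧ rpR j α x}

/-- restriction to the planes -/
private def rpRes (j : Fin d) (α : ZMod (2 ^ k)) (f : Site d (k + 1) → Fin q) :
    RpP j α → Fin q := fun x => f x.1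

private theorem rpG_of_L {j : Fin d} {α : ZMod (2 ^ k)} {f g : Site d (k + 1) → Fin q}
    {x : Site d (k + 1)} (h : rpL j α x) : rpG j α f g x = f x := if_pos h

private theorem rpG_of_R {j : Fin d} {α : ZMod (2 ^ k)} {f g : Site d (k + 1) → Fin q}
    (hfg : rpRes j α f = rpRes j α g) {x : Site d (k + 1)} (h : rpR j α x) :
    rpG j α f g x = g x := by
  by_cases hL : rpL j α x
  · rw [rpG_of_L hL]
    exact congrFun hfg ⟨x, hL, h⟩
  · exact if_neg hL

private theorem rpG_prp (hk : 1 ≤ k) {j : Fin d} {α : ZMod (2 ^ k)}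
    {f g : Site d (k + 1) → Fin q} (hf : Prp f) (hg : Prp g)
    (hfg : rpRes j α f = rpRes j α g) : Prp (rpG j α f g) := by
  intro x σ
  rcases rp_step hk j α x σ with ⟨h, h'⟩ | ⟨h, h'⟩
  · rw [rpG_of_L h, rpG_of_L h']
    exact hf x σ
  · rw [rpG_of_R hfg h, rpG_of_R hfg h']
    exact hg x σ

private theorem syfL_rpG (hk : 1 ≤ k) {j : Fin d} {α : ZMod (2 ^ k)}
    {f g : Site d (k + 1) → Fin q} (hf : ∀ x, f (rs j α x) = f x) :
    syfL j α (rpG j α f g) = f := by
  funext x
  rcases rp_or j α x with h | h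
  · rw [syfL_of_L h, rpG_of_L h]
  · rw [syfL_of_R hk h, rpG_of_L (rpL_rs hk j α x h), hf]

private theorem syfR_rpG (hk : 1 ≤ k) {j : Fin d} {α : ZMod (2 ^ k)}
    {f g : Site d (k + 1) → Fin q} (hg : ∀ x, g (rs j α x) = g x)
    (hfg : rpRes j α f = rpRes j α g) :
    syfR j α (rpG j α f g) = g := by
  funext x
  rcases rp_or j α x with h | h
  · rw [syfR_of_L hk h, rpG_of_R hfg (rpR_rs hk j α x h), hg]
  · rw [syfR_of_R h, rpG_of_R hfg h]

private theorem rpG_syf {j : Fin d} {α : ZMod (2 ^ k)} (f : Site d (k + 1) → Fin q) :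
    rpG j α (syfL j α f) (syfR j α f) = f := by
  funext x
  by_cases h : rpL j α x
  · rw [rpG_of_L h, syfL_of_L h]
  · have h' : rpR j α x := (rp_or j α x).resolve_left h
    have : rpG j α (syfL j α f) (syfR j α f) x = syfR j α f x := if_neg h
    rw [this, syfR_of_R h']

open scoped Classical in
/-- symmetric proper colourings -/
private noncomputable def rpS (q : ℕ) (j : Fin d) (α : ZMod (2 ^ k)) :
    Finset (Site d (k + 1) → Fin q) :=
  (prps d (k + 1) q).filter fun f => ∀ x, f (rs j α x) = f x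

open scoped Classical in
private theorem rp_key (hk : 1 ≤ k) (j : Fin d) (α : ZMod (2 ^ k))
    (G₁ G₂ : (Site d (k + 1) → Fin q) → Prop) :
    ((prps d (k + 1) q).filter fun f => G₁ (syfL j α f) ∧ G₂ (syfR j α f)).card =
      ∑ h : RpP j α → Fin q, ((rpS q j α).filter fun f => G₁ f ∧ rpRes j α f = h).card *
        ((rpS q j α).filter fun f => G₂ f ∧ rpRes j α f = h).card := by
  have h1 : ((prps d (k + 1) q).filter fun f => G₁ (syfL j α f) ∧ G₂ (syfR j α f)).card =
      (((rpS q j α) ×ˢ (rpS q j α)).filter fun p =>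
        (G₁ p.1 ∧ G₂ p.2) ∧ rpRes j α p.1 = rpRes j α p.2).card := by
    apply Finset.card_nbij' (fun f => (syfL j α f, syfR j α f)) (fun p => rpG j α p.1 p.2)
    · intro f hf
      rw [mem_coe, mem_filter] at hf
      obtain ⟨hf1, hf2, hf3⟩ := hf
      have hp : Prp f := (mem_filter.1 hf1).2
      rw [mem_coe, mem_filter, mem_product]
      refine ⟨⟨?_, ?_⟩, ⟨hf2, hf3⟩, ?_⟩
      · exact mem_filter.2 ⟨mem_filter.2 ⟨mem_univ _, syfL_prp hk j α hp⟩, syfL_sym hk j α f⟩
      · exact mem_filter.2 ⟨mem_filter.2 ⟨mem_univ _, syfR_prp hk j α hp⟩, syfR_sym hk j α f⟩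
      · funext x
        show syfL j α f x.1 = syfR j α f x.1
        rw [syfL_of_L x.2.1, syfR_of_R x.2.2]
    · intro p hp
      rw [mem_coe, mem_filter, mem_product] at hp
      obtain ⟨⟨hp1, hp2⟩, ⟨hp3, hp4⟩, hp5⟩ := hp
      have h1 := mem_filter.1 hp1
      have h2 := mem_filter.1 hp2
      have h1' : Prp p.1 := (mem_filter.1 h1.1).2
      have h2' : Prp p.2 := (mem_filter.1 h2.1).2
      rw [mem_coe, mem_filter]
      refine ⟨mem_filter.2 ⟨mem_univ _, rpG_prp hk h1' h2' hp5⟩, ?_, ?_⟩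
      · rw [syfL_rpG hk h1.2]; exact hp3
      · rw [syfR_rpG hk h2.2 hp5]; exact hp4
    · intro f _
      exact rpG_syf f
    · intro p hp
      rw [mem_coe, mem_filter, mem_product] at hp
      obtain ⟨⟨hp1, hp2⟩, ⟨hp3, hp4⟩, hp5⟩ := hp
      have h1 := mem_filter.1 hp1
      have h2 := mem_filter.1 hp2
      exact Prod.ext (syfL_rpG hk h1.2) (syfR_rpG hk h2.2 hp5)
  rw [h1, Finset.card_eq_sum_card_fiberwise (f := fun p => rpRes j α p.1)
    (t := (univ : Finset (RpP j α → Fin q))) (fun _ _ => mem_coe.2 (mem_univ _))]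
  apply Finset.sum_congr rfl
  intro h _
  rw [← Finset.card_product]
  congr 1
  ext p
  simp only [mem_filter, mem_product]
  constructor
  · rintro ⟨⟨⟨h1, h2⟩, ⟨h3, h4⟩, h5⟩, h6⟩
    exact ⟨⟨h1, h3, h6⟩, ⟨h2, h4, by rw [← h5]; exact h6⟩⟩
  · rintro ⟨⟨h1, h3, h6⟩, ⟨h2, h4, h7⟩⟩
    exact ⟨⟨⟨h1, h2⟩, ⟨h3, h4⟩, by rw [h6, h7]⟩, h6⟩

open scoped Classical in
/-- the counts of the fibres -/
private noncomputable def rpA (j : Fin d) (α : ZMod (2 ^ k))
    (G : (Site d (k + 1) → Fin q) → Prop) (h : RpP j α → Fin q) : ℝ :=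
  (((rpS q j α).filter fun f => G f ∧ rpRes j α f = h).card : ℝ)

open scoped Classical in
private theorem rp_key2 (hk : 1 ≤ k) (E : Blk d k → (Site d (k + 1) → Fin q) → Prop)
    (j : Fin d) (α : ZMod (2 ^ k)) (Γ' : Finset (Blk d k))
    (G G' : (Site d (k + 1) → Fin q) → Prop)
    (h : ∀ f, (∀ t ∈ Γ', E t f) ↔ G (syfL j α f) ∧ G' (syfR j α f)) :
    cE E Γ' = ∑ h : RpP j α → Fin q, rpA j α G h * rpA j α G' h := by
  have h1 := rp_key hk j α G G'
  unfold cE
  have h2 : ((prps d (k + 1) q).filter fun f => ∀ t ∈ Γ', E t f) =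
      ((prps d (k + 1) q).filter fun f => G (syfL j α f) ∧ G' (syfR j α f)) := by
    apply Finset.filter_congr
    intro f _
    exact h f
  rw [h2, h1]
  push_cast
  rfl

open scoped Classical in
theorem rp (hk : 1 ≤ k) (E : Blk d k → (Site d (k + 1) → Fin q) → Prop)
    (hloc : ∀ t f g, (∀ a b, f (pt t a b) = g (pt t a b)) → E t f → E t g)
    (hsym : ∀ j α t f, E t f → E (rb j α t) (fun x => f (rs j α x)))
    (j : Fin d) (α : ZMod (2 ^ k)) (Γ : Finset (Blk d k)) :
    cE E Γ ^ 2 ≤ cE E (syL j α Γ) * cE E (syR j α Γ) := by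
  set G₁ : (Site d (k + 1) → Fin q) → Prop := fun f => ∀ t ∈ Γ, lft j α t → E t f with hG₁
  set G₂ : (Site d (k + 1) → Fin q) → Prop := fun f => ∀ t ∈ Γ, ¬ lft j α t → E t f with hG₂
  -- locality
  have hL : ∀ t f, lft j α t → (E t f ↔ E t (syfL j α f)) := by
    intro t f ht
    have h1 : ∀ a b, f (pt t a b) = syfL j α f (pt t a b) := fun a b =>
      (syfL_of_L ((pt_half hk j α t a b).1 ht)).symm
    exact ⟨hloc t _ _ h1, hloc t _ _ fun a b => (h1 a b).symm⟩
  have hR : ∀ t f, ¬ lft j α t → (E t f ↔ E t (syfR j α f)) := by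
    intro t f ht
    have h1 : ∀ a b, f (pt t a b) = syfR j α f (pt t a b) := fun a b =>
      (syfR_of_R ((pt_half hk j α t a b).2 ht)).symm
    exact ⟨hloc t _ _ h1, hloc t _ _ fun a b => (h1 a b).symm⟩
  -- reflection of events of symmetric colourings
  have hS : ∀ t (g : Site d (k + 1) → Fin q), (∀ x, g (rs j α x) = g x) →
      (E (rb j α t) g ↔ E t g) := by
    intro t g hg
    have hg' : (fun x => g (rs j α x)) = g := funext hg
    constructor
    · intro h
      have := hsym j α _ _ h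
      rwa [hg', rb_rb] at this
    · intro h
      have := hsym j α _ _ h
      rwa [hg'] at this
  have e0 := rp_key2 hk E j α Γ G₁ G₂ (by
    intro f
    constructor
    · intro h
      exact ⟨fun t ht hl => (hL t f hl).1 (h t ht), fun t ht hl => (hR t f hl).1 (h t ht)⟩
    · rintro ⟨h1, h2⟩ t ht
      by_cases hl : lft j α t
      · exact (hL t f hl).2 (h1 t ht hl)
      · exact (hR t f hl).2 (h2 t ht hl))
  have e1 := rp_key2 hk E j α (syL j α Γ) G₁ G₁ (by
    intro f
    constructor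
    · intro h
      refine ⟨fun t ht hl => (hL t f hl).1 (h t ?_), fun t ht hl => ?_⟩
      · unfold syL
        exact mem_union_left _ (mem_filter.2 ⟨ht, hl⟩)
      · have h1 : E (rb j α t) f := h _ (by
          unfold syL
          exact mem_union_right _ (mem_image.2 ⟨t, mem_filter.2 ⟨ht, hl⟩, rfl⟩))
        have h2 : ¬ lft j α (rb j α t) := by
          rw [lft_rb hk]; exact not_not.2 hl
        exact (hS t _ (syfR_sym hk j α f)).1 ((hR _ f h2).1 h1)
    · rintro ⟨h1, h2⟩ t ht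
      unfold syL at ht
      rcases mem_union.1 ht with ht | ht
      · rw [mem_filter] at ht
        exact (hL t f ht.2).2 (h1 t ht.1 ht.2)
      · obtain ⟨t', ht', rfl⟩ := mem_image.1 ht
        rw [mem_filter] at ht'
        have h3 : ¬ lft j α (rb j α t') := by
          rw [lft_rb hk]; exact not_not.2 ht'.2
        exact (hR _ f h3).2 ((hS t' _ (syfR_sym hk j α f)).2 (h2 t' ht'.1 ht'.2)))
  have e2 := rp_key2 hk E j α (syR j α Γ) G₂ G₂ (by
    intro f
    constructor
    · intro h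
      refine ⟨fun t ht hl => ?_, fun t ht hl => (hR t f hl).1 (h t ?_)⟩
      · have h1 : E (rb j α t) f := h _ (by
          unfold syR
          exact mem_union_right _ (mem_image.2 ⟨t, mem_filter.2 ⟨ht, hl⟩, rfl⟩))
        have h2 : lft j α (rb j α t) := by
          rw [lft_rb hk]; exact hl
        exact (hS t _ (syfL_sym hk j α f)).1 ((hL _ f h2).1 h1)
      · unfold syR
        exact mem_union_left _ (mem_filter.2 ⟨ht, hl⟩)
    · rintro ⟨h1, h2⟩ t ht
      unfold syR at ht
      rcases mem_union.1 ht with ht | ht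
      · rw [mem_filter] at ht
        exact (hR t f ht.2).2 (h2 t ht.1 ht.2)
      · obtain ⟨t', ht', rfl⟩ := mem_image.1 ht
        rw [mem_filter] at ht'
        have h3 : lft j α (rb j α t') := by
          rw [lft_rb hk]; exact ht'.2
        exact (hL _ f h3).2 ((hS t' _ (syfL_sym hk j α f)).2 (h1 t' ht'.1 ht'.2)))
  rw [e0, e1, e2]
  have hcs := Finset.sum_mul_sq_le_sq_mul_sq (univ : Finset (RpP j α → Fin q))
    (rpA j α G₁) (rpA j α G₂)
  have h1 : ∑ h : RpP j α → Fin q, rpA j α G₁ h * rpA j α G₁ h = ∑ h, rpA j α G₁ h ^ 2 :=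
    Finset.sum_congr rfl fun _ _ => (sq _).symm
  have h2 : ∑ h : RpP j α → Fin q, rpA j α G₂ h * rpA j α G₂ h = ∑ h, rpA j α G₂ h ^ 2 :=
    Finset.sum_congr rfl fun _ _ => (sq _).symm
  rw [h1, h2]
  exact hcs

end Pool.Agent.LO
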