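import Pool.Agent.Lib_MP_2c424f_lo.DSum
import Pool.Agent.Lib_MP_2c424f_lo.RP
import Pool.Agent.Lib_MP_2c424f_lo.Multi

/-!
# Labels (piece LAB)
-/

set_option autoImplicit false

open Finset

namespace Pool.Agent.LO

variable {d k q : ℕ}

private theorem Lab_ite {P Q : Prop} (hP : Decidable P) (hQ : Decidable Q) (h : P ↔ Q) :
    (@ite ℝ P hP 1 0) = (@ite ℝ Q hQ 1 0) := by
  by_cases hp : P
  · rw [if_pos hp, if_pos (h.1 hp)]
  · rw [if_neg hp, if_neg (fun hq => hp (h.2 hq))]

private theorem Lab_val_loc (t : Blk d k) (f g : Site d (k + 1) → Fin q)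
    (h : ∀ a b, f (pt t a b) = g (pt t a b)) (a b : Bt d) (σ : Stp d) (hσ : alw a b σ) :
    f (pt t a b + sv σ) = g (pt t a b + sv σ) := by
  obtain ⟨a', b', e⟩ := pt_step t a b σ hσ
  rw [e]
  exact h a' b'

private theorem Lab_mb_loc (c : Fin q) (t : Blk d k) (f g : Site d (k + 1) → Fin q)
    (h : ∀ a b, f (pt t a b) = g (pt t a b)) : mb f t c = mb g t c := by
  unfold mb
  congr 1
  funext a b
  unfold zb
  refine Lab_ite _ _ ?_
  constructor
  · intro h1 σ hσ
    rw [← Lab_val_loc t f g h a b σ hσ]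
    exact h1 σ hσ
  · intro h1 σ hσ
    rw [Lab_val_loc t f g h a b σ hσ]
    exact h1 σ hσ

private theorem Lab_mj_loc (c : Fin q) (t : Blk d k) (j : Fin d) (f g : Site d (k + 1) → Fin q)
    (h : ∀ a b, f (pt t a b) = g (pt t a b)) : mj f t c j = mj g t c j := by
  unfold mj
  congr 1
  funext a b
  unfold zj
  refine Lab_ite _ _ ?_
  constructor
  · intro h1 σ hj hσ
    rw [← Lab_val_loc t f g h a b σ hσ]
    exact h1 σ hj hσ
  · intro h1 σ hj hσ
    rw [Lab_val_loc t f g h a b σ hσ]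
    exact h1 σ hj hσ

/-- badness depends on the block only -/
theorem bad_loc (c : Fin q) (t : Blk d k) (f g : Site d (k + 1) → Fin q)
    (h : ∀ a b, f (pt t a b) = g (pt t a b)) : bad c t f → bad c t g := by
  unfold bad lab1 lab0
  rw [Lab_mb_loc c t f g h]
  simp only [Lab_mj_loc c t _ f g h]
  exact id

/-! ### Reflections -/

/-- the reflected step -/
private def Lab_S (j : Fin d) (σ : Stp d) : Stp d := (σ.1, if σ.1 = j then !σ.2 else σ.2)

private theorem Lab_S_S (j : Fin d) (σ : Stp d) : Lab_S j (Lab_S j σ) = σ := by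
  obtain ⟨i, c⟩ := σ
  unfold Lab_S
  by_cases h : i = j <;> simp [h]

private theorem Lab_flp_self (a : Bt d) (j : Fin d) : flp a j j = !a j := by
  unfold flp
  exact Function.update_self _ _ _

private theorem Lab_flp_ne (a : Bt d) (i j : Fin d) (h : i ≠ j) : flp a j i = a i := by
  unfold flp
  exact Function.update_of_ne h _ _

private theorem Lab_flp_flp (a : Bt d) (j : Fin d) : flp (flp a j) j = a := by
  funext i
  by_cases h : i = j
  · subst h
    rw [Lab_flp_self, Lab_flp_self, Bool.not_not]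
  · rw [Lab_flp_ne _ _ _ h, Lab_flp_ne _ _ _ h]

private theorem Lab_alw (j : Fin d) (a b : Bt d) (σ : Stp d) :
    alw (flp a j) (flp b j) (Lab_S j σ) ↔ alw a b σ := by
  obtain ⟨i, c⟩ := σ
  unfold alw Lab_S
  by_cases h : i = j
  · subst h
    simp only [if_true, Lab_flp_self]
    cases c <;> cases a i <;> cases b i <;> simp
  · simp only [if_neg h, Lab_flp_ne _ _ _ h]

private theorem Lab_od (j : Fin d) (a b : Bt d) : od (flp a j) (flp b j) ↔ od a b := by
  unfold od
  have h : (univ.filter fun i => flp a j i ≠ flp b j i) = univ.filter fun i => a i ≠ b i := by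
    apply Finset.filter_congr
    intro i _
    by_cases hi : i = j
    · subst hi
      rw [Lab_flp_self, Lab_flp_self]
      cases a i <;> cases b i <;> simp
    · rw [Lab_flp_ne _ _ _ hi, Lab_flp_ne _ _ _ hi]
  rw [h]

private theorem Lab_EB (j : Fin d) (F G : Bt d → Bt d → ℝ)
    (h : ∀ a b, F a b = G (flp a j) (flp b j)) : EB F = EB G := by
  classical
  unfold EB
  have hinv : Function.Involutive (fun a : Bt d => flp a j) := fun a => Lab_flp_flp a j
  have e : ∀ H : Bt d → ℝ, ∑ a, H (flp a j) = ∑ a, H a := fun H =>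
    Equiv.sum_comp hinv.toPerm H
  congr 2
  rw [← e (fun a => ∑ b, if od a b then G a b else 0)]
  refine Finset.sum_congr rfl fun a _ => ?_
  rw [← e (fun b => if od (flp a j) b then G (flp a j) b else 0)]
  refine Finset.sum_congr rfl fun b _ => ?_
  rw [h a b]
  by_cases ho : od a b
  · rw [if_pos ho, if_pos ((Lab_od j a b).2 ho)]
  · rw [if_neg ho, if_neg fun h' => ho ((Lab_od j a b).1 h')]

private theorem Lab_val_sym (j : Fin d) (α : ZMod (2 ^ k)) (t : Blk d k) (f : Site d (k + 1) → Fin q)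
    (a b : Bt d) (σ : Stp d) :
    f (rs j α (pt (rb j α t) a b + sv σ)) = f (pt t (flp a j) (flp b j) + sv (Lab_S j σ)) := by
  obtain ⟨i, c⟩ := σ
  rw [rs_step, rs_pt, rb_rb]
  rfl

private theorem Lab_mb_sym (c : Fin q) (j : Fin d) (α : ZMod (2 ^ k)) (t : Blk d k)
    (f : Site d (k + 1) → Fin q) : mb (fun x => f (rs j α x)) (rb j α t) c = mb f t c := by
  unfold mb
  refine Lab_EB j _ _ fun a b => ?_
  unfold zb
  refine Lab_ite _ _ ?_
  constructor
  · intro h σ hσ
    have h1 := h (Lab_S j σ) ((Lab_alw j a b _).1 (by rw [Lab_S_S]; exact hσ))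
    have h2 : f (rs j α (pt (rb j α t) a b + sv (Lab_S j σ))) ≠ c := h1
    rw [Lab_val_sym j α t f, Lab_S_S] at h2
    exact h2
  · intro h σ hσ
    show f (rs j α (pt (rb j α t) a b + sv σ)) ≠ c
    rw [Lab_val_sym j α t f]
    exact h _ ((Lab_alw j a b σ).2 hσ)

private theorem Lab_mj_sym (c : Fin q) (j : Fin d) (α : ZMod (2 ^ k)) (t : Blk d k) (i : Fin d)
    (f : Site d (k + 1) → Fin q) : mj (fun x => f (rs j α x)) (rb j α t) c i = mj f t c i := by
  unfold mj
  refine Lab_EB j _ _ fun a b => ?_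
  unfold zj
  refine Lab_ite _ _ ?_
  constructor
  · intro h σ hi hσ
    have h1 := h (Lab_S j σ) hi ((Lab_alw j a b _).1 (by rw [Lab_S_S]; exact hσ))
    have h2 : f (rs j α (pt (rb j α t) a b + sv (Lab_S j σ))) ≠ c := h1
    rw [Lab_val_sym j α t f, Lab_S_S] at h2
    exact h2
  · intro h σ hi hσ
    show f (rs j α (pt (rb j α t) a b + sv σ)) ≠ c
    rw [Lab_val_sym j α t f]
    exact h _ hi ((Lab_alw j a b σ).2 hσ)

/-- badness is reflection invariant -/
theorem bad_sym (c : Fin q) (j : Fin d) (α : ZMod (2 ^ k)) (t : Blk d k) (f : Site d (k + 1) → Fin q) :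
    bad c t f → bad c (rb j α t) (fun x => f (rs j α x)) := by
  unfold bad lab1 lab0
  rw [Lab_mb_sym c j α t f]
  simp only [Lab_mj_sym c j α t _ f]
  exact id

/-! ### Adjacent blocks -/

private theorem Lab_dl (hq : 1 ≤ q) : dl q ≤ 1 / 100 ∧ 0 < dl q := by
  have h : (1 : ℝ) ≤ q := by exact_mod_cast hq
  unfold dl
  constructor
  · apply one_div_le_one_div_of_le (by norm_num)
    linarith
  · positivity

private theorem Lab_zj01 (f : Site d (k + 1) → Fin q) (t : Blk d k) (a b : Bt d) (c : Fin q) (j : Fin d) :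
    0 ≤ zj f t a b c j ∧ zj f t a b c j ≤ 1 := by
  unfold zj
  split_ifs <;> norm_num

private theorem Lab_nxt_pt (t : Blk d k) (j : Fin d) (a b : Bt d) (ha : a j = true) (hb : b j = true) :
    pt (nxt t j) (flp a j) (flp b j) = pt t a b := by
  funext i
  unfold pt
  rw [Pi.add_apply, Pi.add_apply, Pi.add_apply, Pi.add_apply]
  by_cases hi : i = j
  · subst hi
    have e1 : ∀ u : ZMod (2 ^ k), ((2 * (u + 1).val : ℕ) : ZMod (2 ^ (k + 1))) =
        ((2 * u.val : ℕ) : ZMod (2 ^ (k + 1))) + 2 := by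
      intro u
      have e2 : (((2 * (u + 1).val : ℕ)) : ZMod (2 ^ (k + 1))) = ((2 * u.val + 2 : ℕ) : ZMod (2 ^ (k + 1))) := by
        rw [ZMod.natCast_eq_natCast_iff]
        have h1 : (u + 1).val ≡ u.val + 1 [MOD 2 ^ k] := by
          rw [← ZMod.natCast_eq_natCast_iff]
          push_cast
          rw [ZMod.natCast_zmod_val, ZMod.natCast_zmod_val]
        have h2 : 2 * (u + 1).val ≡ 2 * (u.val + 1) [MOD 2 * 2 ^ k] := h1.mul_left' 2
        have h3 : 2 * 2 ^ k = 2 ^ (k + 1) := by rw [pow_succ, mul_comm]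
        rw [h3] at h2
        exact h2
      rw [e2]
      push_cast
      ring
    simp only [bas, bv, nxt, Function.update_self, Lab_flp_self, ha, hb]
    rw [e1]
    simp
    ring
  · simp only [bas, bv, nxt, Function.update_of_ne hi, Lab_flp_ne _ _ _ hi]

private theorem Lab_face (f : Site d (k + 1) → Fin q) (t : Blk d k) (j : Fin d) (c : Fin q) (a b : Bt d)
    (ha : a j = true) (hb : b j = true) :
    zj f (nxt t j) (flp a j) (flp b j) c j = zj f t a b c j := by
  unfold zj
  refine Lab_ite _ _ ?_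
  have e : ∀ σ : Stp d, σ.1 ≠ j → (alw (flp a j) (flp b j) σ ↔ alw a b σ) := by
    intro σ hσ
    have h1 := Lab_alw j a b σ
    have h2 : Lab_S j σ = σ := by
      unfold Lab_S
      rw [if_neg hσ]
    rw [h2] at h1
    exact h1
  constructor
  · intro h σ hσ hal
    have h1 := h σ hσ ((e σ hσ).2 hal)
    rw [Lab_nxt_pt t j a b ha hb] at h1
    exact h1
  · intro h σ hσ hal
    rw [Lab_nxt_pt t j a b ha hb]
    exact h σ hσ ((e σ hσ).1 hal)

/-- a block with label `1` and a block with label `0` have no common face -/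
private theorem Lab_key (hd : 2 ≤ d) (hq : 1 ≤ q) (c : Fin q) (f : Site d (k + 1) → Fin q) (j : Fin d)
    (t t' : Blk d k) (β : Bool) (h1 : lab1 f t c) (h0 : lab0 f t' c)
    (hf : ∀ a b : Bt d, a j = β → b j = β →
      zj f t' (flp a j) (flp b j) c j = zj f t a b c j) : False := by
  classical
  obtain ⟨hdl, hdl0⟩ := Lab_dl hq
  set χ : Bt d → Bt d → ℝ := fun a b => if a j = β ∧ b j = β then (1 : ℝ) else 0 with hχ
  have hχ01 : ∀ a b, 0 ≤ χ a b ∧ χ a b ≤ 1 := by
    intro a b
    simp only [hχ]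
    split_ifs <;> norm_num
  have hface : EB χ = 1 / 4 := card_od_face hd j β
  have hone := card_od (d := d) (by omega)
  -- `1/4 ≤ EB (χ zj) + EB (1 - zj)`
  have h2 : EB χ ≤ EB (fun a b => χ a b * zj f t a b c j + (1 + (-1) * zj f t a b c j)) := by
    refine EB_mono fun a b _ => ?_
    have := hχ01 a b
    have hz := Lab_zj01 f t a b c j
    nlinarith
  rw [EB_add, EB_add, EB_mul, hone, hface] at h2
  have h3 : 1 - dl q ≤ EB (fun a b => zj f t a b c j) := le_trans h1 (mb_le_mj f t c j)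
  have h4 : EB (fun a b => χ a b * zj f t a b c j) ≤ dl q := by
    have h5 : EB (fun a b => χ a b * zj f t a b c j) ≤
        EB (fun a b => zj f t' (flp a j) (flp b j) c j) := by
      refine EB_mono fun a b _ => ?_
      simp only [hχ]
      by_cases hab : a j = β ∧ b j = β
      · rw [if_pos hab, one_mul, hf a b hab.1 hab.2]
      · rw [if_neg hab, zero_mul]
        exact (Lab_zj01 f t' _ _ c j).1
    refine h5.trans ?_
    rw [Lab_EB j (fun a b => zj f t' (flp a j) (flp b j) c j) (fun a b => zj f t' a b c j)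
      fun a b => rfl]
    exact h0 j
  linarith

theorem lab_adj (hd : 2 ≤ d) (hk : 1 ≤ k) (hq : 1 ≤ q) (c : Fin q) (f : Site d (k + 1) → Fin q) (t : Blk d k)
    (j : Fin d) (h1 : ¬ bad c t f) (h2 : ¬ bad c (nxt t j) f) : lab1 f t c ↔ lab1 f (nxt t j) c := by
  have _ := hk
  have g : ∀ s : Blk d k, ¬ bad c s f → ¬ lab1 f s c → lab0 f s c := by
    intro s hs h
    by_contra h'
    exact hs ⟨h, h'⟩
  constructor
  · intro h
    by_contra h'
    refine Lab_key hd hq c f j t (nxt t j) true h (g _ h2 h') ?_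
    intro a b ha hb
    exact Lab_face f t j c a b ha hb
  · intro h
    by_contra h'
    refine Lab_key hd hq c f j (nxt t j) t false h (g _ h1 h') ?_
    intro a b ha hb
    have h3 := Lab_face f t j c (flp a j) (flp b j) (by rw [Lab_flp_self, ha]; rfl)
      (by rw [Lab_flp_self, hb]; rfl)
    rw [Lab_flp_flp, Lab_flp_flp] at h3
    exact h3.symm

/-! ### Densities -/

/-- a colour which is used is not seen -/
theorem Mb_le_mb {f : Site d (k + 1) → Fin q} (hf : Prp f) (t : Blk d k) (c : Fin q) :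
    Mb f t c ≤ mb f t c := by
  unfold Mb mb
  refine EB_mono fun a b _ => ?_
  unfold zb
  by_cases h : f (pt t a b) = c
  · rw [if_pos h, if_pos]
    intro σ _ h'
    exact hf (pt t a b) σ (by rw [h', h])
  · rw [if_neg h]
    split_ifs <;> norm_num

private theorem Lab_zero : EB (fun _ _ : Bt d => (0 : ℝ)) = 0 := by
  classical
  unfold EB
  simp

theorem Mb_nonneg (f : Site d (k + 1) → Fin q) (t : Blk d k) (c : Fin q) : 0 ≤ Mb f t c := by
  have h := EB_mono (F := fun _ _ : Bt d => (0 : ℝ))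
    (G := fun a b => if f (pt t a b) = c then (1 : ℝ) else 0) fun a b _ => by
      show (0 : ℝ) ≤ if f (pt t a b) = c then (1 : ℝ) else 0
      split_ifs <;> norm_num
  rw [Lab_zero] at h
  unfold Mb
  convert h

theorem Mb_le_one (hd : 1 ≤ d) (f : Site d (k + 1) → Fin q) (t : Blk d k) (c : Fin q) : Mb f t c ≤ 1 := by
  have h := EB_mono (F := fun a b => if f (pt t a b) = c then (1 : ℝ) else 0)
    (G := fun _ _ : Bt d => (1 : ℝ)) fun a b _ => by
      show (if f (pt t a b) = c then (1 : ℝ) else 0) ≤ 1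
      split_ifs <;> norm_num
  rw [card_od hd] at h
  unfold Mb
  convert h

/-- label `0` -/
theorem Mb_lab0 (hd : 1 ≤ d) {f : Site d (k + 1) → Fin q} (hf : Prp f) (t : Blk d k) (c : Fin q)
    (h1 : ¬ lab1 f t c) (h2 : ¬ bad c t f) : Mb f t c ≤ dl q := by
  have h3 : lab0 f t c := by
    by_contra h
    exact h2 ⟨h1, h⟩
  exact (Mb_le_mb hf t c).trans ((mb_le_mj f t c ⟨0, hd⟩).trans (h3 ⟨0, hd⟩))

end Pool.Agent.LO
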