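import Pool.Agent.Lib_MP_2c424f_lo.BSum

/-!
# Reflections of sites and blocks (piece REFL)
-/

set_option autoImplicit false

open Finset

namespace Pool.Agent.LO

variable {d k q : ℕ}

/-! ### The doubling map -/

/-- doubling -/
private def Refl_dbl (k : ℕ) (u : ZMod (2 ^ k)) : ZMod (2 ^ (k + 1)) := ((2 * u.val : ℕ) : ZMod (2 ^ (k + 1)))

private theorem Refl_dbl_cast (n : ℕ) :
    Refl_dbl k (n : ZMod (2 ^ k)) = ((2 * n : ℕ) : ZMod (2 ^ (k + 1))) := by
  unfold Refl_dbl
  rw [ZMod.natCast_eq_natCast_iff, ZMod.val_natCast, pow_succ, mul_comm (2 ^ k) 2]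
  exact Nat.ModEq.mul_left' 2 (Nat.mod_modEq n (2 ^ k))

private theorem Refl_dbl_add (u v : ZMod (2 ^ k)) : Refl_dbl k (u + v) = Refl_dbl k u + Refl_dbl k v := by
  have h : u + v = ((u.val + v.val : ℕ) : ZMod (2 ^ k)) := by
    push_cast
    rw [ZMod.natCast_zmod_val, ZMod.natCast_zmod_val]
  rw [h, Refl_dbl_cast]
  unfold Refl_dbl
  push_cast
  ring

private def Refl_dh (k : ℕ) : ZMod (2 ^ k) →+ ZMod (2 ^ (k + 1)) := AddMonoidHom.mk' (Refl_dbl k) Refl_dbl_add

private theorem Refl_dh_apply (u : ZMod (2 ^ k)) :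
    Refl_dh k u = ((2 * u.val : ℕ) : ZMod (2 ^ (k + 1))) := rfl

private theorem Refl_dh_one : Refl_dh k 1 = 2 := by
  have h := Refl_dbl_cast (k := k) 1
  rw [Nat.cast_one] at h
  show Refl_dbl k 1 = 2
  rw [h]
  norm_num

private theorem Refl_dh_two (u : ZMod (2 ^ k)) :
    Refl_dh k (2 * u) = ((4 * u.val : ℕ) : ZMod (2 ^ (k + 1))) := by
  rw [two_mul, map_add, Refl_dh_apply]
  push_cast
  ring

/-! ### Involutions -/

theorem rs_rs (j : Fin d) (α : ZMod (2 ^ k)) (x : Site d (k + 1)) : rs j α (rs j α x) = x := by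
  unfold rs
  rw [Function.update_idem, Function.update_self, sub_sub_cancel, Function.update_eq_self]

theorem rb_rb (j : Fin d) (α : ZMod (2 ^ k)) (t : Blk d k) : rb j α (rb j α t) = t := by
  unfold rb
  rw [Function.update_idem, Function.update_self, sub_sub_cancel, Function.update_eq_self]

private theorem Refl_pt_at (t : Blk d k) (a b : Bt d) (i : Fin d) :
    pt t a b i = Refl_dh k (t i) + (if a i then 1 else 0) + (if b i then 1 else 0) := rfl

theorem rs_pt (j : Fin d) (α : ZMod (2 ^ k)) (t : Blk d k) (a b : Bt d) :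
    rs j α (pt t a b) = pt (rb j α t) (flp a j) (flp b j) := by
  funext i
  by_cases hi : i = j
  · subst hi
    have e1 : rs i α (pt t a b) i = ((4 * α.val : ℕ) : ZMod (2 ^ (k + 1))) - pt t a b i := by
      unfold rs
      rw [Function.update_self]
    have e2 : rb i α t i = 2 * α - 1 - t i := by
      unfold rb
      rw [Function.update_self]
    have e3 : ∀ c : Bt d, flp c i i = !c i := by
      intro c
      unfold flp
      rw [Function.update_self]
    rw [e1, Refl_pt_at, Refl_pt_at, e2, e3, e3, map_sub, map_sub, Refl_dh_two, Refl_dh_one]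
    cases a i <;> cases b i <;> simp <;> ring
  · have e1 : rs j α (pt t a b) i = pt t a b i := by
      unfold rs
      rw [Function.update_of_ne hi]
    have e2 : rb j α t i = t i := by
      unfold rb
      rw [Function.update_of_ne hi]
    have e3 : ∀ c : Bt d, flp c j i = c i := by
      intro c
      unfold flp
      rw [Function.update_of_ne hi]
    rw [e1, Refl_pt_at, Refl_pt_at, e2, e3, e3]

theorem rs_step (j : Fin d) (α : ZMod (2 ^ k)) (x : Site d (k + 1)) (i : Fin d) (β : Bool) :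
    rs j α (x + sv (i, β)) = rs j α x + sv (i, if i = j then !β else β) := by
  funext l
  by_cases hl : l = j
  · subst hl
    have e1 : ∀ z : Site d (k + 1), rs l α z l = ((4 * α.val : ℕ) : ZMod (2 ^ (k + 1))) - z l := by
      intro z
      unfold rs
      rw [Function.update_self]
    rw [Pi.add_apply, e1, e1, Pi.add_apply]
    by_cases hi : i = l
    · subst hi
      unfold sv
      cases β <;> simp <;> ring
    · have h0 : ∀ c : Bool, (sv (i, c) : Site d (k + 1)) l = 0 := by
        intro c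
        unfold sv
        exact Pi.single_eq_of_ne (Ne.symm hi) _
      rw [h0, h0]
      ring
  · have e1 : ∀ z : Site d (k + 1), rs j α z l = z l := by
      intro z
      unfold rs
      rw [Function.update_of_ne hl]
    rw [Pi.add_apply, e1, e1, Pi.add_apply]
    by_cases hi : i = j
    · subst hi
      have h0 : ∀ c : Bool, (sv (i, c) : Site d (k + 1)) l = 0 := by
        intro c
        unfold sv
        exact Pi.single_eq_of_ne hl _
      rw [h0, h0]
    · rw [if_neg hi]

/-! ### Halves -/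

private theorem Refl_val_neg_sub_one (n : ℕ) [NeZero n] (u : ZMod n) : (-u - 1).val = n - 1 - u.val := by
  have hu := ZMod.val_lt u
  have h1 : (-u - 1 : ZMod n) = ((n - 1 - u.val : ℕ) : ZMod n) := by
    have h2 : ((n - 1 - u.val : ℕ) : ZMod n) + ((u.val + 1 : ℕ) : ZMod n) = 0 := by
      rw [← Nat.cast_add]
      have h3 : n - 1 - u.val + (u.val + 1) = n := by omega
      rw [h3, ZMod.natCast_self]
    rw [Nat.cast_add, Nat.cast_one, ZMod.natCast_zmod_val] at h2
    linear_combination -h2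
  rw [h1, ZMod.val_natCast_of_lt (by omega)]

theorem lft_rb (hk : 1 ≤ k) (j : Fin d) (α : ZMod (2 ^ k)) (t : Blk d k) :
    lft j α (rb j α t) ↔ ¬ lft j α t := by
  unfold lft
  have e1 : rb j α t j - α = -(t j - α) - 1 := by
    unfold rb
    rw [Function.update_self]
    ring
  rw [e1, Refl_val_neg_sub_one]
  have h1 := ZMod.val_lt (t j - α)
  have h2 : 2 ^ k = 2 * 2 ^ (k - 1) := by
    rw [← pow_succ']
    congr 1
    omega
  have h3 : 0 < 2 ^ (k - 1) := by positivity
  omega

private theorem Refl_pt_sub (t : Blk d k) (a b : Bt d) (j : Fin d) (α : ZMod (2 ^ k)) :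
    pt t a b j - ((2 * α.val : ℕ) : ZMod (2 ^ (k + 1))) =
      ((2 * (t j - α).val + ((if a j then 1 else 0) + (if b j then 1 else 0)) : ℕ) :
        ZMod (2 ^ (k + 1))) := by
  rw [Refl_pt_at]
  have e1 : ((2 * (t j - α).val + ((if a j then 1 else 0) + (if b j then 1 else 0)) : ℕ) :
        ZMod (2 ^ (k + 1))) = Refl_dh k (t j - α) + ((if a j then 1 else 0) + (if b j then 1 else 0)) := by
    rw [Refl_dh_apply]
    push_cast
    ring
  rw [e1, map_sub, Refl_dh_apply α]
  ring

/-- a block is contained in the closed left half or in the closed right half -/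
theorem pt_half (hk : 1 ≤ k) (j : Fin d) (α : ZMod (2 ^ k)) (t : Blk d k) (a b : Bt d) :
    (lft j α t → (pt t a b j - ((2 * α.val : ℕ) : ZMod (2 ^ (k + 1)))).val ≤ 2 ^ k) ∧
    (¬ lft j α t → (pt t a b j - ((2 * α.val : ℕ) : ZMod (2 ^ (k + 1)))).val = 0 ∨
      2 ^ k ≤ (pt t a b j - ((2 * α.val : ℕ) : ZMod (2 ^ (k + 1)))).val) := by
  rw [Refl_pt_sub]
  unfold lft
  have h1 := ZMod.val_lt (t j - α)
  have h2 : 2 ^ k = 2 * 2 ^ (k - 1) := by
    rw [← pow_succ']
    congr 1
    omega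
  have h3 : 0 < 2 ^ (k - 1) := by positivity
  have h4 : 2 ^ (k + 1) = 2 * 2 ^ k := pow_succ' 2 k
  have h5 : ((if a j then 1 else 0) + (if b j then 1 else 0) : ℕ) ≤ 2 := by
    cases a j <;> cases b j <;> simp
  generalize ((if a j then 1 else 0) + (if b j then 1 else 0) : ℕ) = e at h5 ⊢
  generalize (t j - α).val = u at h1 ⊢
  constructor
  · intro hu
    rw [ZMod.val_natCast_of_lt (by omega)]
    omega
  · intro hu
    by_cases h6 : 2 * u + e < 2 ^ (k + 1)
    · right
      rw [ZMod.val_natCast_of_lt h6]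
      omega
    · left
      have h7 : 2 * u + e = 2 ^ (k + 1) := by omega
      rw [h7, ZMod.natCast_self, ZMod.val_zero]

/-- `rs` exchanges the closed halves and fixes the planes -/
theorem rs_half (hk : 1 ≤ k) (j : Fin d) (α : ZMod (2 ^ k)) (x : Site d (k + 1)) :
    ((rs j α x) j - ((2 * α.val : ℕ) : ZMod (2 ^ (k + 1)))).val =
      (if (x j - ((2 * α.val : ℕ) : ZMod (2 ^ (k + 1)))).val = 0 then 0
        else 2 ^ (k + 1) - (x j - ((2 * α.val : ℕ) : ZMod (2 ^ (k + 1)))).val) := by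
  have _ := hk
  have e1 : (rs j α x) j - ((2 * α.val : ℕ) : ZMod (2 ^ (k + 1))) =
      -(x j - ((2 * α.val : ℕ) : ZMod (2 ^ (k + 1)))) := by
    unfold rs
    rw [Function.update_self]
    push_cast
    ring
  rw [e1, ZMod.neg_val]
  simp only [ZMod.val_eq_zero]

private theorem Refl_val_add_one (n : ℕ) (hn : 2 ≤ n) [NeZero n] (y : ZMod n) :
    (y.val + 1 < n ∧ (y + 1).val = y.val + 1) ∨ (y.val + 1 = n ∧ (y + 1).val = 0) := by
  have hy := ZMod.val_lt y
  have h1 : y + 1 = ((y.val + 1 : ℕ) : ZMod n) := by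
    rw [Nat.cast_add, Nat.cast_one, ZMod.natCast_zmod_val]
  by_cases h : y.val + 1 < n
  · left
    refine ⟨h, ?_⟩
    rw [h1, ZMod.val_natCast_of_lt h]
  · right
    have h2 : y.val + 1 = n := by omega
    refine ⟨h2, ?_⟩
    rw [h1, h2, ZMod.natCast_self, ZMod.val_zero]

/-- adjacent sites lie in a common closed half -/
theorem step_half (hk : 1 ≤ k) (j : Fin d) (α : ZMod (2 ^ k)) (x : Site d (k + 1)) (σ : Stp d) :
    ((x j - ((2 * α.val : ℕ) : ZMod (2 ^ (k + 1)))).val ≤ 2 ^ k ∧
      ((x + sv σ : Site d (k + 1)) j - ((2 * α.val : ℕ) : ZMod (2 ^ (k + 1)))).val ≤ 2 ^ k) ∨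
    (((x j - ((2 * α.val : ℕ) : ZMod (2 ^ (k + 1)))).val = 0 ∨
        2 ^ k ≤ (x j - ((2 * α.val : ℕ) : ZMod (2 ^ (k + 1)))).val) ∧
      (((x + sv σ : Site d (k + 1)) j - ((2 * α.val : ℕ) : ZMod (2 ^ (k + 1)))).val = 0 ∨
        2 ^ k ≤ ((x + sv σ : Site d (k + 1)) j - ((2 * α.val : ℕ) : ZMod (2 ^ (k + 1)))).val)) := by
  have h3 : 2 ≤ 2 ^ k := by
    calc 2 = 2 ^ 1 := by norm_num
      _ ≤ 2 ^ k := Nat.pow_le_pow_right (by norm_num) hk
  have h4 : 2 ^ (k + 1) = 2 * 2 ^ k := pow_succ' 2 k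
  rw [Pi.add_apply]
  obtain ⟨y, hy⟩ : ∃ y, y = x j - ((2 * α.val : ℕ) : ZMod (2 ^ (k + 1))) := ⟨_, rfl⟩
  have hz : ∀ s : ZMod (2 ^ (k + 1)), x j + s - ((2 * α.val : ℕ) : ZMod (2 ^ (k + 1))) = y + s := by
    intro s
    rw [hy]
    ring
  rw [hz, ← hy]
  have hyl := ZMod.val_lt y
  obtain ⟨i, β⟩ := σ
  by_cases hi : i = j
  · subst hi
    cases β with
    | true =>
      have e : (sv (i, true) : Site d (k + 1)) i = 1 := by
        unfold sv
        simp
      rw [e]
      rcases Refl_val_add_one (2 ^ (k + 1)) (by omega) y with ⟨h5, h6⟩ | ⟨h5, h6⟩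
      · rw [h6]
        omega
      · rw [h6]
        omega
    | false =>
      have e : (sv (i, false) : Site d (k + 1)) i = -1 := by
        unfold sv
        simp
      rw [e]
      obtain ⟨w, hw⟩ : ∃ w, w = y + -1 := ⟨_, rfl⟩
      have hyw : y = w + 1 := by
        rw [hw]
        ring
      rw [← hw, hyw]
      rcases Refl_val_add_one (2 ^ (k + 1)) (by omega) w with ⟨h5, h6⟩ | ⟨h5, h6⟩
      · rw [h6]
        omega
      · rw [h6]
        omega
  · have e : (sv (i, β) : Site d (k + 1)) j = 0 := by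
      unfold sv
      exact Pi.single_eq_of_ne (Ne.symm hi) _
    rw [e, add_zero]
    omega

end Pool.Agent.LO
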