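import Pool.Agent.Lib_MP_2c424f_lo.RP

/-!
# The chessboard estimate (piece CHESS)

Take `Γ` maximising `cn Γ * r^{-|Γ|}`; if it is nonempty (and the maximum is positive) the symmetrised sets
are maximisers too (`|syL Γ| + |syR Γ| = 2 |Γ|`); an interval of block columns of length `2^e` in
direction `j` is doubled by a reflection in the plane at its end, so the full set is a maximiser.
-/

set_option autoImplicit false

open Finset

namespace Pool.Agent.LO

variable {d k : ℕ}

private theorem Chess_rb_rb (j : Fin d) (α : ZMod (2 ^ k)) (t : Blk d k) :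
    rb j α (rb j α t) = t := by
  unfold rb
  rw [Function.update_idem, Function.update_self, sub_sub_cancel, Function.update_eq_self]

private theorem Chess_rb_inj (j : Fin d) (α : ZMod (2 ^ k)) : Function.Injective (rb j α) := by
  intro s t h
  rw [← Chess_rb_rb j α s, h, Chess_rb_rb]

private theorem Chess_val_cast (n : ℕ) (h : n < 2 ^ k) : ((n : ZMod (2 ^ k))).val = n :=
  ZMod.val_cast_of_lt h

private theorem Chess_lft_rb (hk : 1 ≤ k) (j : Fin d) (α : ZMod (2 ^ k)) (t : Blk d k) :
    lft j α (rb j α t) ↔ ¬ lft j α t := by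
  have hne : NeZero (2 ^ k) := ⟨by positivity⟩
  unfold lft
  have h1 : (rb j α t) j - α = ((2 ^ k - 1 - (t j - α).val : ℕ) : ZMod (2 ^ k)) := by
    have hlt := ZMod.val_lt (t j - α)
    rw [Nat.sub_sub, Nat.cast_sub (by omega)]
    unfold rb
    rw [Function.update_self]
    push_cast
    rw [ZMod.natCast_val, ZMod.cast_id]
    have : ((2 : ZMod (2 ^ k)) ^ k) = 0 := by
      have := ZMod.natCast_self (2 ^ k)
      push_cast at this
      exact this
    rw [this]
    ring
  have hlt := ZMod.val_lt (t j - α)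
  have h2 : 2 ^ k = 2 * 2 ^ (k - 1) := by
    rw [← pow_succ']
    congr 1
    omega
  rw [h1, Chess_val_cast _ (by omega)]
  omega

theorem card_sy (hk : 1 ≤ k) (j : Fin d) (α : ZMod (2 ^ k)) (Γ : Finset (Blk d k)) :
    (syL j α Γ).card + (syR j α Γ).card = 2 * Γ.card := by
  classical
  have h1 : (syL j α Γ).card = 2 * (Γ.filter (fun t => lft j α t)).card := by
    unfold syL
    rw [card_union_of_disjoint, card_image_of_injective _ (Chess_rb_inj j α), two_mul]
    rw [disjoint_left]
    intro t ht ht'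
    obtain ⟨s, hs, rfl⟩ := mem_image.1 ht'
    exact (Chess_lft_rb hk j α s).1 (mem_filter.1 ht).2 (mem_filter.1 hs).2
  have h2 : (syR j α Γ).card = 2 * (Γ.filter (fun t => ¬ lft j α t)).card := by
    unfold syR
    rw [card_union_of_disjoint, card_image_of_injective _ (Chess_rb_inj j α), two_mul]
    rw [disjoint_left]
    intro t ht ht'
    obtain ⟨s, hs, rfl⟩ := mem_image.1 ht'
    exact (mem_filter.1 ht).2 ((Chess_lft_rb hk j α s).2 (mem_filter.1 hs).2)
  rw [h1, h2, ← mul_add, card_filter_add_card_filter_not]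

/-- doubling of an interval of block columns -/
private theorem Chess_double (j : Fin d) (J : Finset (Fin d)) (Γ : Finset (Blk d k))
    (a : Blk d k) (e : ℕ) (he : e + 1 ≤ k)
    (h : ∀ t : Blk d k, (∀ i, i ∉ insert j J → t i = a i) → (t j - a j).val < 2 ^ e → t ∈ Γ) :
    ∀ t : Blk d k, (∀ i, i ∉ insert j J → t i = a i) → (t j - a j).val < 2 ^ (e + 1) →
      t ∈ syL j (a j + ((2 ^ e : ℕ) : ZMod (2 ^ k)) - ((2 ^ (k - 1) : ℕ) : ZMod (2 ^ k))) Γ := by
  classical
  have hne : NeZero (2 ^ k) := ⟨by positivity⟩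
  set α := a j + ((2 ^ e : ℕ) : ZMod (2 ^ k)) - ((2 ^ (k - 1) : ℕ) : ZMod (2 ^ k)) with hα
  have hpe : 2 ^ e ≤ 2 ^ (k - 1) := Nat.pow_le_pow_right (by norm_num) (by omega)
  have h2 : 2 ^ k = 2 * 2 ^ (k - 1) := by
    rw [← pow_succ']
    congr 1
    omega
  have hleft : ∀ t : Blk d k, (t j - a j).val < 2 ^ e → lft j α t := by
    intro t ht
    unfold lft
    have h3 : t j - α = (((t j - a j).val + 2 ^ (k - 1) - 2 ^ e : ℕ) : ZMod (2 ^ k)) := by
      rw [Nat.cast_sub (by omega), Nat.cast_add, ZMod.natCast_val, ZMod.cast_id, hα]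
      ring
    rw [h3, Chess_val_cast _ (by omega)]
    omega
  intro t ht htj
  by_cases hlt : (t j - a j).val < 2 ^ e
  · exact mem_union_left _ (mem_filter.2 ⟨h t ht hlt, hleft t hlt⟩)
  · refine mem_union_right _ (mem_image.2 ⟨rb j α t, ?_, Chess_rb_rb j α t⟩)
    have h4 : (rb j α t) j - a j = ((2 ^ (e + 1) - 1 - (t j - a j).val : ℕ) : ZMod (2 ^ k)) := by
      unfold rb
      rw [Function.update_self, Nat.sub_sub, Nat.cast_sub (by omega), Nat.cast_add,
        ZMod.natCast_val, ZMod.cast_id, hα]
      have h5 : (2 : ZMod (2 ^ k)) * ((2 ^ (k - 1) : ℕ) : ZMod (2 ^ k)) = 0 := by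
        have h8 := congrArg (Nat.cast : ℕ → ZMod (2 ^ k)) h2
        rw [ZMod.natCast_self, Nat.cast_mul] at h8
        exact h8.symm
      have h6 : ((2 ^ (e + 1) : ℕ) : ZMod (2 ^ k)) = 2 * ((2 ^ e : ℕ) : ZMod (2 ^ k)) := by
        push_cast
        rw [pow_succ']
      rw [h6]
      push_cast at h5 ⊢
      linear_combination -h5
    have h7 : ((rb j α t) j - a j).val < 2 ^ e := by
      have hp : 2 ^ (e + 1) ≤ 2 ^ k := Nat.pow_le_pow_right (by norm_num) he
      rw [h4, Chess_val_cast _ (by omega)]
      have : 2 ^ (e + 1) = 2 * 2 ^ e := pow_succ' 2 e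
      omega
    refine mem_filter.2 ⟨h _ ?_ h7, hleft _ h7⟩
    intro i hi
    have hij : i ≠ j := fun hh => hi (by rw [hh]; exact mem_insert_self _ _)
    unfold rb
    rw [Function.update_of_ne hij]
    exact ht i hi

theorem chess (hk : 1 ≤ k) (cn : Finset (Blk d k) → ℝ) (Z r : ℝ) (hr : 0 < r) (hZ : 0 ≤ Z)
    (h0 : ∀ Γ, 0 ≤ cn Γ)
    (hrp : ∀ j α Γ, cn Γ ^ 2 ≤ cn (syL j α Γ) * cn (syR j α Γ))
    (hemp : cn ∅ ≤ Z) (hfull : cn univ ≤ Z * r ^ (Fintype.card (Blk d k))) (Γ : Finset (Blk d k)) :
    cn Γ ≤ Z * r ^ Γ.card := by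
  classical
  have hne : NeZero (2 ^ k) := ⟨by positivity⟩
  set F : Finset (Blk d k) → ℝ := fun G => cn G / r ^ G.card with hF
  obtain ⟨G₀, -, hmax⟩ := exists_max_image (univ : Finset (Finset (Blk d k))) F
    ⟨∅, mem_univ _⟩
  have hmax' : ∀ G, F G ≤ F G₀ := fun G => hmax G (mem_univ _)
  have key : F G₀ ≤ Z := by
    by_cases hpos : F G₀ ≤ 0
    · exact hpos.trans hZ
    push Not at hpos
    by_cases hG : G₀ = ∅
    · rw [hG]
      simpa [hF] using hemp
    -- maximisers
    have hsym : ∀ G, F G = F G₀ → ∀ j α, F (syL j α G) = F G₀ := by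
      intro G hGm j α
      have h1 := hrp j α G
      have h2 := card_sy hk j α G
      have e1 : cn G = F G * r ^ G.card := by
        simp only [hF]
        field_simp
      have e2 : cn (syL j α G) = F (syL j α G) * r ^ (syL j α G).card := by
        simp only [hF]
        field_simp
      have e3 : cn (syR j α G) = F (syR j α G) * r ^ (syR j α G).card := by
        simp only [hF]
        field_simp
      rw [e1, e2, e3, hGm] at h1
      have h3 : F G₀ ^ 2 * r ^ (2 * G.card) ≤
          (F (syL j α G) * F (syR j α G)) * r ^ (2 * G.card) := by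
        calc F G₀ ^ 2 * r ^ (2 * G.card) = (F G₀ * r ^ G.card) ^ 2 := by
              rw [mul_pow, ← pow_mul, mul_comm G.card 2]
          _ ≤ _ := h1
          _ = (F (syL j α G) * F (syR j α G)) * (r ^ ((syL j α G).card + (syR j α G).card)) := by
              rw [pow_add]; ring
          _ = _ := by rw [h2]
      have h4 : F G₀ ^ 2 ≤ F (syL j α G) * F (syR j α G) :=
        le_of_mul_le_mul_right h3 (by positivity)
      have h5 : 0 ≤ F (syL j α G) := div_nonneg (h0 _) (by positivity)
      have h6 : F (syL j α G) * F (syR j α G) ≤ F (syL j α G) * F G₀ :=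
        mul_le_mul_of_nonneg_left (hmax' _) h5
      refine le_antisymm (hmax' _) ?_
      have h7 : F G₀ * F G₀ ≤ F (syL j α G) * F G₀ := by
        rw [← sq]
        exact h4.trans h6
      exact le_of_mul_le_mul_right h7 hpos
    have hP : ∀ J : Finset (Fin d), ∃ G, F G = F G₀ ∧ ∃ a : Blk d k,
        ∀ t : Blk d k, (∀ i, i ∉ J → t i = a i) → t ∈ G := by
      intro J
      induction J using Finset.induction_on with
      | empty =>
        obtain ⟨a, ha⟩ := nonempty_iff_ne_empty.2 hG
        refine ⟨G₀, rfl, a, fun t ht => ?_⟩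
        have : t = a := funext fun i => ht i (by simp)
        rwa [this]
      | insert j J hj ih =>
        obtain ⟨G, hGm, a, ha⟩ := ih
        have hQ : ∀ e ≤ k, ∃ G, F G = F G₀ ∧ ∃ a : Blk d k, ∀ t : Blk d k,
            (∀ i, i ∉ insert j J → t i = a i) → (t j - a j).val < 2 ^ e → t ∈ G := by
          intro e
          induction e with
          | zero =>
            intro _
            refine ⟨G, hGm, a, fun t ht htj => ha t fun i hi => ?_⟩
            by_cases hij : i = j
            · subst hij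
              rw [pow_zero, Nat.lt_one_iff, ZMod.val_eq_zero] at htj
              exact sub_eq_zero.1 htj
            · exact ht i (by simp [hij, hi])
          | succ e ihe =>
            intro he
            obtain ⟨G', hG', a', ha'⟩ := ihe (by omega)
            exact ⟨_, hsym G' hG' j _, a', Chess_double j J G' a' e he ha'⟩
        obtain ⟨G', hG', a', ha'⟩ := hQ k le_rfl
        exact ⟨G', hG', a', fun t ht => ha' t ht (ZMod.val_lt _)⟩
    obtain ⟨G, hGm, a, ha⟩ := hP univ
    have hGu : G = univ := eq_univ_of_forall fun t => ha t fun i hi => absurd (mem_univ i) hi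
    rw [← hGm, hGu]
    simp only [hF, card_univ]
    rw [div_le_iff₀ (by positivity)]
    exact hfull
  have h := (hmax' Γ).trans key
  simp only [hF] at h
  rwa [div_le_iff₀ (by positivity)] at h

end Pool.Agent.LO
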