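import Pool.Agent.Lib_MP_2c424f_lo.BSum

/-!
# Neighbours inside and outside the block (piece DSUM)

For an odd site `v` and `b` the block with `pt t a b = v` is determined (`sum_pt`); the step `(j, β)`
leaves it iff `v j` is even and `b j = β` (`alw`, `val_pt`: then `a j = b j`).  So the proportion of the
`b` for which a given set `J` of steps leaves the block is at most `2^{-|J|}`.
-/

set_option autoImplicit false

open Finset

namespace Pool.Agent.LO

variable {d k q : ℕ}

private theorem DSum_zz_eq (f : Site d (k + 1) → Fin q) (v : Site d (k + 1)) (c : Fin q)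
    (h : ∃ σ : Stp d, f (v + sv σ) = c) : zz f v c = 0 := by
  unfold zz SS
  rw [if_pos]
  obtain ⟨σ, hσ⟩ := h
  exact mem_image.mpr ⟨σ, mem_univ _, hσ⟩

private theorem DSum_zz_eq' (f : Site d (k + 1) → Fin q) (v : Site d (k + 1)) (c : Fin q)
    (h : ¬ ∃ σ : Stp d, f (v + sv σ) = c) : zz f v c = 1 := by
  unfold zz SS
  rw [if_neg]
  intro hc
  obtain ⟨σ, _, hσ⟩ := mem_image.mp hc
  exact h ⟨σ, hσ⟩

private theorem DSum_EB_le (F G : Bt d → Bt d → ℝ) (h : ∀ a b, F a b ≤ G a b) : EB F ≤ EB G := by
  unfold EB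
  refine div_le_div_of_nonneg_right ?_ (by positivity)
  refine mul_le_mul_of_nonneg_left ?_ (by norm_num)
  refine sum_le_sum fun a _ => sum_le_sum fun b _ => ?_
  split_ifs
  · exact h a b
  · exact le_rfl

private theorem DSum_EB_sub (F G : Bt d → Bt d → ℝ) : EB F - EB G = EB fun a b => F a b - G a b := by
  unfold EB
  rw [← sub_div, ← mul_sub, ← sum_sub_distrib]
  congr 2
  refine sum_congr rfl fun a _ => ?_
  rw [← sum_sub_distrib]
  refine sum_congr rfl fun b _ => ?_
  split_ifs
  · rfl
  · ring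

theorem zz_le_zb (f : Site d (k + 1) → Fin q) (t : Blk d k) (a b : Bt d) (c : Fin q) :
    zz f (pt t a b) c ≤ zb f t a b c := by
  unfold zb
  by_cases h : ∃ σ : Stp d, f (pt t a b + sv σ) = c
  · rw [DSum_zz_eq f _ c h]
    split_ifs <;> norm_num
  · rw [DSum_zz_eq' f _ c h, if_pos]
    intro σ _ hσ
    exact h ⟨σ, hσ⟩

theorem zb_le_zj (f : Site d (k + 1) → Fin q) (t : Blk d k) (a b : Bt d) (c : Fin q) (j : Fin d) :
    zb f t a b c ≤ zj f t a b c j := by
  unfold zb zj
  by_cases h : ∀ σ : Stp d, alw a b σ → f (pt t a b + sv σ) ≠ c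
  · rw [if_pos h, if_pos]
    intro σ _ hσ
    exact h σ hσ
  · rw [if_neg h]
    split_ifs <;> norm_num

theorem mt_le_mb (f : Site d (k + 1) → Fin q) (t : Blk d k) (c : Fin q) : mt f t c ≤ mb f t c :=
  DSum_EB_le _ _ fun a b => zz_le_zb f t a b c

theorem mb_le_mj (f : Site d (k + 1) → Fin q) (t : Blk d k) (c : Fin q) (j : Fin d) :
    mb f t c ≤ mj f t c j :=
  DSum_EB_le _ _ fun a b => zb_le_zj f t a b c j

private theorem DSum_pi_card (s : Finset (Fin d)) (b0 : Bt d) :
    ((univ.filter fun b : Bt d => ∀ i ∈ s, b i = b0 i).card : ℝ) = 2 ^ d * (1 / 2) ^ s.card := by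
  classical
  have h1 : (univ.filter fun b : Bt d => ∀ i ∈ s, b i = b0 i)
      = Fintype.piFinset (fun i => if i ∈ s then {b0 i} else (univ : Finset Bool)) := by
    ext b
    simp only [mem_filter, mem_univ, true_and, Fintype.mem_piFinset]
    constructor
    · intro h i
      split_ifs with hi
      · exact mem_singleton.mpr (h i hi)
      · exact mem_univ _
    · intro h i hi
      have := h i
      rw [if_pos hi] at this
      exact mem_singleton.mp this
  rw [h1, Fintype.card_piFinset]
  have h2 : ∀ i, ((if i ∈ s then ({b0 i} : Finset Bool) else univ).card : ℝ)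
      = 2 * (if i ∈ s then (1 / 2 : ℝ) else 1) := by
    intro i
    split_ifs
    · simp
    · simp
  push_cast
  rw [prod_congr rfl fun i _ => h2 i, prod_mul_distrib, prod_const, card_univ, Fintype.card_fin,
    prod_ite, prod_const, prod_const_one, mul_one]
  congr 2
  congr 1
  ext i
  simp

open scoped Classical in
/-- bit vectors for which all steps of `J` leave the block -/
theorem card_out (J : Finset (Stp d)) (P : Fin d → Prop) :
    ((univ.filter fun b : Bt d => ∀ σ ∈ J, P σ.1 ∧ b σ.1 = σ.2).card : ℝ) ≤ 2 ^ d * (1 / 2) ^ J.card := by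
  rcases (univ.filter fun b : Bt d => ∀ σ ∈ J, P σ.1 ∧ b σ.1 = σ.2).eq_empty_or_nonempty
    with he | ⟨b0, hb0⟩
  · rw [he]
    simp only [card_empty, Nat.cast_zero]
    positivity
  · have h0 : ∀ σ ∈ J, P σ.1 ∧ b0 σ.1 = σ.2 := (mem_filter.mp hb0).2
    have hinj : Set.InjOn (fun σ : Stp d => σ.1) J := by
      intro σ hσ τ hτ h
      have e1 := (h0 σ hσ).2
      have e2 := (h0 τ hτ).2
      have h' : σ.1 = τ.1 := h
      exact Prod.ext h' (by rw [← e1, ← e2, h'])
    have hc : (J.image fun σ : Stp d => σ.1).card = J.card := card_image_of_injOn hinj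
    rw [← hc, ← DSum_pi_card (J.image fun σ : Stp d => σ.1) b0]
    have hsub : (univ.filter fun b : Bt d => ∀ σ ∈ J, P σ.1 ∧ b σ.1 = σ.2)
        ⊆ (univ.filter fun b : Bt d => ∀ i ∈ J.image fun σ : Stp d => σ.1, b i = b0 i) := by
      intro b hb
      simp only [mem_filter, mem_univ, true_and] at hb ⊢
      intro i hi
      obtain ⟨σ, hσ, hi'⟩ := mem_image.mp hi
      rw [← hi', (hb σ hσ).2, (h0 σ hσ).2]
    exact_mod_cast card_le_card hsub

private theorem DSum_not_alw (t : Blk d k) (a b : Bt d) (σ : Stp d) (h : ¬ alw a b σ) :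
    Even ((pt t a b σ.1).val) ∧ b σ.1 = σ.2 := by
  rw [val_pt]
  unfold alw at h
  by_cases hs : σ.2 = true
  · rw [if_pos hs, not_not] at h
    rw [h.1, h.2, hs]
    exact ⟨rfl, rfl⟩
  · rw [if_neg hs] at h
    push Not at h
    have h1 : a σ.1 = false := by simpa using h.1
    have h2 : b σ.1 = false := by simpa using h.2
    have h3 : σ.2 = false := by simpa using hs
    rw [h1, h2, h3]
    exact ⟨rfl, rfl⟩

open scoped Classical in
private theorem DSum_gen (f : Site d (k + 1) → Fin q) (c : Fin q)
    (S : Site d (k + 1) → Finset (Stp d)) (G : Blk d k → Bt d → Bt d → ℝ) (C : ℝ)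
    (hG : ∀ t a b, G t a b ≤ if yy f (pt t a b) c = 0 then 0 else
      if (∀ σ ∈ S (pt t a b), Even ((pt t a b σ.1).val) ∧ b σ.1 = σ.2) then 1 else 0)
    (hS : ∀ v, (1 / 2 : ℝ) ^ (S v).card ≤ C * (1 / 2) ^ yy f v c) :
    ∑ t : Blk d k, EB (G t) ≤ 2 * C / 2 ^ d * QQ f c := by
  let H : Site d (k + 1) → Bt d → ℝ := fun v b => if ¬ evn v then (if yy f v c = 0 then 0 else
      if (∀ σ ∈ S v, Even ((v σ.1).val) ∧ b σ.1 = σ.2) then 1 else 0) else 0
  have h1 : ∀ t : Blk d k, EB (G t) ≤ 2 / 4 ^ d * ∑ a, ∑ b, H (pt t a b) b := by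
    intro t
    unfold EB
    rw [mul_div_right_comm]
    refine mul_le_mul_of_nonneg_left ?_ (by positivity)
    refine sum_le_sum fun a _ => sum_le_sum fun b _ => ?_
    simp only [H]
    by_cases hod : od a b
    · have hev : ¬ evn (pt t a b) := by
        rw [evn_pt]
        exact not_not.mpr hod
      rw [if_pos hod, if_pos hev]
      exact hG t a b
    · have hev : evn (pt t a b) := by
        rw [evn_pt]
        exact hod
      rw [if_neg hod, if_neg (not_not.mpr hev)]
  have h2 : ∑ t : Blk d k, EB (G t) ≤ 2 / 4 ^ d * ∑ x, ∑ b, H x b := by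
    rw [← sum_pt H, mul_sum]
    exact sum_le_sum fun t _ => h1 t
  refine h2.trans ?_
  have h3 : ∑ x, ∑ b, H x b ≤ C * 2 ^ d * QQ f c := by
    unfold QQ
    rw [mul_sum]
    unfold ods
    rw [sum_filter]
    refine sum_le_sum fun v _ => ?_
    by_cases hv : evn v
    · simp only [H, hv, not_true_eq_false, if_false, sum_const_zero]
      exact le_rfl
    · simp only [H, hv, not_false_eq_true, if_true]
      by_cases hy : yy f v c = 0
      · simp only [hy, if_true, sum_const_zero, mul_zero]
        exact le_rfl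
      · simp only [hy, if_false]
        rw [← sum_filter, sum_const, nsmul_eq_mul, mul_one]
        have hco := card_out (S v) (fun i => Even ((v i).val))
        refine le_trans (le_of_eq ?_) (hco.trans ?_)
        · congr
        · have := mul_le_mul_of_nonneg_left (hS v) (by positivity : (0 : ℝ) ≤ 2 ^ d)
          refine this.trans (le_of_eq ?_)
          ring
  refine (mul_le_mul_of_nonneg_left h3 (by positivity)).trans (le_of_eq ?_)
  have h4 : (4 : ℝ) ^ d = 2 ^ d * 2 ^ d := by
    rw [← mul_pow]; norm_num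
  rw [h4]
  have h5 : (2 : ℝ) ^ d ≠ 0 := by positivity
  field_simp

theorem sum_mb (f : Site d (k + 1) → Fin q) (c : Fin q) :
    ∑ t : Blk d k, (mb f t c - mt f t c) ≤ 2 / 2 ^ d * QQ f c := by
  classical
  have h := DSum_gen (k := k) f c (fun v => univ.filter fun σ : Stp d => f (v + sv σ) = c)
    (fun t a b => zb f t a b c - zz f (pt t a b) c) 1 ?_ ?_
  · have e : ∀ t : Blk d k, mb f t c - mt f t c = EB (fun a b => zb f t a b c - zz f (pt t a b) c) :=
      fun t => DSum_EB_sub _ _
    rw [sum_congr rfl fun t _ => e t]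
    refine h.trans (le_of_eq ?_)
    ring
  · intro t a b
    by_cases hy : yy f (pt t a b) c = 0
    · rw [if_pos hy]
      have hno : ¬ ∃ σ : Stp d, f (pt t a b + sv σ) = c := by
        rintro ⟨σ, hσ⟩
        unfold yy at hy
        rw [card_eq_zero] at hy
        have : σ ∈ (univ.filter fun σ : Stp d => f (pt t a b + sv σ) = c) :=
          mem_filter.mpr ⟨mem_univ _, hσ⟩
        rw [hy] at this
        exact absurd this (notMem_empty _)
      rw [DSum_zz_eq' f _ c hno]
      unfold zb
      split_ifs <;> norm_num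
    · rw [if_neg hy]
      have hyes : ∃ σ : Stp d, f (pt t a b + sv σ) = c := by
        by_contra hno
        apply hy
        unfold yy
        rw [card_eq_zero, filter_eq_empty_iff]
        intro σ _ hσ
        exact hno ⟨σ, hσ⟩
      rw [DSum_zz_eq f _ c hyes, sub_zero]
      unfold zb
      by_cases h : ∀ σ : Stp d, alw a b σ → f (pt t a b + sv σ) ≠ c
      · rw [if_pos h, if_pos]
        intro σ hσ
        refine DSum_not_alw t a b σ fun hal => ?_
        exact h σ hal (mem_filter.mp hσ).2
      · rw [if_neg h]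
        split_ifs <;> norm_num
  · intro v
    rw [one_mul]
    exact le_rfl

/-- `2^{-(y - y_j)} ≤ 4 · 2^{-y}` -/
theorem sum_mj (f : Site d (k + 1) → Fin q) (c : Fin q) (j : Fin d) :
    ∑ t : Blk d k, (mj f t c j - mt f t c) ≤ 8 / 2 ^ d * QQ f c := by
  classical
  have h := DSum_gen (k := k) f c
    (fun v => univ.filter fun σ : Stp d => f (v + sv σ) = c ∧ σ.1 ≠ j)
    (fun t a b => zj f t a b c j - zz f (pt t a b) c) 4 ?_ ?_
  · have e : ∀ t : Blk d k, mj f t c j - mt f t c = EB (fun a b => zj f t a b c j - zz f (pt t a b) c) :=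
      fun t => DSum_EB_sub _ _
    rw [sum_congr rfl fun t _ => e t]
    refine h.trans (le_of_eq ?_)
    ring
  · intro t a b
    by_cases hy : yy f (pt t a b) c = 0
    · rw [if_pos hy]
      have hno : ¬ ∃ σ : Stp d, f (pt t a b + sv σ) = c := by
        rintro ⟨σ, hσ⟩
        unfold yy at hy
        rw [card_eq_zero] at hy
        have : σ ∈ (univ.filter fun σ : Stp d => f (pt t a b + sv σ) = c) :=
          mem_filter.mpr ⟨mem_univ _, hσ⟩
        rw [hy] at this
        exact absurd this (notMem_empty _)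
      rw [DSum_zz_eq' f _ c hno]
      unfold zj
      split_ifs <;> norm_num
    · rw [if_neg hy]
      have hyes : ∃ σ : Stp d, f (pt t a b + sv σ) = c := by
        by_contra hno
        apply hy
        unfold yy
        rw [card_eq_zero, filter_eq_empty_iff]
        intro σ _ hσ
        exact hno ⟨σ, hσ⟩
      rw [DSum_zz_eq f _ c hyes, sub_zero]
      unfold zj
      by_cases h : ∀ σ : Stp d, σ.1 ≠ j → alw a b σ → f (pt t a b + sv σ) ≠ c
      · rw [if_pos h, if_pos]
        intro σ hσ
        have hm := (mem_filter.mp hσ).2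
        refine DSum_not_alw t a b σ fun hal => ?_
        exact h σ hm.2 hal hm.1
      · rw [if_neg h]
        split_ifs <;> norm_num
  · intro v
    have hcard : yy f v c ≤ (univ.filter fun σ : Stp d => f (v + sv σ) = c ∧ σ.1 ≠ j).card + 2 := by
      have hsub : (univ.filter fun σ : Stp d => f (v + sv σ) = c)
          ⊆ (univ.filter fun σ : Stp d => f (v + sv σ) = c ∧ σ.1 ≠ j) ∪ {(j, true), (j, false)} := by
        intro σ hσ
        rw [mem_union]
        by_cases hj : σ.1 = j
        · right
          obtain ⟨i, b⟩ := σ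
          simp only at hj
          subst hj
          cases b <;> simp
        · left
          exact mem_filter.mpr ⟨mem_univ _, (mem_filter.mp hσ).2, hj⟩
      have h1 := (card_le_card hsub).trans (card_union_le _ _)
      have h2 : ({(j, true), (j, false)} : Finset (Stp d)).card ≤ 2 := card_le_two
      unfold yy
      omega
    have h4 : (4 : ℝ) * (1 / 2) ^ yy f v c = (1 / 2) ^ yy f v c * (1 / 2 : ℝ)⁻¹ ^ 2 := by norm_num; ring
    have h5 : (1 / 2 : ℝ) ^ ((univ.filter fun σ : Stp d => f (v + sv σ) = c ∧ σ.1 ≠ j).card + 2)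
        ≤ (1 / 2) ^ yy f v c := pow_le_pow_of_le_one (by norm_num) (by norm_num) hcard
    rw [pow_add] at h5
    nlinarith [h5]

end Pool.Agent.LO
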