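import Pool.Agent.Lib_MP_2c424f_lo.CutI
import Pool.Agent.Lib_MP_2c424f_lo.DSum

/-!
# All blocks bad (piece LEMB)

For each block `1 ≤ (5/δ) Var_t + (2/δ) ∑_j (mj - mt)`.
-/

set_option autoImplicit false

open Finset

namespace Pool.Agent.LO

variable {d k q : ℕ}

private lemma lemB_r1 {δ v s : ℝ} (hδ : 0 < δ) (hv : δ / 5 ≤ v) (hs : 0 ≤ s) :
    1 ≤ 5 / δ * v + 2 / δ * s := by
  have h1 : (1 : ℝ) = 5 / δ * (δ / 5) := by field_simp
  have h2 : 5 / δ * (δ / 5) ≤ 5 / δ * v := mul_le_mul_of_nonneg_left hv (by positivity)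
  have h3 : 0 ≤ 2 / δ * s := by positivity
  linarith

private lemma lemB_r2 {δ v s : ℝ} (hδ : 0 < δ) (hv : 0 ≤ v) (hs : δ / 2 ≤ s) :
    1 ≤ 5 / δ * v + 2 / δ * s := by
  have h1 : (1 : ℝ) = 2 / δ * (δ / 2) := by field_simp
  have h2 : 2 / δ * (δ / 2) ≤ 2 / δ * s := mul_le_mul_of_nonneg_left hs (by positivity)
  have h3 : 0 ≤ 5 / δ * v := by positivity
  linarith

private lemma lemB_r3 {δ M D x I Q V S : ℝ} (hδ : 0 < δ) (hD : 0 < D) (hx : 0 < x) (hI : 0 ≤ I)
    (hV : V ≤ 1 / 4 * (8 * x * I) / D) (hS : S ≤ x * (8 / D * Q))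
    (hM : M ≤ 5 / δ * V + 2 / δ * S) : δ * (M * D) / (16 * x) ≤ I + Q := by
  have h1 : 5 / δ * V ≤ 5 / δ * (1 / 4 * (8 * x * I) / D) :=
    mul_le_mul_of_nonneg_left hV (by positivity)
  have h2 : 2 / δ * S ≤ 2 / δ * (x * (8 / D * Q)) := mul_le_mul_of_nonneg_left hS (by positivity)
  have h3 : M ≤ 5 / δ * (1 / 4 * (8 * x * I) / D) + 2 / δ * (x * (8 / D * Q)) := by linarith
  have h4 := mul_le_mul_of_nonneg_left h3 (by positivity : (0 : ℝ) ≤ δ * D)
  have e1 : δ * D * (5 / δ * (1 / 4 * (8 * x * I) / D) + 2 / δ * (x * (8 / D * Q))) =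
      10 * (x * I) + 16 * (x * Q) := by
    field_simp
    ring
  rw [e1] at h4
  rw [div_le_iff₀ (by positivity)]
  have h5 : 0 ≤ x * I := by positivity
  nlinarith

private lemma lemB_pm_nonneg (χ : Site d (k + 1) → ℝ) (hχ : ∀ x, χ x = 0 ∨ χ x = 1)
    (t : Blk d k) : 0 ≤ pm χ t * (1 - pm χ t) := by
  have h0 : 0 ≤ pm χ t := by
    unfold pm
    refine div_nonneg (sum_nonneg fun a _ => sum_nonneg fun b _ => ?_) (by positivity)
    rcases hχ (pt t a b) with h | h <;> rw [h]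
    exact zero_le_one
  have h1 : pm χ t ≤ 1 := by
    unfold pm
    rw [div_le_one (by positivity)]
    have h2 : ∑ a : Bt d, ∑ b : Bt d, χ (pt t a b) ≤ ∑ a : Bt d, ∑ b : Bt d, (1 : ℝ) := by
      refine sum_le_sum fun a _ => sum_le_sum fun b _ => ?_
      rcases hχ (pt t a b) with h | h <;> rw [h]
      exact zero_le_one
    refine h2.trans (le_of_eq ?_)
    simp only [sum_const, card_univ, Fintype.card_fun, Fintype.card_bool, Fintype.card_fin,
      nsmul_eq_mul, mul_one, Nat.cast_pow, Nat.cast_ofNat]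
    rw [← mul_pow]
    norm_num
  exact mul_nonneg h0 (sub_nonneg.2 h1)

theorem lemB (hd : 1 ≤ d) (hq : 1 ≤ q) (f : Site d (k + 1) → Fin q) (c : Fin q)
    (h : ∀ t : Blk d k, bad c t f) :
    dl q * NN d (k + 1) / (16 * d) ≤ II f c + QQ f c := by
  obtain ⟨χ, hχ, hz, hI⟩ := exists_chi hd (Nat.le_add_left 1 k) f c
  have hq' : (1 : ℝ) ≤ q := by exact_mod_cast hq
  have hd' : (1 : ℝ) ≤ d := by exact_mod_cast hd
  have hδ0 : 0 < dl q := by unfold dl; positivity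
  have hδ1 : dl q ≤ 1 / 2 := by
    unfold dl
    rw [div_le_div_iff₀ (by positivity) (by norm_num)]
    linarith
  have hmj : ∀ (t : Blk d k) (j : Fin d), 0 ≤ mj f t c j - mt f t c := fun t j =>
    sub_nonneg.2 ((mt_le_mb f t c).trans (mb_le_mj f t c j))
  have key : ∀ t : Blk d k, 1 ≤ 5 / dl q * (pm χ t * (1 - pm χ t)) +
      2 / dl q * ∑ j, (mj f t c j - mt f t c) := by
    intro t
    have hb1 : mb f t c < 1 - dl q := not_le.1 (h t).1
    obtain ⟨j0, hj0⟩ := not_forall.1 (h t).2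
    have hj0' : dl q < mj f t c j0 := not_le.1 hj0
    have hsum : 0 ≤ ∑ j, (mj f t c j - mt f t c) := sum_nonneg fun j _ => hmj t j
    by_cases hm : dl q / 2 ≤ mt f t c
    · exact lemB_r1 hδ0 (var_ge hd f c χ hχ hz t hδ0 hδ1 hm ((mt_le_mb f t c).trans hb1.le)) hsum
    · have hm' : mt f t c < dl q / 2 := not_le.1 hm
      have h3 : mj f t c j0 - mt f t c ≤ ∑ j, (mj f t c j - mt f t c) :=
        single_le_sum (f := fun j => mj f t c j - mt f t c) (fun j _ => hmj t j) (mem_univ j0)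
      refine lemB_r2 hδ0 (lemB_pm_nonneg χ hχ t) (le_trans ?_ h3)
      linarith
  have hcard : ∑ _t : Blk d k, (1 : ℝ) = (2 ^ k) ^ d := by
    simp [ZMod.card]
  have hsum := sum_le_sum fun t (_ : t ∈ (univ : Finset (Blk d k))) => key t
  rw [hcard, sum_add_distrib, ← mul_sum, ← mul_sum, sum_comm] at hsum
  have hv := sum_var χ hχ
  have hj : ∑ j : Fin d, ∑ t : Blk d k, (mj f t c j - mt f t c) ≤
      d * (8 / 2 ^ d * QQ f c) := by
    refine (sum_le_sum fun j _ => sum_mj f c j).trans (le_of_eq ?_)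
    rw [sum_const, card_univ, Fintype.card_fin, nsmul_eq_mul]
  have hII : 0 ≤ II f c := by
    have h1 : 0 ≤ ∑ j : Fin d, ∑ x, (|χ (x + sv (j, true)) - χ x| + |χ (x + sv (j, false)) - χ x|) :=
      sum_nonneg fun j _ => sum_nonneg fun x _ => add_nonneg (abs_nonneg _) (abs_nonneg _)
    have h2 : 0 ≤ 8 * (d : ℝ) * II f c := h1.trans hI
    exact nonneg_of_mul_nonneg_right h2 (by positivity)
  have hv' : ∑ t : Blk d k, pm χ t * (1 - pm χ t) ≤ 1 / 4 * (8 * d * II f c) / 2 ^ d := by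
    refine hv.trans (div_le_div_of_nonneg_right ?_ (by positivity))
    exact mul_le_mul_of_nonneg_left hI (by norm_num)
  have hNN : NN d (k + 1) = (2 ^ k) ^ d * 2 ^ d := by
    unfold NN
    rw [pow_succ, mul_pow]
  rw [hNN]
  exact lemB_r3 hδ0 (by positivity) (by positivity) hII hv' hj hsum

end Pool.Agent.LO
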