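import Pool.Agent.Lib_MP_2c424f_lo.CutI
import Pool.Agent.Lib_MP_2c424f_lo.DSum

/-!
# Deviation of the sites from the label of the block (piece DEV)

For a block `t` and a colour `c`: the mean of `|zz - 1(lab1)|` over the odd points of the block is at most
`5 Var_t + 3 (mb - mt) + 1(bad)`.
-/

set_option autoImplicit false

open Finset

namespace Pool.Agent.LO

variable {d k q : ℕ}

theorem zz_zero_or_one (f : Site d k → Fin q) (v : Site d k) (c : Fin q) : zz f v c = 0 ∨ zz f v c = 1 := by
  unfold zz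
  split_ifs
  · exact Or.inl rfl
  · exact Or.inr rfl

theorem pm_var_nonneg (χ : Site d (k + 1) → ℝ) (hχ : ∀ x, χ x = 0 ∨ χ x = 1)
    (t : Blk d k) : 0 ≤ pm χ t * (1 - pm χ t) := by
  have h0 : 0 ≤ pm χ t := by
    unfold pm
    refine div_nonneg (sum_nonneg fun a _ => sum_nonneg fun b _ => ?_) (by positivity)
    rcases hχ (pt t a b) with h | h <;> rw [h]
    exact zero_le_one
  have h1 : pm χ t ≤ 1 := by
    unfold pm
    rw [div_le_one (by positivity)]
    have h2 : ∑ a : Bt d, ∑ b : Bt d, χ (pt t a b) ≤ ∑ a : Bt d, ∑ b : Bt d, (1 : ℝ) := by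
      refine sum_le_sum fun a _ => sum_le_sum fun b _ => ?_
      rcases hχ (pt t a b) with h | h <;> rw [h]
      exact zero_le_one
    refine h2.trans (le_of_eq ?_)
    simp only [sum_const, card_univ, Fintype.card_fun, Fintype.card_bool, Fintype.card_fin,
      nsmul_eq_mul, mul_one, Nat.cast_pow, Nat.cast_ofNat]
    rw [← mul_pow]
    norm_num
  exact mul_nonneg h0 (sub_nonneg.2 h1)

theorem mt_nonneg (f : Site d (k + 1) → Fin q) (t : Blk d k) (c : Fin q) : 0 ≤ mt f t c := by
  have h : EB (fun _ _ : Bt d => (0 : ℝ)) ≤ mt f t c := by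
    unfold mt
    refine EB_mono fun a b _ => ?_
    rcases zz_zero_or_one f (pt t a b) c with h | h <;> rw [h]
    exact zero_le_one
  have h0 : EB (fun _ _ : Bt d => (0 : ℝ)) = 0 := by
    simp [EB]
  linarith

theorem mt_le_one (hd : 1 ≤ d) (f : Site d (k + 1) → Fin q) (t : Blk d k) (c : Fin q) :
    mt f t c ≤ 1 := by
  rw [← card_od hd]
  unfold mt
  refine EB_mono fun a b _ => ?_
  rcases zz_zero_or_one f (pt t a b) c with h | h <;> rw [h]
  exact zero_le_one

open scoped Classical in
/-- mean deviation of the odd points of a block from the label of the block -/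
noncomputable def dev (f : Site d (k + 1) → Fin q) (t : Blk d k) (c : Fin q) : ℝ :=
  EB fun a b => |zz f (pt t a b) c - (if lab1 f t c then 1 else 0)|

open scoped Classical in
theorem dev_lab1 (hd : 1 ≤ d) (f : Site d (k + 1) → Fin q) (t : Blk d k) (c : Fin q)
    (h : lab1 f t c) : dev f t c = 1 - mt f t c := by
  unfold dev mt
  have h1 : (fun a b : Bt d => |zz f (pt t a b) c - (if lab1 f t c then (1 : ℝ) else 0)|) =
      fun a b => (1 : ℝ) + (-1) * zz f (pt t a b) c := by
    funext a b
    rw [if_pos h]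
    rcases zz_zero_or_one f (pt t a b) c with h | h <;> rw [h] <;> norm_num
  rw [h1, EB_add, card_od hd, EB_mul]
  ring

open scoped Classical in
theorem dev_not (f : Site d (k + 1) → Fin q) (t : Blk d k) (c : Fin q)
    (h : ¬ lab1 f t c) : dev f t c = mt f t c := by
  unfold dev mt
  congr 1
  funext a b
  rw [if_neg h]
  rcases zz_zero_or_one f (pt t a b) c with h | h <;> rw [h] <;> norm_num

theorem dev_nonneg (f : Site d (k + 1) → Fin q) (t : Blk d k) (c : Fin q) : 0 ≤ dev f t c := by
  have h : EB (fun _ _ : Bt d => (0 : ℝ)) ≤ dev f t c := by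
    unfold dev
    exact EB_mono fun a b _ => abs_nonneg _
  have h0 : EB (fun _ _ : Bt d => (0 : ℝ)) = 0 := by
    simp [EB]
  linarith

open scoped Classical in
theorem dev_block (hd : 1 ≤ d) (hq : 1 ≤ q) (f : Site d (k + 1) → Fin q) (c : Fin q)
    (χ : Site d (k + 1) → ℝ) (hχ : ∀ x, χ x = 0 ∨ χ x = 1)
    (hz : ∀ v ∈ ods d (k + 1), χ v = zz f v c) (t : Blk d k) :
    dev f t c ≤ 5 * (pm χ t * (1 - pm χ t)) + 3 * (mb f t c - mt f t c) +
      (if bad c t f then 1 else 0) := by
  have hq' : (1 : ℝ) ≤ q := by exact_mod_cast hq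
  have hv := pm_var_nonneg χ hχ t
  have hm := mt_le_mb f t c
  have hm0 := mt_nonneg f t c
  have hm1 := mt_le_one hd f t c
  have hδ : dl q ≤ 1 / 100 := by
    unfold dl
    rw [div_le_div_iff₀ (by positivity) (by norm_num)]
    linarith
  have hif : (0 : ℝ) ≤ (if bad c t f then 1 else 0) := by split_ifs <;> norm_num
  by_cases hl : lab1 f t c
  · rw [dev_lab1 hd f t c hl]
    have hl' : 1 - dl q ≤ mb f t c := hl
    by_cases hh : 1 / 2 ≤ mt f t c
    · rcases hm1.eq_or_lt with he | hlt
      · rw [he] at hm ⊢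
        have h3 : 0 ≤ mb f t c - 1 := by linarith
        linarith
      · have h4 := var_ge hd f c χ hχ hz t (δ := 1 - mt f t c) (by linarith) (by linarith)
          (by linarith) (by linarith)
        linarith
    · have hh' := not_le.1 hh
      linarith
  · rw [dev_not f t c hl]
    by_cases hb : bad c t f
    · rw [if_pos hb]
      linarith
    · have hl0 : lab0 f t c := by
        by_contra h0
        exact hb ⟨hl, h0⟩
      have h5 : mb f t c ≤ dl q := (mb_le_mj f t c ⟨0, hd⟩).trans (hl0 ⟨0, hd⟩)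
      rcases hm0.eq_or_lt with he | hlt
      · rw [← he] at hm ⊢
        linarith
      · have h4 := var_ge hd f c χ hχ hz t (δ := 2 * mt f t c) (by linarith) (by linarith)
          (by linarith) (by linarith)
        linarith

open scoped Classical in
/-- sum over all blocks -/
theorem dev_sum (hd : 1 ≤ d) (hq : 1 ≤ q) (f : Site d (k + 1) → Fin q) (c : Fin q) :
    ∑ t : Blk d k, dev f t c ≤ 10 * d * (II f c + QQ f c) / 2 ^ d +
      ∑ t : Blk d k, (if bad c t f then (1 : ℝ) else 0) := by
  obtain ⟨χ, hχ, hz, hI⟩ := exists_chi hd (Nat.le_add_left 1 k) f c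
  have hd' : (1 : ℝ) ≤ d := by exact_mod_cast hd
  refine (sum_le_sum fun t _ => dev_block hd hq f c χ hχ hz t).trans ?_
  rw [sum_add_distrib, sum_add_distrib, ← mul_sum, ← mul_sum]
  have hv := sum_var χ hχ
  have hm := sum_mb f c
  have hv' : ∑ t : Blk d k, pm χ t * (1 - pm χ t) ≤ 1 / 4 * (8 * d * II f c) / 2 ^ d := by
    refine hv.trans (div_le_div_of_nonneg_right ?_ (by positivity))
    exact mul_le_mul_of_nonneg_left hI (by norm_num)
  have hQ : 0 ≤ QQ f c := by
    unfold QQ
    refine sum_nonneg fun v _ => ?_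
    split_ifs
    · exact le_rfl
    · positivity
  have h2 : (0 : ℝ) < 2 ^ d := by positivity
  have h3 : 5 * (1 / 4 * (8 * d * II f c) / 2 ^ d) + 3 * (2 / 2 ^ d * QQ f c) ≤
      10 * d * (II f c + QQ f c) / 2 ^ d := by
    rw [le_div_iff₀ h2]
    have e : (5 * (1 / 4 * (8 * (d : ℝ) * II f c) / 2 ^ d) + 3 * (2 / 2 ^ d * QQ f c)) * 2 ^ d =
        10 * d * II f c + 6 * QQ f c := by
      field_simp
      ring
    rw [e]
    nlinarith
  linarith

end Pool.Agent.LO
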