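import Pool.Agent.Lib_MP_2c424f_lo.LogI

/-!
# The gap of the chord at the integers (piece GAPI)

`ell q x - log x ≥ 1/(4 q^2)` for every natural number `x ≥ 1` different from `⌊q/2⌋` and `⌈q/2⌉`.
-/

set_option autoImplicit false

open Finset

namespace Pool.Agent.LO

/-- `y - 1 - log y ≥ (√y - 1)^2` -/
private theorem gapI_sqrt {y : ℝ} (hy : 0 < y) : (Real.sqrt y - 1) ^ 2 ≤ y - 1 - Real.log y := by
  have hs : 0 < Real.sqrt y := Real.sqrt_pos.2 hy
  have h1 := Real.log_le_sub_one_of_pos hs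
  have h2 : Real.log y = 2 * Real.log (Real.sqrt y) := by
    have h3 : Real.log y = Real.log (Real.sqrt y * Real.sqrt y) := by
      rw [Real.mul_self_sqrt hy.le]
    rw [h3, Real.log_mul hs.ne' hs.ne']
    ring
  have h4 : Real.sqrt y ^ 2 = y := Real.sq_sqrt hy.le
  rw [h2]
  nlinarith

private theorem gapI_up {m y : ℝ} (hm : 1 ≤ m) (hy : 1 + 1 / m ≤ y) :
    1 / (8 * m ^ 2) ≤ y - 1 - Real.log y := by
  have hm0 : 0 < m := by linarith
  have hy0 : 0 < y := by
    have : 0 < 1 / m := by positivity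
    linarith
  refine le_trans ?_ (gapI_sqrt hy0)
  have h1 : 1 + 5 / (14 * m) ≤ Real.sqrt y := by
    apply Real.le_sqrt_of_sq_le
    have h2 : (1 + 5 / (14 * m)) ^ 2 = 1 + (5 / 7) * (1 / m) + (25 / 196) * ((1 / m) * (1 / m)) := by
      field_simp
      ring
    have h3 : 1 / m ≤ 1 := by
      rw [div_le_one hm0]; exact hm
    have h4 : 0 ≤ 1 / m := by positivity
    rw [h2]
    nlinarith
  have h5 : 5 / (14 * m) ≤ Real.sqrt y - 1 := by linarith
  have h6 : (5 / (14 * m)) ^ 2 ≤ (Real.sqrt y - 1) ^ 2 := pow_le_pow_left₀ (by positivity) h5 2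
  refine le_trans ?_ h6
  rw [div_pow, div_le_div_iff₀ (by positivity) (by positivity)]
  nlinarith [pow_pos hm0 2]

private theorem gapI_down {m y : ℝ} (hm : 1 ≤ m) (hy0 : 0 < y) (hy : y ≤ 1 - 1 / m) :
    1 / (8 * m ^ 2) ≤ y - 1 - Real.log y := by
  have hm0 : 0 < m := by linarith
  refine le_trans ?_ (gapI_sqrt hy0)
  have h1 : Real.sqrt y ≤ 1 - 1 / (2 * m) := by
    have h0 : 0 ≤ 1 - 1 / (2 * m) := by
      rw [sub_nonneg, div_le_one (by positivity)]
      linarith
    rw [Real.sqrt_le_left h0]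
    have h2 : (1 - 1 / (2 * m)) ^ 2 = 1 - 1 / m + (1 / (2 * m)) ^ 2 := by
      field_simp
      ring
    rw [h2]
    have : 0 ≤ (1 / (2 * m)) ^ 2 := by positivity
    linarith
  have h5 : 1 / (2 * m) ≤ 1 - Real.sqrt y := by linarith
  have h6 : (1 / (2 * m)) ^ 2 ≤ (1 - Real.sqrt y) ^ 2 := pow_le_pow_left₀ (by positivity) h5 2
  have h7 : (1 - Real.sqrt y) ^ 2 = (Real.sqrt y - 1) ^ 2 := by ring
  rw [h7] at h6
  refine le_trans ?_ h6
  rw [div_pow, div_le_div_iff₀ (by positivity) (by positivity)]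
  nlinarith [pow_pos hm0 2]

theorem gap_int {q : ℕ} (hq : 2 ≤ q) (x : ℕ) (hx : 1 ≤ x) (h1 : x ≠ q1 q) (h2 : x ≠ q2 q) :
    1 / (4 * (q : ℝ) ^ 2) ≤ ell q x - Real.log x := by
  have hq1 : 1 ≤ q1 q := q1_pos hq
  have hq2 : q2 q = q - q1 q := rfl
  have hq1' : q1 q = q / 2 := rfl
  have hle : q1 q ≤ q2 q := by omega
  have hR1 : (1 : ℝ) ≤ q1 q := by exact_mod_cast hq1
  have hR2 : (1 : ℝ) ≤ q2 q := by exact_mod_cast (hq1.trans hle)
  have hRx : (1 : ℝ) ≤ x := by exact_mod_cast hx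
  have hRq : (2 : ℝ) ≤ q := by exact_mod_cast hq
  have hsl := sl_ge hq
  have hsl' := sl_le hq
  rcases lt_or_ge x (q1 q) with hlt | hge
  · -- below
    have hx1 : (x : ℝ) + 1 ≤ q1 q := by exact_mod_cast hlt
    have hm0 : (0 : ℝ) < q1 q := by linarith
    have hd := gapI_down (m := (q1 q : ℝ)) (y := (x : ℝ) / q1 q) hR1 (by positivity) (by
      rw [div_le_iff₀ hm0]
      field_simp
      linarith)
    have h3 : (x : ℝ) / q1 q - 1 - Real.log ((x : ℝ) / q1 q) ≤ ell q x - Real.log x := by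
      rw [Real.log_div (by linarith) hm0.ne']
      unfold ell
      have h4 : (1 / (q1 q : ℝ)) * ((x : ℝ) - q1 q) ≤ sl q * ((x : ℝ) - q1 q) := by
        apply mul_le_mul_of_nonpos_right hsl' (by linarith)
      have h5 : (1 / (q1 q : ℝ)) * ((x : ℝ) - q1 q) = (x : ℝ) / q1 q - 1 := by
        field_simp
      linarith
    refine le_trans ?_ (hd.trans h3)
    have h6 : (q1 q : ℝ) * 2 ≤ q := by
      have : q1 q * 2 ≤ q := by omega
      exact_mod_cast this
    rw [div_le_div_iff₀ (by positivity) (by positivity)]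
    nlinarith
  · -- above
    have hgt : q2 q < x := by omega
    have hx1 : (q2 q : ℝ) + 1 ≤ x := by exact_mod_cast hgt
    have hm0 : (0 : ℝ) < q2 q := by linarith
    have hd := gapI_up (m := (q2 q : ℝ)) (y := (x : ℝ) / q2 q) hR2 (by
      rw [le_div_iff₀ hm0]
      field_simp
      linarith)
    have hell2 : ell q (q2 q : ℝ) = Real.log (q2 q) := by
      have h7 := ell_add hq (q1 q : ℝ)
      have h8 : ell q (q1 q : ℝ) = Real.log (q1 q) := by
        unfold ell
        ring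
      have h9 : (q : ℝ) - q1 q = q2 q := by
        have : q1 q + q2 q = q := by omega
        have h10 : (q1 q : ℝ) + q2 q = q := by exact_mod_cast this
        linarith
      rw [h8, h9, Real.log_mul (by linarith) hm0.ne'] at h7
      linarith
    have h3 : (x : ℝ) / q2 q - 1 - Real.log ((x : ℝ) / q2 q) ≤ ell q x - Real.log x := by
      rw [Real.log_div (by linarith) hm0.ne']
      have h11 : ell q x = ell q (q2 q : ℝ) + sl q * ((x : ℝ) - q2 q) := by
        unfold ell
        ring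
      rw [h11, hell2]
      have h4 : (1 / (q2 q : ℝ)) * ((x : ℝ) - q2 q) ≤ sl q * ((x : ℝ) - q2 q) := by
        apply mul_le_mul_of_nonneg_right hsl (by linarith)
      have h5 : (1 / (q2 q : ℝ)) * ((x : ℝ) - q2 q) = (x : ℝ) / q2 q - 1 := by
        field_simp
      linarith
    refine le_trans ?_ (hd.trans h3)
    have h6 : (q2 q : ℝ) * 2 ≤ q + 1 := by
      have : q2 q * 2 ≤ q + 1 := by omega
      exact_mod_cast this
    rw [div_le_div_iff₀ (by positivity) (by positivity)]
    by_cases hev : q = 2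
    · subst hev
      have : q2 2 = 1 := rfl
      rw [this]
      norm_num
    · have h3q : (3 : ℝ) ≤ q := by
        have : 3 ≤ q := by omega
        exact_mod_cast this
      have h12 : ((q2 q : ℝ) * 2) ^ 2 ≤ (q + 1) ^ 2 := pow_le_pow_left₀ (by positivity) h6 2
      nlinarith

end Pool.Agent.LO
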