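import Pool.Agent.Lib_MP_2c424f_lo.PBad

/-!
# Labels agree, with the true size of the error (piece PDIFF2)

`multi` with `pbad`, `lab_adj`; `4 * 4^d * rr d ≤ 1/d^5`.
-/

set_option autoImplicit false

open Finset

namespace Pool.Agent.LO

/-- for large `d` the base is tiny -/
private theorem PDiff2_rr_small : ∃ d₀ : ℕ, ∀ d : ℕ, d₀ ≤ d →
    4 * (d : ℝ) ^ 5 * (4 ^ d * rr d) ≤ 1 := by
  have h1 : ∀ᶠ n : ℕ in Filter.atTop, (n : ℝ) ^ 4 / (2 : ℝ) ^ n < 1 / 3 :=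
    (tendsto_pow_const_div_const_pow_of_one_lt 4 (by norm_num : (1 : ℝ) < 2)).eventually
      (gt_mem_nhds (by norm_num))
  have h2 : ∀ᶠ n : ℕ in Filter.atTop, (n : ℝ) ^ 5 / (5 : ℝ) ^ n < 1 / 4 :=
    (tendsto_pow_const_div_const_pow_of_one_lt 5 (by norm_num : (1 : ℝ) < 5)).eventually
      (gt_mem_nhds (by norm_num))
  obtain ⟨d₀, hd₀⟩ := Filter.eventually_atTop.1 (h1.and h2)
  refine ⟨max d₀ 1, fun d hd => ?_⟩
  obtain ⟨ha, hb⟩ := hd₀ d (le_trans (le_max_left _ _) hd)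
  have hd1 : 1 ≤ d := le_trans (le_max_right _ _) hd
  have hdr : (0 : ℝ) < d := by exact_mod_cast hd1
  have h2p : (0 : ℝ) < 2 ^ d := by positivity
  have h5p : (0 : ℝ) < 5 ^ d := by positivity
  rw [div_lt_div_iff₀ h2p (by norm_num)] at ha
  rw [div_lt_div_iff₀ h5p (by norm_num)] at hb
  have hx : 3 * (d : ℝ) ≤ 2 ^ d / (d : ℝ) ^ 3 := by
    rw [le_div_iff₀ (by positivity)]
    nlinarith
  have he : (20 : ℝ) ≤ Real.exp 3 := by
    have h := Real.exp_one_gt_d9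
    have h3 : Real.exp 3 = Real.exp 1 ^ 3 := by
      rw [← Real.exp_nat_mul]; norm_num
    rw [h3]
    calc (20 : ℝ) ≤ 2.7182818283 ^ 3 := by norm_num
      _ ≤ Real.exp 1 ^ 3 := pow_le_pow_left₀ (by norm_num) h.le 3
  have hexp : (20 : ℝ) ^ d ≤ Real.exp (2 ^ d / (d : ℝ) ^ 3) := by
    calc (20 : ℝ) ^ d ≤ Real.exp 3 ^ d := pow_le_pow_left₀ (by norm_num) he d
      _ = Real.exp (3 * d) := by rw [← Real.exp_nat_mul]; ring_nf
      _ ≤ _ := Real.exp_le_exp.2 hx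
  have h20 : (20 : ℝ) ^ d = 4 ^ d * 5 ^ d := by rw [← mul_pow]; norm_num
  have hE : 0 < Real.exp (2 ^ d / (d : ℝ) ^ 3) := Real.exp_pos _
  rw [rr, Real.exp_neg, ← mul_assoc, ← div_eq_mul_inv, div_le_one hE]
  calc 4 * (d : ℝ) ^ 5 * 4 ^ d ≤ 5 ^ d * 4 ^ d := by
        apply mul_le_mul_of_nonneg_right _ (by positivity)
        linarith
    _ = 20 ^ d := by rw [h20]; ring
    _ ≤ _ := hexp

open scoped Classical in
theorem pdiff2 : ∃ d₀ : ℕ, ∀ d : ℕ, d₀ ≤ d → ∀ q : ℕ, Adm d q → ∀ k : ℕ, d ^ 5 ≤ 2 ^ k →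
    ∀ (c : Fin q) (t t' : Blk d k),
    (((prps d (k + 1) q).filter fun f => bad c t f ∨ ¬ (lab1 f t c ↔ lab1 f t' c)).card : ℝ) ≤
      ZZ d (k + 1) q * (1 / (d : ℝ) ^ 5) := by
  obtain ⟨d₁, h₁⟩ := pbad
  obtain ⟨d₂, h₂⟩ := PDiff2_rr_small
  refine ⟨max (max d₁ d₂) 3, fun d hd q hA k hk c t t' => ?_⟩
  have hd1 : d₁ ≤ d := le_trans (le_trans (le_max_left _ _) (le_max_left _ _)) hd
  have hd2 : d₂ ≤ d := le_trans (le_trans (le_max_right _ _) (le_max_left _ _)) hd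
  have hd3 : 3 ≤ d := le_trans (le_max_right _ _) hd
  have hB := h₁ d hd1 q hA k hk c
  have hr := h₂ d hd2
  obtain ⟨hq2, -, hqd⟩ := hA
  have hd3r : (3 : ℝ) ≤ d := by exact_mod_cast hd3
  have hk1 : 1 ≤ k := by
    by_contra h
    have h0 : k = 0 := by omega
    rw [h0] at hk
    have : 3 ^ 5 ≤ d ^ 5 := Nat.pow_le_pow_left hd3 5
    omega
  have hrpos : 0 < rr d := Real.exp_pos _
  have h4 : (0 : ℝ) < 4 ^ d * rr d := by positivity
  have hle : 4 * (4 ^ d * rr d) ≤ 1 / (d : ℝ) ^ 5 := by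
    rw [le_div_iff₀ (by positivity)]
    linarith
  have hhalf : 4 ^ d * rr d ≤ 1 / 2 := by
    have : 1 / (d : ℝ) ^ 5 ≤ 1 := by
      rw [div_le_one (by positivity)]
      exact one_le_pow₀ (by linarith)
    linarith
  have hm := multi (prps d (k + 1) q) hd3 (fun f t => bad c t f) (fun f t => lab1 f t c) (rr d)
    hrpos.le hhalf (fun Γ => by
      have := hB Γ
      unfold cE ZZ at this
      exact this)
    (fun f _ s j _ hb1 hb2 => lab_adj (by omega) hk1 (by omega) c f s j hb1 hb2) t t'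
  refine hm.trans ?_
  unfold ZZ
  exact mul_le_mul_of_nonneg_left hle (Nat.cast_nonneg _)

end Pool.Agent.LO
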