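import Pool.Agent.Lib_MP_2c424f_lo.Trans
import Pool.Agent.Lib_MP_2c424f_lo.PDiff2
import Pool.Agent.Lib_MP_2c424f_lo.GapI

/-!
# Mean values (piece EXPEC)

`pbd` with `l = 4 N / d^4`: all but `ZZ / d^4` colourings have a loss below `4 N / d^4`.
-/

set_option autoImplicit false

open Finset

namespace Pool.Agent.LO

theorem II_nonneg' {d k q : ℕ} (f : Site d k → Fin q) (c : Fin q) : 0 ≤ II f c := by
  unfold II
  refine Finset.sum_nonneg fun u _ => ?_
  exact mul_nonneg (mm_nonneg f u c) (sub_nonneg.2 (mm_le_one f u c))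

theorem QQ_nonneg' {d k q : ℕ} (f : Site d k → Fin q) (c : Fin q) : 0 ≤ QQ f c := by
  unfold QQ
  refine Finset.sum_nonneg fun v _ => ?_
  split_ifs
  · exact le_rfl
  · positivity

theorem IQ_le {d k q : ℕ} (hd : 1 ≤ d) (hk : 1 ≤ k) (f : Site d k → Fin q) :
    ∑ c, (II f c + QQ f c) ≤ q * NN d k := by
  have h1 : ∀ c ∈ (univ : Finset (Fin q)), II f c + QQ f c ≤ NN d k := by
    intro c _
    have h2 : II f c ≤ NN d k / 2 := by
      rw [← card_evs hd hk]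
      unfold II
      have : ∀ u ∈ evs d k, mm f u c * (1 - mm f u c) ≤ 1 := by
        intro u _
        have h3 := mm_nonneg f u c
        have h4 := mm_le_one f u c
        nlinarith
      refine (sum_le_sum this).trans (le_of_eq ?_)
      simp
    have h3 : QQ f c ≤ NN d k / 2 := by
      rw [← card_ods hd hk]
      unfold QQ
      have : ∀ v ∈ ods d k, (if yy f v c = 0 then (0 : ℝ) else (1 / 2 : ℝ) ^ yy f v c) ≤ 1 := by
        intro v _
        split_ifs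
        · exact zero_le_one
        · exact pow_le_one₀ (by norm_num) (by norm_num)
      refine (sum_le_sum this).trans (le_of_eq ?_)
      simp
    linarith
  refine (sum_le_sum h1).trans (le_of_eq ?_)
  rw [sum_const, card_univ, Fintype.card_fin, nsmul_eq_mul]

theorem IQ_le_Loss {d k q : ℕ} (hq : 2 ≤ q) {f : Site d k → Fin q} (hf : Prp f) :
    ∑ c, (II f c + QQ f c) ≤ 6 * q * Loss f := by
  have hq0 : (0 : ℝ) < q := by exact_mod_cast (show 0 < q by omega)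
  have h2 : 0 ≤ ∑ v ∈ ods d k, (ell q (av f v) - Real.log (av f v)) :=
    sum_nonneg fun v _ => sub_nonneg.2 (log_le_ell hq (av f v) (av_pos hf v))
  have h3 : 1 / (6 * (q : ℝ)) * ∑ c, (II f c + QQ f c) ≤ Loss f := by
    unfold Loss
    linarith
  have h4 := mul_le_mul_of_nonneg_left h3 (show 0 ≤ 6 * (q : ℝ) by positivity)
  have e : 6 * (q : ℝ) * (1 / (6 * (q : ℝ)) * ∑ c, (II f c + QQ f c)) = ∑ c, (II f c + QQ f c) := by
    field_simp
  linarith

open scoped Classical in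
theorem avn_le_Loss {d k q : ℕ} (hq : 2 ≤ q) {f : Site d k → Fin q} (hf : Prp f) :
    ∑ v ∈ ods d k, (if ¬ (av f v = q1 q ∨ av f v = q2 q) then (1 : ℝ) else 0) ≤
      4 * (q : ℝ) ^ 2 * Loss f := by
  have hq0 : (0 : ℝ) < q := by exact_mod_cast (show 0 < q by omega)
  have h1 : ∀ v ∈ ods d k, (if ¬ (av f v = q1 q ∨ av f v = q2 q) then (1 : ℝ) else 0) ≤
      4 * (q : ℝ) ^ 2 * (ell q (av f v) - Real.log (av f v)) := by
    intro v _
    by_cases h : av f v = q1 q ∨ av f v = q2 q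
    · rw [if_neg (not_not.2 h)]
      have := sub_nonneg.2 (log_le_ell hq (av f v) (av_pos hf v))
      positivity
    · rw [if_pos h]
      rw [not_or] at h
      have h2 := gap_int hq (av f v) (av_pos hf v) h.1 h.2
      have h3 := mul_le_mul_of_nonneg_left h2 (show 0 ≤ 4 * (q : ℝ) ^ 2 by positivity)
      have e : 4 * (q : ℝ) ^ 2 * (1 / (4 * (q : ℝ) ^ 2)) = 1 := by field_simp
      linarith
  refine (sum_le_sum h1).trans ?_
  rw [← mul_sum]
  apply mul_le_mul_of_nonneg_left _ (by positivity)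
  unfold Loss
  have h4 : 0 ≤ ∑ c, (II f c + QQ f c) :=
    sum_nonneg fun c _ => add_nonneg (II_nonneg' f c) (QQ_nonneg' f c)
  have h5 : 0 ≤ 1 / (6 * (q : ℝ)) * ∑ c, (II f c + QQ f c) := by positivity
  linarith

/-- basic consequences of the assumptions -/
theorem basic_num {d q k : ℕ} (hd : 243 ≤ d) (hA : Adm d q) (hk : d ^ 5 ≤ 2 ^ k) :
    (243 : ℝ) ≤ d ∧ (2 : ℝ) ≤ q ∧ (5000 : ℝ) * q ≤ d ∧ 1 ≤ k ∧ (d : ℝ) ^ 10 ≤ NN d k := by
  have hdR : (243 : ℝ) ≤ d := by exact_mod_cast hd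
  obtain ⟨hq2, -, hqd⟩ := hA
  have hq2R : (2 : ℝ) ≤ q := by exact_mod_cast hq2
  have hlog : (5 : ℝ) ≤ Real.log d := by
    rw [Real.le_log_iff_exp_le (by linarith)]
    have h := Real.exp_one_lt_d9
    have h5 : Real.exp 5 = Real.exp 1 ^ 5 := by
      rw [← Real.exp_nat_mul]; norm_num
    rw [h5]
    calc Real.exp 1 ^ 5 ≤ (2.7182818286 : ℝ) ^ 5 := pow_le_pow_left₀ (Real.exp_pos 1).le h.le 5
      _ ≤ 243 := by norm_num
      _ ≤ d := hdR
  refine ⟨hdR, hq2R, by nlinarith, ?_, ?_⟩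
  · by_contra h
    have h0 : k = 0 := by omega
    rw [h0] at hk
    have : 243 ^ 5 ≤ d ^ 5 := Nat.pow_le_pow_left hd 5
    norm_num at this hk
    omega
  · have h1 : (d : ℝ) ^ 5 ≤ (2 : ℝ) ^ k := by exact_mod_cast hk
    have h2 : (1 : ℝ) ≤ (2 : ℝ) ^ k := one_le_pow₀ (by norm_num)
    unfold NN
    calc (d : ℝ) ^ 10 = ((d : ℝ) ^ 5) ^ 2 := by ring
      _ ≤ ((2 : ℝ) ^ k) ^ 2 := pow_le_pow_left₀ (by positivity) h1 2
      _ ≤ ((2 : ℝ) ^ k) ^ d := pow_le_pow_right₀ h2 (by omega)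

open scoped Classical in
/-- most colourings have a small loss -/
theorem typ : ∃ d₀ : ℕ, ∀ d : ℕ, d₀ ≤ d → ∀ q : ℕ, Adm d q → ∀ k : ℕ, d ^ 5 ≤ 2 ^ k →
    (((prps d k q).filter fun f => 4 * NN d k / (d : ℝ) ^ 4 ≤ Loss f).card : ℝ) ≤
      ZZ d k q * (1 / (d : ℝ) ^ 4) := by
  obtain ⟨d₀, hp⟩ := pbd
  refine ⟨max d₀ 243, fun d hd q hA k hk => ?_⟩
  have hd0 : d₀ ≤ d := le_trans (le_max_left _ _) hd
  have hd1 : 243 ≤ d := le_trans (le_max_right _ _) hd
  obtain ⟨hdR, -, -, -, hN⟩ := basic_num hd1 hA hk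
  have h1 := hp d hd0 q hA k hk ((prps d k q).filter fun f => 4 * NN d k / (d : ℝ) ^ 4 ≤ Loss f)
    (fun f hf => by
      have := (mem_filter.1 hf).1
      unfold prps at this
      exact (mem_filter.1 this).2) (4 * NN d k / (d : ℝ) ^ 4)
    (fun f hf => (mem_filter.1 hf).2)
  refine h1.trans ?_
  have hZ : 0 ≤ ZZ d k q := by unfold ZZ; positivity
  apply mul_le_mul_of_nonneg_left _ hZ
  have e1 : -(4 * NN d k / (d : ℝ) ^ 4) + 3 * NN d k / (d : ℝ) ^ 4 = -(NN d k / (d : ℝ) ^ 4) := by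
    ring
  have hd4 : (0 : ℝ) < (d : ℝ) ^ 4 := by positivity
  have h2 : (d : ℝ) ^ 4 ≤ NN d k / (d : ℝ) ^ 4 := by
    rw [le_div_iff₀ hd4]
    calc (d : ℝ) ^ 4 * (d : ℝ) ^ 4 = (d : ℝ) ^ 8 := by ring
      _ ≤ (d : ℝ) ^ 10 := pow_le_pow_right₀ (by linarith) (by norm_num)
      _ ≤ _ := hN
  rw [e1, Real.exp_neg, ← one_div]
  apply one_div_le_one_div_of_le hd4
  have h3 := Real.add_one_le_exp (NN d k / (d : ℝ) ^ 4)
  linarith

open scoped Classical in
/-- mean of a functional which is bounded by a multiple of the loss -/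
theorem mean_gen : ∃ d₀ : ℕ, ∀ d : ℕ, d₀ ≤ d → ∀ q : ℕ, Adm d q → ∀ k : ℕ, d ^ 5 ≤ 2 ^ k →
    ∀ (Φ : (Site d k → Fin q) → ℝ) (a b : ℝ), 0 ≤ a → 0 ≤ b → (∀ f, Prp f → Φ f ≤ a * Loss f) →
    (∀ f, Prp f → Φ f ≤ b) →
    ∑ f ∈ prps d k q, Φ f ≤ (4 * a * NN d k + b) / (d : ℝ) ^ 4 * ZZ d k q := by
  obtain ⟨d₀, ht⟩ := typ
  refine ⟨max d₀ 1, fun d hd q hA k hk Φ a b ha hb h1 h2 => ?_⟩
  have hd0 : d₀ ≤ d := le_trans (le_max_left _ _) hd
  have hd1 : 1 ≤ d := le_trans (le_max_right _ _) hd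
  have hdR : (1 : ℝ) ≤ d := by exact_mod_cast hd1
  have h3 := ht d hd0 q hA k hk
  have hNN : 0 ≤ NN d k := by unfold NN; positivity
  have hpt : ∀ f ∈ prps d k q, Φ f ≤ a * (4 * NN d k / (d : ℝ) ^ 4) +
      (if 4 * NN d k / (d : ℝ) ^ 4 ≤ Loss f then b else 0) := by
    intro f hf
    have hf' : Prp f := by
      unfold prps at hf
      exact (mem_filter.1 hf).2
    split_ifs with h
    · have := h2 f hf'
      have h4 : 0 ≤ a * (4 * NN d k / (d : ℝ) ^ 4) := by positivity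
      linarith
    · have h4 := not_le.1 h
      have h5 := mul_le_mul_of_nonneg_left h4.le ha
      have := h1 f hf'
      linarith
  refine (sum_le_sum hpt).trans ?_
  rw [sum_add_distrib, sum_const, nsmul_eq_mul, ← sum_filter, sum_const, nsmul_eq_mul]
  have hZc : ((prps d k q).card : ℝ) = ZZ d k q := rfl
  rw [hZc]
  have h6 := mul_le_mul_of_nonneg_right h3 hb
  have e : (4 * a * NN d k + b) / (d : ℝ) ^ 4 * ZZ d k q =
      ZZ d k q * (a * (4 * NN d k / (d : ℝ) ^ 4)) + ZZ d k q * (1 / (d : ℝ) ^ 4) * b := by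
    field_simp
  rw [e]
  linarith

open scoped Classical in
/-- mean number of deviations -/
theorem mean_dev : ∃ d₀ : ℕ, ∀ d : ℕ, d₀ ≤ d → ∀ q : ℕ, Adm d q → ∀ k : ℕ, d ^ 5 ≤ 2 ^ k →
    ∀ t₁ : Blk d k,
    ∑ f ∈ prps d (k + 1) q, (∑ c, ∑ t : Blk d k, dev f t c + ∑ c, ∑ t : Blk d k, dif f t₁ t c) ≤
      NN d k * (1 / (16 * (d : ℝ) ^ 2)) * ZZ d (k + 1) q := by
  obtain ⟨d₁, hg⟩ := mean_gen
  obtain ⟨d₂, hpd⟩ := pdiff2
  refine ⟨max (max d₁ d₂) 243, fun d hd q hA k hk t₁ => ?_⟩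
  have hd1 : d₁ ≤ d := le_trans (le_trans (le_max_left _ _) (le_max_left _ _)) hd
  have hd2 : d₂ ≤ d := le_trans (le_trans (le_max_right _ _) (le_max_left _ _)) hd
  have hd3 : 243 ≤ d := le_trans (le_max_right _ _) hd
  obtain ⟨hdR, hqR, hqd, hk1, hN⟩ := basic_num hd3 hA hk
  have hdp : 1 ≤ d := by omega
  have hq2 : 2 ≤ q := hA.1
  have hq1 : 1 ≤ q := by omega
  have hkk : d ^ 5 ≤ 2 ^ (k + 1) := le_trans hk (Nat.pow_le_pow_right (by norm_num) (by omega))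
  have hZ : 0 ≤ ZZ d (k + 1) q := by unfold ZZ; positivity
  have hNk : NN d (k + 1) = NN d k * 2 ^ d := by
    unfold NN
    rw [pow_succ, mul_pow]
  have hNp : 0 ≤ NN d k := by unfold NN; positivity
  have hcb : (Fintype.card (Blk d k) : ℝ) = NN d k := card_site d k
  -- the part with the loss
  have hA1 : ∑ f ∈ prps d (k + 1) q, ∑ c, (II f c + QQ f c) ≤
      (4 * (6 * q) * NN d (k + 1) + q * NN d (k + 1)) / (d : ℝ) ^ 4 * ZZ d (k + 1) q :=
    hg d hd1 q hA (k + 1) hkk (fun f => ∑ c, (II f c + QQ f c)) (6 * q) (q * NN d (k + 1))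
      (by positivity) (by unfold NN; positivity) (fun f hf => IQ_le_Loss hq2 hf)
      (fun f _ => IQ_le hdp (by omega) f)
  -- the part with the labels
  have hA2 : ∀ (c : Fin q) (t : Blk d k),
      ∑ f ∈ prps d (k + 1) q, ((if bad c t f then (1 : ℝ) else 0) + dif f t₁ t c) ≤
        2 * (ZZ d (k + 1) q * (1 / (d : ℝ) ^ 5)) := by
    intro c t
    have h1 := hpd d hd2 q hA k hk c t t₁
    have h2 : ∀ f ∈ prps d (k + 1) q, (if bad c t f then (1 : ℝ) else 0) + dif f t₁ t c ≤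
        2 * (if (bad c t f ∨ ¬ (lab1 f t c ↔ lab1 f t₁ c)) then (1 : ℝ) else 0) := by
      intro f _
      unfold dif
      by_cases hb : bad c t f
      · by_cases hl : (lab1 f t c ↔ lab1 f t₁ c) <;> simp [hb, hl] <;> norm_num
      · by_cases hl : (lab1 f t c ↔ lab1 f t₁ c) <;> simp [hb, hl]
    refine (sum_le_sum h2).trans ?_
    rw [← mul_sum, sum_ite, sum_const_zero, add_zero, sum_const, nsmul_eq_mul, mul_one]
    exact mul_le_mul_of_nonneg_left h1 (by norm_num)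
  -- pointwise
  have hpt : ∀ f ∈ prps d (k + 1) q,
      (∑ c, ∑ t : Blk d k, dev f t c + ∑ c, ∑ t : Blk d k, dif f t₁ t c) ≤
      10 * d / 2 ^ d * ∑ c, (II f c + QQ f c) +
        ∑ c, ∑ t : Blk d k, ((if bad c t f then (1 : ℝ) else 0) + dif f t₁ t c) := by
    intro f _
    have h1 := sum_le_sum fun c (_ : c ∈ (univ : Finset (Fin q))) => dev_sum (k := k) hdp hq1 f c
    rw [sum_add_distrib] at h1
    have h2 : ∑ c, 10 * d * (II f c + QQ f c) / 2 ^ d = 10 * d / 2 ^ d * ∑ c, (II f c + QQ f c) := by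
      rw [mul_sum]
      refine sum_congr rfl fun c _ => ?_
      ring
    rw [h2] at h1
    have h3 : ∑ c, ∑ t : Blk d k, ((if bad c t f then (1 : ℝ) else 0) + dif f t₁ t c) =
        ∑ c, ∑ t : Blk d k, (if bad c t f then (1 : ℝ) else 0) + ∑ c, ∑ t : Blk d k, dif f t₁ t c := by
      simp only [sum_add_distrib]
    rw [h3]
    linarith
  refine (sum_le_sum hpt).trans ?_
  rw [sum_add_distrib, ← mul_sum]
  have hA3 : ∑ f ∈ prps d (k + 1) q, ∑ c, ∑ t : Blk d k,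
      ((if bad c t f then (1 : ℝ) else 0) + dif f t₁ t c) ≤
      q * NN d k * (2 * (ZZ d (k + 1) q * (1 / (d : ℝ) ^ 5))) := by
    rw [sum_comm]
    have h1 : ∀ c ∈ (univ : Finset (Fin q)), ∑ f ∈ prps d (k + 1) q, ∑ t : Blk d k,
        ((if bad c t f then (1 : ℝ) else 0) + dif f t₁ t c) ≤
        NN d k * (2 * (ZZ d (k + 1) q * (1 / (d : ℝ) ^ 5))) := by
      intro c _
      rw [sum_comm]
      refine (sum_le_sum fun t _ => hA2 c t).trans (le_of_eq ?_)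
      rw [sum_const, card_univ, nsmul_eq_mul, hcb]
    refine (sum_le_sum h1).trans (le_of_eq ?_)
    rw [sum_const, card_univ, nsmul_eq_mul, Fintype.card_fin]
    ring
  have hA4 := mul_le_mul_of_nonneg_left hA1 (show 0 ≤ 10 * (d : ℝ) / 2 ^ d by positivity)
  have e1 : 10 * (d : ℝ) / 2 ^ d *
      ((4 * (6 * q) * NN d (k + 1) + q * NN d (k + 1)) / (d : ℝ) ^ 4 * ZZ d (k + 1) q) =
      NN d k * (250 * q / (d : ℝ) ^ 3) * ZZ d (k + 1) q := by
    rw [hNk]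
    field_simp
    ring
  rw [e1] at hA4
  have e2 : (q : ℝ) * NN d k * (2 * (ZZ d (k + 1) q * (1 / (d : ℝ) ^ 5))) =
      NN d k * (2 * q / (d : ℝ) ^ 5) * ZZ d (k + 1) q := by
    field_simp
  rw [e2] at hA3
  have h5 : 250 * (q : ℝ) / (d : ℝ) ^ 3 + 2 * q / (d : ℝ) ^ 5 ≤ 1 / (16 * (d : ℝ) ^ 2) := by
    have hd0 : (0 : ℝ) < d := by linarith
    have h6 : 2 * (q : ℝ) / (d : ℝ) ^ 5 ≤ 2 * q / (d : ℝ) ^ 3 := by
      apply div_le_div_of_nonneg_left (by positivity) (by positivity)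
      exact pow_le_pow_right₀ (by linarith) (by norm_num)
    have h7 : 250 * (q : ℝ) / (d : ℝ) ^ 3 + 2 * q / (d : ℝ) ^ 3 ≤ 1 / (16 * (d : ℝ) ^ 2) := by
      rw [← add_div, div_le_div_iff₀ (by positivity) (by positivity)]
      have : (250 * (q : ℝ) + 2 * q) * (16 * (d : ℝ) ^ 2) = (4032 * q) * (d : ℝ) ^ 2 := by ring
      rw [this]
      have h8 : (d : ℝ) ^ 3 = d * (d : ℝ) ^ 2 := by ring
      rw [h8, one_mul]
      apply mul_le_mul_of_nonneg_right _ (by positivity)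
      linarith
    linarith
  have h9 : NN d k * (250 * q / (d : ℝ) ^ 3) * ZZ d (k + 1) q +
      NN d k * (2 * q / (d : ℝ) ^ 5) * ZZ d (k + 1) q ≤
      NN d k * (1 / (16 * (d : ℝ) ^ 2)) * ZZ d (k + 1) q := by
    rw [← add_mul, ← mul_add]
    apply mul_le_mul_of_nonneg_right _ hZ
    exact mul_le_mul_of_nonneg_left h5 hNp
  linarith

end Pool.Agent.LO
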