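import Pool.Agent.Lib_MP_2c424f_lo.Defs

/-!
# Torus basics (piece BASIC)
-/

set_option autoImplicit false

open Finset

namespace Pool.Agent.LO

variable {d k q : ℕ}

/-- number of sites -/
theorem card_site (d k : ℕ) : (Fintype.card (Site d k) : ℝ) = NN d k := by
  unfold NN
  rw [Fintype.card_fun, ZMod.card, Fintype.card_fin]
  push_cast
  rfl

/-- opposite step -/
theorem sv_opp (j : Fin d) (b : Bool) : (sv (j, b) : Site d k) + sv (j, !b) = 0 := by
  unfold sv
  rw [← Pi.single_add]
  cases b <;> simp

/-- reduction mod `2` -/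
private def prm (hk : 1 ≤ k) : ZMod (2 ^ k) →+* ZMod 2 :=
  ZMod.castHom (dvd_pow_self 2 (by omega : k ≠ 0)) (ZMod 2)

private theorem evn_iff_prm (hk : 1 ≤ k) (x : Site d k) : evn x ↔ ∑ i, prm hk (x i) = 0 := by
  unfold evn
  rw [← ZMod.natCast_eq_zero_iff_even]
  have : ((∑ i, (x i).val : ℕ) : ZMod 2) = ∑ i, prm hk (x i) := by
    push_cast
    refine sum_congr rfl fun i _ => ?_
    have h := map_natCast (prm hk) (x i).val
    rw [ZMod.natCast_zmod_val] at h
    exact h.symm
  rw [this]

private theorem prm_sv (hk : 1 ≤ k) (σ : Stp d) : ∑ i, prm hk ((sv σ : Site d k) i) = 1 := by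
  obtain ⟨j, b⟩ := σ
  rw [Finset.sum_eq_single j]
  · cases b
    · simp only [sv, Pi.single_eq_same]
      rw [if_neg (by simp), map_neg, map_one]
      decide
    · simp only [sv, Pi.single_eq_same, if_true, map_one]
  · intro i _ hi
    simp only [sv]
    rw [Pi.single_eq_of_ne hi, map_zero]
  · intro h
    exact absurd (mem_univ j) h

/-- steps change the parity -/
theorem evn_step (hk : 1 ≤ k) (x : Site d k) (σ : Stp d) : evn (x + sv σ) ↔ ¬ evn x := by
  rw [evn_iff_prm hk, evn_iff_prm hk]
  have h : ∑ i, prm hk ((x + (sv σ : Site d k)) i) = ∑ i, prm hk (x i) + 1 := by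
    rw [← prm_sv hk σ, ← sum_add_distrib]
    refine sum_congr rfl fun i _ => ?_
    rw [Pi.add_apply, map_add]
  rw [h]
  generalize ∑ i, prm hk (x i) = a
  revert a
  decide

/-- translation by a step, odd to even -/
theorem sum_step (hk : 1 ≤ k) (σ : Stp d) (φ : Site d k → ℝ) :
    ∑ u ∈ evs d k, φ (u + sv σ) = ∑ v ∈ ods d k, φ v := by
  classical
  obtain ⟨j, b⟩ := σ
  refine Finset.sum_bij' (fun u _ => u + sv (j, b)) (fun v _ => v + sv (j, !b)) ?_ ?_ ?_ ?_ ?_
  · intro u hu
    simp only [evs, ods, mem_filter, mem_univ, true_and] at hu ⊢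
    rw [evn_step hk]
    exact not_not.mpr hu
  · intro v hv
    simp only [evs, ods, mem_filter, mem_univ, true_and] at hv ⊢
    rw [evn_step hk]
    exact hv
  · intro u _
    rw [add_assoc, sv_opp, add_zero]
  · intro v _
    rw [add_assoc, add_comm (sv (j, !b)), sv_opp, add_zero]
  · intro u _
    rfl

/-- translation by a step, even to odd -/
private theorem sum_step' (hk : 1 ≤ k) (σ : Stp d) (φ : Site d k → ℝ) :
    ∑ u ∈ ods d k, φ (u + sv σ) = ∑ v ∈ evs d k, φ v := by
  obtain ⟨j, b⟩ := σ
  rw [← sum_step hk (j, !b) (fun v => φ (v + sv (j, b)))]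
  refine sum_congr rfl fun u _ => ?_
  rw [add_assoc, add_comm (sv (j, !b)), sv_opp, add_zero]

private theorem card_evs_eq (hd : 1 ≤ d) (hk : 1 ≤ k) : ((evs d k).card : ℝ) = (ods d k).card := by
  have h := sum_step hk ((⟨0, hd⟩, true) : Stp d) (fun _ => (1 : ℝ))
  simpa using h

private theorem card_evs_add (d k : ℕ) : ((evs d k).card : ℝ) + (ods d k).card = NN d k := by
  classical
  rw [← card_site, ← Nat.cast_add]
  congr 1
  unfold evs ods
  rw [Finset.card_filter_add_card_filter_not]
  rfl

/-- half of the sites are even -/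
theorem card_evs (hd : 1 ≤ d) (hk : 1 ≤ k) : ((evs d k).card : ℝ) = NN d k / 2 := by
  have h1 := card_evs_eq hd hk
  have h2 := card_evs_add d k
  linarith

/-- half of the sites are odd -/
theorem card_ods (hd : 1 ≤ d) (hk : 1 ≤ k) : ((ods d k).card : ℝ) = NN d k / 2 := by
  have h1 := card_evs_eq hd hk
  have h2 := card_evs_add d k
  linarith

/-- double counting of edges -/
theorem sum_nbr (hk : 1 ≤ k) (F : Site d k → Site d k → ℝ) :
    ∑ u ∈ evs d k, ∑ σ : Stp d, F u (u + sv σ) = ∑ v ∈ ods d k, ∑ σ : Stp d, F (v + sv σ) v := by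
  rw [sum_comm]
  rw [sum_comm (s := ods d k)]
  refine Finset.sum_bij' (fun σ _ => ((σ.1, !σ.2) : Stp d)) (fun σ _ => ((σ.1, !σ.2) : Stp d))
    (fun _ _ => mem_univ _) (fun _ _ => mem_univ _) ?_ ?_ ?_
  · rintro ⟨j, b⟩ _
    simp
  · rintro ⟨j, b⟩ _
    simp
  · rintro ⟨j, b⟩ _
    rw [← sum_step hk (j, b) (fun v => F (v + sv (j, !b)) v)]
    refine sum_congr rfl fun u _ => ?_
    rw [add_assoc, sv_opp, add_zero]

private theorem natCast_ne_zero_of_lt (n : ℕ) (h0 : 0 < n) (h : n < 2 ^ k) : (n : ZMod (2 ^ k)) ≠ 0 := by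
  intro hn
  rw [ZMod.natCast_eq_zero_iff] at hn
  exact absurd (Nat.le_of_dvd h0 hn) (by omega)

/-- the steps are distinct -/
theorem sv_inj (hk : 2 ≤ k) : Function.Injective (sv : Stp d → Site d k) := by
  have h4 : 4 ≤ 2 ^ k := by
    calc 4 = 2 ^ 2 := by norm_num
      _ ≤ 2 ^ k := Nat.pow_le_pow_right (by norm_num) hk
  have h1 : ((1 : ℕ) : ZMod (2 ^ k)) ≠ 0 := natCast_ne_zero_of_lt 1 (by norm_num) (by omega)
  have h2 : ((2 : ℕ) : ZMod (2 ^ k)) ≠ 0 := natCast_ne_zero_of_lt 2 (by norm_num) (by omega)
  push_cast at h1 h2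
  rintro ⟨i, a⟩ ⟨j, b⟩ h
  have hij : i = j := by
    by_contra hne
    have := congrFun h i
    simp only [sv, Pi.single_eq_same] at this
    rw [Pi.single_eq_of_ne hne] at this
    cases a
    · rw [if_neg (by simp)] at this
      exact h1 (by linear_combination -this)
    · rw [if_pos rfl] at this
      exact h1 this
  subst hij
  have := congrFun h i
  simp only [sv, Pi.single_eq_same] at this
  cases a <;> cases b
  · rfl
  · exfalso
    simp only [if_true, Bool.false_eq_true, if_false] at this
    exact h2 (by linear_combination -this)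
  · exfalso
    simp only [if_true, Bool.false_eq_true, if_false] at this
    exact h2 (by linear_combination this)
  · rfl

private theorem sv_at (i j : Fin d) (a b : Bool) :
    (sv (i, a) : Site d k) j = 0 ∨ (i = j ∧ a = b) ∨
      (i = j ∧ (sv (i, a) : Site d k) j = - (if b then 1 else -1)) := by
  by_cases hij : i = j
  · subst hij
    by_cases hab : a = b
    · right; left; exact ⟨rfl, hab⟩
    · right; right
      refine ⟨rfl, ?_⟩
      simp only [sv, Pi.single_eq_same]
      cases a <;> cases b <;> simp_all
  · left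
    simp only [sv]
    rw [Pi.single_eq_of_ne (Ne.symm hij)]

private theorem two_key (hk : 3 ≤ k) (p1 p2 r1 r2 : Stp d)
    (h : (sv p1 : Site d k) + sv p2 = sv r1 + sv r2) (hne : (sv r1 : Site d k) + sv r2 ≠ 0) :
    r1 = p1 ∨ r1 = p2 := by
  by_contra hcon
  push Not at hcon
  obtain ⟨hc1, hc2⟩ := hcon
  obtain ⟨j, b⟩ := r1
  obtain ⟨i1, a1⟩ := p1
  obtain ⟨i2, a2⟩ := p2
  obtain ⟨i3, a3⟩ := r2
  have h8 : 8 ≤ 2 ^ k := by
    calc 8 = 2 ^ 3 := by norm_num
      _ ≤ 2 ^ k := Nat.pow_le_pow_right (by norm_num) hk
  have n1 := natCast_ne_zero_of_lt (k := k) 1 (by norm_num) (by omega)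
  have n2 := natCast_ne_zero_of_lt (k := k) 2 (by norm_num) (by omega)
  have n3 := natCast_ne_zero_of_lt (k := k) 3 (by norm_num) (by omega)
  have n4 := natCast_ne_zero_of_lt (k := k) 4 (by norm_num) (by omega)
  push_cast at n1 n2 n3 n4
  have hj := congrFun h j
  simp only [Pi.add_apply] at hj
  have hr1 : (sv (j, b) : Site d k) j = (if b then 1 else -1) := by
    simp only [sv, Pi.single_eq_same]
  have e1 : (sv (i1, a1) : Site d k) j = 0 ∨
      (sv (i1, a1) : Site d k) j = - (if b then 1 else -1) := by
    rcases sv_at (k := k) i1 j a1 b with h | h | h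
    · left; exact h
    · exfalso; apply hc1; rw [h.1, h.2]
    · right; exact h.2
  have e2 : (sv (i2, a2) : Site d k) j = 0 ∨
      (sv (i2, a2) : Site d k) j = - (if b then 1 else -1) := by
    rcases sv_at (k := k) i2 j a2 b with h | h | h
    · left; exact h
    · exfalso; apply hc2; rw [h.1, h.2]
    · right; exact h.2
  have e3 : (sv (i3, a3) : Site d k) j = 0 ∨ (sv (i3, a3) : Site d k) j = (if b then 1 else -1) := by
    rcases sv_at (k := k) i3 j a3 b with h | h | h
    · left; exact h
    · right
      rw [h.1, h.2]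
      simp only [sv, Pi.single_eq_same]
    · exfalso
      apply hne
      obtain ⟨h1, h2⟩ := h
      subst h1
      have hab : a3 = !b := by
        simp only [sv, Pi.single_eq_same] at h2
        cases a3 <;> cases b
        · exfalso
          simp only [Bool.false_eq_true, if_false] at h2
          exact n2 (by linear_combination -h2)
        · rfl
        · rfl
        · exfalso
          simp only [if_true] at h2
          exact n2 (by linear_combination h2)
      rw [hab]
      exact sv_opp i3 b
  rw [hr1] at hj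
  rcases e1 with e1 | e1 <;> rcases e2 with e2 | e2 <;> rcases e3 with e3 | e3 <;>
    rw [e1, e2, e3] at hj <;> cases b
  all_goals simp only [if_true, Bool.false_eq_true, if_false] at hj
  · exact n1 (by linear_combination hj)
  · exact n1 (by linear_combination -hj)
  · exact n2 (by linear_combination hj)
  · exact n2 (by linear_combination -hj)
  · exact n2 (by linear_combination hj)
  · exact n2 (by linear_combination -hj)
  · exact n3 (by linear_combination hj)
  · exact n3 (by linear_combination -hj)
  · exact n2 (by linear_combination hj)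
  · exact n2 (by linear_combination -hj)
  · exact n3 (by linear_combination hj)
  · exact n3 (by linear_combination -hj)
  · exact n3 (by linear_combination hj)
  · exact n3 (by linear_combination -hj)
  · exact n4 (by linear_combination hj)
  · exact n4 (by linear_combination -hj)

/-- two different even sites have at most two ways to be joined by two steps -/
theorem two_steps (hk : 3 ≤ k) (w : Site d k) (hw : w ≠ 0) :
    (univ.filter fun p : Stp d × Stp d => (sv p.1 : Site d k) + sv p.2 = w).card ≤ 2 := by
  classical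
  rcases (univ.filter fun p : Stp d × Stp d => (sv p.1 : Site d k) + sv p.2 = w).eq_empty_or_nonempty
    with he | ⟨p, hp⟩
  · rw [he]; simp
  · have hp' : (sv p.1 : Site d k) + sv p.2 = w := (mem_filter.mp hp).2
    have hinj := sv_inj (d := d) (k := k) (by omega)
    have hsub : (univ.filter fun p : Stp d × Stp d => (sv p.1 : Site d k) + sv p.2 = w) ⊆
        {p, (p.2, p.1)} := by
      intro r hr
      have hr' : (sv r.1 : Site d k) + sv r.2 = w := (mem_filter.mp hr).2
      rcases two_key hk p.1 p.2 r.1 r.2 (by rw [hp', hr']) (by rw [hr']; exact hw) with h | h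
      · have h2 : r.2 = p.2 := by
          apply hinj
          have : (sv r.1 : Site d k) + sv r.2 = sv p.1 + sv p.2 := by rw [hp', hr']
          rw [h] at this
          exact add_left_cancel this
        rw [mem_insert]
        left
        exact Prod.ext h h2
      · have h2 : r.2 = p.1 := by
          apply hinj
          have : (sv r.1 : Site d k) + sv r.2 = sv p.2 + sv p.1 := by
            rw [hr', add_comm (sv p.2), hp']
          rw [h] at this
          exact add_left_cancel this
        rw [mem_insert, mem_singleton]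
        right
        exact Prod.ext h h2
    exact (card_le_card hsub).trans Finset.card_le_two

/-- the colour pattern -/
private noncomputable def pat (q : ℕ) (b : Prop) [Decidable b] : Finset (Fin q) :=
  if b then univ.filter fun c => c.val < q1 q else univ.filter fun c => ¬ c.val < q1 q

private theorem card_pat_lt (q : ℕ) : (univ.filter fun c : Fin q => c.val < q1 q).card = q1 q := by
  rw [Fin.card_filter_val_lt]
  unfold q1
  exact min_eq_right (Nat.div_le_self q 2)

private theorem card_pat_ge (q : ℕ) : (univ.filter fun c : Fin q => ¬ c.val < q1 q).card = q2 q := by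
  have h1 := Finset.card_filter_add_card_filter_not (s := (univ : Finset (Fin q)))
    (fun c : Fin q => c.val < q1 q)
  rw [card_pat_lt, card_univ, Fintype.card_fin] at h1
  unfold q2
  unfold q1 at h1 ⊢
  omega

/-- pattern colourings -/
theorem ZZ_ge (hd : 1 ≤ d) (hk : 1 ≤ k) (hq : 2 ≤ q) :
    Real.exp (NN d k / 2 * Real.log ((q1 q : ℝ) * q2 q)) ≤ ZZ d k q := by
  classical
  have hq1 : 1 ≤ q1 q := by unfold q1; omega
  have hq2 : 1 ≤ q2 q := by unfold q2; omega
  have hsub : Fintype.piFinset (fun x : Site d k => pat q (evn x)) ⊆ prps d k q := by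
    intro f hf
    rw [Fintype.mem_piFinset] at hf
    simp only [prps, mem_filter, mem_univ, true_and]
    intro x σ he
    have h1 := hf x
    have h2 := hf (x + sv σ)
    have h3 := evn_step hk x σ
    rw [he] at h2
    unfold pat at h1 h2
    by_cases hx : evn x
    · rw [if_pos hx] at h1
      rw [if_neg (by rw [h3]; exact not_not.mpr hx)] at h2
      simp only [mem_filter, mem_univ, true_and] at h1 h2
      exact h2 h1
    · rw [if_neg hx] at h1
      rw [if_pos (h3.mpr hx)] at h2
      simp only [mem_filter, mem_univ, true_and] at h1 h2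
      exact h1 h2
  have hcard : (Fintype.piFinset (fun x : Site d k => pat q (evn x))).card =
      q1 q ^ (evs d k).card * q2 q ^ (ods d k).card := by
    rw [Fintype.card_piFinset]
    have : ∀ x : Site d k, (pat q (evn x)).card = if evn x then q1 q else q2 q := by
      intro x
      unfold pat
      split_ifs
      · exact card_pat_lt q
      · exact card_pat_ge q
    rw [Finset.prod_congr rfl (fun x _ => this x), Finset.prod_ite, Finset.prod_const, Finset.prod_const]
    rfl
  have hle : ((q1 q ^ (evs d k).card * q2 q ^ (ods d k).card : ℕ) : ℝ) ≤ ZZ d k q := by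
    unfold ZZ
    rw [← hcard]
    exact_mod_cast card_le_card hsub
  refine le_trans (le_of_eq ?_) hle
  have hp1 : (0 : ℝ) < q1 q := by exact_mod_cast hq1
  have hp2 : (0 : ℝ) < q2 q := by exact_mod_cast hq2
  push_cast
  rw [Real.log_mul hp1.ne' hp2.ne', mul_add]
  nth_rw 1 [← card_evs hd hk]
  rw [← card_ods hd hk, Real.exp_add, mul_comm ((evs d k).card : ℝ), mul_comm ((ods d k).card : ℝ),
    Real.exp_mul, Real.exp_mul, Real.exp_log hp1, Real.exp_log hp2, Real.rpow_natCast,
    Real.rpow_natCast]

end Pool.Agent.LO
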