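import Pool.Agent.Lib_MP_2c424f_lo.Pair

/-!
# The two-point function of the torus (piece MAINA2)

For every two sites of the torus.  Same parity: `P(f x = f y) ≥ (1 - 1/d^2)/⌈q/2⌉`, by resampling the colour
of `x`.  Different parity: `P(f x = f y) ≤ 1/d^2`.
-/

set_option autoImplicit false

open Finset

namespace Pool.Agent.LO

variable {d k q : ℕ}

theorem step_ne (hk : 1 ≤ k) (x : Site d k) (σ : Stp d) : x + sv σ ≠ x := by
  intro h
  have h1 := evn_step hk x σ
  rw [h] at h1
  by_cases hx : evn x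
  · exact (h1.1 hx) hx
  · exact hx (h1.2 hx)

theorem step_back (x : Site d k) (σ : Stp d) : x + sv σ + sv (σ.1, !σ.2) = x := by
  obtain ⟨j, b⟩ := σ
  rw [add_assoc, sv_opp, add_zero]

theorem SS_update (hk : 1 ≤ k) (f : Site d k → Fin q) (x : Site d k) (c : Fin q) :
    SS (Function.update f x c) x = SS f x := by
  unfold SS
  have h : ∀ σ : Stp d, Function.update f x c (x + sv σ) = f (x + sv σ) := fun σ =>
    Function.update_of_ne (step_ne hk x σ) _ _
  simp only [h]

theorem mem_prps (f : Site d k → Fin q) : f ∈ prps d k q ↔ Prp f := by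
  classical
  unfold prps
  rw [mem_filter]
  simp only [mem_univ, true_and]

theorem self_notin_SS {f : Site d k → Fin q} (hf : Prp f) (x : Site d k) : f x ∉ SS f x := by
  intro h
  unfold SS at h
  rw [mem_image] at h
  obtain ⟨σ, _, h⟩ := h
  exact hf x σ h

theorem Prp_update (hk : 1 ≤ k) {f : Site d k → Fin q} (hf : Prp f) (x : Site d k) (c : Fin q)
    (hc : c ∉ SS f x) : Prp (Function.update f x c) := by
  have hc' : ∀ σ : Stp d, f (x + sv σ) ≠ c := by
    intro σ h
    apply hc
    unfold SS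
    rw [mem_image]
    exact ⟨σ, mem_univ _, h⟩
  intro z σ
  by_cases hz : z = x
  · subst hz
    rw [Function.update_self, Function.update_of_ne (step_ne hk z σ)]
    exact hc' σ
  · rw [Function.update_of_ne hz]
    by_cases hz2 : z + sv σ = x
    · rw [hz2, Function.update_self]
      have h1 := step_back z σ
      rw [hz2] at h1
      have h2 := hc' (σ.1, !σ.2)
      rw [h1] at h2
      exact h2.symm
    · rw [Function.update_of_ne hz2]
      exact hf z σ

open scoped Classical in
/-- resampling the colour of `x` -/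
theorem resample (hk : 1 ≤ k) (x y : Site d k) (hxy : y ≠ x) :
    (((prps d k q).filter fun f => f x = f y).card : ℝ) =
      ∑ f ∈ prps d k q, (if f y ∉ SS f x then (1 : ℝ) / (av f x : ℝ) else 0) := by
  have hcard : ∀ f : Site d k → Fin q, (((SS f x)ᶜ).card : ℝ) = (av f x : ℝ) := by
    intro f
    unfold av
    rw [card_compl, Fintype.card_fin]
  -- left side
  have h1 : (((prps d k q).filter fun f => f x = f y).card : ℝ) =
      ∑ f ∈ prps d k q, ∑ c ∈ (SS f x)ᶜ, (if f x = f y then (1 : ℝ) / (av f x : ℝ) else 0) := by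
    rw [card_filter, Nat.cast_sum]
    refine sum_congr rfl fun f hf => ?_
    rw [mem_prps] at hf
    rw [sum_const, nsmul_eq_mul, hcard]
    have hp : (0 : ℝ) < av f x := by exact_mod_cast av_pos hf x
    split_ifs
    · rw [Nat.cast_one]
      field_simp
    · simp
  -- right side
  have h2 : ∑ f ∈ prps d k q, (if f y ∉ SS f x then (1 : ℝ) / (av f x : ℝ) else 0) =
      ∑ f ∈ prps d k q, ∑ c ∈ (SS f x)ᶜ, (if c = f y then (1 : ℝ) / (av f x : ℝ) else 0) := by
    refine sum_congr rfl fun f _ => ?_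
    rw [sum_ite_eq' ((SS f x)ᶜ) (f y)]
    simp only [mem_compl]
  rw [h1, h2, Finset.sum_sigma', Finset.sum_sigma']
  refine Finset.sum_bij' (fun p _ => ⟨Function.update p.1 x p.2, p.1 x⟩)
    (fun p _ => ⟨Function.update p.1 x p.2, p.1 x⟩) ?_ ?_ ?_ ?_ ?_
  · rintro ⟨f, c⟩ h
    rw [mem_sigma] at h ⊢
    obtain ⟨hf, hc⟩ := h
    simp only [mem_prps, mem_compl] at hf hc ⊢
    rw [SS_update hk]
    exact ⟨Prp_update hk hf x c hc, self_notin_SS hf x⟩
  · rintro ⟨f, c⟩ h
    rw [mem_sigma] at h ⊢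
    obtain ⟨hf, hc⟩ := h
    simp only [mem_prps, mem_compl] at hf hc ⊢
    rw [SS_update hk]
    exact ⟨Prp_update hk hf x c hc, self_notin_SS hf x⟩
  · rintro ⟨f, c⟩ _
    simp
  · rintro ⟨f, c⟩ _
    simp
  · rintro ⟨f, c⟩ _
    simp only
    have e1 : av (Function.update f x c) x = av f x := by
      unfold av
      rw [SS_update hk]
    rw [e1, Function.update_of_ne hxy]

open scoped Classical in
private theorem mainA2_card_transl (τ x y : Site d k) :
    (((prps d k q).filter fun f => f x = f y).card : ℝ) =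
      (((prps d k q).filter fun f => f (x + τ) = f (y + τ)).card : ℝ) := by
  rw [card_filter, card_filter, Nat.cast_sum, Nat.cast_sum]
  exact (sum_transl τ (fun f => ((if f x = f y then 1 else 0 : ℕ) : ℝ))).symm

theorem q2_pos (hq : 2 ≤ q) : 1 ≤ q2 q := by
  unfold q2
  omega

theorem q1_le_q2 (q : ℕ) : q1 q ≤ q2 q := by
  unfold q1 q2
  omega

open scoped Classical in
/-- same parity, odd -/
private theorem mainA2_odd (hk : 1 ≤ k) (hq : 2 ≤ q) (x y : Site d k) (ε : ℝ) (hε : 0 ≤ ε)
    (h : (((prps d k q).filter fun f =>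
        SS f x ≠ SS f y ∨ ¬ (av f x = q1 q ∨ av f x = q2 q)).card : ℝ) ≤ ZZ d k q * ε) :
    (1 - ε) * (1 / (q2 q : ℝ)) * ZZ d k q ≤
      (((prps d k q).filter fun f => f x = f y).card : ℝ) := by
  have hq2 : (1 : ℝ) ≤ q2 q := by exact_mod_cast q2_pos hq
  have hZ : 0 ≤ ZZ d k q := by unfold ZZ; positivity
  by_cases hxy : y = x
  · subst hxy
    have h1 : (((prps d k q).filter fun f => f y = f y).card : ℝ) = ZZ d k q := by
      unfold ZZ
      congr 2
      exact filter_true_of_mem fun _ _ => rfl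
    rw [h1]
    have h2 : 1 / (q2 q : ℝ) ≤ 1 := by
      rw [div_le_one (by linarith)]
      exact hq2
    have h3 : 0 ≤ 1 / (q2 q : ℝ) := by positivity
    have h4 : (1 - ε) * (1 / (q2 q : ℝ)) ≤ 1 := by nlinarith
    nlinarith
  · rw [resample hk x y hxy]
    have hpt : ∀ f ∈ prps d k q, 1 / (q2 q : ℝ) * (1 -
        (if (SS f x ≠ SS f y ∨ ¬ (av f x = q1 q ∨ av f x = q2 q)) then (1 : ℝ) else 0)) ≤
        (if f y ∉ SS f x then (1 : ℝ) / (av f x : ℝ) else 0) := by
      intro f hf
      rw [mem_prps] at hf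
      have hp : (1 : ℝ) ≤ av f x := by exact_mod_cast av_pos hf x
      by_cases hb : SS f x ≠ SS f y ∨ ¬ (av f x = q1 q ∨ av f x = q2 q)
      · rw [if_pos hb, sub_self, mul_zero]
        have h0 : (0 : ℝ) ≤ 1 / (av f x : ℝ) := by positivity
        by_cases hm : f y ∉ SS f x
        · rw [if_pos hm]
          exact h0
        · rw [if_neg hm]
      · rw [if_neg hb, sub_zero, mul_one]
        rw [not_or, not_not, not_not] at hb
        obtain ⟨hS, ha⟩ := hb
        have h1 : f y ∉ SS f x := by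
          rw [hS]
          exact self_notin_SS hf y
        rw [if_pos h1]
        apply one_div_le_one_div_of_le (by linarith)
        have h2 : av f x ≤ q2 q := by
          rcases ha with h | h
          · rw [h]; exact q1_le_q2 q
          · exact h.le
        exact_mod_cast h2
    have h3 := sum_le_sum hpt
    refine le_trans (le_trans ?_ (le_of_eq (mul_sum (prps d k q) _ _))) h3
    rw [sum_sub_distrib, sum_const, nsmul_eq_mul, mul_one]
    have h4 : (((prps d k q).filter fun f =>
        SS f x ≠ SS f y ∨ ¬ (av f x = q1 q ∨ av f x = q2 q)).card : ℝ) =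
      ∑ f ∈ prps d k q,
        (if (SS f x ≠ SS f y ∨ ¬ (av f x = q1 q ∨ av f x = q2 q)) then (1 : ℝ) else 0) := by
      rw [sum_ite, sum_const_zero, add_zero, sum_const, nsmul_eq_mul, mul_one]
    rw [← h4]
    have hZc : ((prps d k q).card : ℝ) = ZZ d k q := rfl
    rw [hZc]
    have h5 : 0 ≤ 1 / (q2 q : ℝ) := by positivity
    have h6 : ZZ d k q - ZZ d k q * ε ≤ ZZ d k q - (((prps d k q).filter fun f =>
        SS f x ≠ SS f y ∨ ¬ (av f x = q1 q ∨ av f x = q2 q)).card : ℝ) := by linarith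
    have h7 := mul_le_mul_of_nonneg_left h6 h5
    refine le_trans (le_of_eq ?_) h7
    ring

open scoped Classical in
/-- different parity: `x` odd, `y` even, `v` a neighbour of `y` -/
private theorem mainA2_diff (x y : Site d k) (σ : Stp d) (ε : ℝ)
    (h : (((prps d k q).filter fun f =>
        SS f x ≠ SS f (y + sv σ) ∨ ¬ (av f x = q1 q ∨ av f x = q2 q)).card : ℝ) ≤ ZZ d k q * ε) :
    (((prps d k q).filter fun f => f x = f y).card : ℝ) ≤ ε * ZZ d k q := by
  have h1 : ((prps d k q).filter fun f => f x = f y) ⊆ ((prps d k q).filter fun f =>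
        SS f x ≠ SS f (y + sv σ) ∨ ¬ (av f x = q1 q ∨ av f x = q2 q)) := by
    intro f hf
    rw [mem_filter] at hf ⊢
    refine ⟨hf.1, Or.inl fun hS => ?_⟩
    have hp := (mem_prps f).1 hf.1
    apply self_notin_SS hp x
    rw [hS, hf.2]
    unfold SS
    rw [mem_image]
    exact ⟨(σ.1, !σ.2), mem_univ _, by rw [step_back]⟩
  have h2 : (((prps d k q).filter fun f => f x = f y).card : ℝ) ≤ (((prps d k q).filter fun f =>
        SS f x ≠ SS f (y + sv σ) ∨ ¬ (av f x = q1 q ∨ av f x = q2 q)).card : ℝ) := by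
    exact_mod_cast card_le_card h1
  linarith

open scoped Classical in
/-- the two-point function of the torus, for every two sites -/
theorem mainA2 : ∃ d₀ : ℕ, ∀ d : ℕ, d₀ ≤ d → ∀ q : ℕ, Adm d q → ∀ k : ℕ, d ^ 5 ≤ 2 ^ k →
    ∀ x y : Site d (k + 1),
    ((evn x ↔ evn y) → (1 - 1 / (d : ℝ) ^ 2) * (1 / (q2 q : ℝ)) * ZZ d (k + 1) q ≤
      (((prps d (k + 1) q).filter fun f => f x = f y).card : ℝ)) ∧
    (¬ (evn x ↔ evn y) → (((prps d (k + 1) q).filter fun f => f x = f y).card : ℝ) ≤
      1 / (d : ℝ) ^ 2 * ZZ d (k + 1) q) := by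
  obtain ⟨d₁, hp⟩ := pair
  refine ⟨max d₁ 2, fun d hd q hA k hk x y => ?_⟩
  have hd1 : d₁ ≤ d := le_trans (le_max_left _ _) hd
  have hd2 : 2 ≤ d := le_trans (le_max_right _ _) hd
  have hdR : (2 : ℝ) ≤ d := by exact_mod_cast hd2
  have hq2 : 2 ≤ q := hA.1
  have hk1 : 1 ≤ k + 1 := by omega
  have hP := hp d hd1 q hA k hk
  have hZ : 0 ≤ ZZ d (k + 1) q := by unfold ZZ; positivity
  have hε : ZZ d (k + 1) q * (1 / (2 * (d : ℝ) ^ 2)) ≤ ZZ d (k + 1) q * (1 / (d : ℝ) ^ 2) := by
    apply mul_le_mul_of_nonneg_left _ hZ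
    apply one_div_le_one_div_of_le (by positivity)
    nlinarith
  have hε0 : 0 ≤ 1 / (d : ℝ) ^ 2 := by positivity
  set σ : Stp d := (⟨0, by omega⟩, true) with hσ
  constructor
  · intro hpar
    by_cases hx : evn x
    · have hy : evn y := hpar.1 hx
      have hx' : ¬ evn (x + sv σ) := fun h => (evn_step hk1 x σ).1 h hx
      have hy' : ¬ evn (y + sv σ) := fun h => (evn_step hk1 y σ).1 h hy
      rw [mainA2_card_transl (sv σ) x y]
      exact mainA2_odd hk1 hq2 _ _ _ hε0 ((hP _ _ hx' hy').trans hε)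
    · have hy : ¬ evn y := fun h => hx (hpar.2 h)
      exact mainA2_odd hk1 hq2 _ _ _ hε0 ((hP _ _ hx hy).trans hε)
  · intro hpar
    by_cases hx : evn x
    · have hy : ¬ evn y := fun h => hpar ⟨fun _ => h, fun _ => hx⟩
      have hx' : ¬ evn (x + sv σ) := fun h => (evn_step hk1 x σ).1 h hx
      have h1 := mainA2_diff y x σ _ ((hP _ _ hy hx').trans hε)
      have h2 : ((prps d (k + 1) q).filter fun f => f x = f y) =
          ((prps d (k + 1) q).filter fun f => f y = f x) :=
        filter_congr fun f _ => eq_comm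
      rw [h2]
      exact h1
    · have hy : evn y := by
        by_contra h
        exact hpar ⟨fun h' => absurd h' hx, fun h' => absurd h' h⟩
      have hy' : ¬ evn (y + sv σ) := fun h => (evn_step hk1 y σ).1 h hy
      exact mainA2_diff x y σ _ ((hP _ _ hx hy').trans hε)

end Pool.Agent.LO
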