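import Pool.Agent.Lib_MP_2c424f_lo.Defs

/-!
# Inequalities for the logarithm (piece LOGI)
-/

set_option autoImplicit false

open Finset

namespace Pool.Agent.LO

theorem q1_pos {q : ℕ} (hq : 2 ≤ q) : 1 ≤ q1 q := by
  unfold q1
  omega

private theorem LogI_q1_pos_real {q : ℕ} (hq : 2 ≤ q) : (1 : ℝ) ≤ q1 q := by
  exact_mod_cast q1_pos hq

private theorem LogI_q2_even {q : ℕ} (h : Even q) : q2 q = q1 q := by
  unfold q1 q2
  obtain ⟨m, rfl⟩ := h
  omega

private theorem LogI_q2_odd {q : ℕ} (h : ¬ Even q) : q2 q = q1 q + 1 := by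
  unfold q1 q2
  rw [Nat.not_even_iff_odd] at h
  obtain ⟨m, rfl⟩ := h
  omega

private theorem LogI_add {q : ℕ} : q1 q + q2 q = q := by
  unfold q1 q2
  omega

private theorem LogI_add_real {q : ℕ} : (q1 q : ℝ) + q2 q = q := by
  exact_mod_cast LogI_add (q := q)

private theorem LogI_q1_le_q2 {q : ℕ} : q1 q ≤ q2 q := by
  unfold q1 q2
  omega

private theorem LogI_q1_le_q2_real {q : ℕ} : (q1 q : ℝ) ≤ q2 q := by
  exact_mod_cast LogI_q1_le_q2 (q := q)

private theorem LogI_sl_even {q : ℕ} (h : Even q) : sl q = 1 / (q1 q : ℝ) := by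
  unfold sl
  rw [if_pos h]

private theorem LogI_sl_odd {q : ℕ} (h : ¬ Even q) : sl q = Real.log ((q2 q : ℝ) / (q1 q : ℝ)) := by
  unfold sl
  rw [if_neg h]

theorem sl_ge {q : ℕ} (hq : 2 ≤ q) : 1 / (q2 q : ℝ) ≤ sl q := by
  have h1 := LogI_q1_pos_real hq
  by_cases h : Even q
  · rw [LogI_sl_even h, LogI_q2_even h]
  · rw [LogI_sl_odd h]
    have h2 : (q2 q : ℝ) = q1 q + 1 := by
      rw [LogI_q2_odd h]; push_cast; ring
    have hp : (0 : ℝ) < (q2 q : ℝ) / (q1 q : ℝ) := by
      rw [h2]; positivity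
    have h3 := Real.one_sub_inv_le_log_of_pos hp
    refine le_trans (le_of_eq ?_) h3
    rw [inv_div, h2]
    field_simp
    ring

theorem sl_le {q : ℕ} (hq : 2 ≤ q) : sl q ≤ 1 / (q1 q : ℝ) := by
  have h1 := LogI_q1_pos_real hq
  by_cases h : Even q
  · rw [LogI_sl_even h]
  · rw [LogI_sl_odd h]
    have h2 : (q2 q : ℝ) = q1 q + 1 := by
      rw [LogI_q2_odd h]; push_cast; ring
    have hp : (0 : ℝ) < (q2 q : ℝ) / (q1 q : ℝ) := by
      rw [h2]; positivity
    have h3 := Real.log_le_sub_one_of_pos hp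
    refine le_trans h3 (le_of_eq ?_)
    rw [h2]
    field_simp
    ring

private theorem LogI_sl_nonneg {q : ℕ} (hq : 2 ≤ q) : 0 ≤ sl q := by
  refine le_trans ?_ (sl_ge hq)
  positivity

/-- `ℓ(x) + ℓ(q - x) = log (q1 q2)` -/
theorem ell_add {q : ℕ} (hq : 2 ≤ q) (x : ℝ) :
    ell q x + ell q (q - x) = Real.log ((q1 q : ℝ) * q2 q) := by
  have h1 := LogI_q1_pos_real hq
  have h12 := LogI_q1_le_q2_real (q := q)
  have hadd := LogI_add_real (q := q)
  have hn1 : (q1 q : ℝ) ≠ 0 := by linarith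
  have hn2 : (q2 q : ℝ) ≠ 0 := by linarith
  rw [Real.log_mul hn1 hn2]
  unfold ell
  by_cases h : Even q
  · have h2 : (q2 q : ℝ) = q1 q := by rw [LogI_q2_even h]
    rw [← hadd, h2]
    ring
  · have h2 : (q2 q : ℝ) = q1 q + 1 := by
      rw [LogI_q2_odd h]; push_cast; ring
    rw [LogI_sl_odd h, Real.log_div hn2 hn1, ← hadd]
    rw [show Real.log (q1 q : ℝ) + (Real.log (q2 q : ℝ) - Real.log (q1 q : ℝ)) * (x - (q1 q : ℝ)) +
      (Real.log (q1 q : ℝ) + (Real.log (q2 q : ℝ) - Real.log (q1 q : ℝ)) *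
        ((q1 q : ℝ) + (q2 q : ℝ) - x - (q1 q : ℝ))) =
      2 * Real.log (q1 q : ℝ) + (Real.log (q2 q : ℝ) - Real.log (q1 q : ℝ)) *
        ((q2 q : ℝ) - (q1 q : ℝ)) by ring]
    have h3 : (q2 q : ℝ) - q1 q = 1 := by rw [h2]; ring
    rw [h3]
    ring

/-- value at `q2` -/
private theorem LogI_ell_q2 {q : ℕ} (hq : 2 ≤ q) (t : ℝ) :
    ell q t = Real.log (q2 q) + sl q * (t - q2 q) := by
  have h1 := LogI_q1_pos_real hq
  have h12 := LogI_q1_le_q2_real (q := q)
  have hn1 : (q1 q : ℝ) ≠ 0 := by linarith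
  have hn2 : (q2 q : ℝ) ≠ 0 := by linarith
  unfold ell
  by_cases h : Even q
  · rw [LogI_q2_even h]
  · have h2 : (q2 q : ℝ) = q1 q + 1 := by
      rw [LogI_q2_odd h]; push_cast; ring
    have h4 : sl q = Real.log (q2 q) - Real.log (q1 q) := by
      rw [LogI_sl_odd h, Real.log_div hn2 hn1]
    have h5 : sl q * (t - (q1 q : ℝ)) = sl q * (t - (q2 q : ℝ)) + sl q := by
      rw [h2]; ring
    rw [h5]
    linarith

/-- tangent inequality -/
private theorem LogI_log_tangent {a b : ℝ} (ha : 0 < a) (hb : 0 < b) :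
    Real.log a ≤ Real.log b + (a - b) / b := by
  have h := Real.log_le_sub_one_of_pos (div_pos ha hb)
  rw [Real.log_div ha.ne' hb.ne'] at h
  have h2 : (a - b) / b = a / b - 1 := by field_simp
  rw [h2]
  linarith

/-- outside the open interval `(q1, q2)` -/
private theorem LogI_outside {q : ℕ} (hq : 2 ≤ q) (a : ℝ) (ha : 0 < a)
    (h : a ≤ q1 q ∨ (q2 q : ℝ) ≤ a) : Real.log a ≤ ell q a := by
  have h1 := LogI_q1_pos_real hq
  have h12 := LogI_q1_le_q2_real (q := q)
  have hp1 : (0 : ℝ) < q1 q := by linarith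
  have hp2 : (0 : ℝ) < q2 q := by linarith
  rcases h with h | h
  · -- a ≤ q1
    have h3 : ell q a = Real.log (q1 q) - sl q * ((q1 q : ℝ) - a) := by
      unfold ell; ring
    rw [h3]
    -- need sl * (q1 - a) ≤ log q1 - log a
    have h4 : sl q * ((q1 q : ℝ) - a) ≤ 1 / (q1 q : ℝ) * ((q1 q : ℝ) - a) :=
      mul_le_mul_of_nonneg_right (sl_le hq) (by linarith)
    have h5 := LogI_log_tangent ha hp1
    have h6 : (a - (q1 q : ℝ)) / q1 q = -(1 / (q1 q : ℝ) * ((q1 q : ℝ) - a)) := by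
      field_simp; ring
    rw [h6] at h5
    linarith
  · rw [LogI_ell_q2 hq]
    have h4 : 1 / (q2 q : ℝ) * (a - q2 q) ≤ sl q * (a - q2 q) :=
      mul_le_mul_of_nonneg_right (sl_ge hq) (by linarith)
    have h5 := LogI_log_tangent ha hp2
    have h6 : (a - (q2 q : ℝ)) / q2 q = 1 / (q2 q : ℝ) * (a - q2 q) := by
      field_simp
    rw [h6] at h5
    linarith

/-- for integers (odd `q`: Bernoulli / concavity) -/
theorem log_le_ell {q : ℕ} (hq : 2 ≤ q) (x : ℕ) (hx : 1 ≤ x) : Real.log x ≤ ell q x := by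
  have hx' : (0 : ℝ) < x := by exact_mod_cast hx
  apply LogI_outside hq _ hx'
  by_cases h : Even q
  · rcases le_total (x : ℝ) (q1 q) with h1 | h1
    · exact Or.inl h1
    · right
      rw [LogI_q2_even h]
      exact h1
  · rcases Nat.lt_or_ge (q1 q) x with h1 | h1
    · right
      rw [LogI_q2_odd h]
      exact_mod_cast h1
    · left
      exact_mod_cast h1

theorem kp_nonneg {q : ℕ} (hq : 2 ≤ q) : 0 ≤ kp q := by
  have h1 := LogI_q1_pos_real hq
  have h12 := LogI_q1_le_q2_real (q := q)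
  unfold kp
  have h := one_div_le_one_div_of_le (by linarith : (0 : ℝ) < q1 q) h12
  linarith

/-- for real arguments, with an error proportional to the distance to any integer -/
theorem log_le_ell_real {q : ℕ} (hq : 2 ≤ q) (a : ℝ) (ha : 0 < a) (n : ℤ) :
    Real.log a ≤ ell q a + kp q * |a - n| := by
  have h1 := LogI_q1_pos_real hq
  have h12 := LogI_q1_le_q2_real (q := q)
  have hp1 : (0 : ℝ) < q1 q := by linarith
  have hp2 : (0 : ℝ) < q2 q := by linarith
  have hk := kp_nonneg hq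
  by_cases hout : a ≤ q1 q ∨ (q2 q : ℝ) ≤ a
  · have h3 := LogI_outside hq a ha hout
    have h4 : 0 ≤ kp q * |a - n| := mul_nonneg hk (abs_nonneg _)
    linarith
  · push Not at hout
    obtain ⟨ha1, ha2⟩ := hout
    have hev : ¬ Even q := by
      intro h
      rw [LogI_q2_even h] at ha2
      linarith
    have h2 : (q2 q : ℝ) = q1 q + 1 := by
      rw [LogI_q2_odd hev]; push_cast; ring
    rcases le_or_gt n (q1 q : ℤ) with hn | hn
    · have hn' : (n : ℝ) ≤ q1 q := by exact_mod_cast hn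
      have h5 : a - q1 q ≤ |a - n| := by
        refine le_trans ?_ (le_abs_self _)
        linarith
      have h6 : kp q * (a - q1 q) ≤ kp q * |a - n| := mul_le_mul_of_nonneg_left h5 hk
      have h7 := LogI_log_tangent ha hp1
      have h8 : 1 / (q2 q : ℝ) * (a - q1 q) ≤ sl q * (a - q1 q) :=
        mul_le_mul_of_nonneg_right (sl_ge hq) (by linarith)
      have h9 : ell q a = Real.log (q1 q) + sl q * (a - q1 q) := rfl
      have h10 : kp q * (a - q1 q) = (a - q1 q) / q1 q - 1 / (q2 q : ℝ) * (a - q1 q) := by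
        unfold kp; ring
      linarith
    · have hn' : (q2 q : ℝ) ≤ n := by
        rw [h2]; exact_mod_cast hn
      have h5 : (q2 q : ℝ) - a ≤ |a - n| := by
        rw [abs_sub_comm]
        refine le_trans ?_ (le_abs_self _)
        linarith
      have h6 : kp q * ((q2 q : ℝ) - a) ≤ kp q * |a - n| := mul_le_mul_of_nonneg_left h5 hk
      have h7 := LogI_log_tangent ha hp2
      have h8 : sl q * ((q2 q : ℝ) - a) ≤ 1 / (q1 q : ℝ) * ((q2 q : ℝ) - a) :=
        mul_le_mul_of_nonneg_right (sl_le hq) (by linarith)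
      have h9 : ell q a = Real.log (q2 q) - sl q * ((q2 q : ℝ) - a) := by
        rw [LogI_ell_q2 hq]; ring
      have h10 : kp q * ((q2 q : ℝ) - a) =
          1 / (q1 q : ℝ) * ((q2 q : ℝ) - a) + (a - q2 q) / q2 q := by
        unfold kp; ring
      linarith

/-- `kp` is at most a twentieth of the slope -/
theorem kp_le {q : ℕ} (hq : 2 ≤ q) (h : Even q ∨ 41 ≤ q) : 20 * kp q ≤ sl q := by
  have h1 := LogI_q1_pos_real hq
  by_cases he : Even q
  · have h2 : kp q = 0 := by
      unfold kp; rw [LogI_q2_even he]; ring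
    rw [h2]
    have := LogI_sl_nonneg hq
    linarith
  · have h41 : 41 ≤ q := by
      rcases h with h | h
      · exact absurd h he
      · exact h
    have h20 : (20 : ℝ) ≤ q1 q := by
      have : 20 ≤ q1 q := by unfold q1; omega
      exact_mod_cast this
    have h2 : (q2 q : ℝ) = q1 q + 1 := by
      rw [LogI_q2_odd he]; push_cast; ring
    refine le_trans ?_ (sl_ge hq)
    unfold kp
    rw [h2, div_sub_div _ _ (by linarith) (by linarith), ← mul_div_assoc,
      div_le_div_iff₀ (by nlinarith) (by linarith)]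
    nlinarith

private theorem LogI_log_117 : Real.log (117 / 100 : ℝ) ≤ 162 / 1000 := by
  rw [Real.log_le_iff_le_exp (by norm_num)]
  have h := Real.quadratic_le_exp_of_nonneg (show (0 : ℝ) ≤ 162 / 1000 by norm_num)
  refine le_trans ?_ h
  norm_num

private theorem LogI_gap {q : ℕ} (hq : 2 ≤ q) (h : Even q ∨ 41 ≤ q) (t : ℝ)
    (ht : (6 / 10 : ℝ) * q ≤ t) : (8 / 1000 : ℝ) ≤ ell q t - Real.log t := by
  have h1 := LogI_q1_pos_real hq
  have h12 := LogI_q1_le_q2_real (q := q)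
  have hadd := LogI_add_real (q := q)
  have hp2 : (0 : ℝ) < q2 q := by linarith
  have hw : (117 / 100 : ℝ) * q2 q ≤ t := by
    refine le_trans ?_ ht
    by_cases he : Even q
    · have h2 : (q2 q : ℝ) = q1 q := by rw [LogI_q2_even he]
      rw [← hadd, h2]
      linarith
    · have h41 : 41 ≤ q := by
        rcases h with h | h
        · exact absurd h he
        · exact h
      have h20 : (20 : ℝ) ≤ q1 q := by
        have : 20 ≤ q1 q := by unfold q1; omega
        exact_mod_cast this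
      have h2 : (q2 q : ℝ) = q1 q + 1 := by
        rw [LogI_q2_odd he]; push_cast; ring
      rw [← hadd, h2]
      linarith
  have ht0 : 0 < t := by nlinarith
  rw [LogI_ell_q2 hq]
  have h4 : 1 / (q2 q : ℝ) * (t - q2 q) ≤ sl q * (t - q2 q) :=
    mul_le_mul_of_nonneg_right (sl_ge hq) (by nlinarith)
  -- log t ≤ log (1.17 q2) + (t - 1.17 q2) / (1.17 q2)
  have hc : (0 : ℝ) < 117 / 100 * q2 q := by positivity
  have h5 := LogI_log_tangent ht0 hc
  rw [Real.log_mul (by norm_num) hp2.ne'] at h5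
  have h6 := LogI_log_117
  have h7 : 1 / (q2 q : ℝ) * (t - q2 q) = t / q2 q - 1 := by field_simp
  have h8 : (t - 117 / 100 * (q2 q : ℝ)) / (117 / 100 * q2 q) = 100 / 117 * (t / q2 q) - 1 := by
    field_simp
    try ring
  rw [h8] at h5
  rw [h7] at h4
  have h9 : (117 / 100 : ℝ) ≤ t / q2 q := by
    rw [le_div_iff₀ hp2]; exact hw
  linarith

/-- if the mean of the `x v` is at least `0.6 q` then the mean gap is at least `0.008`
(Jensen, and `ell q t - log t ≥ 0.008` for real `t ≥ 0.6 q`) -/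
theorem gap_sum {q : ℕ} (hq : 2 ≤ q) (h : Even q ∨ 41 ≤ q) {ι : Type*} (A : Finset ι) (x : ι → ℕ)
    (hx : ∀ v ∈ A, 1 ≤ x v) (hs : (6 / 10 : ℝ) * q * A.card ≤ ∑ v ∈ A, (x v : ℝ)) :
    (8 / 1000 : ℝ) * A.card ≤ ∑ v ∈ A, (ell q (x v) - Real.log (x v)) := by
  rcases A.eq_empty_or_nonempty with hA | hA
  · subst hA
    simp
  have hc : (0 : ℝ) < A.card := by exact_mod_cast hA.card_pos
  set t : ℝ := (∑ v ∈ A, (x v : ℝ)) / A.card with ht
  have hsum : ∑ v ∈ A, (x v : ℝ) = A.card * t := by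
    rw [ht]; field_simp
  have ht6 : (6 / 10 : ℝ) * q ≤ t := by
    rw [ht, le_div_iff₀ hc]
    exact hs
  have hq' : (2 : ℝ) ≤ q := by exact_mod_cast hq
  have ht0 : 0 < t := by linarith
  have hg := LogI_gap hq h t ht6
  have hlog : ∑ v ∈ A, Real.log (x v) ≤ A.card * Real.log t := by
    have h1 : ∀ v ∈ A, Real.log (x v) ≤ Real.log t + ((x v : ℝ) - t) / t := by
      intro v hv
      apply LogI_log_tangent _ ht0
      exact_mod_cast hx v hv
    refine le_trans (Finset.sum_le_sum h1) (le_of_eq ?_)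
    rw [Finset.sum_add_distrib, ← Finset.sum_div, Finset.sum_sub_distrib, hsum]
    simp
  have hell : ∑ v ∈ A, ell q (x v) = A.card * ell q t := by
    unfold ell
    rw [Finset.sum_add_distrib, ← Finset.mul_sum, Finset.sum_sub_distrib, hsum]
    simp only [Finset.sum_const, nsmul_eq_mul]
    ring
  rw [Finset.sum_sub_distrib, hell]
  have : (8 / 1000 : ℝ) * A.card ≤ A.card * (ell q t - Real.log t) := by
    nlinarith
  nlinarith

/-- distance of `gg` to `{0, 1}` -/
theorem gg_near {ε n : ℝ} (he : 0 ≤ ε) (h0 : 0 ≤ n) (h1 : n ≤ 1) :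
    ∃ b : ℤ, |gg ε n - b| ≤ 5 / 2 * (n * (1 - n)) + ε := by
  unfold gg
  rcases le_or_gt n (1 / 3) with h | h
  · refine ⟨1, ?_⟩
    rw [abs_le]
    push_cast
    constructor <;> nlinarith [mul_nonneg h0 (sub_nonneg.mpr h), mul_nonneg h0 h0]
  · refine ⟨0, ?_⟩
    rw [abs_le]
    push_cast
    have h2 : 0 ≤ 1 - n := by linarith
    constructor
    · nlinarith [mul_nonneg h0 h2, sq_nonneg (1 - n)]
    · nlinarith [mul_nonneg h2 (by linarith : 0 ≤ n - 1 / 3), mul_nonneg h2 h2]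

/-- the violation cost for small `n` -/
theorem neg_log_gg_small {ε n : ℝ} (he : 0 ≤ ε) (h0 : 0 ≤ n) (h1 : n ≤ 1 / 2) :
    -Real.log (gg ε n) ≤ 3 * n := by
  unfold gg
  have hp : (0 : ℝ) < 1 - n := by linarith
  have h2 : Real.log ((1 - n) ^ 2) ≤ Real.log ((1 - n) ^ 2 + ε) :=
    Real.log_le_log (by positivity) (by linarith)
  rw [Real.log_pow] at h2
  push_cast at h2
  have h3 : -(2 * n) * Real.log 2 ≤ Real.log (1 - n) := by
    have hconc := strictConcaveOn_log_Ioi.concaveOn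
    have h4 := hconc.2 (show (1 : ℝ) ∈ Set.Ioi 0 by simp)
      (show (1 / 2 : ℝ) ∈ Set.Ioi 0 by simp) (show (0 : ℝ) ≤ 1 - 2 * n by linarith)
      (show (0 : ℝ) ≤ 2 * n by linarith) (by ring)
    simp only [smul_eq_mul, Real.log_one, mul_zero, zero_add] at h4
    have h5 : (1 - 2 * n) * 1 + 2 * n * (1 / 2) = 1 - n := by ring
    rw [h5] at h4
    have h6 : Real.log (1 / 2) = -Real.log 2 := by
      rw [one_div, Real.log_inv]
    rw [h6] at h4
    linarith
  have h7 : Real.log 2 < 0.6931471808 := Real.log_two_lt_d9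
  nlinarith

/-- the violation cost in general -/
theorem neg_log_gg_le {ε n : ℝ} (he : 0 < ε) : -Real.log (gg ε n) ≤ Real.log (1 / ε) := by
  unfold gg
  rw [one_div, Real.log_inv]
  have h : Real.log ε ≤ Real.log ((1 - n) ^ 2 + ε) :=
    Real.log_le_log he (by nlinarith [sq_nonneg (1 - n)])
  linarith

end Pool.Agent.LO
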