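import Pool.Agent.Lib_MP_2c424f_lo.Stat

/-!
# The uniform random set `R` (piece PROB)
-/

set_option autoImplicit false

open Finset

namespace Pool.Agent.LO

variable {d k q : ℕ}

theorem ER_add (F G : Finset (Site d k) → ℝ) : ER (fun R => F R + G R) = ER F + ER G := by
  simp only [ER, Finset.sum_add_distrib, add_div]

theorem ER_mul (c : ℝ) (F : Finset (Site d k) → ℝ) : ER (fun R => c * F R) = c * ER F := by
  simp only [ER, ← Finset.mul_sum, mul_div_assoc]

theorem ER_sum {ι : Type*} (A : Finset ι) (F : ι → Finset (Site d k) → ℝ) :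
    ER (fun R => ∑ x ∈ A, F x R) = ∑ x ∈ A, ER (F x) := by
  simp only [ER]
  rw [Finset.sum_comm, Finset.sum_div]

theorem ER_const (c : ℝ) : ER (fun _ : Finset (Site d k) => c) = c := by
  simp only [ER]
  rw [Finset.sum_const, Finset.card_univ, Fintype.card_finset, nsmul_eq_mul]
  push_cast
  have : (0 : ℝ) < 2 ^ Fintype.card (Site d k) := by positivity
  field_simp

theorem ER_mono {F G : Finset (Site d k) → ℝ} (h : ∀ R, F R ≤ G R) : ER F ≤ ER G := by
  simp only [ER]
  exact div_le_div_of_nonneg_right (Finset.sum_le_sum fun R _ => h R) (by positivity)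

open scoped Classical in
/-- a sum over the sites outside `R` as a sum over all sites -/
theorem sum_notin (A R : Finset (Site d k)) (φ : Site d k → ℝ) :
    ∑ u ∈ A.filter (fun u => u ∉ R), φ u = ∑ u ∈ A, if u ∉ R then φ u else 0 := by
  rw [Finset.sum_filter]

open scoped Classical in
/-- probability to avoid a set -/
theorem ER_disj (A : Finset (Site d k)) :
    ER (fun R => if Disjoint A R then (1 : ℝ) else 0) = (1 / 2 : ℝ) ^ A.card := by
  simp only [ER]
  rw [Finset.sum_boole]
  have h1 : (univ.filter fun R : Finset (Site d k) => Disjoint A R) = Aᶜ.powerset := by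
    ext R
    simp only [Finset.mem_filter, Finset.mem_univ, true_and, Finset.mem_powerset]
    rw [disjoint_comm]
    exact (Finset.subset_compl_iff_disjoint_right).symm
  rw [h1, Finset.card_powerset, Finset.card_compl]
  have h2 : A.card ≤ Fintype.card (Site d k) := Finset.card_le_univ A
  push_cast
  rw [pow_sub₀ _ (by norm_num) h2]
  have : (0 : ℝ) < 2 ^ Fintype.card (Site d k) := by positivity
  field_simp
  rw [← mul_pow]
  norm_num

open scoped Classical in
theorem ER_notin (u : Site d k) : ER (fun R => if u ∉ R then (1 : ℝ) else 0) = 1 / 2 := by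
  have h := ER_disj (d := d) (k := k) {u}
  rw [Finset.card_singleton, pow_one] at h
  rw [← h]
  congr 1
  ext R
  simp only [Finset.disjoint_singleton_left]

open scoped Classical in
theorem ER_in (u : Site d k) : ER (fun R => if u ∈ R then (1 : ℝ) else 0) = 1 / 2 := by
  have h := ER_add (fun R : Finset (Site d k) => if u ∈ R then (1 : ℝ) else 0)
    (fun R => if u ∉ R then (1 : ℝ) else 0)
  have h2 : (fun R : Finset (Site d k) => (if u ∈ R then (1 : ℝ) else 0)
      + (if u ∉ R then (1 : ℝ) else 0)) = fun _ => 1 := by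
    ext R
    by_cases hu : u ∈ R <;> simp [hu]
  rw [h2, ER_const, ER_notin] at h
  linarith

/-- the neighbours of `v` with colour `c` -/
private noncomputable def probA (f : Site d k → Fin q) (v : Site d k) (c : Fin q) :
    Finset (Site d k) :=
  (univ.filter fun σ : Stp d => f (v + sv σ) = c).image fun σ => v + sv σ

private theorem probA_card (hk : 2 ≤ k) (f : Site d k → Fin q) (v : Site d k) (c : Fin q) :
    (probA f v c).card = yy f v c := by
  unfold probA yy
  apply Finset.card_image_of_injective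
  intro a b h
  exact sv_inj hk (add_left_cancel h)

private theorem probA_mem (f : Site d k → Fin q) (v : Site d k) (c : Fin q) (σ : Stp d)
    (h : f (v + sv σ) = c) : v + sv σ ∈ probA f v c := by
  unfold probA
  exact Finset.mem_image_of_mem _ (by simp [h])

open scoped Classical in
private theorem UU_eq (f : Site d k → Fin q) (R : Finset (Site d k)) (v : Site d k) (c : Fin q) :
    UU f R v c = if Disjoint (probA f v c) R then 1 else 0 := by
  unfold UU
  have h : (∃ σ : Stp d, v + sv σ ∈ R ∧ f (v + sv σ) = c) ↔ ¬ Disjoint (probA f v c) R := by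
    rw [Finset.not_disjoint_iff]
    constructor
    · rintro ⟨σ, h1, h2⟩
      exact ⟨_, probA_mem f v c σ h2, h1⟩
    · rintro ⟨x, h1, h2⟩
      unfold probA at h1
      rw [Finset.mem_image] at h1
      obtain ⟨σ, h3, rfl⟩ := h1
      exact ⟨σ, h2, (Finset.mem_filter.mp h3).2⟩
  by_cases hd : Disjoint (probA f v c) R
  · rw [if_neg (by rw [h]; exact not_not.mpr hd), if_pos hd]
  · rw [if_pos (h.mpr hd), if_neg hd]

/-- `UU` as an avoidance event -/
theorem ER_UU (hk : 2 ≤ k) (f : Site d k → Fin q) (v : Site d k) (c : Fin q) :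
    ER (fun R => UU f R v c) = (1 / 2 : ℝ) ^ yy f v c := by
  classical
  simp only [UU_eq]
  rw [ER_disj, probA_card hk]

open scoped Classical in
/-- if `u` is a neighbour of `v` with the colour `c` then `UU = 1` forces `u ∉ R` -/
theorem ER_UU_own (hk : 2 ≤ k) (f : Site d k → Fin q) (u : Site d k) (σ : Stp d) :
    ER (fun R => if u ∉ R then UU f R (u + sv σ) (f u) else 0) = (1 / 2 : ℝ) ^ yy f (u + sv σ) (f u) := by
  rw [← ER_UU hk]
  congr 1
  ext R
  by_cases hu : u ∈ R
  · rw [if_neg (not_not.mpr hu)]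
    unfold UU
    rw [if_pos]
    have h : u + sv σ + sv (σ.1, !σ.2) = u := by
      rw [add_assoc, sv_opp, add_zero]
    exact ⟨(σ.1, !σ.2), by rw [h]; exact hu, by rw [h]⟩
  · rw [if_pos hu]

open scoped Classical in
/-- joint avoidance, lower bound -/
theorem ER_UU_ge (hk : 2 ≤ k) (f : Site d k → Fin q) (u v : Site d k) (c : Fin q) :
    1 / 2 * (1 / 2 : ℝ) ^ yy f v c ≤ ER (fun R => if u ∉ R then UU f R v c else 0) := by
  have h : (fun R : Finset (Site d k) => if u ∉ R then UU f R v c else 0) =
      fun R => if Disjoint (insert u (probA f v c)) R then (1 : ℝ) else 0 := by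
    ext R
    rw [UU_eq]
    by_cases hu : u ∈ R
    · rw [if_neg (not_not.mpr hu), if_neg]
      rw [Finset.disjoint_insert_left]
      exact fun h => h.1 hu
    · rw [if_pos hu]
      simp only [Finset.disjoint_insert_left, hu, not_false_eq_true, true_and]
  rw [h, ER_disj, ← probA_card hk f v c, ← pow_succ']
  exact pow_le_pow_of_le_one (by norm_num) (by norm_num) (Finset.card_insert_le _ _)

private theorem nn_sub_mm (f : Site d k → Fin q) (R : Finset (Site d k)) (u : Site d k)
    (c : Fin q) : nn f R u c - mm f u c =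
      ∑ σ : Stp d, (UU f R (u + sv σ) c - zz f (u + sv σ) c) / (2 * d) := by
  unfold nn mm
  rw [← sub_div, ← Finset.sum_sub_distrib, Finset.sum_div]

open scoped Classical in
private theorem ER_diff_ge (hk : 2 ≤ k) (f : Site d k → Fin q) (u v : Site d k) (c : Fin q) :
    1 / 2 * (if yy f v c = 0 then 0 else (1 / 2 : ℝ) ^ yy f v c) ≤
      ER (fun R => if u ∉ R then (UU f R v c - zz f v c) else 0) := by
  by_cases h0 : yy f v c = 0
  · rw [if_pos h0, mul_zero]
    have h1 : (0 : ℝ) = ER (fun _ : Finset (Site d k) => (0 : ℝ)) := (ER_const 0).symm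
    refine le_of_eq_of_le h1 (ER_mono fun R => ?_)
    by_cases hu : u ∉ R
    · rw [if_pos hu]
      have := zz_le_UU f R v c
      linarith
    · rw [if_neg hu]
  · rw [if_neg h0]
    have hz : zz f v c = 0 := by
      unfold zz
      rw [if_pos ((mem_SS f v c).mpr h0)]
    rw [hz]
    simp only [sub_zero]
    exact ER_UU_ge hk f u v c

open scoped Classical in
private theorem G2_eq (f : Site d k → Fin q) :
    G2 f = ∑ u ∈ evs d k, ∑ c, ∑ σ : Stp d,
      ER (fun R => if u ∉ R then (UU f R (u + sv σ) c - zz f (u + sv σ) c) else 0) / (2 * d) := by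
  have h : (fun R : Finset (Site d k) => ∑ u ∈ (evs d k).filter (fun u => u ∉ R), ∑ c,
      (nn f R u c - mm f u c)) = fun R => ∑ u ∈ evs d k, ∑ c, ∑ σ : Stp d,
      1 / (2 * (d : ℝ)) * (if u ∉ R then (UU f R (u + sv σ) c - zz f (u + sv σ) c) else 0) := by
    ext R
    rw [sum_notin]
    refine Finset.sum_congr rfl fun u _ => ?_
    by_cases hu : u ∉ R
    · simp only [hu, not_false_eq_true, if_true]
      refine Finset.sum_congr rfl fun c _ => ?_
      rw [nn_sub_mm]
      refine Finset.sum_congr rfl fun σ _ => ?_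
      ring
    · simp only [hu, if_false, mul_zero, Finset.sum_const_zero]
  unfold G2
  rw [h, ER_sum]
  refine Finset.sum_congr rfl fun u _ => ?_
  rw [ER_sum]
  refine Finset.sum_congr rfl fun c _ => ?_
  rw [ER_sum]
  refine Finset.sum_congr rfl fun σ _ => ?_
  rw [ER_mul]
  ring

/-- `G2 ≥ Q / 2` -/
theorem G2_ge (hd : 1 ≤ d) (hk : 2 ≤ k) (f : Site d k → Fin q) : (∑ c, QQ f c) / 2 ≤ G2 f := by
  classical
  rw [G2_eq]
  have hd' : (0 : ℝ) < 2 * d := by
    have : (1 : ℝ) ≤ d := by exact_mod_cast hd
    linarith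
  have h1 : ∀ c, QQ f c = ∑ u ∈ evs d k, ∑ σ : Stp d,
      (if yy f (u + sv σ) c = 0 then 0 else (1 / 2 : ℝ) ^ yy f (u + sv σ) c) / (2 * d) := by
    intro c
    have h := sum_nbr (d := d) (k := k) (by omega) (fun _ v =>
      (if yy f v c = 0 then 0 else (1 / 2 : ℝ) ^ yy f v c) / (2 * d))
    rw [h]
    unfold QQ
    refine Finset.sum_congr rfl fun v _ => ?_
    rw [Finset.sum_const, Finset.card_univ, Fintype.card_prod, Fintype.card_fin,
      Fintype.card_bool, nsmul_eq_mul]
    push_cast
    field_simp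
  simp only [h1]
  rw [Finset.sum_div, Finset.sum_comm' (s := evs d k) (t := fun _ => univ) (t' := univ)
    (s' := fun _ => evs d k) (by simp)]
  refine Finset.sum_le_sum fun c _ => ?_
  rw [Finset.sum_div]
  refine Finset.sum_le_sum fun u _ => ?_
  rw [Finset.sum_div]
  refine Finset.sum_le_sum fun σ _ => ?_
  have h := ER_diff_ge hk f u (u + sv σ) c
  calc _ = (1 / 2 * (if yy f (u + sv σ) c = 0 then 0 else (1 / 2 : ℝ) ^ yy f (u + sv σ) c))
        / (2 * d) := by ring
    _ ≤ _ := div_le_div_of_nonneg_right h hd'.le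

/-- `G1 + G2 ≥ I / 2`, from `m (1 - m) ≤ n (1 - n) + (n - m)` -/
theorem G12_ge (f : Site d k → Fin q) : (∑ c, II f c) / 2 ≤ G1 f + G2 f := by
  classical
  unfold G1 G2
  rw [← ER_add]
  have h1 : (∑ c, II f c) / 2 = ER (fun R => ∑ u ∈ (evs d k).filter (fun u => u ∉ R),
      ∑ c, mm f u c * (1 - mm f u c)) := by
    simp only [sum_notin]
    rw [ER_sum]
    unfold II
    rw [Finset.sum_comm, Finset.sum_div]
    refine Finset.sum_congr rfl fun u _ => ?_
    have h2 : (fun R : Finset (Site d k) => if u ∉ R then ∑ c, mm f u c * (1 - mm f u c) else 0) =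
        fun R => (∑ c, mm f u c * (1 - mm f u c)) * (if u ∉ R then 1 else 0) := by
      ext R
      by_cases hu : u ∉ R <;> simp [hu]
    rw [h2, ER_mul, ER_notin]
    ring
  rw [h1]
  apply ER_mono
  intro R
  rw [← Finset.sum_add_distrib]
  refine Finset.sum_le_sum fun u _ => ?_
  rw [← Finset.sum_add_distrib]
  refine Finset.sum_le_sum fun c _ => ?_
  have h2 := mm_le_nn f R u c
  have h3 := nn_le_one f R u c
  nlinarith

theorem G1_nonneg (f : Site d k → Fin q) : 0 ≤ G1 f := by
  classical
  have h1 : (0 : ℝ) = ER (fun _ : Finset (Site d k) => (0 : ℝ)) := (ER_const 0).symm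
  rw [h1]
  unfold G1
  apply ER_mono
  intro R
  refine Finset.sum_nonneg fun u _ => Finset.sum_nonneg fun c _ => ?_
  exact mul_nonneg (nn_nonneg f R u c) (by have := nn_le_one f R u c; linarith)

theorem G2_nonneg (f : Site d k → Fin q) : 0 ≤ G2 f := by
  classical
  have h1 : (0 : ℝ) = ER (fun _ : Finset (Site d k) => (0 : ℝ)) := (ER_const 0).symm
  rw [h1]
  unfold G2
  apply ER_mono
  intro R
  refine Finset.sum_nonneg fun u _ => Finset.sum_nonneg fun c _ => ?_
  have := mm_le_nn f R u c
  linarith

end Pool.Agent.LO
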