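import Pool.Agent.Lib_MP_2c424f_lo.Dom
import Pool.Agent.Lib_MP_2c424f_lo.Prob
import Pool.Agent.Lib_MP_2c424f_lo.LogI

/-!
# The main expectation (piece MAIN)

`E T2 = ½ ∑_v log |SS f v| ≤ ½ ∑_v ℓ(q - x_v)` (`avg_vv`, `ER_in`), `log aa ≤ ℓ(aa) + κ |aa - k_u|`,
`ℓ` is affine, `aa = q - ∑ n - ∑ n (1 - n) + q ε`, `∑_u ∑_c m_u^c = ∑_v x_v` (`sum_nbr`).
-/

set_option autoImplicit false

open Finset

namespace Pool.Agent.LO

variable {d k q s : ℕ}

open scoped Classical in
/-- a sum over the sites of `R`, in the mean -/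
private theorem Main23_ER_in (A : Finset (Site d k)) (φ : Site d k → ℝ) :
    ER (fun R => ∑ u ∈ A.filter (fun u => u ∈ R), φ u) = (∑ u ∈ A, φ u) / 2 := by
  have h1 : (fun R : Finset (Site d k) => ∑ u ∈ A.filter (fun u => u ∈ R), φ u) =
      fun R => ∑ u ∈ A, φ u * (if u ∈ R then (1 : ℝ) else 0) := by
    funext R
    rw [Finset.sum_filter]
    refine Finset.sum_congr rfl fun u _ => ?_
    split_ifs <;> simp
  rw [h1, ER_sum, Finset.sum_div]
  refine Finset.sum_congr rfl fun u _ => ?_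
  rw [ER_mul, ER_in]
  ring

open scoped Classical in
/-- a sum over the sites outside `R`, in the mean -/
private theorem Main23_ER_out (A : Finset (Site d k)) (φ : Site d k → ℝ) :
    ER (fun R => ∑ u ∈ A.filter (fun u => u ∉ R), φ u) = (∑ u ∈ A, φ u) / 2 := by
  have h1 : (fun R : Finset (Site d k) => ∑ u ∈ A.filter (fun u => u ∉ R), φ u) =
      fun R => ∑ u ∈ A, φ u * (if u ∉ R then (1 : ℝ) else 0) := by
    funext R
    rw [Finset.sum_filter]
    refine Finset.sum_congr rfl fun u _ => ?_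
    split_ifs <;> simp
  rw [h1, ER_sum, Finset.sum_div]
  refine Finset.sum_congr rfl fun u _ => ?_
  rw [ER_mul, ER_notin]
  ring

/-- the mean number of available colours around the even sites -/
private theorem Main23_sum_mm (hd : 1 ≤ d) (hk : 1 ≤ k) (f : Site d k → Fin q) :
    ∑ u ∈ evs d k, ∑ c, mm f u c = ∑ v ∈ ods d k, (av f v : ℝ) := by
  have h1 : ∀ u ∈ evs d k, ∑ c, mm f u c = (∑ σ : Stp d, (av f (u + sv σ) : ℝ)) / (2 * d) := by
    intro u _
    unfold mm
    rw [← Finset.sum_div, Finset.sum_comm]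
    congr 1
    refine Finset.sum_congr rfl fun σ _ => ?_
    rw [av_eq]
  rw [Finset.sum_congr rfl h1, ← Finset.sum_div, Finset.sum_comm]
  have h2 : ∀ σ ∈ (univ : Finset (Stp d)), ∑ u ∈ evs d k, (av f (u + sv σ) : ℝ) =
      ∑ v ∈ ods d k, (av f v : ℝ) := fun σ _ => sum_step hk σ fun v => (av f v : ℝ)
  rw [Finset.sum_congr rfl h2, Finset.sum_const, Finset.card_univ, Fintype.card_prod,
    Fintype.card_fin, Fintype.card_bool, nsmul_eq_mul]
  have hd' : (0 : ℝ) < d := by exact_mod_cast hd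
  push_cast
  field_simp

/-- the code length of the colours on `R` -/
private theorem Main23_T2 (hd : 1 ≤ d) (hk : 1 ≤ k) (hq : 2 ≤ q) {f : Site d k → Fin q} :
    (∑ i : Fin d, ∑ a : ZMod (2 ^ s), ER (fun R => T2 s f i a R)) / (d * 2 ^ s) ≤
      (NN d k / 2 * Real.log ((q1 q : ℝ) * q2 q) - ∑ v ∈ ods d k, ell q (av f v)) / 2 := by
  have hd' : (0 : ℝ) < d := by exact_mod_cast hd
  have h1 : ∀ i : Fin d, ∑ a : ZMod (2 ^ s), ER (fun R => T2 s f i a R) =
      2 ^ s * (∑ v ∈ ods d k, Real.log ((SS f v).card)) / 2 := by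
    intro i
    have h2 : ∀ a ∈ (univ : Finset (ZMod (2 ^ s))), ER (fun R => T2 s f i a R) =
        (∑ u ∈ evs d k, Real.log ((SS f (vv s i a u)).card)) / 2 := by
      intro a _
      unfold T2
      exact Main23_ER_in (evs d k) fun u => Real.log ((SS f (vv s i a u)).card)
    rw [Finset.sum_congr rfl h2, ← Finset.sum_div,
      avg_vv hk i fun v => Real.log ((SS f v).card)]
  rw [Finset.sum_congr rfl fun i _ => h1 i, Finset.sum_const, Finset.card_univ, Fintype.card_fin,
    nsmul_eq_mul]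
  have h3 : (d : ℝ) * (2 ^ s * (∑ v ∈ ods d k, Real.log ((SS f v).card)) / 2) / (d * 2 ^ s) =
      (∑ v ∈ ods d k, Real.log ((SS f v).card)) / 2 := by
    field_simp
  rw [h3]
  refine div_le_div_of_nonneg_right ?_ (by norm_num)
  have h4 : NN d k / 2 * Real.log ((q1 q : ℝ) * q2 q) - ∑ v ∈ ods d k, ell q (av f v) =
      ∑ v ∈ ods d k, (Real.log ((q1 q : ℝ) * q2 q) - ell q (av f v)) := by
    rw [Finset.sum_sub_distrib, Finset.sum_const, nsmul_eq_mul, card_ods hd hk]
  rw [h4]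
  refine Finset.sum_le_sum fun v _ => ?_
  refine (log_le_ell hq _ (SS_card_pos hd f v)).trans ?_
  have h5 := ell_add hq (av f v : ℝ)
  have h6 : (q : ℝ) - av f v = ((SS f v).card : ℝ) := by
    unfold av
    have h7 : (SS f v).card ≤ q := by
      have := Finset.card_le_univ (SS f v)
      rwa [Fintype.card_fin] at this
    rw [Nat.cast_sub h7]
    ring
  rw [h6] at h5
  linarith

/-- the weight at one site -/
private theorem Main23_aa (hq : 2 ≤ q) {ε : ℝ} (he : 0 < ε) (f : Site d k → Fin q)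
    (R : Finset (Site d k)) (u : Site d k) :
    Real.log (aa ε f R u) ≤ (Real.log ((q1 q : ℝ) * q2 q) - ell q (∑ c, mm f u c)) -
      sl q * (∑ c, nn f R u c * (1 - nn f R u c)) - sl q * (∑ c, (nn f R u c - mm f u c)) +
      sl q * (q * ε) + kp q * (5 / 2 * (∑ c, nn f R u c * (1 - nn f R u c)) + q * ε) := by
  have hpos : 0 < aa ε f R u := by
    unfold aa
    refine Finset.sum_pos (fun c _ => ?_) ⟨⟨0, by omega⟩, Finset.mem_univ _⟩
    unfold gg
    positivity
  have hb : ∀ c : Fin q, ∃ b : ℤ, |gg ε (nn f R u c) - b| ≤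
      5 / 2 * (nn f R u c * (1 - nn f R u c)) + ε := fun c =>
    gg_near he.le (nn_nonneg f R u c) (nn_le_one f R u c)
  choose b hb using hb
  have h1 := log_le_ell_real hq (aa ε f R u) hpos (∑ c, b c)
  have h2 : |aa ε f R u - ((∑ c, b c : ℤ) : ℝ)| ≤
      5 / 2 * (∑ c, nn f R u c * (1 - nn f R u c)) + q * ε := by
    have h3 : aa ε f R u - ((∑ c, b c : ℤ) : ℝ) = ∑ c, (gg ε (nn f R u c) - b c) := by
      unfold aa
      rw [Finset.sum_sub_distrib]
      push_cast
      rfl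
    rw [h3]
    refine (Finset.abs_sum_le_sum_abs _ _).trans ?_
    refine (Finset.sum_le_sum fun c _ => hb c).trans (le_of_eq ?_)
    rw [Finset.sum_add_distrib, ← Finset.mul_sum, Finset.sum_const, Finset.card_univ,
      Fintype.card_fin, nsmul_eq_mul]
  have h4 : aa ε f R u = (q - ∑ c, mm f u c) - (∑ c, nn f R u c * (1 - nn f R u c)) -
      (∑ c, (nn f R u c - mm f u c)) + q * ε := by
    have h5 : ∀ c : Fin q, gg ε (nn f R u c) = 1 - mm f u c - nn f R u c * (1 - nn f R u c) -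
        (nn f R u c - mm f u c) + ε := by
      intro c
      unfold gg
      ring
    unfold aa
    rw [Finset.sum_congr rfl fun c _ => h5 c]
    simp only [Finset.sum_add_distrib, Finset.sum_sub_distrib, Finset.sum_const, Finset.card_univ,
      Fintype.card_fin, nsmul_eq_mul, mul_one]
  have h6 : ell q (aa ε f R u) = ell q (q - ∑ c, mm f u c) -
      sl q * (∑ c, nn f R u c * (1 - nn f R u c)) - sl q * (∑ c, (nn f R u c - mm f u c)) +
      sl q * (q * ε) := by
    rw [h4]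
    unfold ell
    ring
  have h7 := ell_add hq (∑ c, mm f u c)
  have h8 := mul_le_mul_of_nonneg_left h2 (kp_nonneg hq)
  linarith

theorem main23 (hd : 2 ≤ d) (hk : 2 ≤ k) (hq : 2 ≤ q) {ε : ℝ} (he : 0 < ε)
    {f : Site d k → Fin q} (hf : Prp f) :
    (∑ i : Fin d, ∑ a : ZMod (2 ^ s), ER (fun R => T2 s f i a R)) / (d * 2 ^ s) +
      ER (fun R => T3 ε f R) + T4 f ≤
    NN d k / 2 * Real.log ((q1 q : ℝ) * q2 q) - sl q * (G1 f + G2 f) +
      kp q * (5 / 2 * G1 f + q * ε * NN d k / 4) + sl q * q * ε * NN d k / 4 + KK ε f -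
      ∑ v ∈ ods d k, (ell q (av f v) - Real.log (av f v)) := by
  classical
  have hd1 : 1 ≤ d := by omega
  have hk1 : 1 ≤ k := by omega
  have hT2 := Main23_T2 (s := s) (f := f) hd1 hk1 hq
  -- the third part
  set S1 : Finset (Site d k) → ℝ := fun R =>
    ∑ u ∈ (evs d k).filter (fun u => u ∉ R), ∑ c, nn f R u c * (1 - nn f R u c) with hS1
  set S2 : Finset (Site d k) → ℝ := fun R =>
    ∑ u ∈ (evs d k).filter (fun u => u ∉ R), ∑ c, (nn f R u c - mm f u c) with hS2
  set S3 : Finset (Site d k) → ℝ := fun R =>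
    ∑ u ∈ (evs d k).filter (fun u => u ∉ R), -Real.log (gg ε (nn f R u (f u))) with hS3
  set S4 : Finset (Site d k) → ℝ := fun R =>
    ∑ u ∈ (evs d k).filter (fun u => u ∉ R),
      (Real.log ((q1 q : ℝ) * q2 q) - ell q (∑ c, mm f u c)) with hS4
  set S5 : Finset (Site d k) → ℝ := fun R =>
    ∑ u ∈ (evs d k).filter (fun u => u ∉ R), ((q : ℝ) * ε) with hS5
  have hT3 : ER (fun R => T3 ε f R) ≤ ER (fun R => S4 R + ((-sl q) * S1 R + ((-sl q) * S2 R +
      (sl q * S5 R + (kp q * (5 / 2) * S1 R + (kp q * S5 R + S3 R)))))) := by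
    refine ER_mono fun R => ?_
    simp only [hS1, hS2, hS3, hS4, hS5, Finset.mul_sum, ← Finset.sum_add_distrib]
    unfold T3
    refine Finset.sum_le_sum fun u _ => ?_
    have h1 := Main23_aa hq he f R u
    simp only [← Finset.mul_sum, ← Finset.sum_sub_distrib] at h1 ⊢
    linarith
  rw [ER_add, ER_add, ER_add, ER_add, ER_add, ER_add, ER_mul, ER_mul, ER_mul, ER_mul, ER_mul] at hT3
  have e1 : ER S1 = G1 f := rfl
  have e2 : ER S2 = G2 f := rfl
  have e3 : ER S3 = KK ε f := rfl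
  have e4 : ER S4 = (NN d k / 2 * Real.log ((q1 q : ℝ) * q2 q) - ∑ v ∈ ods d k, ell q (av f v)) / 2 := by
    rw [hS4, Main23_ER_out (evs d k) fun u =>
      (Real.log ((q1 q : ℝ) * q2 q) - ell q (∑ c, mm f u c))]
    rw [Finset.sum_sub_distrib, Finset.sum_const, nsmul_eq_mul, card_evs hd1 hk1]
    have h1 : ∑ u ∈ evs d k, ell q (∑ c, mm f u c) = ∑ v ∈ ods d k, ell q (av f v) := by
      unfold ell
      simp only [mul_sub, Finset.sum_add_distrib, Finset.sum_sub_distrib, Finset.sum_const,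
        nsmul_eq_mul, ← Finset.mul_sum]
      rw [Main23_sum_mm hd1 hk1 f, card_evs hd1 hk1, card_ods hd1 hk1]
    rw [h1]
  have e5 : ER S5 = q * ε * NN d k / 4 := by
    rw [hS5, Main23_ER_out (evs d k) fun _ => ((q : ℝ) * ε), Finset.sum_const, nsmul_eq_mul,
      card_evs hd1 hk1]
    ring
  rw [e1, e2, e3, e4, e5] at hT3
  have hT4 : T4 f = ∑ v ∈ ods d k, Real.log (av f v) := rfl
  rw [Finset.sum_sub_distrib, hT4]
  have := hT2
  nlinarith [hT3, hT2]

end Pool.Agent.LO
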