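import Pool.Agent.Lib_MP_2c424f_lo.BSum
import Pool.Agent.Lib_MP_2c424f_lo.Lab

/-!
# Translations and permutations of the colours (piece SYM)
-/

set_option autoImplicit false

open Finset

namespace Pool.Agent.LO

variable {d k q : ℕ}

private theorem Sym_two_mul (x y : ZMod (2 ^ k)) :
    ((2 * x.val : ℕ) : ZMod (2 ^ (k + 1))) + ((2 * y.val : ℕ) : ZMod (2 ^ (k + 1))) =
      ((2 * (x + y).val : ℕ) : ZMod (2 ^ (k + 1))) := by
  rw [← Nat.cast_add, ZMod.natCast_eq_natCast_iff]
  have h1 : (x + y).val = (x.val + y.val) % 2 ^ k := ZMod.val_add x y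
  rw [h1]
  have h2 : 2 * ((x.val + y.val) % 2 ^ k) ≡ 2 * (x.val + y.val) [MOD 2 * 2 ^ k] :=
    (Nat.mod_modEq _ _).mul_left' 2
  have h3 : 2 * 2 ^ k = 2 ^ (k + 1) := by rw [pow_succ, mul_comm]
  rw [h3] at h2
  rw [← mul_add]
  exact h2.symm

private theorem Sym_bas_add (t τ : Blk d k) : bas t + bas τ = bas (t + τ) := by
  funext i
  simp only [bas, Pi.add_apply]
  exact Sym_two_mul (t i) (τ i)

theorem pt_add (t τ : Blk d k) (a b : Bt d) : pt t a b + bas τ = pt (t + τ) a b := by
  unfold pt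
  rw [← Sym_bas_add]
  abel

private theorem Sym_prp_transl {τ : Site d k} {f : Site d k → Fin q} (hf : Prp f) :
    Prp (fun x => f (x + τ)) := by
  intro x σ
  have h := hf (x + τ) σ
  have e : x + sv σ + τ = x + τ + sv σ := by abel
  show f (x + sv σ + τ) ≠ f (x + τ)
  rw [e]
  exact h

theorem sum_transl (τ : Site d k) (F : (Site d k → Fin q) → ℝ) :
    ∑ f ∈ prps d k q, F (fun x => f (x + τ)) = ∑ f ∈ prps d k q, F f := by
  classical
  refine Finset.sum_bij' (fun f _ => fun x => f (x + τ)) (fun f _ => fun x => f (x + -τ)) ?_ ?_ ?_ ?_ ?_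
  · intro f hf
    simp only [prps, mem_filter, mem_univ, true_and] at hf ⊢
    exact Sym_prp_transl hf
  · intro f hf
    simp only [prps, mem_filter, mem_univ, true_and] at hf ⊢
    exact Sym_prp_transl hf
  · intro f _
    funext x
    simp
  · intro f _
    funext x
    simp
  · intro f _
    rfl

theorem sum_perm (π : Equiv.Perm (Fin q)) (F : (Site d k → Fin q) → ℝ) :
    ∑ f ∈ prps d k q, F (fun x => π (f x)) = ∑ f ∈ prps d k q, F f := by
  classical
  refine Finset.sum_bij' (fun f _ => fun x => π (f x)) (fun f _ => fun x => π.symm (f x)) ?_ ?_ ?_ ?_ ?_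
  · intro f hf
    simp only [prps, mem_filter, mem_univ, true_and] at hf ⊢
    intro x σ h
    exact hf x σ (π.injective h)
  · intro f hf
    simp only [prps, mem_filter, mem_univ, true_and] at hf ⊢
    intro x σ h
    exact hf x σ (π.symm.injective h)
  · intro f _
    funext x
    simp
  · intro f _
    funext x
    simp
  · intro f _
    rfl

private theorem Sym_ite {P Q : Prop} (hP : Decidable P) (hQ : Decidable Q) (h : P ↔ Q) :
    (@ite ℝ P hP 1 0) = (@ite ℝ Q hQ 1 0) := by
  by_cases hp : P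
  · rw [if_pos hp, if_pos (h.1 hp)]
  · rw [if_neg hp, if_neg (fun hq => hp (h.2 hq))]

private theorem Sym_mb_transl (f : Site d (k + 1) → Fin q) (t τ : Blk d k) (c : Fin q) :
    mb (fun x => f (x + bas τ)) t c = mb f (t + τ) c := by
  unfold mb
  congr 1
  funext a b
  unfold zb
  have e : ∀ σ : Stp d, pt t a b + sv σ + bas τ = pt (t + τ) a b + sv σ := by
    intro σ
    rw [← pt_add]
    abel
  refine Sym_ite _ _ ?_
  simp only [e]

private theorem Sym_Mb_transl (f : Site d (k + 1) → Fin q) (t τ : Blk d k) (c : Fin q) :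
    Mb (fun x => f (x + bas τ)) t c = Mb f (t + τ) c := by
  unfold Mb
  congr 1
  funext a b
  simp only [pt_add]

private theorem Sym_mb_perm (f : Site d (k + 1) → Fin q) (t : Blk d k) (c : Fin q)
    (π : Equiv.Perm (Fin q)) : mb (fun x => π (f x)) t (π c) = mb f t c := by
  unfold mb
  congr 1
  funext a b
  unfold zb
  refine Sym_ite _ _ ?_
  simp only [ne_eq, EmbeddingLike.apply_eq_iff_eq]

private theorem Sym_Mb_perm (f : Site d (k + 1) → Fin q) (t : Blk d k) (c : Fin q)
    (π : Equiv.Perm (Fin q)) : Mb (fun x => π (f x)) t (π c) = Mb f t c := by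
  unfold Mb
  congr 1
  funext a b
  simp only [EmbeddingLike.apply_eq_iff_eq]

/-- the mean of `mb` does not depend on the block and on the colour -/
theorem mb_const (t t' : Blk d k) (c c' : Fin q) :
    ∑ f ∈ prps d (k + 1) q, mb f t c = ∑ f ∈ prps d (k + 1) q, mb f t' c' := by
  have h1 := sum_transl (d := d) (k := k + 1) (q := q) (bas (t - t')) (fun f => mb f t' c)
  have h2 : ∀ f : Site d (k + 1) → Fin q, mb (fun x => f (x + bas (t - t'))) t' c = mb f t c := by
    intro f
    rw [Sym_mb_transl]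
    congr 1
    abel
  simp only [h2] at h1
  rw [h1]
  have h3 := sum_perm (d := d) (k := k + 1) (q := q) (Equiv.swap c c') (fun f => mb f t' c')
  rw [← h3]
  refine sum_congr rfl fun f _ => ?_
  have h4 := Sym_mb_perm f t' c (Equiv.swap c c')
  rw [Equiv.swap_apply_left] at h4
  exact h4.symm

/-- the mean of `Mb` is `1/q` -/
theorem Mb_mean (hd : 1 ≤ d) (hq : 1 ≤ q) (t : Blk d k) (c : Fin q) :
    ∑ f ∈ prps d (k + 1) q, Mb f t c = ZZ d (k + 1) q / q := by
  classical
  have hconst : ∀ c' : Fin q, ∑ f ∈ prps d (k + 1) q, Mb f t c' =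
      ∑ f ∈ prps d (k + 1) q, Mb f t c := by
    intro c'
    have h3 := sum_perm (d := d) (k := k + 1) (q := q) (Equiv.swap c' c) (fun f => Mb f t c)
    rw [← h3]
    refine sum_congr rfl fun f _ => ?_
    have h4 := Sym_Mb_perm f t c' (Equiv.swap c' c)
    rw [Equiv.swap_apply_left] at h4
    exact h4.symm
  have hone : ∀ f : Site d (k + 1) → Fin q, ∑ c' : Fin q, Mb f t c' = 1 := by
    intro f
    rw [← card_od hd]
    unfold Mb EB
    rw [← Finset.sum_div, ← Finset.mul_sum]
    congr 2
    rw [Finset.sum_comm]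
    refine sum_congr rfl fun a _ => ?_
    rw [Finset.sum_comm]
    refine sum_congr rfl fun b _ => ?_
    by_cases h : od a b
    · simp [h]
    · simp [h]
  have hsum : ∑ c' : Fin q, ∑ f ∈ prps d (k + 1) q, Mb f t c' = ZZ d (k + 1) q := by
    rw [Finset.sum_comm]
    rw [sum_congr rfl fun f _ => hone f]
    simp [ZZ]
  rw [sum_congr rfl fun c' _ => hconst c'] at hsum
  rw [sum_const, card_univ, Fintype.card_fin, nsmul_eq_mul] at hsum
  have hq0 : (0 : ℝ) < q := by exact_mod_cast hq
  rw [eq_div_iff hq0.ne', mul_comm]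
  exact hsum

end Pool.Agent.LO
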