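import Pool.Agent.Lib_MP_2c424f_lo.Pbd
import Pool.Agent.Lib_MP_2c424f_lo.DSum
import Pool.Agent.Lib_MP_2c424f_lo.Sym

/-!
# The mean of the block statistic (piece MEAN)

`pbd` for the colourings with `∑_v av + ∑_c QQ ≥ 0.61 q N/2`: either `∑ av ≥ 0.6 q N/2` and `gap_sum`, or
`∑ QQ ≥ 0.01 q N/2`; in both cases `Loss ≥ 0.0016 N/2`.  The value is always at most `2 q N/2`.
-/

set_option autoImplicit false

open Finset

namespace Pool.Agent.LO

private theorem mean_QQ_nonneg {d k q : ℕ} (f : Site d k → Fin q) (c : Fin q) : 0 ≤ QQ f c := by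
  unfold QQ
  refine sum_nonneg fun v _ => ?_
  split_ifs
  · exact le_rfl
  · positivity

private theorem mean_II_nonneg {d k q : ℕ} (f : Site d k → Fin q) (c : Fin q) : 0 ≤ II f c := by
  unfold II
  refine sum_nonneg fun u _ => ?_
  exact mul_nonneg (mm_nonneg f u c) (by linarith [mm_le_one f u c])

private theorem mean_phi_le {d k q : ℕ} (f : Site d k → Fin q) :
    ∑ v ∈ ods d k, (av f v : ℝ) + ∑ c, QQ f c ≤ q * ((ods d k).card : ℝ) := by
  have h1 : ∑ c, QQ f c =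
      ∑ v ∈ ods d k, ∑ c, (if yy f v c = 0 then 0 else (1 / 2 : ℝ) ^ yy f v c) := by
    unfold QQ
    rw [sum_comm]
  rw [h1, ← sum_add_distrib]
  have h2 : ∀ v ∈ ods d k, (av f v : ℝ) + ∑ c, (if yy f v c = 0 then 0 else (1 / 2 : ℝ) ^ yy f v c) ≤ (q : ℝ) := by
    intro v _
    rw [av_eq, ← sum_add_distrib]
    have h3 : ∀ c ∈ (univ : Finset (Fin q)),
        zz f v c + (if yy f v c = 0 then 0 else (1 / 2 : ℝ) ^ yy f v c) ≤ 1 := by
      intro c _
      have hm := mem_SS f v c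
      unfold zz
      by_cases h : yy f v c = 0
      · rw [if_neg (fun hc => (hm.1 hc) h), if_pos h]
        norm_num
      · rw [if_pos (hm.2 h), if_neg h]
        have h4 : (1 / 2 : ℝ) ^ (yy f v c) ≤ 1 := pow_le_one₀ (by norm_num) (by norm_num)
        linarith
    refine (sum_le_sum h3).trans ?_
    simp
  refine (sum_le_sum h2).trans ?_
  rw [sum_const, nsmul_eq_mul]
  exact le_of_eq (mul_comm _ _)

private theorem mean_loss {d k q : ℕ} (hq : 2 ≤ q) (hq' : Even q ∨ 41 ≤ q)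
    {f : Site d k → Fin q} (hf : Prp f)
    (h : 61 / 100 * (q * ((ods d k).card : ℝ)) ≤ ∑ v ∈ ods d k, (av f v : ℝ) + ∑ c, QQ f c) :
    16 / 10000 * ((ods d k).card : ℝ) ≤ Loss f := by
  have hq0 : (0 : ℝ) < q := by
    have : 0 < q := by omega
    exact_mod_cast this
  have hgap : 0 ≤ ∑ v ∈ ods d k, (ell q (av f v) - Real.log (av f v)) :=
    sum_nonneg fun v _ => sub_nonneg.2 (log_le_ell hq _ (av_pos hf v))
  have hI : 0 ≤ ∑ c, II f c := sum_nonneg fun c _ => mean_II_nonneg f c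
  have hQ : 0 ≤ ∑ c, QQ f c := sum_nonneg fun c _ => mean_QQ_nonneg f c
  have hL : Loss f = 1 / (6 * (q : ℝ)) * (∑ c, II f c + ∑ c, QQ f c) +
      ∑ v ∈ ods d k, (ell q (av f v) - Real.log (av f v)) := by
    unfold Loss
    rw [sum_add_distrib]
  have hn : (0 : ℝ) ≤ ((ods d k).card : ℝ) := Nat.cast_nonneg _
  by_cases h6 : (6 / 10 : ℝ) * q * (ods d k).card ≤ ∑ v ∈ ods d k, (av f v : ℝ)
  · have hg := gap_sum hq hq' (ods d k) (fun v => av f v) (fun v _ => av_pos hf v) h6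
    have hp : 0 ≤ 1 / (6 * (q : ℝ)) * (∑ c, II f c + ∑ c, QQ f c) := by positivity
    rw [hL]
    linarith
  · have h6' := not_le.1 h6
    have hQ1 : 1 / 100 * (q * ((ods d k).card : ℝ)) ≤ ∑ c, QQ f c := by
      have e1 : (6 / 10 : ℝ) * q * (ods d k).card = 6 / 10 * (q * ((ods d k).card : ℝ)) := by ring
      rw [e1] at h6'
      linarith
    have hp : 1 / (6 * (q : ℝ)) * (1 / 100 * (q * ((ods d k).card : ℝ))) ≤
        1 / (6 * (q : ℝ)) * (∑ c, II f c + ∑ c, QQ f c) := by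
      apply mul_le_mul_of_nonneg_left _ (by positivity)
      linarith
    have e2 : 1 / (6 * (q : ℝ)) * (1 / 100 * (q * ((ods d k).card : ℝ))) =
        ((ods d k).card : ℝ) / 600 := by
      field_simp
      ring
    rw [e2] at hp
    rw [hL]
    linarith

theorem mean_av : ∃ d₀ : ℕ, ∀ d : ℕ, d₀ ≤ d → ∀ q : ℕ, Adm d q → ∀ k : ℕ, d ^ 5 ≤ 2 ^ k →
    ∑ f ∈ prps d k q, (∑ v ∈ ods d k, (av f v : ℝ) + ∑ c, QQ f c) ≤
      612 / 1000 * (q * (NN d k / 2)) * ZZ d k q := by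
  classical
  obtain ⟨d₀, hd₀⟩ := pbd
  refine ⟨max d₀ 20, fun d hd q hA k hk => ?_⟩
  have hd1 : d₀ ≤ d := (le_max_left _ _).trans hd
  have hd20 : 20 ≤ d := (le_max_right _ _).trans hd
  have hd5 : 20 ^ 5 ≤ d ^ 5 := Nat.pow_le_pow_left hd20 5
  have hk1 : 1 ≤ k := by
    rcases Nat.eq_zero_or_pos k with h | h
    · subst h
      norm_num at hd5 hk
      omega
    · exact h
  obtain ⟨hq, hq', hqd⟩ := hA
  have hq0 : (0 : ℝ) < q := by
    have : 0 < q := by omega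
    exact_mod_cast this
  have hcard : ((ods d k).card : ℝ) = NN d k / 2 := card_ods (by omega) hk1
  have hdR : (20 : ℝ) ≤ d := by exact_mod_cast hd20
  have hNN : (3200000 : ℝ) ≤ NN d k := by
    have h1 : (3200000 : ℕ) ≤ 2 ^ k := by
      have : (20 : ℕ) ^ 5 = 3200000 := by norm_num
      omega
    have h2 : (3200000 : ℝ) ≤ (2 : ℝ) ^ k := by exact_mod_cast h1
    have h3 : ((2 : ℝ) ^ k) ≤ ((2 : ℝ) ^ k) ^ d :=
      le_self_pow₀ (by linarith) (by omega)
    unfold NN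
    linarith
  have hZ : 0 ≤ ZZ d k q := by
    unfold ZZ
    exact Nat.cast_nonneg _
  -- the exceptional set
  set A : Finset (Site d k → Fin q) := (prps d k q).filter fun f =>
    61 / 100 * (q * ((ods d k).card : ℝ)) ≤ ∑ v ∈ ods d k, (av f v : ℝ) + ∑ c, QQ f c with hAdef
  have hprp : ∀ f ∈ A, Prp f := by
    intro f hf
    have := (mem_filter.1 hf).1
    unfold prps at this
    exact (mem_filter.1 this).2
  have hloss : ∀ f ∈ A, 16 / 10000 * ((ods d k).card : ℝ) ≤ Loss f := fun f hf =>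
    mean_loss hq hq' (hprp f hf) (mem_filter.1 hf).2
  have hb := hd₀ d hd1 q ⟨hq, hq', hqd⟩ k hk A hprp _ hloss
  have hexp : Real.exp (-(16 / 10000 * ((ods d k).card : ℝ)) + 3 * NN d k / (d : ℝ) ^ 4) ≤ 2 / 1000 := by
    have hd4 : (160000 : ℝ) ≤ (d : ℝ) ^ 4 := by
      have := pow_le_pow_left₀ (by norm_num : (0 : ℝ) ≤ 20) hdR 4
      norm_num at this
      exact this
    have h4 : 3 * NN d k / (d : ℝ) ^ 4 ≤ 3 * NN d k / 160000 := by
      apply div_le_div_of_nonneg_left _ (by norm_num) hd4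
      linarith
    have h5 : -(16 / 10000 * ((ods d k).card : ℝ)) + 3 * NN d k / (d : ℝ) ^ 4 ≤ -1000 := by
      rw [hcard]
      linarith
    refine (Real.exp_le_exp.2 h5).trans ?_
    have h6 := Real.add_one_le_exp (1000 : ℝ)
    rw [Real.exp_neg]
    have h7 : (0 : ℝ) < Real.exp 1000 := Real.exp_pos _
    rw [inv_le_comm₀ h7 (by norm_num)]
    norm_num at h6 ⊢
    linarith
  have hcA : (A.card : ℝ) ≤ ZZ d k q * (2 / 1000) :=
    hb.trans (mul_le_mul_of_nonneg_left hexp hZ)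
  have hpt : ∀ f ∈ prps d k q, (∑ v ∈ ods d k, (av f v : ℝ) + ∑ c, QQ f c) ≤
      61 / 100 * (q * ((ods d k).card : ℝ)) +
        (if 61 / 100 * (q * ((ods d k).card : ℝ)) ≤ ∑ v ∈ ods d k, (av f v : ℝ) + ∑ c, QQ f c then
          q * ((ods d k).card : ℝ) else 0) := by
    intro f _
    split_ifs with h
    · have := mean_phi_le f
      have h0 : 0 ≤ (q : ℝ) * ((ods d k).card : ℝ) := by positivity
      linarith
    · linarith
  refine (sum_le_sum hpt).trans ?_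
  rw [sum_add_distrib, sum_const, nsmul_eq_mul, ← sum_filter, sum_const, nsmul_eq_mul]
  have hZc : ((prps d k q).card : ℝ) = ZZ d k q := rfl
  rw [hZc, ← hAdef, ← hcard]
  have h0 : 0 ≤ (q : ℝ) * ((ods d k).card : ℝ) := by positivity
  have h8 := mul_le_mul_of_nonneg_right hcA h0
  nlinarith [h8]

theorem mean_mb : ∃ d₀ : ℕ, ∀ d : ℕ, d₀ ≤ d → ∀ q : ℕ, Adm d q → ∀ k : ℕ, d ^ 5 ≤ 2 ^ k →
    ∀ (t : Blk d k) (c : Fin q), ∑ f ∈ prps d (k + 1) q, mb f t c ≤ 612 / 1000 * ZZ d (k + 1) q := by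
  obtain ⟨d₀, hd₀⟩ := mean_av
  refine ⟨max d₀ 1, fun d hd q hA k hk t c => ?_⟩
  have hd1 : d₀ ≤ d := (le_max_left _ _).trans hd
  have hdp : 1 ≤ d := (le_max_right _ _).trans hd
  have hk' : d ^ 5 ≤ 2 ^ (k + 1) := hk.trans (Nat.pow_le_pow_right (by norm_num) (by omega))
  have hm := hd₀ d hd1 q hA (k + 1) hk'
  obtain ⟨hq, hq', hqd⟩ := hA
  have hq0 : (0 : ℝ) < q := by
    have : 0 < q := by omega
    exact_mod_cast this
  -- all blocks and colours
  have h1 : ∑ t' : Blk d k, ∑ c' : Fin q, ∑ f ∈ prps d (k + 1) q, mb f t' c' =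
      (NN d k * q) * ∑ f ∈ prps d (k + 1) q, mb f t c := by
    have : ∀ t' : Blk d k, ∀ c' : Fin q, ∑ f ∈ prps d (k + 1) q, mb f t' c' =
        ∑ f ∈ prps d (k + 1) q, mb f t c := fun t' c' => mb_const t' t c' c
    simp_rw [this]
    rw [sum_const, sum_const, nsmul_eq_mul, nsmul_eq_mul, card_univ, card_univ, Fintype.card_fin,
      ← card_site d k]
    ring
  have h2 : ∀ f : Site d (k + 1) → Fin q, ∑ t' : Blk d k, ∑ c' : Fin q, mb f t' c' ≤
      2 / 2 ^ d * (∑ v ∈ ods d (k + 1), (av f v : ℝ) + ∑ c, QQ f c) := by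
    intro f
    rw [sum_comm]
    have h3 : ∀ c' : Fin q, ∑ t' : Blk d k, mb f t' c' ≤
        2 / 2 ^ d * (∑ v ∈ ods d (k + 1), zz f v c') + 2 / 2 ^ d * QQ f c' := by
      intro c'
      have h4 := sum_mb f c'
      rw [sum_sub_distrib] at h4
      have h5 : ∑ t' : Blk d k, mt f t' c' = 2 / 2 ^ d * ∑ v ∈ ods d (k + 1), zz f v c' := by
        unfold mt
        exact sum_EB hdp (fun v => zz f v c')
      rw [h5] at h4
      linarith
    refine (sum_le_sum fun c' _ => h3 c').trans ?_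
    rw [sum_add_distrib, ← mul_sum, ← mul_sum, sum_comm, mul_add]
    have h6 : ∀ v ∈ ods d (k + 1), ∑ c' : Fin q, zz f v c' = (av f v : ℝ) := fun v _ => (av_eq f v).symm
    rw [sum_congr rfl h6]
  have h7 : ∑ t' : Blk d k, ∑ c' : Fin q, ∑ f ∈ prps d (k + 1) q, mb f t' c' ≤
      2 / 2 ^ d * (612 / 1000 * (q * (NN d (k + 1) / 2)) * ZZ d (k + 1) q) := by
    have h8 : ∑ t' : Blk d k, ∑ c' : Fin q, ∑ f ∈ prps d (k + 1) q, mb f t' c' =
        ∑ f ∈ prps d (k + 1) q, ∑ t' : Blk d k, ∑ c' : Fin q, mb f t' c' := by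
      have e : ∀ t' : Blk d k, ∑ c' : Fin q, ∑ f ∈ prps d (k + 1) q, mb f t' c' =
          ∑ f ∈ prps d (k + 1) q, ∑ c' : Fin q, mb f t' c' := fun t' => sum_comm
      rw [sum_congr rfl fun t' _ => e t', sum_comm]
    rw [h8]
    refine (sum_le_sum fun f _ => h2 f).trans ?_
    rw [← mul_sum]
    exact mul_le_mul_of_nonneg_left hm (by positivity)
  rw [h1] at h7
  have hNN : NN d (k + 1) = 2 ^ d * NN d k := by
    unfold NN
    rw [pow_succ, mul_pow, mul_comm]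
  have hNp : 0 < NN d k := by
    unfold NN
    positivity
  have h9 : 2 / 2 ^ d * (612 / 1000 * (q * (NN d (k + 1) / 2)) * ZZ d (k + 1) q) =
      (NN d k * q) * (612 / 1000 * ZZ d (k + 1) q) := by
    rw [hNN]
    field_simp
  rw [h9] at h7
  exact le_of_mul_le_mul_left h7 (by positivity)

end Pool.Agent.LO
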