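import Pool.Agent.Lib_MP_2c424f_lo.Pbd
import Pool.Agent.Lib_MP_2c424f_lo.LemB
import Pool.Agent.Lib_MP_2c424f_lo.Chess
import Pool.Agent.Lib_MP_2c424f_lo.Lab

/-!
# Probability of bad blocks (piece PBAD)

`pbd` for the set of colourings with all blocks bad (`lemB`: `Loss ≥ δ N / (96 q d) ≥ N/d^3 + 3N/d^4`),
then `chess` with `r = exp (-2^d / d^3)`, `N = 2^d * card (Blk d k)`.
-/

set_option autoImplicit false

open Finset

namespace Pool.Agent.LO

/-- the chessboard base -/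
noncomputable def rr (d : ℕ) : ℝ := Real.exp (-((2 : ℝ) ^ d / (d : ℝ) ^ 3))

private theorem PBad_II_nonneg {d k q : ℕ} (f : Site d k → Fin q) (c : Fin q) : 0 ≤ II f c := by
  unfold II
  refine Finset.sum_nonneg fun u _ => ?_
  exact mul_nonneg (mm_nonneg f u c) (sub_nonneg.2 (mm_le_one f u c))

private theorem PBad_QQ_nonneg {d k q : ℕ} (f : Site d k → Fin q) (c : Fin q) : 0 ≤ QQ f c := by
  unfold QQ
  refine Finset.sum_nonneg fun v _ => ?_
  split_ifs
  · exact le_rfl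
  · positivity

private theorem PBad_loss {d k q : ℕ} (hq : 2 ≤ q) {f : Site d k → Fin q} (hf : Prp f) (c : Fin q) :
    1 / (6 * (q : ℝ)) * (II f c + QQ f c) ≤ Loss f := by
  unfold Loss
  have hq0 : (0 : ℝ) < q := by
    have : 0 < q := by omega
    exact_mod_cast this
  have h1 : II f c + QQ f c ≤ ∑ c, (II f c + QQ f c) :=
    Finset.single_le_sum (f := fun c => II f c + QQ f c)
      (fun c' _ => add_nonneg (PBad_II_nonneg f c') (PBad_QQ_nonneg f c')) (Finset.mem_univ c)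
  have h2 : 0 ≤ ∑ v ∈ ods d k, (ell q (av f v) - Real.log (av f v)) :=
    Finset.sum_nonneg fun v _ => sub_nonneg.2 (log_le_ell hq (av f v) (av_pos hf v))
  have h3 : 1 / (6 * (q : ℝ)) * (II f c + QQ f c) ≤ 1 / (6 * (q : ℝ)) * ∑ c, (II f c + QQ f c) :=
    mul_le_mul_of_nonneg_left h1 (by positivity)
  linarith

private theorem PBad_arith {d q : ℕ} (hd : 100 ≤ d) (hq : 2 ≤ q) (hA : (q : ℝ) * (1000 * Real.log d) ≤ d)
    {N : ℝ} (hN : 0 ≤ N) :
    N / (d : ℝ) ^ 3 + 3 * N / (d : ℝ) ^ 4 ≤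
      1 / (6 * (q : ℝ)) * (dl q * N / (16 * d)) := by
  have hd' : (100 : ℝ) ≤ d := by exact_mod_cast hd
  have hq' : (2 : ℝ) ≤ q := by exact_mod_cast hq
  have hlog : (1 : ℝ) ≤ Real.log d := by
    rw [Real.le_log_iff_exp_le (by linarith)]
    have := Real.exp_one_lt_d9
    linarith
  have h1 : (q : ℝ) * 1000 ≤ d := by
    have : (q : ℝ) * 1000 ≤ (q : ℝ) * (1000 * Real.log d) := by
      apply mul_le_mul_of_nonneg_left _ (by linarith)
      linarith
    linarith
  have hdp : (0 : ℝ) < d := by linarith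
  have hqp : (0 : ℝ) < q := by linarith
  have h2 : (q : ℝ) ^ 2 * 1000000 ≤ (d : ℝ) ^ 2 := by nlinarith
  have e1 : 1 / (6 * (q : ℝ)) * (dl q * N / (16 * d)) = N * (1 / (9600 * ((q : ℝ) ^ 2 * d))) := by
    unfold dl
    field_simp
    ring
  have e2 : N / (d : ℝ) ^ 3 + 3 * N / (d : ℝ) ^ 4 = N * (1 / (d : ℝ) ^ 3 + 3 / (d : ℝ) ^ 4) := by
    ring
  rw [e1, e2]
  apply mul_le_mul_of_nonneg_left _ hN
  have e3 : 3 / (d : ℝ) ^ 4 ≤ 1 / (d : ℝ) ^ 3 := by
    rw [div_le_div_iff₀ (by positivity) (by positivity)]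
    have : (d : ℝ) ^ 4 = d * (d : ℝ) ^ 3 := by ring
    rw [this]
    nlinarith [pow_pos hdp 3]
  have e4 : 2 / (d : ℝ) ^ 3 ≤ 1 / (9600 * ((q : ℝ) ^ 2 * d)) := by
    rw [div_le_div_iff₀ (by positivity) (by positivity)]
    have : (d : ℝ) ^ 3 = d * (d : ℝ) ^ 2 := by ring
    rw [this]
    nlinarith [mul_le_mul_of_nonneg_left h2 hdp.le, mul_pos hdp (pow_pos hdp 2)]
  have e5 : 2 / (d : ℝ) ^ 3 = 1 / (d : ℝ) ^ 3 + 1 / (d : ℝ) ^ 3 := by ring
  linarith

theorem pbad : ∃ d₀ : ℕ, ∀ d : ℕ, d₀ ≤ d → ∀ q : ℕ, Adm d q → ∀ k : ℕ, d ^ 5 ≤ 2 ^ k → ∀ c : Fin q,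
    ∀ Γ : Finset (Blk d k), cE (bad (q := q) c) Γ ≤ ZZ d (k + 1) q * rr d ^ Γ.card := by
  classical
  obtain ⟨d₀, hp⟩ := pbd
  refine ⟨max d₀ 100, ?_⟩
  intro d hd q hA k hk c
  have hd0 : d₀ ≤ d := le_trans (le_max_left _ _) hd
  have hd100 : 100 ≤ d := le_trans (le_max_right _ _) hd
  have hk1 : 1 ≤ k := by
    by_contra hcon
    have hk0 : k = 0 := by omega
    subst hk0
    have : 100 ^ 5 ≤ d ^ 5 := Nat.pow_le_pow_left hd100 5
    norm_num at this hk
    omega
  have hkk : d ^ 5 ≤ 2 ^ (k + 1) := le_trans hk (Nat.pow_le_pow_right (by norm_num) (by omega))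
  have hq2 : 2 ≤ q := hA.1
  have hq1 : 1 ≤ q := by omega
  have hd1 : 1 ≤ d := by omega
  have hNN : 0 ≤ NN d (k + 1) := by unfold NN; positivity
  have hqp : (0 : ℝ) < q := by exact_mod_cast (show 0 < q by omega)
  have hfull : cE (bad (q := q) c) (univ : Finset (Blk d k)) ≤
      ZZ d (k + 1) q * rr d ^ (Fintype.card (Blk d k)) := by
    unfold cE
    have h1 := hp d hd0 q hA (k + 1) hkk
      ((prps d (k + 1) q).filter fun f => ∀ t ∈ (univ : Finset (Blk d k)), bad c t f)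
      (fun f hf => by
        have := (Finset.mem_filter.1 hf).1
        unfold prps at this
        exact (Finset.mem_filter.1 this).2)
      (NN d (k + 1) / (d : ℝ) ^ 3 + 3 * NN d (k + 1) / (d : ℝ) ^ 4)
      (fun f hf => by
        have h2 := Finset.mem_filter.1 hf
        have hf' : Prp f := by
          have := h2.1
          unfold prps at this
          exact (Finset.mem_filter.1 this).2
        have h3 := lemB hd1 hq1 f c (fun t => h2.2 t (Finset.mem_univ t))
        have h4 := PBad_loss hq2 hf' c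
        have h5 := PBad_arith hd100 hq2 hA.2.2 hNN
        have h6 := mul_le_mul_of_nonneg_left h3 (show 0 ≤ 1 / (6 * (q : ℝ)) by positivity)
        linarith)
    refine le_trans h1 ?_
    have hZ : 0 ≤ ZZ d (k + 1) q := by unfold ZZ; positivity
    apply mul_le_mul_of_nonneg_left _ hZ
    unfold rr
    rw [← Real.exp_nat_mul]
    apply Real.exp_le_exp.2
    have hc : (Fintype.card (Blk d k) : ℝ) = NN d k := card_site d k
    rw [hc]
    have hNk : NN d (k + 1) = NN d k * 2 ^ d := by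
      unfold NN
      rw [pow_succ, mul_pow]
    have : NN d k * -((2 : ℝ) ^ d / (d : ℝ) ^ 3) = -(NN d (k + 1) / (d : ℝ) ^ 3) := by
      rw [hNk]; ring
    rw [this]
    linarith
  exact chess hk1 (cE (bad (q := q) c)) (ZZ d (k + 1) q) (rr d) (Real.exp_pos _)
    (by unfold ZZ; positivity) (fun Γ => by unfold cE; positivity)
    (fun j α Γ => rp hk1 (bad c) (fun t f g h => bad_loc c t f g h)
      (fun j α t f => bad_sym c j α t f) j α Γ)
    (by
      unfold cE ZZ
      exact_mod_cast Finset.card_le_card (Finset.filter_subset _ _))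
    hfull

end Pool.Agent.LO
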