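import Pool.Agent.Lib_MP_2c424f_lo.Maj
import Pool.Agent.Lib_MP_2c424f_lo.Sym

/-!
# Translations (piece TRANS)

The set `Bst f` is invariant under even translations, so the number of colourings for which the set of
available colours at `x` is not `Bst f` is the same for all odd sites `x`.
-/

set_option autoImplicit false

open Finset

namespace Pool.Agent.LO

variable {d k q : ℕ}

/-- reduction mod `2` -/
private def parr (hk : 1 ≤ k) : ZMod (2 ^ k) →+* ZMod 2 :=
  ZMod.castHom (dvd_pow_self 2 (by omega : k ≠ 0)) (ZMod 2)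

private theorem evn_iff_parr (hk : 1 ≤ k) (x : Site d k) : evn x ↔ ∑ i, parr hk (x i) = 0 := by
  unfold evn
  rw [← ZMod.natCast_eq_zero_iff_even]
  have : ((∑ i, (x i).val : ℕ) : ZMod 2) = ∑ i, parr hk (x i) := by
    push_cast
    refine sum_congr rfl fun i _ => ?_
    have h := map_natCast (parr hk) (x i).val
    rw [ZMod.natCast_zmod_val] at h
    exact h.symm
  rw [this]

theorem evn_add (hk : 1 ≤ k) (x y : Site d k) : evn (x + y) ↔ (evn x ↔ evn y) := by
  rw [evn_iff_parr hk, evn_iff_parr hk, evn_iff_parr hk]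
  have h : ∑ i, parr hk ((x + y) i) = ∑ i, parr hk (x i) + ∑ i, parr hk (y i) := by
    rw [← sum_add_distrib]
    refine sum_congr rfl fun i _ => ?_
    rw [Pi.add_apply, map_add]
  rw [h]
  generalize ∑ i, parr hk (x i) = a
  generalize ∑ i, parr hk (y i) = b
  revert a b
  decide

/-- the difference of two odd sites is even -/
theorem evn_sub_of_odd (hk : 1 ≤ k) {x y : Site d k} (hx : ¬ evn x) (hy : ¬ evn y) : evn (y - x) := by
  have h := evn_add hk (y - x) x
  rw [sub_add_cancel] at h
  by_contra hc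
  exact hy (h.2 ⟨fun h' => absurd h' hc, fun h' => absurd h' hx⟩)

/-- even translations permute the odd sites -/
theorem sum_ods_transl (hk : 1 ≤ k) {τ : Site d k} (hτ : evn τ) (φ : Site d k → ℝ) :
    ∑ v ∈ ods d k, φ (v + τ) = ∑ v ∈ ods d k, φ v := by
  classical
  have key : ∀ x : Site d k, evn (x + τ) ↔ evn x := fun x => by
    rw [evn_add hk]
    exact ⟨fun h => h.2 hτ, fun h => ⟨fun _ => hτ, fun _ => h⟩⟩
  refine Finset.sum_bij' (fun v _ => v + τ) (fun v _ => v - τ) ?_ ?_ ?_ ?_ ?_
  · intro v hv
    simp only [ods, mem_filter, mem_univ, true_and] at hv ⊢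
    rwa [key]
  · intro v hv
    simp only [ods, mem_filter, mem_univ, true_and] at hv ⊢
    rw [← key, sub_add_cancel]
    exact hv
  · intro v _
    simp
  · intro v _
    simp
  · intro v _
    rfl

theorem SS_transl (f : Site d k → Fin q) (τ v : Site d k) :
    SS (fun x => f (x + τ)) v = SS f (v + τ) := by
  unfold SS
  have h : ∀ σ : Stp d, f (v + sv σ + τ) = f (v + τ + sv σ) := by
    intro σ
    congr 1
    abel
  simp only [h]

theorem zz_transl (f : Site d k → Fin q) (τ v : Site d k) (c : Fin q) :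
    zz (fun x => f (x + τ)) v c = zz f (v + τ) c := by
  unfold zz
  rw [SS_transl]

theorem av_transl (f : Site d k → Fin q) (τ v : Site d k) :
    av (fun x => f (x + τ)) v = av f (v + τ) := by
  unfold av
  rw [SS_transl]

theorem Bst_transl (hk : 1 ≤ k) {τ : Site d k} (hτ : evn τ) (f : Site d k → Fin q) :
    Bst (fun x => f (x + τ)) = Bst f := by
  ext c
  rw [mem_Bst, mem_Bst]
  have h : ∑ v ∈ ods d k, zz (fun x => f (x + τ)) v c = ∑ v ∈ ods d k, zz f v c := by
    rw [← sum_ods_transl hk hτ (fun v => zz f v c)]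
    exact sum_congr rfl fun v _ => zz_transl f τ v c
  rw [h]

open scoped Classical in
/-- the number of colourings for which `x` deviates does not depend on the odd site `x` -/
theorem dvt_const (hk : 1 ≤ k) {x y : Site d k} (hx : ¬ evn x) (hy : ¬ evn y) :
    ∑ f ∈ prps d k q, (if (SS f x)ᶜ ≠ Bst f then (1 : ℝ) else 0) =
      ∑ f ∈ prps d k q, (if (SS f y)ᶜ ≠ Bst f then (1 : ℝ) else 0) := by
  have hτ := evn_sub_of_odd hk hx hy
  rw [← sum_transl (y - x) (fun f => if (SS f x)ᶜ ≠ Bst f then (1 : ℝ) else 0)]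
  refine sum_congr rfl fun f _ => ?_
  have h1 : SS (fun z => f (z + (y - x))) x = SS f y := by
    rw [SS_transl]
    congr 1
    abel
  rw [h1, Bst_transl hk hτ]

open scoped Classical in
theorem avt_const (x y : Site d k) (P : ℕ → Prop) :
    ∑ f ∈ prps d k q, (if P (av f x) then (1 : ℝ) else 0) =
      ∑ f ∈ prps d k q, (if P (av f y) then (1 : ℝ) else 0) := by
  rw [← sum_transl (y - x) (fun f => if P (av f x) then (1 : ℝ) else 0)]
  refine sum_congr rfl fun f _ => ?_
  have h1 : av (fun z => f (z + (y - x))) x = av f y := by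
    rw [av_transl]
    congr 1
    abel
  rw [h1]

end Pool.Agent.LO
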