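import Pool.Agent.Lib_MP_2c424f_lo.Basic

/-!
# Elementary facts on the local statistics (piece STAT)
-/

set_option autoImplicit false

open Finset

namespace Pool.Agent.LO

variable {d k q : ℕ}

private theorem stat_card_stp (d : ℕ) : (univ : Finset (Stp d)).card = 2 * d := by
  rw [Finset.card_univ, Fintype.card_prod, Fintype.card_fin, Fintype.card_bool, mul_comm]

/-- the numbers of neighbours with the various colours -/
theorem sum_yy (f : Site d k → Fin q) (v : Site d k) : ∑ c, yy f v c = 2 * d := by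
  have h := Finset.card_eq_sum_card_fiberwise (f := fun σ : Stp d => f (v + sv σ))
    (s := univ) (t := univ) (fun _ _ => Finset.mem_coe.mpr (Finset.mem_univ _))
  rw [stat_card_stp] at h
  exact h.symm

theorem mem_SS (f : Site d k → Fin q) (v : Site d k) (c : Fin q) : c ∈ SS f v ↔ yy f v c ≠ 0 := by
  unfold SS yy
  rw [Finset.card_ne_zero, Finset.mem_image]
  constructor
  · rintro ⟨σ, _, h⟩
    exact ⟨σ, by simp [h]⟩
  · rintro ⟨σ, h⟩
    exact ⟨σ, Finset.mem_univ _, (Finset.mem_filter.mp h).2⟩

/-- the number of available colours as a sum -/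
theorem av_eq (f : Site d k → Fin q) (v : Site d k) : (av f v : ℝ) = ∑ c, zz f v c := by
  unfold av zz
  have h1 : (SS f v).card ≤ q := by
    have := Finset.card_le_univ (SS f v)
    rwa [Fintype.card_fin] at this
  rw [Nat.cast_sub h1]
  have h2 : ∀ c : Fin q, (if c ∈ SS f v then (0 : ℝ) else 1) = 1 - (if c ∈ SS f v then 1 else 0) := by
    intro c
    split_ifs <;> norm_num
  rw [Finset.sum_congr rfl (fun c _ => h2 c), Finset.sum_sub_distrib, Finset.sum_const,
    Finset.card_univ, Fintype.card_fin, nsmul_eq_mul, mul_one]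
  congr 1
  rw [Finset.sum_boole]
  congr 1
  simp

/-- a proper colouring leaves the own colour available -/
theorem av_pos {f : Site d k → Fin q} (hf : Prp f) (v : Site d k) : 1 ≤ av f v := by
  unfold av
  have h1 : f v ∉ SS f v := by
    intro h
    unfold SS at h
    rw [Finset.mem_image] at h
    obtain ⟨σ, _, h⟩ := h
    exact hf v σ h
  have h2 : (SS f v).card < q := by
    have : SS f v ⊂ univ := by
      rw [Finset.ssubset_univ_iff]
      intro h
      rw [h] at h1
      exact h1 (Finset.mem_univ _)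
    have := Finset.card_lt_card this
    rwa [Finset.card_univ, Fintype.card_fin] at this
  omega

theorem zz_self {f : Site d k → Fin q} (hf : Prp f) (v : Site d k) : zz f v (f v) = 1 := by
  unfold zz
  rw [if_neg]
  intro h
  unfold SS at h
  rw [Finset.mem_image] at h
  obtain ⟨σ, _, h⟩ := h
  exact hf v σ h

theorem SS_card_pos (hd : 1 ≤ d) (f : Site d k → Fin q) (v : Site d k) : 1 ≤ (SS f v).card := by
  rw [Nat.one_le_iff_ne_zero, Finset.card_ne_zero]
  exact ⟨_, Finset.mem_image_of_mem _ (Finset.mem_univ ((⟨0, hd⟩, true) : Stp d))⟩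

private theorem stat_avg_nonneg (F : Stp d → ℝ) (hF : ∀ σ, 0 ≤ F σ) :
    0 ≤ (∑ σ : Stp d, F σ) / (2 * d) :=
  div_nonneg (Finset.sum_nonneg fun σ _ => hF σ) (by positivity)

private theorem stat_avg_le_one (F : Stp d → ℝ) (hF : ∀ σ, F σ ≤ 1) :
    (∑ σ : Stp d, F σ) / (2 * d) ≤ 1 := by
  apply div_le_one_of_le₀ _ (by positivity)
  calc ∑ σ : Stp d, F σ ≤ ∑ _σ : Stp d, (1 : ℝ) := Finset.sum_le_sum fun σ _ => hF σ
    _ = 2 * d := by
      rw [Finset.sum_const, stat_card_stp, nsmul_eq_mul, mul_one]
      push_cast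
      ring

private theorem stat_zz_nonneg (f : Site d k → Fin q) (v : Site d k) (c : Fin q) :
    0 ≤ zz f v c := by
  unfold zz
  split_ifs <;> norm_num

private theorem stat_zz_le_one (f : Site d k → Fin q) (v : Site d k) (c : Fin q) :
    zz f v c ≤ 1 := by
  unfold zz
  split_ifs <;> norm_num

private theorem stat_UU_nonneg (f : Site d k → Fin q) (R : Finset (Site d k)) (v : Site d k)
    (c : Fin q) : 0 ≤ UU f R v c := by
  unfold UU
  split_ifs <;> norm_num

private theorem stat_UU_le_one (f : Site d k → Fin q) (R : Finset (Site d k)) (v : Site d k)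
    (c : Fin q) : UU f R v c ≤ 1 := by
  unfold UU
  split_ifs <;> norm_num

theorem mm_nonneg (f : Site d k → Fin q) (u : Site d k) (c : Fin q) : 0 ≤ mm f u c :=
  stat_avg_nonneg _ fun _ => stat_zz_nonneg _ _ _

theorem mm_le_one (f : Site d k → Fin q) (u : Site d k) (c : Fin q) : mm f u c ≤ 1 :=
  stat_avg_le_one _ fun _ => stat_zz_le_one _ _ _

theorem nn_nonneg (f : Site d k → Fin q) (R : Finset (Site d k)) (u : Site d k) (c : Fin q) :
    0 ≤ nn f R u c :=
  stat_avg_nonneg _ fun _ => stat_UU_nonneg _ _ _ _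

theorem nn_le_one (f : Site d k → Fin q) (R : Finset (Site d k)) (u : Site d k) (c : Fin q) :
    nn f R u c ≤ 1 :=
  stat_avg_le_one _ fun _ => stat_UU_le_one _ _ _ _

/-- not seeing `c` at all implies not seeing it in `R` -/
theorem zz_le_UU (f : Site d k → Fin q) (R : Finset (Site d k)) (v : Site d k) (c : Fin q) :
    zz f v c ≤ UU f R v c := by
  unfold zz UU
  split_ifs with h1 h2 h2
  · exact le_refl _
  · norm_num
  · exfalso
    obtain ⟨σ, _, h⟩ := h2
    apply h1
    unfold SS
    rw [Finset.mem_image]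
    exact ⟨σ, Finset.mem_univ _, h⟩
  · exact le_refl _

theorem mm_le_nn (f : Site d k → Fin q) (R : Finset (Site d k)) (u : Site d k) (c : Fin q) :
    mm f u c ≤ nn f R u c := by
  unfold mm nn
  apply div_le_div_of_nonneg_right _ (by positivity)
  exact Finset.sum_le_sum fun σ _ => zz_le_UU f R _ c

end Pool.Agent.LO
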