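import Pool.Agent.Lib_MP_2c424f_lo.Defs

/-!
# From the two-point function to boundary conditions, torus part (piece BCA)

If for every proper `g` and every colour `b` the proportion of `f x₀ = b` among the proper `f` with
`f = g` off `B` is less than `4/(3q)`, then `#{f x₀ = f y} < (4/(3q)) ZZ` for every `y ∉ B`.
-/

set_option autoImplicit false

open Finset

namespace Pool.Agent.LO

/-- restriction to the complement of `B` -/
private def bcaR {d k q : ℕ} (B : Finset (Site d k)) (f : Site d k → Fin q) :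
    Site d k → Option (Fin q) := by
  classical
  exact fun x => if x ∈ B then none else some (f x)

private theorem bcaR_eq {d k q : ℕ} (B : Finset (Site d k)) (f g : Site d k → Fin q) :
    bcaR B f = bcaR B g ↔ ∀ x, x ∉ B → f x = g x := by
  classical
  constructor
  · intro h x hx
    have := congrFun h x
    simpa [bcaR, hx] using this
  · intro h
    funext x
    by_cases hx : x ∈ B
    · simp [bcaR, hx]
    · simp [bcaR, hx, h x hx]

open scoped Classical in
private theorem bca_one {d k q : ℕ} (B : Finset (Site d k)) (x₀ y : Site d k) (hy : y ∉ B)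
    (t : ℝ)
    (h : ∀ g ∈ prps d k q, ∀ b : Fin q,
      (((prps d k q).filter fun f => (∀ x, x ∉ B → f x = g x) ∧ f x₀ = b).card : ℝ) ≤
        t * (((prps d k q).filter fun f => ∀ x, x ∉ B → f x = g x).card : ℝ)) :
    (((prps d k q).filter fun f => f x₀ = f y).card : ℝ) ≤ t * ZZ d k q := by
  have h1 : (prps d k q).card = ∑ c ∈ (prps d k q).image (bcaR B),
      ((prps d k q).filter fun f => bcaR B f = c).card :=
    Finset.card_eq_sum_card_fiberwise fun f hf => Finset.mem_image_of_mem _ hf
  have h2 : ((prps d k q).filter fun f => f x₀ = f y).card =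
      ∑ c ∈ (prps d k q).image (bcaR B),
      (((prps d k q).filter fun f => f x₀ = f y).filter fun f => bcaR B f = c).card :=
    Finset.card_eq_sum_card_fiberwise fun f hf =>
      Finset.mem_image_of_mem _ (Finset.mem_filter.1 hf).1
  unfold ZZ
  rw [h1, h2]
  push_cast
  rw [Finset.mul_sum]
  refine Finset.sum_le_sum fun c hc => ?_
  obtain ⟨g, hg, rfl⟩ := Finset.mem_image.1 hc
  have h3 := h g hg (g y)
  have e1 : ((prps d k q).filter fun f => bcaR B f = bcaR B g) =
      (prps d k q).filter fun f => ∀ x, x ∉ B → f x = g x := by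
    refine Finset.filter_congr fun f _ => ?_
    exact bcaR_eq B f g
  have e2 : (((prps d k q).filter fun f => f x₀ = f y).filter fun f => bcaR B f = bcaR B g) =
      (prps d k q).filter fun f => (∀ x, x ∉ B → f x = g x) ∧ f x₀ = g y := by
    rw [Finset.filter_filter]
    refine Finset.filter_congr fun f _ => ?_
    rw [bcaR_eq B f g]
    constructor
    · rintro ⟨ha, hb⟩
      exact ⟨hb, by rw [ha, hb y hy]⟩
    · rintro ⟨ha, hb⟩
      exact ⟨by rw [hb, ha y hy], ha⟩
  rw [e1, e2]
  exact h3

open scoped Classical in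
theorem bca {d k q : ℕ} (hq : 2 ≤ q) (B : Finset (Site d k)) (x₀ : Site d k) (Y : Finset (Site d k))
    (hB : 6 * (q : ℝ) * B.card < Y.card)
    (h : 3 / (2 * (q : ℝ)) * Y.card * ZZ d k q ≤
      ∑ y ∈ Y, (((prps d k q).filter fun f => f x₀ = f y).card : ℝ)) (hZ : 0 < ZZ d k q) :
    ∃ g ∈ prps d k q, ∃ b : Fin q,
      4 / (3 * (q : ℝ)) * (((prps d k q).filter fun f => ∀ x, x ∉ B → f x = g x).card : ℝ) ≤
        (((prps d k q).filter fun f => (∀ x, x ∉ B → f x = g x) ∧ f x₀ = b).card : ℝ) := by
  by_contra hcon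
  push Not at hcon
  have hq0 : (0 : ℝ) < q := by
    have : (2 : ℝ) ≤ q := by exact_mod_cast hq
    linarith
  have hle : ∀ y ∈ Y, (((prps d k q).filter fun f => f x₀ = f y).card : ℝ) ≤
      4 / (3 * (q : ℝ)) * ZZ d k q + (if y ∈ B then ZZ d k q else 0) := by
    intro y _
    by_cases hy : y ∈ B
    · rw [if_pos hy]
      have h1 : (((prps d k q).filter fun f => f x₀ = f y).card : ℝ) ≤ ZZ d k q := by
        unfold ZZ
        exact_mod_cast Finset.card_filter_le _ _
      have h2 : 0 ≤ 4 / (3 * (q : ℝ)) * ZZ d k q := by positivity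
      linarith
    · rw [if_neg hy, add_zero]
      exact bca_one B x₀ y hy _ fun g hg b => (hcon g hg b).le
  have h1 : ∑ y ∈ Y, (((prps d k q).filter fun f => f x₀ = f y).card : ℝ) ≤
      4 / (3 * (q : ℝ)) * Y.card * ZZ d k q + B.card * ZZ d k q := by
    refine (Finset.sum_le_sum hle).trans ?_
    rw [Finset.sum_add_distrib, Finset.sum_const, nsmul_eq_mul]
    have h2 : ∑ y ∈ Y, (if y ∈ B then ZZ d k q else 0) ≤ B.card * ZZ d k q := by
      rw [← Finset.sum_filter, Finset.sum_const, nsmul_eq_mul]
      have h3 : (Y.filter fun y => y ∈ B).card ≤ B.card :=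
        Finset.card_le_card fun y hy => (Finset.mem_filter.1 hy).2
      have h4 : ((Y.filter fun y => y ∈ B).card : ℝ) ≤ B.card := by exact_mod_cast h3
      exact mul_le_mul_of_nonneg_right h4 hZ.le
    nlinarith [h2]
  have h2 : 3 / (2 * (q : ℝ)) * Y.card * ZZ d k q ≤
      (4 / (3 * (q : ℝ)) * Y.card + B.card) * ZZ d k q := by
    calc _ ≤ _ := h
      _ ≤ _ := h1
      _ = _ := by ring
  have h3 := le_of_mul_le_mul_right h2 hZ
  have h4 : (Y.card : ℝ) / (6 * q) ≤ B.card := by
    have e : (Y.card : ℝ) / (6 * q) = 3 / (2 * (q : ℝ)) * Y.card - 4 / (3 * (q : ℝ)) * Y.card := by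
      field_simp
      ring
    rw [e]
    linarith
  rw [div_le_iff₀ (by positivity)] at h4
  linarith

end Pool.Agent.LO
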