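import Pool.Agent.Lib_MP_2c424f_lo.MainA2

/-!
# From pairs of sites to boundary conditions, torus part (piece BCA2)

If `x₀` and `y₀` see the same colours for most proper colourings and the neighbours of `y₀` are outside
`B`, then for some proper `g` the colour of `x₀` is almost surely in the set of the colours available at
`y₀`, given that `f = g` outside `B`.
-/

set_option autoImplicit false

open Finset

namespace Pool.Agent.LO

/-- restriction to the complement of `B` -/
private def bca2R {d k q : ℕ} (B : Finset (Site d k)) (f : Site d k → Fin q) :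
    Site d k → Option (Fin q) := by
  classical
  exact fun x => if x ∈ B then none else some (f x)

private theorem bca2R_eq {d k q : ℕ} (B : Finset (Site d k)) (f g : Site d k → Fin q) :
    bca2R B f = bca2R B g ↔ ∀ x, x ∉ B → f x = g x := by
  classical
  constructor
  · intro h x hx
    have := congrFun h x
    simpa [bca2R, hx] using this
  · intro h
    funext x
    by_cases hx : x ∈ B
    · simp [bca2R, hx]
    · simp [bca2R, hx, h x hx]

open scoped Classical in
/-- some class has a small proportion of bad colourings -/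
private theorem bca2_class {d k q : ℕ} (B : Finset (Site d k)) (P : (Site d k → Fin q) → Prop) (ε : ℝ)
    (hZ : 0 < ZZ d k q)
    (h : (((prps d k q).filter fun f => P f).card : ℝ) ≤ ZZ d k q * ε) :
    ∃ g ∈ prps d k q,
      (((prps d k q).filter fun f => (∀ x, x ∉ B → f x = g x) ∧ P f).card : ℝ) ≤
        ε * (((prps d k q).filter fun f => ∀ x, x ∉ B → f x = g x).card : ℝ) := by
  by_contra hcon
  push Not at hcon
  have h1 : (prps d k q).card = ∑ c ∈ (prps d k q).image (bca2R B),
      ((prps d k q).filter fun f => bca2R B f = c).card :=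
    Finset.card_eq_sum_card_fiberwise fun f hf => Finset.mem_image_of_mem _ hf
  have h2 : ((prps d k q).filter fun f => P f).card =
      ∑ c ∈ (prps d k q).image (bca2R B),
      (((prps d k q).filter fun f => P f).filter fun f => bca2R B f = c).card :=
    Finset.card_eq_sum_card_fiberwise fun f hf =>
      Finset.mem_image_of_mem _ (Finset.mem_filter.1 hf).1
  have hne : ((prps d k q).image (bca2R B)).Nonempty := by
    rw [Finset.image_nonempty, ← Finset.card_pos]
    unfold ZZ at hZ
    exact_mod_cast hZ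
  have h3 : ZZ d k q * ε < (((prps d k q).filter fun f => P f).card : ℝ) := by
    unfold ZZ
    rw [h1, h2]
    push_cast
    rw [Finset.sum_mul]
    refine Finset.sum_lt_sum_of_nonempty hne fun c hc => ?_
    obtain ⟨g, hg, rfl⟩ := Finset.mem_image.1 hc
    have h4 := hcon g hg
    have e1 : ((prps d k q).filter fun f => bca2R B f = bca2R B g) =
        (prps d k q).filter fun f => ∀ x, x ∉ B → f x = g x := by
      refine Finset.filter_congr fun f _ => ?_
      exact bca2R_eq B f g
    have e2 : (((prps d k q).filter fun f => P f).filter fun f => bca2R B f = bca2R B g) =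
        (prps d k q).filter fun f => (∀ x, x ∉ B → f x = g x) ∧ P f := by
      rw [Finset.filter_filter]
      refine Finset.filter_congr fun f _ => ?_
      rw [bca2R_eq B f g]
      exact and_comm
    rw [e1, e2, mul_comm]
    exact h4
  linarith

/-- the bad event -/
private def bca2P {d k q : ℕ} (x₀ y₀ : Site d k) (f : Site d k → Fin q) : Prop :=
  SS f x₀ ≠ SS f y₀ ∨ ¬ (av f x₀ = q1 q ∨ av f x₀ = q2 q)

open scoped Classical in
theorem bca2 {d k q : ℕ} (B : Finset (Site d k)) (x₀ y₀ : Site d k)
    (hy : ∀ σ : Stp d, y₀ + sv σ ∉ B) (ε : ℝ) (hε : ε < 1) (hZ : 0 < ZZ d k q)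
    (h : (((prps d k q).filter fun f =>
        SS f x₀ ≠ SS f y₀ ∨ ¬ (av f x₀ = q1 q ∨ av f x₀ = q2 q)).card : ℝ) ≤ ZZ d k q * ε) :
    ∃ g ∈ prps d k q, ∃ C : Finset (Fin q), (C.card = q1 q ∨ C.card = q2 q) ∧
      (((prps d k q).filter fun f => (∀ x, x ∉ B → f x = g x) ∧ f x₀ ∉ C).card : ℝ) ≤
        ε * (((prps d k q).filter fun f => ∀ x, x ∉ B → f x = g x).card : ℝ) := by
  have h' : (((prps d k q).filter fun f => bca2P x₀ y₀ f).card : ℝ) ≤ ZZ d k q * ε := by
    refine le_trans (le_of_eq ?_) h
    congr 2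
    exact Finset.filter_congr fun f _ => Iff.rfl
  obtain ⟨g, hg, hgc⟩ := bca2_class B (fun f => bca2P x₀ y₀ f) ε hZ h'
  have hSS : ∀ f : Site d k → Fin q, (∀ x, x ∉ B → f x = g x) → SS f y₀ = SS g y₀ := by
    intro f hf
    unfold SS
    have : ∀ σ : Stp d, f (y₀ + sv σ) = g (y₀ + sv σ) := fun σ => hf _ (hy σ)
    simp only [this]
  refine ⟨g, hg, (SS g y₀)ᶜ, ?_, ?_⟩
  · -- a good colouring in the class
    have hpos : 0 < (((prps d k q).filter fun f => ∀ x, x ∉ B → f x = g x).card : ℝ) := by
      have : 0 < ((prps d k q).filter fun f => ∀ x, x ∉ B → f x = g x).card :=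
        Finset.card_pos.2 ⟨g, Finset.mem_filter.2 ⟨hg, fun _ _ => rfl⟩⟩
      exact_mod_cast this
    have hlt : (((prps d k q).filter fun f => (∀ x, x ∉ B → f x = g x) ∧
        bca2P x₀ y₀ f).card : ℝ) <
        (((prps d k q).filter fun f => ∀ x, x ∉ B → f x = g x).card : ℝ) := by
      refine hgc.trans_lt ?_
      nlinarith
    have hlt' : ((prps d k q).filter fun f => (∀ x, x ∉ B → f x = g x) ∧
        bca2P x₀ y₀ f).card <
        ((prps d k q).filter fun f => ∀ x, x ∉ B → f x = g x).card := by
      exact_mod_cast hlt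
    obtain ⟨f, hf1, hf2⟩ := Finset.exists_mem_notMem_of_card_lt_card hlt'
    rw [Finset.mem_filter] at hf1 hf2
    have hf3 : ¬ (SS f x₀ ≠ SS f y₀ ∨ ¬ (av f x₀ = q1 q ∨ av f x₀ = q2 q)) := fun hb =>
      hf2 ⟨hf1.1, hf1.2, hb⟩
    rw [not_or, not_not, not_not] at hf3
    have e1 : ((SS g y₀)ᶜ).card = av f x₀ := by
      rw [card_compl, Fintype.card_fin]
      unfold av
      rw [hf3.1, hSS f hf1.2]
    rw [e1]
    exact hf3.2
  · refine le_trans ?_ hgc
    have hsub : ((prps d k q).filter fun f => (∀ x, x ∉ B → f x = g x) ∧ f x₀ ∉ (SS g y₀)ᶜ) ⊆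
        ((prps d k q).filter fun f => (∀ x, x ∉ B → f x = g x) ∧ bca2P x₀ y₀ f) := by
      intro f hf
      rw [Finset.mem_filter] at hf ⊢
      refine ⟨hf.1, hf.2.1, Or.inl fun hS => ?_⟩
      have h1 := hf.2.2
      rw [mem_compl, not_not, ← hSS f hf.2.1, ← hS] at h1
      exact self_notin_SS ((mem_prps f).1 hf.1) x₀ h1
    exact_mod_cast Finset.card_le_card hsub

end Pool.Agent.LO
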