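import Pool.Agent.Lib_MP_2c424f_lo.Basic
import Pool.Agent.Lib_MP_2c424f_pr.Defs

/-!
# From the torus to boxes, explicit form (piece BCB2)

`ins x₀ r : Bx d (2 r + 2) → Site d k`, `x ↦ x₀ + x - (r+1, …, r+1)`; the proper colourings of the torus
which agree with `g` outside the image of the interior of the box correspond to the proper colourings of
the box which agree with `g ∘ ins` on the boundary of the box.
-/

set_option autoImplicit false

open Finset

namespace Pool.Agent.LO

open Pool.Agent.QC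

/-- the embedding of the box -/
private def bccIns {d k : ℕ} (r : ℕ) (x₀ : Site d k) (x : Bx d (2 * r + 2)) : Site d k :=
  fun i => x₀ i + ((x i).val : ZMod (2 ^ k)) - ((r + 1 : ℕ) : ZMod (2 ^ k))

private theorem bccIns_inj {d k : ℕ} (r : ℕ) (hr : 2 * r + 4 ≤ 2 ^ k) (x₀ : Site d k) :
    Function.Injective (bccIns r x₀) := by
  intro x y h
  funext i
  have h1 := congrFun h i
  simp only [bccIns] at h1
  have h2 : ((x i).val : ZMod (2 ^ k)) = ((y i).val : ZMod (2 ^ k)) := by
    linear_combination h1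
  rw [ZMod.natCast_eq_natCast_iff'] at h2
  have hx := (x i).isLt
  have hy := (y i).isLt
  rw [Nat.mod_eq_of_lt (by omega), Nat.mod_eq_of_lt (by omega)] at h2
  exact Fin.ext h2

/-- neighbours in the box are neighbours in the torus -/
private theorem bcc_adj {d k : ℕ} (r : ℕ) (x₀ : Site d k) (x y : Bx d (2 * r + 2))
    (h : bd x y = 1) : ∃ s : Stp d, bccIns r x₀ y = bccIns r x₀ x + sv s := by
  unfold bd at h
  have h1 : ∃ i, ((x i : ℤ) - (y i : ℤ)).natAbs ≠ 0 := by
    by_contra hc
    push Not at hc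
    rw [Finset.sum_eq_zero (fun i _ => hc i)] at h
    omega
  obtain ⟨i, hi⟩ := h1
  have h2 := Finset.add_sum_erase univ (fun i => ((x i : ℤ) - (y i : ℤ)).natAbs) (mem_univ i)
  rw [h] at h2
  have h3 : ∑ j ∈ univ.erase i, ((x j : ℤ) - (y j : ℤ)).natAbs = 0 := by omega
  have h4 : ∀ j, j ≠ i → (x j).val = (y j).val := by
    intro j hj
    have := (Finset.sum_eq_zero_iff.1 h3) j (by simp [hj])
    omega
  have h6 : ((x i : ℤ) - (y i : ℤ)).natAbs = 1 := by omega
  rcases (show (y i).val = (x i).val + 1 ∨ (x i).val = (y i).val + 1 by omega) with h5 | h5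
  · refine ⟨(i, true), ?_⟩
    funext j
    by_cases hj : j = i
    · subst hj
      simp only [bccIns, sv, h5, Pi.add_apply, Pi.single_eq_same, if_true]
      push_cast
      ring
    · simp only [bccIns, sv, h4 j hj, Pi.add_apply, Pi.single_eq_of_ne hj, add_zero]
  · refine ⟨(i, false), ?_⟩
    funext j
    by_cases hj : j = i
    · subst hj
      simp only [bccIns, sv, h5, Pi.add_apply, Pi.single_eq_same, Bool.false_eq_true, if_false]
      push_cast
      ring
    · simp only [bccIns, sv, h4 j hj, Pi.add_apply, Pi.single_eq_of_ne hj, add_zero]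

/-- the neighbours of an interior point are in the box -/
private theorem bcc_step {d k : ℕ} (r : ℕ) (x₀ : Site d k) (x : Bx d (2 * r + 2))
    (hx : ∀ i, 0 < (x i).val ∧ (x i).val < 2 * r + 2) (s : Stp d) :
    ∃ y : Bx d (2 * r + 2), bccIns r x₀ y = bccIns r x₀ x + sv s ∧ bd x y = 1 := by
  obtain ⟨i, b⟩ := s
  have hi := hx i
  cases b with
  | true =>
    refine ⟨Function.update x i ⟨(x i).val + 1, by omega⟩, ?_, ?_⟩
    · funext j
      by_cases hj : j = i
      · subst hj
        simp only [bccIns, sv, Pi.add_apply, Pi.single_eq_same, if_true, Function.update_self]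
        push_cast
        ring
      · simp only [bccIns, sv, Pi.add_apply, Pi.single_eq_of_ne hj, add_zero,
          Function.update_of_ne hj]
    · unfold bd
      rw [Finset.sum_eq_single i]
      · simp only [Function.update_self]
        omega
      · intro j _ hj
        simp only [Function.update_of_ne hj]
        omega
      · intro h
        exact absurd (mem_univ i) h
  | false =>
    refine ⟨Function.update x i ⟨(x i).val - 1, by omega⟩, ?_, ?_⟩
    · funext j
      by_cases hj : j = i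
      · subst hj
        simp only [bccIns, sv, Pi.add_apply, Pi.single_eq_same, Function.update_self,
          Bool.false_eq_true, if_false]
        rw [Nat.cast_sub (by omega)]
        push_cast
        ring
      · simp only [bccIns, sv, Pi.add_apply, Pi.single_eq_of_ne hj, add_zero,
          Function.update_of_ne hj]
    · unfold bd
      rw [Finset.sum_eq_single i]
      · simp only [Function.update_self]
        omega
      · intro j _ hj
        simp only [Function.update_of_ne hj]
        omega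
      · intro h
        exact absurd (mem_univ i) h

/-- the opposite step -/
private theorem bcc_opp {d k : ℕ} (s : Stp d) : (sv s : Site d k) + sv (s.1, !s.2) = 0 := by
  obtain ⟨i, b⟩ := s
  funext j
  by_cases hj : j = i
  · subst hj
    cases b <;> simp [sv]
  · cases b <;> simp [sv, Pi.single_eq_of_ne hj]

/-- the bijection -/
private theorem bcc_bij {d k q : ℕ} (r : ℕ) (hr : 2 * r + 4 ≤ 2 ^ k) (x₀ : Site d k)
    (B : Finset (Site d k))
    (hB : ∀ y, y ∈ B ↔ ∃ x : Bx d (2 * r + 2),
      (∀ i, 0 < (x i).val ∧ (x i).val < 2 * r + 2) ∧ bccIns r x₀ x = y)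
    (w : Bx d (2 * r + 2)) (hw : bccIns r x₀ w = x₀)
    (g : Site d k → Fin q) (hg : Prp g) (P : Fin q → Prop) :
    cnt (fun f : Site d k → Fin q => Prp f ∧ (∀ x, x ∉ B → f x = g x) ∧ P (f x₀)) =
      cnt (fun f : Bx d (2 * r + 2) → Fin q => Proper (BG d (2 * r + 2)) f ∧
        (∀ x ∈ {x : Bx d (2 * r + 2) | ∃ i, ¬ (0 < (x i).val ∧ (x i).val < 2 * r + 2)},
          f x = g (bccIns r x₀ x)) ∧ P (f w)) := by
  classical
  have hinj := bccIns_inj r hr x₀
  have hQ : ∀ x : Bx d (2 * r + 2), (∃ i, ¬ (0 < (x i).val ∧ (x i).val < 2 * r + 2)) →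
      bccIns r x₀ x ∉ B := by
    rintro x ⟨i, hi⟩ hx
    obtain ⟨y, hy, hyx⟩ := (hB _).1 hx
    have := hinj hyx
    subst this
    exact hi (hy i)
  refine cnt_bij (fun f x => f (bccIns r x₀ x)) ?_ ?_ ?_
  · rintro f ⟨hf, hfg, hP⟩
    refine ⟨?_, ?_, ?_⟩
    · intro x y hxy
      obtain ⟨s, hs⟩ := bcc_adj r x₀ x y hxy
      have := hf (bccIns r x₀ x) s
      rw [← hs] at this
      exact this.symm
    · intro x hx
      exact hfg _ (hQ x hx)
    · simp only [hw]
      exact hP
  · rintro f f' ⟨_, hfg, _⟩ ⟨_, hfg', _⟩ h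
    funext y
    by_cases hy : y ∈ B
    · obtain ⟨x, _, rfl⟩ := (hB _).1 hy
      exact congrFun h x
    · rw [hfg y hy, hfg' y hy]
  · rintro F ⟨hF, hFQ, hP⟩
    have hex : ∀ y : Site d k, ∃ c : Fin q, (y ∉ B → c = g y) ∧
        ∀ x : Bx d (2 * r + 2), bccIns r x₀ x = y → c = F x := by
      intro y
      by_cases hy : y ∈ B
      · obtain ⟨x, _, hx⟩ := (hB _).1 hy
        refine ⟨F x, fun h => absurd hy h, ?_⟩
        intro x' hx'
        rw [hinj (hx.trans hx'.symm)]
      · refine ⟨g y, fun _ => rfl, ?_⟩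
        intro x hx
        have hxQ : ∃ i, ¬ (0 < (x i).val ∧ (x i).val < 2 * r + 2) := by
          by_contra hc
          push Not at hc
          exact hy ((hB _).2 ⟨x, fun i => ⟨(hc i).1, (hc i).2⟩, hx⟩)
        rw [hFQ x hxQ, hx]
    choose f hf1 hf2 using hex
    have hf3 : ∀ x, f (bccIns r x₀ x) = F x := fun x => hf2 _ x rfl
    have key : ∀ (y : Site d k) (s : Stp d), y ∈ B → f (y + sv s) ≠ f y := by
      intro y s hy
      obtain ⟨x, hx, rfl⟩ := (hB _).1 hy
      obtain ⟨x', hx', hb⟩ := bcc_step r x₀ x hx s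
      rw [← hx', hf3, hf3]
      exact (hF x x' hb).symm
    refine ⟨f, ⟨?_, fun y hy => hf1 y hy, ?_⟩, ?_⟩
    · intro y s
      by_cases hy : y ∈ B
      · exact key y s hy
      · by_cases hy' : y + sv s ∈ B
        · have := key (y + sv s) (s.1, !s.2) hy'
          rw [add_assoc, bcc_opp, add_zero] at this
          exact this.symm
        · rw [hf1 y hy, hf1 _ hy']
          exact hg y s
    · have := hf3 w
      rw [hw] at this
      rw [this]
      exact hP
    · funext x
      exact hf3 x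

/-- the boundary of the box -/
def bxQ (d n : ℕ) : Set (Bx d n) := {x | ∃ i, (x i).val = 0 ∨ (x i).val = n}

/-- the centre of the box -/
def bxC (d r : ℕ) : Bx d (2 * r + 2) := fun _ => ⟨r + 1, by omega⟩

private theorem bxQ_eq (d r : ℕ) :
    {x : Bx d (2 * r + 2) | ∃ i, ¬ (0 < (x i).val ∧ (x i).val < 2 * r + 2)} = bxQ d (2 * r + 2) := by
  ext x
  unfold bxQ
  simp only [Set.mem_ofPred_eq]
  constructor
  · rintro ⟨i, hi⟩
    have := (x i).isLt
    exact ⟨i, by omega⟩
  · rintro ⟨i, hi⟩
    exact ⟨i, by omega⟩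

/-- the boundary is at distance `> r` from the centre -/
theorem bxQ_dist (d r : ℕ) : ∀ x ∈ bxQ d (2 * r + 2), r + 1 ≤ bd (bxC d r) x := by
  rintro x ⟨i, hi⟩
  unfold bd bxC
  refine le_trans ?_ (Finset.single_le_sum
    (f := fun i => (((⟨r + 1, by omega⟩ : Fin (2 * r + 2 + 1)) : ℤ) - (x i : ℤ)).natAbs)
    (fun _ _ => Nat.zero_le _) (mem_univ i))
  have := (x i).isLt
  simp only
  omega

theorem bcb2 {d k q : ℕ} (r : ℕ) (hr : 2 * r + 4 ≤ 2 ^ k) (x₀ : Site d k) :
    ∃ B : Finset (Site d k), B.card ≤ (2 * r + 1) ^ d ∧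
      ∀ g : Site d k → Fin q, Prp g → ∃ σ : Bx d (2 * r + 2) → Fin q,
        ∀ P : Fin q → Prop, cnt (fun f : Site d k → Fin q => Prp f ∧ (∀ x, x ∉ B → f x = g x) ∧ P (f x₀)) =
          cnt (fun f : Bx d (2 * r + 2) → Fin q =>
            Proper (BG d (2 * r + 2)) f ∧ (∀ x ∈ bxQ d (2 * r + 2), f x = σ x) ∧ P (f (bxC d r))) := by
  classical
  obtain ⟨B, hBdef⟩ : ∃ B : Finset (Site d k), B = (Fintype.piFinset fun _ : Fin d =>
      (univ.filter fun a : Fin (2 * r + 2 + 1) => 0 < a.val ∧ a.val < 2 * r + 2)).image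
        (bccIns r x₀) := ⟨_, rfl⟩
  have hB : ∀ y, y ∈ B ↔ ∃ x : Bx d (2 * r + 2),
      (∀ i, 0 < (x i).val ∧ (x i).val < 2 * r + 2) ∧ bccIns r x₀ x = y := by
    intro y
    rw [hBdef]
    simp only [mem_image, Fintype.mem_piFinset, mem_filter, mem_univ, true_and]
  have hw : bccIns r x₀ (bxC d r) = x₀ := by
    funext i
    simp only [bccIns, bxC]
    ring
  refine ⟨B, ?_, fun g hg => ⟨fun x => g (bccIns r x₀ x), fun P => ?_⟩⟩
  · rw [hBdef]
    refine Finset.card_image_le.trans ?_
    rw [Fintype.card_piFinset, Finset.prod_const, card_univ, Fintype.card_fin]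
    apply Nat.pow_le_pow_left
    have h1 : ((univ.filter fun a : Fin (2 * r + 2 + 1) => 0 < a.val ∧ a.val < 2 * r + 2).image
        (fun a => a.val)) ⊆ Finset.Ioo 0 (2 * r + 2) := by
      intro y hy
      simp only [mem_image, mem_filter, mem_univ, true_and] at hy
      obtain ⟨a, ha, rfl⟩ := hy
      exact Finset.mem_Ioo.2 ha
    have h2 := Finset.card_le_card h1
    rw [Finset.card_image_of_injective _ Fin.val_injective, Nat.card_Ioo] at h2
    omega
  · have h := bcc_bij r hr x₀ B hB _ hw g hg P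
    rw [← bxQ_eq]
    exact h

end Pool.Agent.LO
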