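import Pool.Agent.Lib_MP_2c424f_lo.Defs

/-!
# Sequential summation (piece BAYES)

If the weight `w v f` depends on `f v` and on the values `f u` with `rk u < rk v` only, and sums to at
most `1` over the value at `v`, then the sum over all `f` of the product is at most `1`.
Proof: by `Finset.induction_on_max_value rk` show for every finset `A` that
`∑ f, ∏ v ∈ A, w v f ≤ (card α) ^ (card V - A.card)`; step: average over the value at the new vertex.
-/

set_option autoImplicit false

open Finset

namespace Pool.Agent.LO

/-- averaging over the value at `v` -/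
private theorem Bayes_avg {V α : Type} [Fintype V] [DecidableEq V] [Fintype α] (v : V)
    (F : (V → α) → ℝ) :
    ∑ f : V → α, ∑ c : α, F (Function.update f v c) = Fintype.card α * ∑ f : V → α, F f := by
  classical
  -- the map `(f, c) ↦ (update f v c, f v)` is an involution
  have h : ∑ p : (V → α) × α, F (Function.update p.1 v p.2) = ∑ p : (V → α) × α, F p.1 := by
    refine Finset.sum_nbij' (fun p => (Function.update p.1 v p.2, p.1 v))
      (fun p => (Function.update p.1 v p.2, p.1 v)) ?_ ?_ ?_ ?_ ?_
    · intro p _; exact mem_univ _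
    · intro p _; exact mem_univ _
    · rintro ⟨f, c⟩ _
      simp
    · rintro ⟨f, c⟩ _
      simp
    · rintro ⟨f, c⟩ _
      rfl
  rw [Fintype.sum_prod_type, Fintype.sum_prod_type] at h
  rw [h]
  simp [Finset.mul_sum]

theorem bayes {V α : Type} [Fintype V] [DecidableEq V] [Fintype α] (rk : V → ℕ)
    (w : V → (V → α) → ℝ) (h0 : ∀ v f, 0 ≤ w v f)
    (hdep : ∀ v (f g : V → α), (∀ u, rk u < rk v → f u = g u) → f v = g v → w v f = w v g)
    (hsum : ∀ v f, ∑ c, w v (Function.update f v c) ≤ 1) :
    ∑ f : V → α, ∏ v, w v f ≤ 1 := by
  classical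
  have hcomb : ∀ A : Finset V, (Fintype.card α : ℝ) ^ A.card * ∑ f : V → α, ∏ v ∈ A, w v f ≤
      (Fintype.card α : ℝ) ^ Fintype.card V := by
    intro A
    refine Finset.induction_on_max_value rk A (by simp) fun a s ha hmax ih => ?_
    · 
      rw [Finset.card_insert_of_notMem ha]
      -- the product over s does not depend on the value at a
      have hs : ∀ (f : V → α) (c : α), ∏ v ∈ s, w v (Function.update f a c) = ∏ v ∈ s, w v f := by
        intro f c
        refine Finset.prod_congr rfl fun v hv => ?_
        have hva : v ≠ a := fun h => ha (h ▸ hv)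
        refine hdep v _ _ (fun u hu => ?_) ?_
        · have : u ≠ a := by
            rintro rfl
            exact absurd (hmax v hv) (not_le.2 hu)
          exact Function.update_of_ne this _ _
        · exact Function.update_of_ne hva _ _
      have h1 : (Fintype.card α : ℝ) * ∑ f : V → α, ∏ v ∈ insert a s, w v f ≤
          ∑ f : V → α, ∏ v ∈ s, w v f := by
        rw [← Bayes_avg a]
        refine Finset.sum_le_sum fun f _ => ?_
        have : ∑ c, ∏ v ∈ insert a s, w v (Function.update f a c) =
            (∑ c, w a (Function.update f a c)) * ∏ v ∈ s, w v f := by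
          rw [Finset.sum_mul]
          refine Finset.sum_congr rfl fun c _ => ?_
          rw [Finset.prod_insert ha, hs]
        rw [this]
        calc (∑ c, w a (Function.update f a c)) * ∏ v ∈ s, w v f ≤ 1 * ∏ v ∈ s, w v f :=
              mul_le_mul_of_nonneg_right (hsum a f) (Finset.prod_nonneg fun v _ => h0 v f)
          _ = _ := one_mul _
      calc (Fintype.card α : ℝ) ^ (s.card + 1) * ∑ f : V → α, ∏ v ∈ insert a s, w v f
          = (Fintype.card α : ℝ) ^ s.card * ((Fintype.card α : ℝ) * ∑ f : V → α, ∏ v ∈ insert a s, w v f) := by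
            ring
        _ ≤ (Fintype.card α : ℝ) ^ s.card * ∑ f : V → α, ∏ v ∈ s, w v f :=
            mul_le_mul_of_nonneg_left h1 (by positivity)
        _ ≤ _ := ih
  have h := hcomb Finset.univ
  rw [Finset.card_univ] at h
  rcases Nat.eq_zero_or_pos (Fintype.card α) with h' | h'
  · -- `α` is empty
    rcases Nat.eq_zero_or_pos (Fintype.card V) with h'' | h''
    · rw [h''] at h
      simpa using h
    · obtain ⟨v⟩ := Fintype.card_pos_iff.1 h''
      have he : IsEmpty α := Fintype.card_eq_zero_iff.1 h'
      have : IsEmpty (V → α) := ⟨fun f => he.elim (f v)⟩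
      simp
  · have hp : (0 : ℝ) < (Fintype.card α : ℝ) ^ Fintype.card V := by positivity
    exact (mul_le_iff_le_one_right hp).1 h

end Pool.Agent.LO
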