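import Pool.Agent.Lib_MP_2c424f_lo.BSum

/-!
# Variances of the blocks (piece CUTI)

`χ = zz` on odd sites and the majority value `1(m_u ≥ 1/2)` on even sites.  The number of changing edges
at `u` is `2 d min (m, 1 - m) ≤ 4 d m (1 - m)`.
-/

set_option autoImplicit false

open Finset

namespace Pool.Agent.LO

variable {d k q : ℕ}

private theorem CutI_zz (f : Site d k → Fin q) (v : Site d k) (c : Fin q) :
    zz f v c = 0 ∨ zz f v c = 1 := by
  unfold zz
  split_ifs
  · left; rfl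
  · right; rfl

/-- the indicator field -/
theorem exists_chi (hd : 1 ≤ d) (hk : 1 ≤ k) (f : Site d k → Fin q) (c : Fin q) :
    ∃ χ : Site d k → ℝ, (∀ x, χ x = 0 ∨ χ x = 1) ∧ (∀ v ∈ ods d k, χ v = zz f v c) ∧
      ∑ j : Fin d, ∑ x, (|χ (x + sv (j, true)) - χ x| + |χ (x + sv (j, false)) - χ x|) ≤
        8 * d * II f c := by
  classical
  obtain ⟨χ, hχ⟩ : ∃ χ : Site d k → ℝ, ∀ x, χ x = if evn x then (if 1 / 2 ≤ mm f x c then 1 else 0)
      else zz f x c := ⟨_, fun _ => rfl⟩
  have hodd : ∀ v ∈ ods d k, χ v = zz f v c := by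
    intro v hv
    rw [hχ, if_neg (Finset.mem_filter.mp hv).2]
  refine ⟨χ, fun x => ?_, hodd, ?_⟩
  · rw [hχ]
    split_ifs
    · right; rfl
    · left; rfl
    · exact CutI_zz f x c
  · have hd' : (0 : ℝ) < d := by exact_mod_cast hd
    -- sum over sites and steps
    have h1 : ∑ j : Fin d, ∑ x, (|χ (x + sv (j, true)) - χ x| + |χ (x + sv (j, false)) - χ x|) =
        ∑ x, ∑ σ : Stp d, |χ (x + sv σ) - χ x| := by
      rw [Finset.sum_comm]
      refine Finset.sum_congr rfl fun x _ => ?_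
      rw [Fintype.sum_prod_type]
      refine Finset.sum_congr rfl fun j _ => ?_
      rw [Fintype.sum_bool]
    have h2 : ∑ x, ∑ σ : Stp d, |χ (x + sv σ) - χ x| =
        ∑ u ∈ evs d k, ∑ σ : Stp d, |χ (u + sv σ) - χ u| +
          ∑ v ∈ ods d k, ∑ σ : Stp d, |χ (v + sv σ) - χ v| := by
      unfold evs ods
      exact (Finset.sum_filter_add_sum_filter_not _ _ _).symm
    have h3 : ∑ v ∈ ods d k, ∑ σ : Stp d, |χ (v + sv σ) - χ v| =
        ∑ u ∈ evs d k, ∑ σ : Stp d, |χ (u + sv σ) - χ u| := by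
      rw [sum_nbr hk (fun u v => |χ v - χ u|)]
      refine Finset.sum_congr rfl fun v _ => Finset.sum_congr rfl fun σ _ => ?_
      exact abs_sub_comm _ _
    have h4 : ∀ u ∈ evs d k, ∑ σ : Stp d, |χ (u + sv σ) - χ u| ≤
        4 * d * (mm f u c * (1 - mm f u c)) := by
      intro u hu
      have hu' : evn u := (Finset.mem_filter.mp hu).2
      have h5 : ∀ σ : Stp d, χ (u + sv σ) = zz f (u + sv σ) c := by
        intro σ
        refine hodd _ ?_
        unfold ods
        rw [Finset.mem_filter]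
        refine ⟨Finset.mem_univ _, ?_⟩
        rw [evn_step hk]
        exact not_not.mpr hu'
      have hm0 := mm_nonneg f u c
      have hm1 := mm_le_one f u c
      have h6 : ∑ σ : Stp d, zz f (u + sv σ) c = 2 * d * mm f u c := by
        unfold mm
        field_simp
      by_cases hm : 1 / 2 ≤ mm f u c
      · have h7 : χ u = 1 := by rw [hχ, if_pos hu', if_pos hm]
        have h8 : ∀ σ : Stp d, |χ (u + sv σ) - χ u| = 1 - zz f (u + sv σ) c := by
          intro σ
          rw [h5, h7]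
          rcases CutI_zz f (u + sv σ) c with h | h <;> rw [h] <;> norm_num
        rw [Finset.sum_congr rfl fun σ _ => h8 σ, Finset.sum_sub_distrib, h6, Finset.sum_const,
          Finset.card_univ, Fintype.card_prod, Fintype.card_fin, Fintype.card_bool, nsmul_eq_mul]
        push_cast
        nlinarith [mul_nonneg (mul_nonneg hd'.le (sub_nonneg.mpr hm1)) (sub_nonneg.mpr hm)]
      · have h7 : χ u = 0 := by rw [hχ, if_pos hu', if_neg hm]
        have h8 : ∀ σ : Stp d, |χ (u + sv σ) - χ u| = zz f (u + sv σ) c := by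
          intro σ
          rw [h5, h7]
          rcases CutI_zz f (u + sv σ) c with h | h <;> rw [h] <;> norm_num
        rw [Finset.sum_congr rfl fun σ _ => h8 σ, h6]
        have hm' : 0 ≤ 1 / 2 - mm f u c := by linarith [not_le.mp hm]
        nlinarith [mul_nonneg (mul_nonneg hd'.le hm0) hm']
    rw [h1, h2, h3]
    have h9 : ∑ u ∈ evs d k, ∑ σ : Stp d, |χ (u + sv σ) - χ u| ≤ 4 * d * II f c := by
      unfold II
      rw [Finset.mul_sum]
      exact Finset.sum_le_sum h4
    linarith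

/-- block mean of `χ` -/
noncomputable def pm (χ : Site d (k + 1) → ℝ) (t : Blk d k) : ℝ :=
  (∑ a, ∑ b, χ (pt t a b)) / 4 ^ d

/-- sum of the block variances (`poincare`, `sum_cut`) -/
theorem sum_var (χ : Site d (k + 1) → ℝ) (hχ : ∀ x, χ x = 0 ∨ χ x = 1) :
    ∑ t : Blk d k, pm χ t * (1 - pm χ t) ≤
      1 / 4 * (∑ j : Fin d, ∑ x, (|χ (x + sv (j, true)) - χ x| + |χ (x + sv (j, false)) - χ x|)) / 2 ^ d := by
  have h1 : ∀ t : Blk d k, pm χ t * (1 - pm χ t) ≤ 1 / 4 * ((∑ j : Fin d, ∑ a, ∑ b,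
      (|χ (pt t (flp a j) b) - χ (pt t a b)| + |χ (pt t a (flp b j)) - χ (pt t a b)|)) / 4 ^ d) :=
    fun t => poincare (fun a b => χ (pt t a b)) fun a b => hχ _
  refine (Finset.sum_le_sum fun t _ => h1 t).trans (le_of_eq ?_)
  rw [← Finset.mul_sum, ← Finset.sum_div, Finset.sum_comm]
  rw [Finset.sum_congr rfl fun j _ => sum_cut j χ, ← Finset.mul_sum]
  have h22 : (4 : ℝ) ^ d = 2 ^ d * 2 ^ d := by
    rw [← mul_pow]; norm_num
  rw [h22]
  field_simp

/-- if the odd mean is in `[δ/2, 1 - δ]` then the variance is at least `δ/5` -/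
theorem var_ge (hd : 1 ≤ d) (f : Site d (k + 1) → Fin q) (c : Fin q) (χ : Site d (k + 1) → ℝ)
    (hχ : ∀ x, χ x = 0 ∨ χ x = 1) (hz : ∀ v ∈ ods d (k + 1), χ v = zz f v c) (t : Blk d k) {δ : ℝ}
    (h0 : 0 < δ) (h1 : δ ≤ 1 / 2) (hl : δ / 2 ≤ mt f t c) (hu : mt f t c ≤ 1 - δ) :
    δ / 5 ≤ pm χ t * (1 - pm χ t) := by
  classical
  have h4p : (0 : ℝ) < 4 ^ d := by positivity
  have hχ0 : ∀ x, 0 ≤ χ x := fun x => by rcases hχ x with h | h <;> rw [h]; norm_num
  have hχ1 : ∀ x, χ x ≤ 1 := fun x => by rcases hχ x with h | h <;> rw [h]; norm_num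
  obtain ⟨O, hO⟩ : ∃ O, O = ∑ a : Bt d, ∑ b : Bt d, (if od a b then χ (pt t a b) else 0) := ⟨_, rfl⟩
  obtain ⟨E, hE⟩ : ∃ E, E = ∑ a : Bt d, ∑ b : Bt d, (if od a b then 0 else χ (pt t a b)) := ⟨_, rfl⟩
  obtain ⟨N, hN⟩ : ∃ N : ℝ, N = ∑ a : Bt d, ∑ b : Bt d, (if od a b then 1 else 0) := ⟨_, rfl⟩
  have hsum : ∑ a : Bt d, ∑ b : Bt d, χ (pt t a b) = O + E := by
    rw [hO, hE, ← Finset.sum_add_distrib]
    refine Finset.sum_congr rfl fun a _ => ?_
    rw [← Finset.sum_add_distrib]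
    refine Finset.sum_congr rfl fun b _ => ?_
    split_ifs <;> simp
  have hmt : mt f t c = 2 * O / 4 ^ d := by
    unfold mt EB
    rw [hO]
    congr 2
    refine Finset.sum_congr rfl fun a _ => Finset.sum_congr rfl fun b _ => ?_
    by_cases hab : od a b
    · rw [if_pos hab, if_pos hab, hz]
      unfold ods
      rw [Finset.mem_filter]
      refine ⟨Finset.mem_univ _, ?_⟩
      rw [evn_pt]
      exact not_not.mpr hab
    · rw [if_neg hab, if_neg hab]
  have hE0 : 0 ≤ E := by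
    rw [hE]
    refine Finset.sum_nonneg fun a _ => Finset.sum_nonneg fun b _ => ?_
    split_ifs
    · exact le_refl _
    · exact hχ0 _
  have hN1 : N = 4 ^ d / 2 := by
    have h := card_od hd
    unfold EB at h
    rw [← hN] at h
    field_simp at h
    linarith
  have hEN : E + N ≤ 4 ^ d := by
    rw [hE, hN, ← Finset.sum_add_distrib]
    have h2 : ∀ a ∈ (Finset.univ : Finset (Bt d)), (∑ b : Bt d, (if od a b then 0 else χ (pt t a b)) +
        ∑ b : Bt d, (if od a b then (1 : ℝ) else 0)) ≤ 2 ^ d := by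
      intro a _
      rw [← Finset.sum_add_distrib]
      have h3 : ∀ b ∈ (Finset.univ : Finset (Bt d)), ((if od a b then 0 else χ (pt t a b)) +
          (if od a b then (1 : ℝ) else 0)) ≤ 1 := by
        intro b _
        split_ifs
        · norm_num
        · rw [add_zero]; exact hχ1 _
      refine (Finset.sum_le_sum h3).trans (le_of_eq ?_)
      rw [Finset.sum_const, Finset.card_univ, Fintype.card_fun, Fintype.card_bool, Fintype.card_fin,
        nsmul_eq_mul, mul_one]
      push_cast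
      rfl
    refine (Finset.sum_le_sum h2).trans (le_of_eq ?_)
    rw [Finset.sum_const, Finset.card_univ, Fintype.card_fun, Fintype.card_bool, Fintype.card_fin,
      nsmul_eq_mul]
    push_cast
    rw [← mul_pow]
    norm_num
  have hpm : pm χ t = mt f t c / 2 + E / 4 ^ d := by
    unfold pm
    rw [hsum, hmt]
    field_simp
  have he0 : 0 ≤ E / 4 ^ d := div_nonneg hE0 h4p.le
  have he1 : E / 4 ^ d ≤ 1 / 2 := by
    rw [div_le_iff₀ h4p]
    linarith
  have hp0 : δ / 4 ≤ pm χ t := by rw [hpm]; linarith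
  have hp1 : pm χ t ≤ 1 - δ / 2 := by rw [hpm]; linarith
  generalize pm χ t = p at hp0 hp1
  have h5 : 0 ≤ (p - δ / 4) * (1 - δ / 2 - p) :=
    mul_nonneg (sub_nonneg.mpr hp0) (sub_nonneg.mpr hp1)
  nlinarith

end Pool.Agent.LO
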