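import Pool.Agent.Lib_MP_2c424f_lo.Stat

/-!
# The linear code (piece DOM)

`hh s i` is additive and does not depend on the coordinate `i`; the map `t ↦ sg s i t` gives steps
which change it by `t`; so for every `a` the sites with `hh s i = a` dominate.
-/

set_option autoImplicit false

open Finset

namespace Pool.Agent.LO

variable {d k s : ℕ}

private theorem Dom_hh_eq (hs : s ≤ k) (i : Fin d) (x : Site d k) :
    hh s i x = ∑ j, (kap i j : ZMod (2 ^ s)) *
      ZMod.castHom (pow_dvd_pow 2 hs) (ZMod (2 ^ s)) (x j) := by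
  unfold hh
  refine Finset.sum_congr rfl fun j _ => ?_
  rw [Nat.cast_mul, ZMod.natCast_val, ZMod.castHom_apply]

theorem hh_step (hs : s ≤ k) (i : Fin d) (x : Site d k) (j : Fin d) (b : Bool) :
    hh s i (x + sv (j, b)) = hh s i x + (if b then (kap i j : ZMod (2 ^ s)) else -(kap i j : ZMod (2 ^ s))) := by
  rw [Dom_hh_eq hs, Dom_hh_eq hs]
  simp only [Pi.add_apply, map_add, mul_add, Finset.sum_add_distrib]
  congr 1
  rw [Finset.sum_eq_single j]
  · unfold sv
    cases b <;> simp [-ZMod.castHom_apply]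
  · intro l _ hl
    unfold sv
    simp [Pi.single_eq_of_ne hl]
  · intro h
    exact absurd (Finset.mem_univ j) h

theorem hh_same (hs : s ≤ k) (i : Fin d) (x : Site d k) (b : Bool) :
    hh s i (x + sv (i, b)) = hh s i x := by
  rw [hh_step hs]
  have h : kap i i = 0 := by
    unfold kap
    have : i.val + (d - i.val) = d := by have := i.isLt; omega
    rw [this, Nat.mod_self]
  cases b <;> simp [h]

private theorem Dom_kap (i : Fin d) (t : ℕ) (ht : t < d) : kap i (jj i t) = t := by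
  unfold kap jj
  simp only
  rw [Nat.add_mod, Nat.mod_mod, ← Nat.add_mod]
  have h1 : i.val + t + (d - i.val) = t + d := by have := i.isLt; omega
  rw [h1, Nat.add_mod_right, Nat.mod_eq_of_lt ht]

theorem hh_vv (hs : s ≤ k) (h1 : d ≤ 2 ^ s) (h2 : 2 ^ s < 2 * d) (i : Fin d) (a : ZMod (2 ^ s))
    (u : Site d k) : hh s i (vv s i a u) = a := by
  unfold vv sg
  set t : ZMod (2 ^ s) := a - hh s i u with ht
  have htv : ((t.val : ℕ) : ZMod (2 ^ s)) = t := ZMod.natCast_zmod_val t
  by_cases h : t.val < d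
  · rw [if_pos h, hh_step hs, Dom_kap i _ h, if_pos rfl, htv, ht]
    ring
  · rw [if_neg h, hh_step hs]
    have hlt : t.val < 2 ^ s := ZMod.val_lt t
    have h3 : 2 ^ s - t.val < d := by omega
    rw [Dom_kap i _ h3]
    have h4 : ((2 ^ s - t.val : ℕ) : ZMod (2 ^ s)) = -t := by
      rw [Nat.cast_sub hlt.le, htv]
      have : (((2 ^ s : ℕ) : ZMod (2 ^ s))) = 0 := ZMod.natCast_self _
      rw [this, zero_sub]
    rw [h4]
    simp only [Bool.false_eq_true, if_false, neg_neg, ht]
    ring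

theorem evn_vv (hk : 1 ≤ k) (i : Fin d) (a : ZMod (2 ^ s)) (u : Site d k) :
    evn (vv s i a u) ↔ ¬ evn u := by
  unfold vv
  exact evn_step hk u _

/-- averaging over the random value `a` -/
theorem avg_vv (hk : 1 ≤ k) (i : Fin d) (φ : Site d k → ℝ) :
    ∑ a : ZMod (2 ^ s), ∑ u ∈ evs d k, φ (vv s i a u) = 2 ^ s * ∑ v ∈ ods d k, φ v := by
  rw [Finset.sum_comm]
  have h1 : ∀ u ∈ evs d k, ∑ a : ZMod (2 ^ s), φ (vv s i a u) =
      ∑ t : ZMod (2 ^ s), φ (u + sv (sg s i t)) := by
    intro u _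
    unfold vv
    exact Equiv.sum_comp (Equiv.subRight (hh s i u)) fun t => φ (u + sv (sg s i t))
  rw [Finset.sum_congr rfl h1, Finset.sum_comm]
  have h2 : ∀ t ∈ (Finset.univ : Finset (ZMod (2 ^ s))),
      ∑ u ∈ evs d k, φ (u + sv (sg s i t)) = ∑ v ∈ ods d k, φ v :=
    fun t _ => sum_step hk (sg s i t) φ
  rw [Finset.sum_congr rfl h2, Finset.sum_const, Finset.card_univ, ZMod.card, nsmul_eq_mul]
  push_cast
  rfl

end Pool.Agent.LO
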