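import Pool.Agent.Lib_MP_2c424f_lo.KSm

/-!
# Violations, large part (piece KBG)

If `n_u^{f u} > 1/2` then more than `d` of the `v = u + sv σ` have `UU f R v (f u) = 1`.  Either at
least `d/2` of them have `yy ≤ 16` (Markov, `sum_small`), or at least `d/2` have `yy ≥ 17`: union bound
over the set `W` of these steps (at most `2^(2d)`), all sites `v + sv τ` of colour `f u`, `v` in `W`,
avoid `R`; these are at least `4 d` sites, because (`two_steps`) every site other than `u` is counted at
most twice.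
-/

set_option autoImplicit false

open Finset

namespace Pool.Agent.LO

variable {d k q : ℕ}

private theorem KBg_UU_one (f : Site d k → Fin q) (R : Finset (Site d k)) (v : Site d k) (c : Fin q)
    (h : UU f R v c = 1) : ∀ σ : Stp d, f (v + sv σ) = c → v + sv σ ∉ R := by
  intro σ hσ hR
  unfold UU at h
  rw [if_pos ⟨σ, hR, hσ⟩] at h
  exact zero_ne_one h

private theorem KBg_UU_cases (f : Site d k → Fin q) (R : Finset (Site d k)) (v : Site d k)
    (c : Fin q) : UU f R v c = 0 ∨ UU f R v c = 1 := by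
  unfold UU
  split_ifs
  · left; rfl
  · right; rfl

open scoped Classical in
/-- pairs of steps which lead from `u` to another site of the colour `c` -/
private noncomputable def KBg_pairs (f : Site d k → Fin q) (u : Site d k) (c : Fin q)
    (W : Finset (Stp d)) : Finset (Stp d × Stp d) :=
  (W ×ˢ univ).filter fun p => f (u + sv p.1 + sv p.2) = c ∧ (sv p.1 : Site d k) + sv p.2 ≠ 0

open scoped Classical in
private noncomputable def KBg_img (f : Site d k → Fin q) (u : Site d k) (c : Fin q)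
    (W : Finset (Stp d)) : Finset (Site d k) :=
  (KBg_pairs f u c W).image fun p => u + sv p.1 + sv p.2

private theorem KBg_card_pairs (hk : 3 ≤ k) (f : Site d k → Fin q) (u : Site d k) (c : Fin q)
    (W : Finset (Stp d)) (hW : ∀ σ ∈ W, 17 ≤ yy f (u + sv σ) c) :
    16 * W.card ≤ (KBg_pairs f u c W).card := by
  classical
  have h1 : (KBg_pairs f u c W).card = ∑ σ ∈ W, ((KBg_pairs f u c W).filter
      fun p => p.1 = σ).card := by
    apply card_eq_sum_card_fiberwise
    intro p hp
    unfold KBg_pairs at hp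
    have hp' := (mem_filter.mp (mem_coe.mp hp)).1
    exact mem_coe.mpr (mem_product.mp hp').1
  rw [h1, mul_comm, ← smul_eq_mul, ← sum_const]
  apply sum_le_sum
  intro σ hσ
  have h2 := hW σ hσ
  set Y := univ.filter (fun τ : Stp d => f (u + sv σ + sv τ) = c) with hY
  have hYc : 17 ≤ Y.card := h2
  set Z := univ.filter (fun τ : Stp d => (sv σ : Site d k) + sv τ = 0) with hZ
  have hZc : Z.card ≤ 1 := by
    rw [card_le_one]
    intro a ha b hb
    have ha' : (sv σ : Site d k) + sv a = 0 := (mem_filter.mp ha).2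
    have hb' : (sv σ : Site d k) + sv b = 0 := (mem_filter.mp hb).2
    exact sv_inj (d := d) (k := k) (by omega) (add_left_cancel (ha'.trans hb'.symm))
  have h3 : 16 ≤ (Y \ Z).card := by
    have := le_card_sdiff Z Y
    omega
  refine h3.trans ?_
  apply card_le_card_of_injOn (fun τ => (σ, τ))
  · intro τ hτ
    have hτ' := mem_sdiff.mp (mem_coe.mp hτ)
    have hτ1 : f (u + sv σ + sv τ) = c := (mem_filter.mp hτ'.1).2
    have hτ2 : (sv σ : Site d k) + sv τ ≠ 0 := fun hc =>
      hτ'.2 (mem_filter.mpr ⟨mem_univ _, hc⟩)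
    apply mem_coe.mpr
    apply mem_filter.mpr
    refine ⟨?_, rfl⟩
    unfold KBg_pairs
    exact mem_filter.mpr ⟨mem_product.mpr ⟨hσ, mem_univ _⟩, hτ1, hτ2⟩
  · intro a _ b _ hab
    exact (Prod.mk.inj hab).2

private theorem KBg_card_img (hk : 3 ≤ k) (f : Site d k → Fin q) (u : Site d k) (c : Fin q)
    (W : Finset (Stp d)) (hW : ∀ σ ∈ W, 17 ≤ yy f (u + sv σ) c) :
    8 * W.card ≤ (KBg_img f u c W).card := by
  classical
  have h1 := KBg_card_pairs hk f u c W hW
  have h2 : (KBg_pairs f u c W).card ≤ 2 * (KBg_img f u c W).card := by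
    unfold KBg_img
    apply card_le_mul_card_image
    intro a ha
    obtain ⟨p, hp, hpa⟩ := mem_image.mp ha
    unfold KBg_pairs at hp
    have hp' := (mem_filter.mp hp).2
    have hne : a - u ≠ 0 := by
      intro hc
      apply hp'.2
      rw [← hc, ← hpa]
      abel
    refine le_trans (card_le_card ?_) (two_steps hk (a - u) hne)
    intro r hr
    have hr' := (mem_filter.mp hr).2
    apply mem_filter.mpr
    refine ⟨mem_univ _, ?_⟩
    rw [← hr']
    abel
  omega

private theorem KBg_disj (f : Site d k → Fin q) (u : Site d k) (c : Fin q)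
    (W : Finset (Stp d)) (R : Finset (Site d k)) (hW : ∀ σ ∈ W, UU f R (u + sv σ) c = 1) :
    Disjoint (KBg_img f u c W) R := by
  classical
  rw [Finset.disjoint_left]
  intro a ha
  unfold KBg_img at ha
  obtain ⟨p, hp, rfl⟩ := mem_image.mp ha
  unfold KBg_pairs at hp
  have hp' := mem_filter.mp hp
  exact KBg_UU_one f R (u + sv p.1) c (hW p.1 (mem_product.mp hp'.1).1) p.2 hp'.2.1

open scoped Classical in
/-- the union bound for one vertex -/
theorem EK_big_one (hd : 2 ≤ d) (hk : 3 ≤ k) (f : Site d k → Fin q) (u : Site d k) :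
    ER (fun R => if (d : ℝ) / 2 ≤ ((univ.filter fun σ : Stp d =>
        17 ≤ yy f (u + sv σ) (f u) ∧ UU f R (u + sv σ) (f u) = 1).card : ℝ) then (1 : ℝ) else 0) ≤
      (1 / 4) ^ d := by
  set V : Finset (Finset (Stp d)) := univ.filter fun W : Finset (Stp d) =>
    (d : ℝ) / 2 ≤ (W.card : ℝ) ∧ ∀ σ ∈ W, 17 ≤ yy f (u + sv σ) (f u) with hV
  have h1 : ER (fun R => if (d : ℝ) / 2 ≤ ((univ.filter fun σ : Stp d =>
        17 ≤ yy f (u + sv σ) (f u) ∧ UU f R (u + sv σ) (f u) = 1).card : ℝ) then (1 : ℝ) else 0) ≤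
      ER (fun R => ∑ W ∈ V, if Disjoint (KBg_img f u (f u) W) R then (1 : ℝ) else 0) := by
    apply ER_mono
    intro R
    have hnn : ∀ W ∈ V, (0 : ℝ) ≤ if Disjoint (KBg_img f u (f u) W) R then (1 : ℝ) else 0 := by
      intro W _
      split_ifs <;> norm_num
    split_ifs with h
    · set W := univ.filter fun σ : Stp d =>
        17 ≤ yy f (u + sv σ) (f u) ∧ UU f R (u + sv σ) (f u) = 1 with hWd
      have hWV : W ∈ V := by
        rw [hV]
        exact mem_filter.mpr ⟨mem_univ _, h, fun σ hσ => (mem_filter.mp hσ).2.1⟩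
      have hd1 : Disjoint (KBg_img f u (f u) W) R :=
        KBg_disj f u (f u) W R (fun σ hσ => (mem_filter.mp hσ).2.2)
      have h2 := single_le_sum hnn hWV
      rw [if_pos hd1] at h2
      exact h2
    · exact sum_nonneg hnn
  refine h1.trans ?_
  rw [ER_sum]
  have h2 : ∀ W ∈ V, ER (fun R => if Disjoint (KBg_img f u (f u) W) R then (1 : ℝ) else 0) ≤
      (1 / 2 : ℝ) ^ (4 * d) := by
    intro W hW
    rw [ER_disj]
    apply pow_le_pow_of_le_one (by norm_num) (by norm_num)
    have hW' := (mem_filter.mp hW).2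
    have h3 := KBg_card_img hk f u (f u) W hW'.2
    have h4 : (4 * d : ℝ) ≤ 8 * W.card := by linarith [hW'.1]
    have h5 : 4 * d ≤ 8 * W.card := by exact_mod_cast h4
    omega
  calc ∑ W ∈ V, ER (fun R => if Disjoint (KBg_img f u (f u) W) R then (1 : ℝ) else 0)
      ≤ ∑ _W ∈ V, (1 / 2 : ℝ) ^ (4 * d) := sum_le_sum h2
    _ = V.card * (1 / 2 : ℝ) ^ (4 * d) := by rw [sum_const, nsmul_eq_mul]
    _ ≤ 2 ^ (2 * d) * (1 / 2 : ℝ) ^ (4 * d) := by
        apply mul_le_mul_of_nonneg_right _ (by positivity)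
        have h6 : V.card ≤ 2 ^ (2 * d) := by
          refine (card_le_univ V).trans ?_
          rw [Fintype.card_finset]
          apply le_of_eq
          congr 1
          rw [Fintype.card_prod, Fintype.card_fin, Fintype.card_bool, mul_comm]
        exact_mod_cast h6
    _ = (1 / 4) ^ d := by
        rw [pow_mul, pow_mul, ← mul_pow]
        norm_num

open scoped Classical in
private theorem KBg_point (hd : 2 ≤ d) (f : Site d k → Fin q) (R : Finset (Site d k))
    (u : Site d k) :
    (if 1 / 2 < nn f R u (f u) then (1 : ℝ) else 0) ≤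
      2 / d * (∑ σ : Stp d, if yy f (u + sv σ) (f u) ≤ 16 then UU f R (u + sv σ) (f u) else 0) +
      (if (d : ℝ) / 2 ≤ ((univ.filter fun σ : Stp d =>
        17 ≤ yy f (u + sv σ) (f u) ∧ UU f R (u + sv σ) (f u) = 1).card : ℝ) then (1 : ℝ) else 0) := by
  have hd0 : (0 : ℝ) < d := by
    have : (2 : ℝ) ≤ d := by exact_mod_cast hd
    linarith
  have hUnn : ∀ σ : Stp d, 0 ≤ UU f R (u + sv σ) (f u) := by
    intro σ
    rcases KBg_UU_cases f R (u + sv σ) (f u) with h | h <;> rw [h]
    norm_num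
  have hS0 : 0 ≤ ∑ σ : Stp d,
      (if yy f (u + sv σ) (f u) ≤ 16 then UU f R (u + sv σ) (f u) else 0) := by
    apply sum_nonneg
    intro σ _
    split_ifs
    · exact hUnn σ
    · exact le_refl _
  have hS1 : 0 ≤ 2 / (d : ℝ) * ∑ σ : Stp d,
      (if yy f (u + sv σ) (f u) ≤ 16 then UU f R (u + sv σ) (f u) else 0) :=
    mul_nonneg (by positivity) hS0
  by_cases hn : 1 / 2 < nn f R u (f u)
  · rw [if_pos hn]
    by_cases hB : (d : ℝ) / 2 ≤ ((univ.filter fun σ : Stp d =>
        17 ≤ yy f (u + sv σ) (f u) ∧ UU f R (u + sv σ) (f u) = 1).card : ℝ)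
    · rw [if_pos hB]
      linarith
    · rw [if_neg hB]
      rw [not_le] at hB
      have h1 : ∑ σ : Stp d, UU f R (u + sv σ) (f u) =
          ∑ σ : Stp d, (if yy f (u + sv σ) (f u) ≤ 16 then UU f R (u + sv σ) (f u) else 0) +
          ((univ.filter fun σ : Stp d =>
            17 ≤ yy f (u + sv σ) (f u) ∧ UU f R (u + sv σ) (f u) = 1).card : ℝ) := by
        rw [← sum_boole, ← sum_add_distrib]
        apply sum_congr rfl
        intro σ _
        by_cases hy : yy f (u + sv σ) (f u) ≤ 16
        · rw [if_pos hy, if_neg (by omega)]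
          ring
        · rw [if_neg hy]
          rcases KBg_UU_cases f R (u + sv σ) (f u) with h | h
          · rw [h, if_neg (by norm_num)]
            ring
          · rw [h, if_pos ⟨by omega, rfl⟩]
            ring
      have h2 : (d : ℝ) < ∑ σ : Stp d, UU f R (u + sv σ) (f u) := by
        unfold nn at hn
        rw [lt_div_iff₀ (by positivity)] at hn
        linarith
      have h3 : (d : ℝ) / 2 < ∑ σ : Stp d,
          (if yy f (u + sv σ) (f u) ≤ 16 then UU f R (u + sv σ) (f u) else 0) := by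
        linarith
      have h4 : 2 / (d : ℝ) * (d / 2) ≤ 2 / (d : ℝ) * ∑ σ : Stp d,
          (if yy f (u + sv σ) (f u) ≤ 16 then UU f R (u + sv σ) (f u) else 0) :=
        mul_le_mul_of_nonneg_left h3.le (by positivity)
      have h5 : 2 / (d : ℝ) * (d / 2) = 1 := by field_simp
      linarith
  · rw [if_neg hn]
    have : (0 : ℝ) ≤ if (d : ℝ) / 2 ≤ ((univ.filter fun σ : Stp d =>
        17 ≤ yy f (u + sv σ) (f u) ∧ UU f R (u + sv σ) (f u) = 1).card : ℝ) then (1 : ℝ) else 0 := by
      split_ifs <;> norm_num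
    linarith

open scoped Classical in
theorem EK_big (hd : 2 ≤ d) (hk : 3 ≤ k) (f : Site d k → Fin q) :
    ER (fun R => ∑ u ∈ (evs d k).filter (fun u => u ∉ R),
      if 1 / 2 < nn f R u (f u) then (1 : ℝ) else 0) ≤
      32 / d * ∑ c, QQ f c + NN d k / 2 * (1 / 4) ^ d := by
  have hd0 : (0 : ℝ) < d := by
    have : (2 : ℝ) ≤ d := by exact_mod_cast hd
    linarith
  have h1 : ER (fun R => ∑ u ∈ (evs d k).filter (fun u => u ∉ R),
      if 1 / 2 < nn f R u (f u) then (1 : ℝ) else 0) ≤
      ER (fun R => ∑ u ∈ evs d k, (2 / (d : ℝ) * (∑ σ : Stp d,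
        (if yy f (u + sv σ) (f u) ≤ 16 then (1 : ℝ) else 0) *
          (if u ∉ R then UU f R (u + sv σ) (f u) else 0)) +
        (if (d : ℝ) / 2 ≤ ((univ.filter fun σ : Stp d =>
          17 ≤ yy f (u + sv σ) (f u) ∧ UU f R (u + sv σ) (f u) = 1).card : ℝ)
          then (1 : ℝ) else 0))) := by
    apply ER_mono
    intro R
    rw [sum_notin]
    apply sum_le_sum
    intro u _
    by_cases hu : u ∉ R
    · rw [if_pos hu]
      refine (KBg_point hd f R u).trans (le_of_eq ?_)
      congr 2
      apply sum_congr rfl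
      intro σ _
      rw [if_pos hu]
      split_ifs <;> ring
    · rw [if_neg hu]
      have e1 : (∑ σ : Stp d, (if yy f (u + sv σ) (f u) ≤ 16 then (1 : ℝ) else 0) *
          (if u ∉ R then UU f R (u + sv σ) (f u) else 0)) = 0 := by
        apply sum_eq_zero
        intro σ _
        rw [if_neg hu, mul_zero]
      rw [e1, mul_zero, zero_add]
      split_ifs <;> norm_num
  refine h1.trans ?_
  rw [ER_sum]
  have h2 : ∀ u ∈ evs d k, ER (fun R => 2 / (d : ℝ) * (∑ σ : Stp d,
        (if yy f (u + sv σ) (f u) ≤ 16 then (1 : ℝ) else 0) *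
          (if u ∉ R then UU f R (u + sv σ) (f u) else 0)) +
        (if (d : ℝ) / 2 ≤ ((univ.filter fun σ : Stp d =>
          17 ≤ yy f (u + sv σ) (f u) ∧ UU f R (u + sv σ) (f u) = 1).card : ℝ)
          then (1 : ℝ) else 0)) ≤
      2 / (d : ℝ) * (∑ σ : Stp d,
        (if yy f (u + sv σ) (f u) ≤ 16 then (1 / 2 : ℝ) ^ yy f (u + sv σ) (f u) else 0)) +
        (1 / 4) ^ d := by
    intro u _
    rw [ER_add, ER_mul, ER_sum]
    apply add_le_add
    · apply le_of_eq
      congr 1
      apply sum_congr rfl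
      intro σ _
      rw [ER_mul, ER_UU_own (by omega) f u σ]
      split_ifs <;> ring
    · exact EK_big_one hd hk f u
  refine (sum_le_sum h2).trans ?_
  rw [sum_add_distrib, ← mul_sum, sum_const, nsmul_eq_mul, card_evs (by omega) (by omega)]
  have h3 := sum_small (d := d) (k := k) (q := q) (by omega) (by omega) f 16
  have h4 : 2 / (d : ℝ) * (∑ u ∈ evs d k, ∑ σ : Stp d,
      (if yy f (u + sv σ) (f u) ≤ 16 then (1 / 2 : ℝ) ^ yy f (u + sv σ) (f u) else 0)) ≤
      2 / (d : ℝ) * (((16 : ℕ) : ℝ) * ∑ c, QQ f c) :=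
    mul_le_mul_of_nonneg_left h3 (by positivity)
  have h5 : 2 / (d : ℝ) * (((16 : ℕ) : ℝ) * ∑ c, QQ f c) = 32 / d * ∑ c, QQ f c := by
    push_cast
    ring
  linarith

end Pool.Agent.LO
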