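import Pool.Agent.Lib_MP_2c424f_lo.Prob

/-!
# Violations, linear part (piece KSM)

`E ∑_{u ∉ R} n_u^{f u} = (1/2d) ∑_{v odd} ∑_c y 2^{-y}`.
-/

set_option autoImplicit false

open Finset

namespace Pool.Agent.LO

variable {d k q : ℕ}

/-- grouping the neighbours of `v` by their colour -/
private theorem ksm_group (f : Site d k → Fin q) (v : Site d k) (g : ℕ → ℝ) :
    ∑ σ : Stp d, g (yy f v (f (v + sv σ))) = ∑ c, (yy f v c : ℝ) * g (yy f v c) := by
  classical
  rw [← Finset.sum_fiberwise (s := (univ : Finset (Stp d))) (g := fun σ => f (v + sv σ))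
    (f := fun σ => g (yy f v (f (v + sv σ))))]
  refine Finset.sum_congr rfl fun c _ => ?_
  have h : ∀ σ ∈ (univ : Finset (Stp d)).filter (fun σ => f (v + sv σ) = c),
      g (yy f v (f (v + sv σ))) = g (yy f v c) := by
    intro σ hσ
    rw [(Finset.mem_filter.1 hσ).2]
  rw [Finset.sum_congr rfl h, Finset.sum_const, nsmul_eq_mul]
  rfl

private theorem ksm_sum (hk : 2 ≤ k) (f : Site d k → Fin q) (g : ℕ → ℝ) :
    ∑ u ∈ evs d k, ∑ σ : Stp d, g (yy f (u + sv σ) (f u)) =
      ∑ v ∈ ods d k, ∑ c, (yy f v c : ℝ) * g (yy f v c) := by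
  rw [sum_nbr (by omega) (fun u v => g (yy f v (f u)))]
  exact Finset.sum_congr rfl fun v _ => ksm_group f v g

private theorem ksm_QQ (f : Site d k → Fin q) :
    ∑ c, QQ f c = ∑ v ∈ ods d k, ∑ c, (if yy f v c = 0 then 0 else (1 / 2 : ℝ) ^ yy f v c) := by
  unfold QQ
  rw [Finset.sum_comm]

private theorem ksm_card (f : Site d k → Fin q) (v : Site d k) :
    ∑ c, (yy f v c : ℝ) = 2 * d := by
  have h := ksm_group f v (fun _ => (1 : ℝ))
  simp only [mul_one, Finset.sum_const, Finset.card_univ, nsmul_eq_mul, Fintype.card_prod,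
    Fintype.card_fin, Fintype.card_bool, Nat.cast_mul, Nat.cast_ofNat] at h
  linarith

/-- the small colour classes, used by Markov's inequality -/
theorem sum_small (hd : 1 ≤ d) (hk : 2 ≤ k) (f : Site d k → Fin q) (Y : ℕ) :
    ∑ u ∈ evs d k, ∑ σ : Stp d,
      (if yy f (u + sv σ) (f u) ≤ Y then (1 / 2 : ℝ) ^ yy f (u + sv σ) (f u) else 0) ≤
      Y * ∑ c, QQ f c := by
  rw [ksm_sum hk f (fun n => if n ≤ Y then (1 / 2 : ℝ) ^ n else 0), ksm_QQ, Finset.mul_sum]
  refine Finset.sum_le_sum fun v _ => ?_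
  rw [Finset.mul_sum]
  refine Finset.sum_le_sum fun c _ => ?_
  by_cases h0 : yy f v c = 0
  · simp [h0]
  · rw [if_neg h0]
    by_cases hY : yy f v c ≤ Y
    · rw [if_pos hY]
      have : (yy f v c : ℝ) ≤ Y := by exact_mod_cast hY
      exact mul_le_mul_of_nonneg_right this (by positivity)
    · rw [if_neg hY, mul_zero]
      positivity

open scoped Classical in
theorem EK_lin (hd : 1 ≤ d) (hk : 2 ≤ k) (f : Site d k → Fin q) (Y : ℕ) :
    ER (fun R => ∑ u ∈ (evs d k).filter (fun u => u ∉ R), nn f R u (f u)) ≤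
      Y / (2 * d) * ∑ c, QQ f c + NN d k / 2 * (1 / 2) ^ Y := by
  have hd0 : (0 : ℝ) < 2 * d := by
    have : (1 : ℝ) ≤ d := by exact_mod_cast hd
    linarith
  have h1 : ER (fun R => ∑ u ∈ (evs d k).filter (fun u => u ∉ R), nn f R u (f u)) =
      1 / (2 * d) * ∑ v ∈ ods d k, ∑ c, (yy f v c : ℝ) * (1 / 2 : ℝ) ^ yy f v c := by
    rw [← ksm_sum hk f (fun n => (1 / 2 : ℝ) ^ n), Finset.mul_sum]
    have e1 : (fun R : Finset (Site d k) =>
        ∑ u ∈ (evs d k).filter (fun u => u ∉ R), nn f R u (f u)) =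
        fun R => ∑ u ∈ evs d k, 1 / (2 * d) *
          ∑ σ : Stp d, (if u ∉ R then UU f R (u + sv σ) (f u) else 0) := by
      funext R
      rw [sum_notin (evs d k) R (fun u => nn f R u (f u))]
      refine Finset.sum_congr rfl fun u _ => ?_
      by_cases hu : u ∉ R
      · simp only [if_pos hu]
        unfold nn
        rw [one_div, inv_mul_eq_div]
      · simp only [if_neg hu, Finset.sum_const_zero, mul_zero]
    rw [e1, ER_sum (evs d k)]
    refine Finset.sum_congr rfl fun u _ => ?_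
    rw [ER_mul, ER_sum]
    congr 1
    exact Finset.sum_congr rfl fun σ _ => ER_UU_own hk f u σ
  have h2 : ∑ v ∈ ods d k, ∑ c, (yy f v c : ℝ) * (1 / 2 : ℝ) ^ yy f v c ≤
      Y * ∑ c, QQ f c + NN d k / 2 * (2 * d * (1 / 2) ^ Y) := by
    rw [ksm_QQ, ← card_ods hd (show 1 ≤ k by omega), Finset.mul_sum, ← nsmul_eq_mul,
      ← Finset.sum_const, ← Finset.sum_add_distrib]
    refine Finset.sum_le_sum fun v _ => ?_
    rw [← ksm_card f v, Finset.mul_sum, Finset.sum_mul, ← Finset.sum_add_distrib]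
    refine Finset.sum_le_sum fun c _ => ?_
    by_cases h0 : yy f v c = 0
    · simp [h0]
    · rw [if_neg h0]
      by_cases hY : yy f v c ≤ Y
      · have h3 : (yy f v c : ℝ) ≤ Y := by exact_mod_cast hY
        have h4 := mul_le_mul_of_nonneg_right h3 (show (0 : ℝ) ≤ (1 / 2 : ℝ) ^ yy f v c by positivity)
        have h5 : (0 : ℝ) ≤ (yy f v c : ℝ) * (1 / 2) ^ Y := by positivity
        linarith
      · have h3 : (1 / 2 : ℝ) ^ yy f v c ≤ (1 / 2) ^ Y :=
          pow_le_pow_of_le_one (by norm_num) (by norm_num) (by omega)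
        have h4 := mul_le_mul_of_nonneg_left h3 (show (0 : ℝ) ≤ (yy f v c : ℝ) by positivity)
        have h5 : (0 : ℝ) ≤ (Y : ℝ) * (1 / 2) ^ yy f v c := by positivity
        linarith
  rw [h1]
  calc 1 / (2 * (d : ℝ)) * ∑ v ∈ ods d k, ∑ c, (yy f v c : ℝ) * (1 / 2 : ℝ) ^ yy f v c
      ≤ 1 / (2 * (d : ℝ)) * (Y * ∑ c, QQ f c + NN d k / 2 * (2 * d * (1 / 2) ^ Y)) :=
        mul_le_mul_of_nonneg_left h2 (by positivity)
    _ = Y / (2 * d) * ∑ c, QQ f c + NN d k / 2 * (1 / 2) ^ Y := by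
        field_simp

end Pool.Agent.LO
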