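import Pool.Agent.Lib_MP_2c424f_lo.Bayes
import Pool.Agent.Lib_MP_2c424f_lo.Dom

/-!
# Kraft inequality, line part (piece KRA)

The sets `SS f v`, `v` on the code lines `{v odd : hh s i v = a}` (lines in direction `i`), are coded
along the lines, from `v i = 0, 1` upwards.  Use `bayes` with the rank `(v i).val`; the sum over a
finset `B ⊆ Fin q` of `ε ^ |A ∆ B| (1 - ε) ^ (q - |A ∆ B|)` is `1`.
-/

set_option autoImplicit false

open Finset

namespace Pool.Agent.LO

variable {d k q s : ℕ}

open scoped Classical in
/-- weight of the set at `v` -/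
noncomputable def w1 (q : ℕ) (ε : ℝ) (s : ℕ) (i : Fin d) (a : ZMod (2 ^ s)) (v : Site d k)
    (g : Site d k → Finset (Fin q)) : ℝ :=
  if ¬ evn v ∧ hh s i v = a then
    (if (v i).val < 2 then Real.exp (-((q : ℝ) * Real.log 2))
      else Real.exp (-(cst ε (g v) (g (v + sv (i, false) + sv (i, false))))))
  else (if g v = ∅ then 1 else 0)

/-- the coordinate of the site two steps back -/
private theorem KrA_val (hk : 2 ≤ k) (i : Fin d) (v : Site d k) (h : ¬ (v i).val < 2) :
    ((v + sv (i, false) + sv (i, false) : Site d k) i).val = (v i).val - 2 := by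
  have h4 : 4 ≤ 2 ^ k := by
    calc 4 = 2 ^ 2 := by norm_num
      _ ≤ 2 ^ k := Nat.pow_le_pow_right (by norm_num) hk
  have hlt : (v i).val < 2 ^ k := ZMod.val_lt _
  have e : (v + sv (i, false) + sv (i, false) : Site d k) i = (((v i).val - 2 : ℕ) : ZMod (2 ^ k)) := by
    rw [Nat.cast_sub (by omega), ZMod.natCast_zmod_val]
    simp only [Pi.add_apply, sv, Pi.single_eq_same, Bool.false_eq_true, if_false]
    push_cast
    ring
  rw [e, ZMod.val_natCast, Nat.mod_eq_of_lt (by omega)]

/-- the transition probabilities sum to `1` -/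
private theorem KrA_trans {ε : ℝ} (he : 0 < ε) (he1 : ε < 1) (B : Finset (Fin q)) :
    ∑ A : Finset (Fin q), Real.exp (-(cst ε A B)) = 1 := by
  classical
  have h1 : ∀ C : Finset (Fin q), Real.exp (-(cst ε (symmDiff C B) B)) =
      ε ^ C.card * (1 - ε) ^ (q - C.card) := by
    intro C
    unfold cst
    have hC : symmDiff (symmDiff C B) B = C := by
      rw [symmDiff_assoc, symmDiff_self, symmDiff_bot]
    rw [hC]
    have hc : C.card ≤ q := by
      have := Finset.card_le_univ C
      rwa [Fintype.card_fin] at this
    rw [one_div, one_div, Real.log_inv, Real.log_inv]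
    have e : -((C.card : ℝ) * -Real.log ε + ((q : ℝ) - C.card) * -Real.log (1 - ε)) =
        Real.log ε * (C.card : ℝ) + Real.log (1 - ε) * ((q - C.card : ℕ) : ℝ) := by
      rw [Nat.cast_sub hc]; ring
    rw [e, Real.exp_add, Real.exp_mul, Real.exp_mul, Real.exp_log he, Real.exp_log (by linarith),
      Real.rpow_natCast, Real.rpow_natCast]
  have h2 : ∑ A : Finset (Fin q), Real.exp (-(cst ε A B)) =
      ∑ C : Finset (Fin q), Real.exp (-(cst ε (symmDiff C B) B)) := by
    refine Finset.sum_bij' (fun A _ => symmDiff A B) (fun C _ => symmDiff C B)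
      (fun _ _ => mem_univ _) (fun _ _ => mem_univ _) ?_ ?_ ?_
    · intro A _
      rw [symmDiff_assoc, symmDiff_self, symmDiff_bot]
    · intro C _
      rw [symmDiff_assoc, symmDiff_self, symmDiff_bot]
    · intro A _
      rw [symmDiff_assoc, symmDiff_self, symmDiff_bot]
  rw [h2, Finset.sum_congr rfl fun C _ => h1 C]
  have h3 := Fintype.sum_pow_mul_eq_add_pow (Fin q) ε (1 - ε)
  rw [Fintype.card_fin] at h3
  rw [h3]
  simp

theorem kraftA (hk : 2 ≤ k) {ε : ℝ} (he : 0 < ε) (he1 : ε < 1)
    (i : Fin d) (a : ZMod (2 ^ s)) :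
    ∑ g : Site d k → Finset (Fin q), ∏ v, w1 q ε s i a v g ≤ 1 := by
  classical
  refine bayes (fun v => (v i).val) (fun v g => w1 q ε s i a v g) ?_ ?_ ?_
  · intro v g
    unfold w1
    split_ifs
    · exact (Real.exp_pos _).le
    · exact (Real.exp_pos _).le
    · exact zero_le_one
    · exact le_refl _
  · intro v f g hu hv
    by_cases h1 : ¬ evn v ∧ hh s i v = a
    · by_cases h2 : (v i).val < 2
      · simp only [w1, if_pos h1, if_pos h2]
      · have h3 : f (v + sv (i, false) + sv (i, false)) = g (v + sv (i, false) + sv (i, false)) := by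
          apply hu
          rw [KrA_val hk i v h2]
          omega
        simp only [w1, if_pos h1, if_neg h2, hv, h3]
    · simp only [w1, if_neg h1, hv]
  · intro v g
    by_cases h1 : ¬ evn v ∧ hh s i v = a
    · by_cases h2 : (v i).val < 2
      · simp only [w1, if_pos h1, if_pos h2]
        rw [Finset.sum_const, card_univ, Fintype.card_finset, Fintype.card_fin, nsmul_eq_mul]
        rw [Real.exp_neg, mul_comm (q : ℝ), Real.exp_mul, Real.exp_log (by norm_num : (0 : ℝ) < 2),
          Real.rpow_natCast]
        push_cast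
        rw [mul_inv_cancel₀ (by positivity)]
      · have hne : v + sv (i, false) + sv (i, false) ≠ v := by
          intro h
          have := KrA_val hk i v h2
          rw [h] at this
          omega
        have e : ∀ c : Finset (Fin q), w1 q ε s i a v (Function.update g v c) =
            Real.exp (-(cst ε c (g (v + sv (i, false) + sv (i, false))))) := by
          intro c
          simp only [w1, if_pos h1, if_neg h2, Function.update_self, Function.update_of_ne hne]
        rw [Finset.sum_congr rfl fun c _ => e c, KrA_trans he he1]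
    · have e : ∀ c : Finset (Fin q), w1 q ε s i a v (Function.update g v c) =
            if c = ∅ then 1 else 0 := by
        intro c
        simp only [w1, if_neg h1, Function.update_self]
      rw [Finset.sum_congr rfl fun c _ => e c]
      simp

open scoped Classical in
/-- the product of the weights at the actual sets is `exp (-T1)` -/
theorem w1_eq (hs : s ≤ k) (hk : 2 ≤ k) (ε : ℝ) (f : Site d k → Fin q) (i : Fin d)
    (a : ZMod (2 ^ s)) :
    ∏ v, w1 q ε s i a v (fun v => if ¬ evn v ∧ hh s i v = a then SS f v else ∅) =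
      Real.exp (-(T1 ε s f i a)) := by
  have hev : ∀ v : Site d k, evn (v + sv (i, false) + sv (i, false)) ↔ evn v := by
    intro v
    rw [evn_step (by omega), evn_step (by omega), not_not]
  have hh2 : ∀ v : Site d k, hh s i (v + sv (i, false) + sv (i, false)) = hh s i v := by
    intro v
    rw [hh_same hs, hh_same hs]
  unfold T1
  rw [← Finset.sum_neg_distrib, Real.exp_sum]
  have hfil : (ods d k).filter (fun v => hh s i v = a) =
      univ.filter (fun v : Site d k => ¬ evn v ∧ hh s i v = a) := by
    unfold ods
    rw [Finset.filter_filter]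
  rw [hfil, Finset.prod_filter]
  refine Finset.prod_congr rfl fun v _ => ?_
  by_cases h1 : ¬ evn v ∧ hh s i v = a
  · rw [if_pos h1]
    unfold w1
    rw [if_pos h1]
    by_cases h2 : (v i).val < 2
    · rw [if_pos h2, if_pos h2]
    · rw [if_neg h2, if_neg h2]
      beta_reduce
      rw [if_pos h1, if_pos (by rw [hev, hh2]; exact h1)]
  · rw [if_neg h1]
    unfold w1
    beta_reduce
    rw [if_neg h1, if_neg h1, if_pos rfl]

end Pool.Agent.LO
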