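import Pool.Agent.Lib_MP_2c424f_lo.KrA

/-!
# Kraft inequality (piece KRB)

For fixed `i`, `a`, `R` and fixed sets `g v` on the code lines, use `bayes` for `f` with rank `0` on
even sites in `R`, `1` on the other even sites, `2` on odd sites and the weights
`1(f u ∈ g (vv u)) / |g (vv u)|`, `gg (nn (f u)) / aa`, `1(f v ∉ SS f v) / av f v`.  Then sum over `g`
with `kraftA`: `exp (-TT)` is the product of `w1` and of these weights at `g = SS f` on the lines.
-/

set_option autoImplicit false

open Finset

namespace Pool.Agent.LO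

variable {d k q s : ℕ}

private theorem KrB_gg_pos {ε : ℝ} (he : 0 < ε) (n : ℝ) : 0 < gg ε n := by
  unfold gg
  positivity

private theorem KrB_SS_congr {f g : Site d k → Fin q} {v : Site d k}
    (h : ∀ σ : Stp d, f (v + sv σ) = g (v + sv σ)) : SS f v = SS g v := by
  unfold SS
  exact Finset.image_congr fun σ _ => h σ

private theorem KrB_UU_congr {f g : Site d k → Fin q} {R : Finset (Site d k)} {v : Site d k}
    (c : Fin q) (h : ∀ σ : Stp d, v + sv σ ∈ R → f (v + sv σ) = g (v + sv σ)) :
    UU f R v c = UU g R v c := by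
  unfold UU
  have : (∃ σ : Stp d, v + sv σ ∈ R ∧ f (v + sv σ) = c) ↔
      (∃ σ : Stp d, v + sv σ ∈ R ∧ g (v + sv σ) = c) := by
    constructor
    · rintro ⟨σ, h1, h2⟩
      exact ⟨σ, h1, (h σ h1) ▸ h2⟩
    · rintro ⟨σ, h1, h2⟩
      exact ⟨σ, h1, (h σ h1).symm ▸ h2⟩
  simp only [this]

private theorem KrB_nn_congr (hk : 1 ≤ k) {f g : Site d k → Fin q} {R : Finset (Site d k)}
    {u : Site d k} (hu : evn u) (c : Fin q) (h : ∀ w, evn w → w ∈ R → f w = g w) :
    nn f R u c = nn g R u c := by
  unfold nn
  congr 1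
  refine Finset.sum_congr rfl fun σ _ => KrB_UU_congr c fun τ hτ => h _ ?_ hτ
  rw [evn_step hk, evn_step hk, not_not]
  exact hu

private theorem KrB_aa_congr (hk : 1 ≤ k) (ε : ℝ) {f g : Site d k → Fin q}
    {R : Finset (Site d k)} {u : Site d k} (hu : evn u) (h : ∀ w, evn w → w ∈ R → f w = g w) :
    aa ε f R u = aa ε g R u := by
  unfold aa
  exact Finset.sum_congr rfl fun c _ => by rw [KrB_nn_congr hk hu c h]

open scoped Classical in
/-- the weights of the colours, for given sets on the lines -/
private noncomputable def KrB_w (ε : ℝ) (s : ℕ) (i : Fin d) (a : ZMod (2 ^ s))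
    (R : Finset (Site d k)) (g : Site d k → Finset (Fin q)) (v : Site d k)
    (f : Site d k → Fin q) : ℝ :=
  if evn v then
    if v ∈ R then (if f v ∈ g (vv s i a v) then 1 / ((g (vv s i a v)).card : ℝ) else 0)
    else gg ε (nn f R v (f v)) / aa ε f R v
  else (if f v ∈ SS f v then 0 else 1 / (av f v : ℝ))

private theorem KrB_w_nonneg {ε : ℝ} (he : 0 < ε) (i : Fin d) (a : ZMod (2 ^ s))
    (R : Finset (Site d k)) (g : Site d k → Finset (Fin q)) (v : Site d k)
    (f : Site d k → Fin q) : 0 ≤ KrB_w ε s i a R g v f := by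
  unfold KrB_w
  split_ifs
  · positivity
  · exact le_rfl
  · exact div_nonneg (KrB_gg_pos he _).le
      (Finset.sum_nonneg fun c _ => (KrB_gg_pos he _).le)
  · exact le_rfl
  · positivity

open scoped Classical in
/-- ranks -/
private noncomputable def KrB_rk (R : Finset (Site d k)) (v : Site d k) : ℕ :=
  if evn v then (if v ∈ R then 0 else 1) else 2

private theorem KrB_rk_R {R : Finset (Site d k)} {v : Site d k} (hv : evn v) (h : v ∈ R) :
    KrB_rk R v = 0 := by
  unfold KrB_rk
  rw [if_pos hv, if_pos h]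

private theorem KrB_rk_N {R : Finset (Site d k)} {v : Site d k} (hv : evn v) (h : v ∉ R) :
    KrB_rk R v = 1 := by
  unfold KrB_rk
  rw [if_pos hv, if_neg h]

private theorem KrB_rk_odd {R : Finset (Site d k)} {v : Site d k} (hv : ¬ evn v) :
    KrB_rk R v = 2 := by
  unfold KrB_rk
  rw [if_neg hv]

private theorem KrB_rk_evn {R : Finset (Site d k)} {v : Site d k} (hv : evn v) :
    KrB_rk R v < 2 := by
  by_cases h : v ∈ R
  · rw [KrB_rk_R hv h]; norm_num
  · rw [KrB_rk_N hv h]; norm_num

private theorem KrB_dep (hk : 1 ≤ k) (ε : ℝ) (i : Fin d) (a : ZMod (2 ^ s))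
    (R : Finset (Site d k)) (g : Site d k → Finset (Fin q)) (v : Site d k)
    (f f' : Site d k → Fin q) (h : ∀ u, KrB_rk R u < KrB_rk R v → f u = f' u) (h' : f v = f' v) :
    KrB_w ε s i a R g v f = KrB_w ε s i a R g v f' := by
  unfold KrB_w
  by_cases hv : evn v
  · rw [if_pos hv, if_pos hv]
    by_cases hR : v ∈ R
    · rw [if_pos hR, if_pos hR, h']
    · rw [if_neg hR, if_neg hR]
      have hw : ∀ w, evn w → w ∈ R → f w = f' w := by
        intro w hw hwR
        apply h
        rw [KrB_rk_R hw hwR, KrB_rk_N hv hR]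
        norm_num
      rw [h', KrB_nn_congr hk hv _ hw, KrB_aa_congr hk ε hv hw]
  · rw [if_neg hv, if_neg hv]
    have hS : SS f v = SS f' v := by
      apply KrB_SS_congr
      intro σ
      apply h
      rw [KrB_rk_odd hv]
      apply KrB_rk_evn
      rw [evn_step hk]
      exact hv
    unfold av
    rw [hS, h']

private theorem KrB_sum (hk : 1 ≤ k) {ε : ℝ} (he : 0 < ε) (i : Fin d) (a : ZMod (2 ^ s))
    (R : Finset (Site d k)) (g : Site d k → Finset (Fin q)) (v : Site d k)
    (f : Site d k → Fin q) :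
    ∑ c, KrB_w ε s i a R g v (Function.update f v c) ≤ 1 := by
  classical
  unfold KrB_w
  by_cases hv : evn v
  · simp only [if_pos hv]
    by_cases hR : v ∈ R
    · simp only [if_pos hR, Function.update_self]
      rw [← Finset.sum_filter, Finset.sum_const, nsmul_eq_mul, Finset.filter_mem_eq_inter,
        Finset.univ_inter]
      rcases Nat.eq_zero_or_pos (g (vv s i a v)).card with h0 | h0
      · rw [h0]; norm_num
      · rw [mul_one_div, div_self]
        exact_mod_cast h0.ne'
    · simp only [if_neg hR, Function.update_self]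
      have hw : ∀ c, ∀ w, evn w → w ∈ R → (Function.update f v c) w = f w := by
        intro c w _ hwR
        apply Function.update_of_ne
        rintro rfl
        exact hR hwR
      have h1 : ∀ c, gg ε (nn (Function.update f v c) R v c) / aa ε (Function.update f v c) R v
          = gg ε (nn f R v c) / aa ε f R v := by
        intro c
        rw [KrB_nn_congr hk hv c (hw c), KrB_aa_congr hk ε hv (hw c)]
      simp only [h1]
      rw [← Finset.sum_div]
      exact div_self_le_one _
  · simp only [if_neg hv, Function.update_self]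
    have hS : ∀ c, SS (Function.update f v c) v = SS f v := by
      intro c
      apply KrB_SS_congr
      intro σ
      apply Function.update_of_ne
      intro h
      have h2 := evn_step hk v σ
      rw [h] at h2
      exact (not_iff_self h2.symm)
    have h1 : ∀ c, (if c ∈ SS (Function.update f v c) v then (0 : ℝ)
        else 1 / (av (Function.update f v c) v : ℝ)) = if c ∉ SS f v then 1 / (av f v : ℝ) else 0 := by
      intro c
      unfold av
      rw [hS c]
      by_cases hc : c ∈ SS f v
      · rw [if_pos hc, if_neg (not_not.mpr hc)]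
      · rw [if_neg hc, if_pos hc]
    simp only [h1]
    rw [← Finset.sum_filter, Finset.sum_const, nsmul_eq_mul]
    have h2 : ((univ : Finset (Fin q)).filter fun c => c ∉ SS f v).card = av f v := by
      unfold av
      have h3 : ((univ : Finset (Fin q)).filter fun c => c ∉ SS f v) = (SS f v)ᶜ := by
        ext c
        simp
      rw [h3, Finset.card_compl, Fintype.card_fin]
    rw [h2, mul_one_div]
    exact div_self_le_one _

private theorem KrB_bayes (hk : 1 ≤ k) {ε : ℝ} (he : 0 < ε) (i : Fin d) (a : ZMod (2 ^ s))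
    (R : Finset (Site d k)) (g : Site d k → Finset (Fin q)) :
    ∑ f : Site d k → Fin q, ∏ v, KrB_w ε s i a R g v f ≤ 1 :=
  bayes (KrB_rk R) (KrB_w ε s i a R g) (KrB_w_nonneg he i a R g) (KrB_dep hk ε i a R g)
    (KrB_sum hk he i a R g)

open scoped Classical in
/-- the sets on the code lines -/
private noncomputable def KrB_G (s : ℕ) (i : Fin d) (a : ZMod (2 ^ s)) (f : Site d k → Fin q) :
    Site d k → Finset (Fin q) :=
  fun v => if ¬ evn v ∧ hh s i v = a then SS f v else ∅

private theorem KrB_w1_nonneg (ε : ℝ) (i : Fin d) (a : ZMod (2 ^ s)) (v : Site d k)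
    (g : Site d k → Finset (Fin q)) : 0 ≤ w1 q ε s i a v g := by
  unfold w1
  split_ifs
  · exact (Real.exp_pos _).le
  · exact (Real.exp_pos _).le
  · norm_num
  · exact le_rfl

/-- the neighbour on the code lines sees the own colour -/
private theorem KrB_mem (i : Fin d) (a : ZMod (2 ^ s)) (f : Site d k → Fin q) (u : Site d k) :
    f u ∈ SS f (vv s i a u) := by
  unfold SS vv
  rw [Finset.mem_image]
  refine ⟨((sg s i (a - hh s i u)).1, !(sg s i (a - hh s i u)).2), mem_univ _, ?_⟩
  congr 1
  rw [add_assoc, sv_opp, add_zero]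

private theorem KrB_prod (hd : 2 ≤ d) (hk : 2 ≤ k) (hs : s ≤ k) (h1 : d ≤ 2 ^ s)
    (h2 : 2 ^ s < 2 * d) {ε : ℝ} (he : 0 < ε) (i : Fin d) (a : ZMod (2 ^ s))
    (R : Finset (Site d k)) {f : Site d k → Fin q} (hf : Prp f) :
    ∏ v, KrB_w ε s i a R (KrB_G s i a f) v f =
      Real.exp (-(T2 s f i a R + T3 ε f R + T4 f)) := by
  classical
  have hk1 : 1 ≤ k := by omega
  have hsplit : ∀ F : Site d k → ℝ, ∏ v, F v =
      ((∏ v ∈ (evs d k).filter (fun u => u ∈ R), F v) *
        ∏ v ∈ (evs d k).filter (fun u => u ∉ R), F v) * ∏ v ∈ ods d k, F v := by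
    intro F
    rw [Finset.prod_filter_mul_prod_filter_not (evs d k) (fun u => u ∈ R) F]
    unfold evs ods
    rw [Finset.prod_filter_mul_prod_filter_not]
  rw [hsplit]
  have e2 : ∏ v ∈ (evs d k).filter (fun u => u ∈ R), KrB_w ε s i a R (KrB_G s i a f) v f
      = Real.exp (-(T2 s f i a R)) := by
    unfold T2
    rw [← Finset.sum_neg_distrib, Real.exp_sum]
    apply Finset.prod_congr rfl
    intro u hu
    have hu1 := Finset.mem_filter.mp hu
    have hev : evn u := by
      have := hu1.1
      unfold evs at this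
      exact (Finset.mem_filter.mp this).2
    unfold KrB_w
    rw [if_pos hev, if_pos hu1.2]
    have hG : KrB_G s i a f (vv s i a u) = SS f (vv s i a u) := by
      unfold KrB_G
      rw [if_pos]
      refine ⟨?_, hh_vv hs h1 h2 i a u⟩
      rw [evn_vv hk1, not_not]
      exact hev
    rw [hG, if_pos (KrB_mem i a f u), Real.exp_neg, Real.exp_log, one_div]
    exact_mod_cast SS_card_pos (by omega) f _
  have e3 : ∏ v ∈ (evs d k).filter (fun u => u ∉ R), KrB_w ε s i a R (KrB_G s i a f) v f
      = Real.exp (-(T3 ε f R)) := by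
    unfold T3
    rw [← Finset.sum_neg_distrib, Real.exp_sum]
    apply Finset.prod_congr rfl
    intro u hu
    have hu1 := Finset.mem_filter.mp hu
    have hev : evn u := by
      have := hu1.1
      unfold evs at this
      exact (Finset.mem_filter.mp this).2
    unfold KrB_w
    rw [if_pos hev, if_neg hu1.2]
    have ha : 0 < aa ε f R u := by
      unfold aa
      exact Finset.sum_pos (fun c _ => KrB_gg_pos he _) ⟨f u, mem_univ _⟩
    rw [neg_sub, Real.exp_sub, Real.exp_log (KrB_gg_pos he _), Real.exp_log ha]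
  have e4 : ∏ v ∈ ods d k, KrB_w ε s i a R (KrB_G s i a f) v f = Real.exp (-(T4 f)) := by
    unfold T4
    rw [← Finset.sum_neg_distrib, Real.exp_sum]
    apply Finset.prod_congr rfl
    intro v hv
    have hodd : ¬ evn v := by
      unfold ods at hv
      exact (Finset.mem_filter.mp hv).2
    unfold KrB_w
    rw [if_neg hodd, if_neg]
    · rw [Real.exp_neg, Real.exp_log, one_div]
      have := av_pos hf v
      exact_mod_cast this
    · unfold SS
      rw [Finset.mem_image]
      rintro ⟨σ, _, hσ⟩
      exact hf v σ hσ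
  rw [e2, e3, e4, ← Real.exp_add, ← Real.exp_add]
  congr 1
  ring

theorem kraft (hd : 2 ≤ d) (hk : 2 ≤ k) (hs : s ≤ k) (h1 : d ≤ 2 ^ s) (h2 : 2 ^ s < 2 * d)
    {ε : ℝ} (he : 0 < ε) (he1 : ε < 1) (i : Fin d) (a : ZMod (2 ^ s)) (R : Finset (Site d k)) :
    ∑ f ∈ prps d k q, Real.exp (-(TT ε s f i a R)) ≤ 1 := by
  classical
  have hk1 : 1 ≤ k := by omega
  have hterm : ∀ f ∈ prps d k q, Real.exp (-(TT ε s f i a R)) ≤
      ∑ g : Site d k → Finset (Fin q), (∏ v, w1 q ε s i a v g) *
        ∏ v, KrB_w ε s i a R g v f := by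
    intro f hf
    have hP : Prp f := by
      unfold prps at hf
      exact (Finset.mem_filter.mp hf).2
    have h3 : Real.exp (-(TT ε s f i a R)) =
        (∏ v, w1 q ε s i a v (KrB_G s i a f)) * ∏ v, KrB_w ε s i a R (KrB_G s i a f) v f := by
      rw [KrB_prod hd hk hs h1 h2 he i a R hP]
      have h4 : ∏ v, w1 q ε s i a v (KrB_G s i a f) = Real.exp (-(T1 ε s f i a)) :=
        w1_eq hs hk ε f i a
      rw [h4, ← Real.exp_add]
      congr 1
      unfold TT
      ring
    rw [h3]
    exact Finset.single_le_sum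
      (f := fun g : Site d k → Finset (Fin q) => (∏ v, w1 q ε s i a v g) *
        ∏ v, KrB_w ε s i a R g v f)
      (fun g _ => mul_nonneg (Finset.prod_nonneg fun v _ => KrB_w1_nonneg ε i a v g)
        (Finset.prod_nonneg fun v _ => KrB_w_nonneg he i a R g v f)) (mem_univ _)
  calc ∑ f ∈ prps d k q, Real.exp (-(TT ε s f i a R))
      ≤ ∑ f ∈ prps d k q, ∑ g : Site d k → Finset (Fin q), (∏ v, w1 q ε s i a v g) *
        ∏ v, KrB_w ε s i a R g v f := Finset.sum_le_sum hterm
    _ ≤ ∑ f : Site d k → Fin q, ∑ g : Site d k → Finset (Fin q), (∏ v, w1 q ε s i a v g) *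
        ∏ v, KrB_w ε s i a R g v f := by
        apply Finset.sum_le_sum_of_subset_of_nonneg (Finset.subset_univ _)
        intro f _ _
        exact Finset.sum_nonneg fun g _ =>
          mul_nonneg (Finset.prod_nonneg fun v _ => KrB_w1_nonneg ε i a v g)
            (Finset.prod_nonneg fun v _ => KrB_w_nonneg he i a R g v f)
    _ = ∑ g : Site d k → Finset (Fin q), (∏ v, w1 q ε s i a v g) *
        ∑ f : Site d k → Fin q, ∏ v, KrB_w ε s i a R g v f := by
        rw [Finset.sum_comm]
        exact Finset.sum_congr rfl fun g _ => by rw [Finset.mul_sum]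
    _ ≤ ∑ g : Site d k → Finset (Fin q), (∏ v, w1 q ε s i a v g) * 1 := by
        apply Finset.sum_le_sum
        intro g _
        exact mul_le_mul_of_nonneg_left (KrB_bayes hk1 he i a R g)
          (Finset.prod_nonneg fun v _ => KrB_w1_nonneg ε i a v g)
    _ = ∑ g : Site d k → Finset (Fin q), ∏ v, w1 q ε s i a v g := by
        simp only [mul_one]
    _ ≤ 1 := kraftA hk he he1 i a

end Pool.Agent.LO
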