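import Pool.Agent.Lib_MP_2c424f_lo.PDiff
import Pool.Agent.Lib_MP_2c424f_lo.Mean

/-!
# Long-range order on the torus (piece MAINA)

`A = {f : lab1 f t₀ c}`.  For `f ∉ A`: `Mb f t c ≤ dl q` unless `t` is bad or the labels of `t`, `t₀`
differ.  So `∑_{f ∈ A} Mb f t c ≥ (0.985/q) ZZ`; `|A| ≤ (0.612/0.995) ZZ` (`mean_mb`);
`∑_t Mb f t c = (2/2^d) #{v odd : f v = c}` (`sum_EB`); Cauchy-Schwarz and sum over `c`.
-/

set_option autoImplicit false

open Finset

namespace Pool.Agent.LO

open scoped Classical in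
/-- number of odd sites with colour `c` -/
private noncomputable def cntA {d k q : ℕ} (f : Site d (k + 1) → Fin q) (c : Fin q) : ℝ :=
  ∑ v ∈ ods d (k + 1), if f v = c then (1 : ℝ) else 0

open scoped Classical in
private theorem sum_Mb_mainA {d k q : ℕ} (hd : 1 ≤ d) (f : Site d (k + 1) → Fin q) (c : Fin q) :
    ∑ t : Blk d k, Mb f t c = 2 / 2 ^ d * cntA f c := by
  have := sum_EB (k := k) hd (fun x => if f x = c then (1 : ℝ) else 0)
  unfold cntA
  rw [← this]
  apply Finset.sum_congr rfl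
  intro t _
  unfold Mb
  rfl

private theorem NN_mainA (d k : ℕ) : NN d (k + 1) = 2 ^ d * (Fintype.card (Blk d k) : ℝ) := by
  have h := card_site d k
  rw [h]
  unfold NN
  rw [← mul_pow, pow_succ]
  ring_nf

open scoped Classical in
private theorem pair_mainA {d k q : ℕ} :
    ∑ x ∈ ods d (k + 1), ∑ y ∈ ods d (k + 1),
        (((prps d (k + 1) q).filter fun f => f x = f y).card : ℝ) =
      ∑ c : Fin q, ∑ f ∈ prps d (k + 1) q, cntA f c ^ 2 := by
  have h1 : ∀ x ∈ ods d (k + 1), ∀ y ∈ ods d (k + 1),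
      (((prps d (k + 1) q).filter fun f => f x = f y).card : ℝ) =
      ∑ f ∈ prps d (k + 1) q, ∑ c : Fin q, (if f x = c then (1 : ℝ) else 0) * (if f y = c then 1 else 0) := by
    intro x _ y _
    rw [Finset.card_filter, Nat.cast_sum]
    apply Finset.sum_congr rfl
    intro f _
    have : ∀ c : Fin q, (if f x = c then (1 : ℝ) else 0) * (if f y = c then 1 else 0) =
        if f x = c then (if f y = c then 1 else 0) else 0 := by
      intro c; split_ifs <;> simp
    simp only [this]
    rw [Finset.sum_ite_eq Finset.univ (f x)]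
    simp only [Finset.mem_univ, if_true, Nat.cast_ite, Nat.cast_one, Nat.cast_zero]
    by_cases h : f x = f y
    · simp [h]
    · have h' : ¬ f y = f x := fun e => h e.symm
      simp [h, h']
  rw [Finset.sum_congr rfl (fun x hx => Finset.sum_congr rfl (fun y hy => h1 x hx y hy))]
  have h2 : ∀ x ∈ ods d (k + 1), ∑ y ∈ ods d (k + 1), ∑ f ∈ prps d (k + 1) q, ∑ c : Fin q,
      (if f x = c then (1 : ℝ) else 0) * (if f y = c then 1 else 0) =
      ∑ f ∈ prps d (k + 1) q, ∑ c : Fin q, (if f x = c then (1 : ℝ) else 0) * cntA f c := by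
    intro x _
    rw [Finset.sum_comm]
    apply Finset.sum_congr rfl
    intro f _
    rw [Finset.sum_comm]
    apply Finset.sum_congr rfl
    intro c _
    rw [← Finset.mul_sum]
    rfl
  rw [Finset.sum_congr rfl h2, Finset.sum_comm]
  have h3 : ∀ f ∈ prps d (k + 1) q, ∑ x ∈ ods d (k + 1), ∑ c : Fin q,
      (if f x = c then (1 : ℝ) else 0) * cntA f c = ∑ c : Fin q, cntA f c ^ 2 := by
    intro f _
    rw [Finset.sum_comm]
    apply Finset.sum_congr rfl
    intro c _
    rw [← Finset.sum_mul, sq]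
    rfl
  rw [Finset.sum_congr rfl h3, Finset.sum_comm]

open scoped Classical in
theorem mainA : ∃ d₀ : ℕ, ∀ d : ℕ, d₀ ≤ d → ∀ q : ℕ, Adm d q → ∀ k : ℕ, d ^ 5 ≤ 2 ^ k →
    3 / (2 * (q : ℝ)) * (NN d (k + 1) / 2) ^ 2 * ZZ d (k + 1) q ≤
      ∑ x ∈ ods d (k + 1), ∑ y ∈ ods d (k + 1),
        (((prps d (k + 1) q).filter fun f => f x = f y).card : ℝ) := by
  obtain ⟨d1, hd1⟩ := pdiff
  obtain ⟨d2, hd2⟩ := mean_mb
  refine ⟨max (max d1 d2) 1, ?_⟩
  intro d hd q hq k hk
  have e1 : d1 ≤ d := le_trans (le_trans (le_max_left _ _) (le_max_left _ _)) hd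
  have e2 : d2 ≤ d := le_trans (le_trans (le_max_right _ _) (le_max_left _ _)) hd
  have e3 : 1 ≤ d := le_trans (le_max_right _ _) hd
  have hq2 : (2 : ℝ) ≤ q := by exact_mod_cast hq.1
  have hq0 : (0 : ℝ) < q := by linarith
  have hq1 : 1 ≤ q := le_trans (by norm_num) hq.1
  set Z : ℝ := ZZ d (k + 1) q with hZdef
  have hZ0 : 0 ≤ Z := by rw [hZdef]; unfold ZZ; positivity
  set B : ℝ := (Fintype.card (Blk d k) : ℝ) with hB
  have hB0 : 0 ≤ B := by rw [hB]; positivity
  have hNN : NN d (k + 1) / 2 = 2 ^ d / 2 * B := by rw [NN_mainA]; ring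
  have hPrp : ∀ f ∈ prps d (k + 1) q, Prp f := by
    intro f hf
    simpa [prps] using hf
  rw [pair_mainA]
  -- lower bound for every colour
  have key : ∀ c : Fin q, 3 / (2 * (q : ℝ)) * (NN d (k + 1) / 2) ^ 2 * Z / q ≤
      ∑ f ∈ prps d (k + 1) q, cntA f c ^ 2 := by
    intro c
    set t0 : Blk d k := fun _ => 0 with ht0
    set A := (prps d (k + 1) q).filter fun f => lab1 f t0 c with hA
    have hdl : dl q ≤ 1 / 200 := by
      unfold dl
      apply one_div_le_one_div_of_le (by norm_num)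
      linarith
    have hdl0 : 0 ≤ dl q := by unfold dl; positivity
    -- size of A
    have hcardA : (A.card : ℝ) * (995 / 1000) ≤ 612 / 1000 * Z := by
      have h1 := hd2 d e2 q hq k hk t0 c
      have h2 : ∑ f ∈ A, (995 / 1000 : ℝ) ≤ ∑ f ∈ prps d (k + 1) q, mb f t0 c := by
        calc ∑ f ∈ A, (995 / 1000 : ℝ) ≤ ∑ f ∈ A, mb f t0 c := by
              apply Finset.sum_le_sum
              intro f hf
              have := (Finset.mem_filter.mp hf).2
              unfold lab1 at this
              linarith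
          _ ≤ ∑ f ∈ prps d (k + 1) q, mb f t0 c := by
              apply Finset.sum_le_sum_of_subset_of_nonneg (Finset.filter_subset _ _)
              intro f hf _
              exact le_trans (Mb_nonneg f t0 c) (Mb_le_mb (hPrp f hf) t0 c)
      rw [Finset.sum_const, nsmul_eq_mul] at h2
      exact le_trans h2 h1
    -- contribution of one block
    have hblk : ∀ t : Blk d k, 985 / 1000 * Z / q ≤ ∑ f ∈ A, Mb f t c := by
      intro t
      have hmean := Mb_mean (k := k) e3 hq1 t c
      set W := (prps d (k + 1) q).filter fun f => bad c t f ∨ ¬ (lab1 f t c ↔ lab1 f t0 c) with hW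
      have hWc : (W.card : ℝ) ≤ Z * (1 / (200 * q)) := hd1 d e1 q hq k hk c t t0
      have hcompl : ∑ f ∈ (prps d (k + 1) q).filter (fun f => ¬ lab1 f t0 c), Mb f t c ≤
          dl q * Z + Z * (1 / (200 * q)) := by
        have hb : ∀ f ∈ (prps d (k + 1) q).filter (fun f => ¬ lab1 f t0 c),
            Mb f t c ≤ dl q + (if (bad c t f ∨ ¬ (lab1 f t c ↔ lab1 f t0 c)) then (1 : ℝ) else 0) := by
          intro f hf
          obtain ⟨hf1, hf2⟩ := Finset.mem_filter.mp hf
          split_ifs with hbad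
          · have := Mb_le_one e3 f t c
            linarith
          · rw [not_or, not_not] at hbad
            obtain ⟨hb1, hb2⟩ := hbad
            have hl : ¬ lab1 f t c := fun h => hf2 (hb2.mp h)
            have := Mb_lab0 e3 (hPrp f hf1) t c hl hb1
            linarith
        calc ∑ f ∈ (prps d (k + 1) q).filter (fun f => ¬ lab1 f t0 c), Mb f t c
            ≤ ∑ f ∈ (prps d (k + 1) q).filter (fun f => ¬ lab1 f t0 c),
              (dl q + (if (bad c t f ∨ ¬ (lab1 f t c ↔ lab1 f t0 c)) then (1 : ℝ) else 0)) :=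
                Finset.sum_le_sum hb
          _ ≤ ∑ f ∈ prps d (k + 1) q,
              (dl q + (if (bad c t f ∨ ¬ (lab1 f t c ↔ lab1 f t0 c)) then (1 : ℝ) else 0)) := by
                apply Finset.sum_le_sum_of_subset_of_nonneg (Finset.filter_subset _ _)
                intro f _ _
                have : (0 : ℝ) ≤ (if (bad c t f ∨ ¬ (lab1 f t c ↔ lab1 f t0 c)) then (1 : ℝ) else 0) := by
                  split_ifs <;> norm_num
                linarith
          _ = dl q * Z + W.card := by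
                rw [Finset.sum_add_distrib, Finset.sum_const, nsmul_eq_mul, mul_comm]
                congr 1
                rw [hW, Finset.card_filter, Nat.cast_sum]
                apply Finset.sum_congr rfl
                intro f _
                split_ifs <;> simp
          _ ≤ dl q * Z + Z * (1 / (200 * q)) := by linarith
      have hsplit : ∑ f ∈ A, Mb f t c + ∑ f ∈ (prps d (k + 1) q).filter (fun f => ¬ lab1 f t0 c), Mb f t c =
          ∑ f ∈ prps d (k + 1) q, Mb f t c := Finset.sum_filter_add_sum_filter_not _ _ _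
      have hval : dl q * Z + Z * (1 / (200 * q)) = 15 / 1000 * Z / q := by
        unfold dl
        field_simp
        ring
      rw [hval] at hcompl
      have hZq : Z / q = 985 / 1000 * Z / q + 15 / 1000 * Z / q := by ring
      rw [← hsplit] at hmean
      rw [← hZdef] at hmean
      linarith
    -- sum over the blocks
    have hsum : B * (985 / 1000 * Z / q) ≤ 2 / 2 ^ d * ∑ f ∈ A, cntA f c := by
      calc B * (985 / 1000 * Z / q) = ∑ t : Blk d k, (985 / 1000 * Z / q) := by
            rw [Finset.sum_const, nsmul_eq_mul, Finset.card_univ]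
        _ ≤ ∑ t : Blk d k, ∑ f ∈ A, Mb f t c := Finset.sum_le_sum fun t _ => hblk t
        _ = ∑ f ∈ A, ∑ t : Blk d k, Mb f t c := Finset.sum_comm
        _ = ∑ f ∈ A, 2 / 2 ^ d * cntA f c := Finset.sum_congr rfl fun f _ => sum_Mb_mainA e3 f c
        _ = 2 / 2 ^ d * ∑ f ∈ A, cntA f c := by rw [Finset.mul_sum]
    have h2d : (0 : ℝ) < 2 ^ d := by positivity
    have hlow : NN d (k + 1) / 2 * (985 / 1000 * Z / q) ≤ ∑ f ∈ A, cntA f c := by
      rw [hNN]
      have h3 := mul_le_mul_of_nonneg_left hsum (by positivity : (0 : ℝ) ≤ 2 ^ d / 2)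
      have h4 : (2 : ℝ) ^ d / 2 * (2 / 2 ^ d * ∑ f ∈ A, cntA f c) = ∑ f ∈ A, cntA f c := by
        field_simp
      rw [h4] at h3
      linarith
    -- Cauchy-Schwarz
    have hCS : (∑ f ∈ A, cntA f c) ^ 2 ≤ A.card * ∑ f ∈ A, cntA f c ^ 2 := sq_sum_le_card_mul_sum_sq
    have hAsub : ∑ f ∈ A, cntA f c ^ 2 ≤ ∑ f ∈ prps d (k + 1) q, cntA f c ^ 2 := by
      apply Finset.sum_le_sum_of_subset_of_nonneg (Finset.filter_subset _ _)
      intro f _ _
      positivity
    set S2 := ∑ f ∈ prps d (k + 1) q, cntA f c ^ 2 with hS2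
    have hS20 : 0 ≤ S2 := Finset.sum_nonneg fun f _ => sq_nonneg _
    have hN0 : 0 ≤ NN d (k + 1) / 2 := by rw [hNN]; positivity
    have hl0 : 0 ≤ NN d (k + 1) / 2 * (985 / 1000 * Z / q) := by positivity
    have h5 : (NN d (k + 1) / 2 * (985 / 1000 * Z / q)) ^ 2 ≤ (612 / 995 * Z) * S2 := by
      calc (NN d (k + 1) / 2 * (985 / 1000 * Z / q)) ^ 2 ≤ (∑ f ∈ A, cntA f c) ^ 2 :=
            pow_le_pow_left₀ hl0 hlow 2
        _ ≤ A.card * ∑ f ∈ A, cntA f c ^ 2 := hCS
        _ ≤ (612 / 995 * Z) * S2 := by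
            apply mul_le_mul _ hAsub (Finset.sum_nonneg fun f _ => sq_nonneg _) (by positivity)
            linarith
    rcases hZ0.eq_or_lt with hZz | hZp
    · rw [← hZz]
      simp
      exact hS20
    · set M := NN d (k + 1) / 2 with hM
      have h6 : M ^ 2 * ((985 / 1000) ^ 2 * Z / q ^ 2) ≤ 612 / 995 * S2 := by
        have h7 : (M * (985 / 1000 * Z / q)) ^ 2 = Z * (M ^ 2 * ((985 / 1000) ^ 2 * Z / q ^ 2)) := by
          field_simp
        rw [h7] at h5
        have h8 : 612 / 995 * Z * S2 = Z * (612 / 995 * S2) := by ring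
        rw [h8] at h5
        exact le_of_mul_le_mul_left h5 hZp
      have h9 : 3 / (2 * (q : ℝ)) * M ^ 2 * Z / q = 3 / 2 * (M ^ 2 * (Z / q ^ 2)) := by
        field_simp
      have h10 : M ^ 2 * ((985 / 1000) ^ 2 * Z / q ^ 2) = (985 / 1000) ^ 2 * (M ^ 2 * (Z / q ^ 2)) := by
        ring
      rw [h10] at h6
      rw [h9]
      have h11 : 0 ≤ M ^ 2 * (Z / q ^ 2) := by positivity
      nlinarith
  have hfin : ∑ c : Fin q, (3 / (2 * (q : ℝ)) * (NN d (k + 1) / 2) ^ 2 * Z / q) =
      3 / (2 * (q : ℝ)) * (NN d (k + 1) / 2) ^ 2 * Z := by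
    rw [Finset.sum_const, nsmul_eq_mul, Finset.card_univ, Fintype.card_fin]
    field_simp
  rw [← hfin]
  exact Finset.sum_le_sum fun c _ => key c

end Pool.Agent.LO
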