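import Pool.Agent.Lib_MP_2c424f_lo.MainA
import Pool.Agent.Lib_MP_2c424f_lo.BCa
import Pool.Agent.Lib_MP_2c424f_lo.BCb

/-!
# Boundary influence at all distances (piece MAINB)
-/

set_option autoImplicit false

open Finset

namespace Pool.Agent.LO

/-- number of sites of a large torus -/
private theorem mainB_card {d k : ℕ} (hd : 1 ≤ d) (M : ℕ) (hM : M < 2 ^ k) :
    (M : ℝ) < ((ods d (k + 1)).card : ℝ) := by
  rw [card_ods hd (by omega)]
  unfold NN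
  have h1 : ((2 : ℝ) ^ (k + 1)) ^ 1 ≤ ((2 : ℝ) ^ (k + 1)) ^ d :=
    pow_le_pow_right₀ (one_le_pow₀ (by norm_num)) hd
  have h2 : (M : ℝ) < 2 ^ k := by exact_mod_cast hM
  rw [pow_one, pow_succ] at h1
  rw [lt_div_iff₀ (by norm_num)]
  rw [pow_succ]
  linarith

open Pool.Agent.QC in
theorem mainB : ∃ d₀ : ℕ, ∀ d : ℕ, d₀ ≤ d → ∀ q : ℕ, Adm d q → ∀ r : ℕ,
    ∃ (n : ℕ) (Q : Set (Bx d n)) (σ : Bx d n → Fin q) (w : Bx d n) (b : Fin q),
      (∀ x ∈ Q, r ≤ bd w x) ∧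
      0 < cnt (fun f : Bx d n → Fin q => Proper (BG d n) f ∧ ∀ x ∈ Q, f x = σ x) ∧
      4 / (3 * (q : ℝ)) ≤
        (cnt (fun f : Bx d n → Fin q => Proper (BG d n) f ∧ (∀ x ∈ Q, f x = σ x) ∧ f w = b) : ℝ) /
          cnt (fun f : Bx d n → Fin q => Proper (BG d n) f ∧ ∀ x ∈ Q, f x = σ x) := by
  classical
  obtain ⟨d₀, h⟩ := mainA
  refine ⟨max d₀ 1, fun d hd q hq r => ?_⟩
  have hd0 : d₀ ≤ d := le_trans (le_max_left _ _) hd
  have hd1 : 1 ≤ d := le_trans (le_max_right _ _) hd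
  have hq2 : 2 ≤ q := hq.1
  obtain ⟨k, hk⟩ : ∃ k : ℕ, d ^ 5 + (2 * r + 4) + 6 * q * (2 * r + 1) ^ d < 2 ^ k :=
    ⟨_, Nat.lt_two_pow_self⟩
  have hk5 : d ^ 5 ≤ 2 ^ k := by omega
  have hkr : 2 * r + 4 ≤ 2 ^ (k + 1) := by
    have : 2 ^ (k + 1) = 2 ^ k * 2 := pow_succ 2 k
    omega
  have hZ : 0 < ZZ d (k + 1) q := lt_of_lt_of_le (Real.exp_pos _) (ZZ_ge hd1 (by omega) hq2)
  have hA := h d hd0 q hq k hk5
  have hcard := mainB_card hd1 (6 * q * (2 * r + 1) ^ d) (by omega : 6 * q * (2 * r + 1) ^ d < 2 ^ k)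
  have hne : (ods d (k + 1)).Nonempty := by
    rw [← Finset.card_pos]
    have h1 : (0 : ℝ) < ((ods d (k + 1)).card : ℝ) := lt_of_le_of_lt (Nat.cast_nonneg _) hcard
    exact_mod_cast h1
  obtain ⟨x₀, _, hx₀⟩ : ∃ x₀ ∈ ods d (k + 1),
      3 / (2 * (q : ℝ)) * ((ods d (k + 1)).card : ℝ) * ZZ d (k + 1) q ≤
        ∑ y ∈ ods d (k + 1), (((prps d (k + 1) q).filter fun f => f x₀ = f y).card : ℝ) := by
    apply Finset.exists_le_of_sum_le hne
    rw [Finset.sum_const, nsmul_eq_mul]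
    refine le_trans (le_of_eq ?_) hA
    rw [card_ods hd1 (by omega)]
    ring
  obtain ⟨B, Q, w, hBc, hQ, hσ⟩ := bcb (q := q) hd1 (by omega : 1 ≤ k + 1) r hkr x₀
  have hB : 6 * (q : ℝ) * B.card < ((ods d (k + 1)).card : ℝ) := by
    refine lt_of_le_of_lt ?_ hcard
    push_cast
    have : (B.card : ℝ) ≤ (2 * r + 1) ^ d := by exact_mod_cast hBc
    gcongr
  obtain ⟨g, hg, b, hgb⟩ := bca hq2 B x₀ (ods d (k + 1)) hB hx₀ hZ
  have hgP : Prp g := by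
    simp only [prps, mem_filter, mem_univ, true_and] at hg
    exact hg
  obtain ⟨σ, h1, h2⟩ := hσ g hgP
  have e1 : ((prps d (k + 1) q).filter fun f => ∀ x, x ∉ B → f x = g x).card =
      cnt (fun f : Bx d (2 * r + 2) → Fin q => Proper (BG d (2 * r + 2)) f ∧ ∀ x ∈ Q, f x = σ x) := by
    rw [← h1, ← Set.ncard_coe_finset]
    congr 1
    ext f
    simp [prps]
  have e2 : ((prps d (k + 1) q).filter fun f => (∀ x, x ∉ B → f x = g x) ∧ f x₀ = b).card =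
      cnt (fun f : Bx d (2 * r + 2) → Fin q =>
        Proper (BG d (2 * r + 2)) f ∧ (∀ x ∈ Q, f x = σ x) ∧ f w = b) := by
    rw [← h2 b, ← Set.ncard_coe_finset]
    congr 1
    ext f
    simp [prps]
  have hpos : 0 < ((prps d (k + 1) q).filter fun f => ∀ x, x ∉ B → f x = g x).card := by
    rw [Finset.card_pos]
    exact ⟨g, by simp [hg]⟩
  refine ⟨2 * r + 2, Q, σ, w, b, hQ, ?_, ?_⟩
  · rw [← e1]
    exact hpos
  · rw [← e1, ← e2, le_div_iff₀ (by exact_mod_cast hpos)]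
    exact hgb

end Pool.Agent.LO
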