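import Pool.Agent.Lib_MP_2c424f_lo.BCa2
import Pool.Agent.Lib_MP_2c424f_lo.BCb2

/-!
# Boundary influence of order one at all distances (piece MAINB2)

In the box `{0, …, 2r+2}^d` there are two boundary conditions `σ`, `σ'` and a set `C` of `⌊q/2⌋` or `⌈q/2⌉`
colours such that the centre has its colour in `C` with probability at least `1 - 1/d^2` for `σ` and at
most `1/d^2` (`q` even) or `1/d^2 + 2/q` (`q` odd) for `σ'`.
-/

set_option autoImplicit false

open Finset

namespace Pool.Agent.LO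

open Pool.Agent.QC

/-- proper colourings of the box with given values on the boundary and a property at the centre -/
noncomputable def bN {d r q : ℕ} (σ : Bx d (2 * r + 2) → Fin q) (P : Fin q → Prop) : ℕ :=
  cnt fun f : Bx d (2 * r + 2) → Fin q =>
    Proper (BG d (2 * r + 2)) f ∧ (∀ x ∈ bxQ d (2 * r + 2), f x = σ x) ∧ P (f (bxC d r))

private theorem bN_add {d r q : ℕ} (σ : Bx d (2 * r + 2) → Fin q) (P : Fin q → Prop) :
    bN σ P + bN σ (fun b => ¬ P b) = bN σ (fun _ => True) := by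
  classical
  unfold bN
  rw [cnt_eq, cnt_eq, cnt_eq, ← Finset.card_union_of_disjoint]
  · congr 1
    ext f
    simp only [mem_union, mem_filter, mem_univ, true_and]
    by_cases h : P (f (bxC d r))
    · simp [h]
    · simp [h]
  · rw [Finset.disjoint_left]
    intro f h1 h2
    simp only [mem_filter, mem_univ, true_and] at h1 h2
    exact h2.2.2 h1.2.2

private theorem bN_sum {d r q : ℕ} (σ : Bx d (2 * r + 2) → Fin q) (C : Finset (Fin q)) :
    bN σ (fun b => b ∈ C) = ∑ c ∈ C, bN σ (fun b => b = c) := by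
  classical
  unfold bN
  rw [cnt_eq]
  simp only [cnt_eq]
  rw [Finset.card_eq_sum_card_fiberwise (f := fun f : Bx d (2 * r + 2) → Fin q => f (bxC d r))
    (t := C)]
  · refine Finset.sum_congr rfl fun c hc => ?_
    congr 1
    ext f
    simp only [mem_filter, mem_univ, true_and]
    constructor
    · rintro ⟨⟨h1, h2, h3⟩, h4⟩
      exact ⟨h1, h2, h4⟩
    · rintro ⟨h1, h2, h3⟩
      exact ⟨⟨h1, h2, by rw [h3]; exact hc⟩, h3⟩
  · intro f hf
    simp only [Finset.coe_filter, mem_univ, true_and] at hf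
    exact hf.2.2

private theorem bN_mono {d r q : ℕ} (σ : Bx d (2 * r + 2) → Fin q) {P P' : Fin q → Prop}
    (h : ∀ b, P b → P' b) : bN σ P ≤ bN σ P' := by
  unfold bN
  exact cnt_mono fun f hf => ⟨hf.1, hf.2.1, h _ hf.2.2⟩

/-- permutation of the colours -/
private theorem bN_perm {d r q : ℕ} (σ : Bx d (2 * r + 2) → Fin q) (π : Equiv.Perm (Fin q))
    (P : Fin q → Prop) : bN (fun x => π (σ x)) P = bN σ (fun b => P (π b)) := by
  unfold bN
  refine cnt_bij (fun f x => π.symm (f x)) ?_ ?_ ?_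
  · rintro f ⟨h1, h2, h3⟩
    refine ⟨?_, ?_, ?_⟩
    · intro u v huv h
      exact h1 u v huv (π.symm.injective h)
    · intro x hx
      show π.symm (f x) = σ x
      rw [h2 x hx]
      exact π.symm_apply_apply _
    · show P (π (π.symm (f (bxC d r))))
      rw [π.apply_symm_apply]
      exact h3
  · rintro f g _ _ h
    funext x
    have := congrFun h x
    exact π.symm.injective this
  · rintro f ⟨h1, h2, h3⟩
    refine ⟨fun x => π (f x), ⟨?_, ?_, h3⟩, ?_⟩
    · intro u v huv h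
      exact h1 u v huv (π.injective h)
    · intro x hx
      show π (f x) = π (σ x)
      rw [h2 x hx]
    · funext x
      exact π.symm_apply_apply _

/-- the set of colours for the second boundary condition -/
private theorem exists_other {q : ℕ} (hq : 2 ≤ q) (C : Finset (Fin q))
    (hC : C.card = q1 q ∨ C.card = q2 q) (w : Fin q → ℝ) (hw : ∀ c, 0 ≤ w c) (T ε : ℝ)
    (hT : ∑ c ∈ C, w c ≤ T) (hε : ∑ c ∈ Cᶜ, w c ≤ ε * T) :
    ∃ C' : Finset (Fin q), C'.card = C.card ∧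
      ∑ c ∈ C', w c ≤ (ε + (if Even q then 0 else 2 / (q : ℝ))) * T := by
  classical
  have hcc : (Cᶜ).card = q - C.card := by
    rw [card_compl, Fintype.card_fin]
  have hq0 : (0 : ℝ) < q := by exact_mod_cast (show 0 < q by omega)
  have hT0 : 0 ≤ T := le_trans (sum_nonneg fun c _ => hw c) hT
  by_cases hle : C.card ≤ (Cᶜ).card
  · obtain ⟨C', hsub, hcard⟩ := Finset.exists_subset_card_eq hle
    refine ⟨C', hcard, ?_⟩
    have h1 : ∑ c ∈ C', w c ≤ ∑ c ∈ Cᶜ, w c :=
      sum_le_sum_of_subset_of_nonneg hsub fun c _ _ => hw c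
    have h2 : (0 : ℝ) ≤ (if Even q then 0 else 2 / (q : ℝ)) := by
      split_ifs
      · exact le_rfl
      · positivity
    have h3 : ε * T ≤ (ε + (if Even q then 0 else 2 / (q : ℝ))) * T := by nlinarith
    linarith
  · have hq1 : q1 q = q / 2 := rfl
    have hq2 : q2 q = q - q / 2 := rfl
    have hodd : ¬ Even q := by
      rintro ⟨m, hm⟩
      omega
    have hCq : C.card = q2 q := by
      rcases hC with h | h
      · omega
      · exact h
    have hCpos : 0 < C.card := by omega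
    have hCne : C.Nonempty := Finset.card_pos.1 hCpos
    obtain ⟨c, hc, hmin⟩ := Finset.exists_min_image C w hCne
    refine ⟨insert c Cᶜ, ?_, ?_⟩
    · have h2 : q % 2 = 1 := by
        rw [Nat.not_even_iff_odd, Nat.odd_iff] at hodd
        exact hodd
      rw [card_insert_of_notMem (by simpa using hc), hcc, hCq]
      omega
    · rw [sum_insert (by simpa using hc), if_neg hodd]
      have h1 : (C.card : ℝ) * w c ≤ T := by
        refine le_trans ?_ hT
        rw [← nsmul_eq_mul, ← sum_const]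
        exact sum_le_sum fun c' hc' => hmin c' hc'
      have h2 : (q : ℝ) ≤ 2 * C.card := by
        have : q ≤ 2 * C.card := by omega
        exact_mod_cast this
      have h3 : w c ≤ 2 / (q : ℝ) * T := by
        have h4 : (q : ℝ) * w c ≤ 2 * T := by nlinarith [hw c]
        rw [div_mul_eq_mul_div, le_div_iff₀ hq0]
        linarith
      nlinarith

/-- a permutation which maps `C'` onto `C` -/
private theorem exists_perm {q : ℕ} (C C' : Finset (Fin q)) (h : C'.card = C.card) :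
    ∃ π : Equiv.Perm (Fin q), ∀ b, π b ∈ C ↔ b ∈ C' := by
  classical
  let e : {x // x ∈ C'} ≃ {x // x ∈ C} := Finset.equivOfCardEq h
  refine ⟨e.extendSubtype, fun b => ?_⟩
  constructor
  · intro hb
    by_contra hn
    exact e.extendSubtype_not_mem b hn hb
  · intro hb
    exact e.extendSubtype_mem b hb

private theorem mainB2_torus {d k q : ℕ} (R : (Site d k → Fin q) → Prop) [DecidablePred R] :
    ((prps d k q).filter R).card = cnt (fun f : Site d k → Fin q => Prp f ∧ R f) := by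
  classical
  rw [cnt_eq]
  congr 1
  ext f
  simp only [mem_filter, mem_univ, true_and, mem_prps]

/-- many odd sites -/
private theorem exists_far {d k : ℕ} (hd : 1 ≤ d) (hk : 1 ≤ k) (B : Finset (Site d k))
    (hB : 2 * (d : ℝ) * B.card < NN d k / 2) :
    ∃ y : Site d k, ¬ evn y ∧ ∀ σ : Stp d, y + sv σ ∉ B := by
  classical
  by_contra hcon
  push Not at hcon
  have hsub : ods d k ⊆ (univ ×ˢ B).image fun p : Stp d × Site d k => p.2 - sv p.1 := by
    intro y hy
    have hy' : ¬ evn y := by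
      unfold ods at hy
      exact (mem_filter.1 hy).2
    obtain ⟨σ, hσ⟩ := hcon y hy'
    rw [mem_image]
    exact ⟨(σ, y + sv σ), by simp [hσ], by simp⟩
  have h1 := (Finset.card_le_card hsub).trans Finset.card_image_le
  rw [Finset.card_product, card_univ, Fintype.card_prod, Fintype.card_fin, Fintype.card_bool] at h1
  have h2 : ((ods d k).card : ℝ) ≤ d * 2 * B.card := by exact_mod_cast h1
  rw [card_ods hd hk] at h2
  linarith

theorem mainB2 : ∃ d₀ : ℕ, ∀ d : ℕ, d₀ ≤ d → ∀ q : ℕ, Adm d q → ∀ r : ℕ,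
    ∃ (σ σ' : Bx d (2 * r + 2) → Fin q) (C : Finset (Fin q)),
      (C.card = q / 2 ∨ C.card = (q + 1) / 2) ∧
      0 < bN σ (fun _ => True) ∧ 0 < bN σ' (fun _ => True) ∧
      1 - 1 / (d : ℝ) ^ 2 ≤ (bN σ (fun b => b ∈ C) : ℝ) / bN σ (fun _ => True) ∧
      (bN σ' (fun b => b ∈ C) : ℝ) / bN σ' (fun _ => True) ≤
        1 / (d : ℝ) ^ 2 + (if Even q then 0 else 2 / (q : ℝ)) := by
  classical
  obtain ⟨d₁, hp⟩ := pair
  refine ⟨max d₁ 243, fun d hd q hA r => ?_⟩
  have hd1 : d₁ ≤ d := le_trans (le_max_left _ _) hd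
  have hd2 : 243 ≤ d := le_trans (le_max_right _ _) hd
  have hdR : (243 : ℝ) ≤ d := by exact_mod_cast hd2
  have hq2 : 2 ≤ q := hA.1
  have hdp : 1 ≤ d := by omega
  -- the size of the torus
  set k : ℕ := d ^ 5 * (2 * r + 4) with hkdef
  have hk2 : d ^ 5 * (2 * r + 4) ≤ 2 ^ k := Nat.lt_two_pow_self.le
  have hd5 : 1 ≤ d ^ 5 := Nat.one_le_pow _ _ (by omega)
  have hk5 : d ^ 5 ≤ 2 ^ k := le_trans (Nat.le_mul_of_pos_right _ (by omega)) hk2
  have hkr : 2 * r + 4 ≤ 2 ^ k := le_trans (Nat.le_mul_of_pos_left _ (by omega)) hk2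
  have hkr' : 2 * r + 4 ≤ 2 ^ (k + 1) := le_trans hkr (Nat.pow_le_pow_right (by norm_num) (by omega))
  -- the odd site
  set σ₀ : Stp d := (⟨0, by omega⟩, true) with hσ₀
  obtain ⟨x₀, hx₀⟩ : ∃ x₀ : Site d (k + 1), ¬ evn x₀ := by
    by_cases h : evn (0 : Site d (k + 1))
    · exact ⟨0 + sv σ₀, fun h' => (evn_step (by omega) 0 σ₀).1 h' h⟩
    · exact ⟨0, h⟩
  obtain ⟨B, hBc, hB⟩ := bcb2 (q := q) r hkr' x₀
  have hBcR : (B.card : ℝ) ≤ (2 * r + 1) ^ d := by exact_mod_cast hBc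
  have hN : 2 * (d : ℝ) * B.card < NN d (k + 1) / 2 := by
    have h1 : ((d : ℝ) ^ 5 * (2 * r + 4)) ≤ (2 : ℝ) ^ k := by exact_mod_cast hk2
    have h2 : ((d : ℝ) ^ 5 * (2 * r + 4)) ^ d ≤ ((2 : ℝ) ^ k) ^ d :=
      pow_le_pow_left₀ (by positivity) h1 d
    have h3 : (d : ℝ) ^ 5 ≤ ((d : ℝ) ^ 5) ^ d := by
      apply le_self_pow₀ _ (by omega)
      exact one_le_pow₀ (by linarith)
    have h4 : ((2 * (r : ℝ) + 1)) ^ d ≤ (2 * r + 4) ^ d :=
      pow_le_pow_left₀ (by positivity) (by linarith) d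
    have h5 : ((2 : ℝ) ^ k) ^ d ≤ NN d (k + 1) / 2 := by
      unfold NN
      have h6 : ((2 : ℝ) ^ (k + 1)) ^ d = 2 ^ d * ((2 : ℝ) ^ k) ^ d := by
        rw [pow_succ, mul_pow, mul_comm]
      rw [h6]
      have h7 : (2 : ℝ) ≤ 2 ^ d := le_self_pow₀ (by norm_num) (by omega)
      have h8 : 0 ≤ ((2 : ℝ) ^ k) ^ d := by positivity
      nlinarith
    have h9 : 2 * (d : ℝ) < (d : ℝ) ^ 5 := by
      have : (d : ℝ) ^ 5 = d * (d : ℝ) ^ 4 := by ring
      rw [this]
      have h10 : (2 : ℝ) < (d : ℝ) ^ 4 := by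
        have : (243 : ℝ) ^ 4 ≤ (d : ℝ) ^ 4 := pow_le_pow_left₀ (by norm_num) hdR 4
        linarith
      nlinarith
    have h11 : (0 : ℝ) < (2 * (r : ℝ) + 4) ^ d := by positivity
    calc 2 * (d : ℝ) * B.card ≤ 2 * (d : ℝ) * (2 * r + 1) ^ d :=
          mul_le_mul_of_nonneg_left hBcR (by positivity)
      _ ≤ 2 * (d : ℝ) * (2 * r + 4) ^ d := mul_le_mul_of_nonneg_left h4 (by positivity)
      _ < (d : ℝ) ^ 5 * (2 * r + 4) ^ d := mul_lt_mul_of_pos_right h9 h11
      _ ≤ ((d : ℝ) ^ 5) ^ d * (2 * r + 4) ^ d := mul_le_mul_of_nonneg_right h3 h11.le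
      _ = ((d : ℝ) ^ 5 * (2 * r + 4)) ^ d := by rw [mul_pow]
      _ ≤ ((2 : ℝ) ^ k) ^ d := h2
      _ ≤ _ := h5
  obtain ⟨y₀, hy₀, hy⟩ := exists_far hdp (by omega) B hN
  have hZ : 0 < ZZ d (k + 1) q := lt_of_lt_of_le (Real.exp_pos _) (ZZ_ge hdp (by omega) hq2)
  have hε : ZZ d (k + 1) q * (1 / (2 * (d : ℝ) ^ 2)) ≤ ZZ d (k + 1) q * (1 / (d : ℝ) ^ 2) := by
    apply mul_le_mul_of_nonneg_left _ hZ.le
    apply one_div_le_one_div_of_le (by positivity)
    nlinarith
  have hε1 : 1 / (d : ℝ) ^ 2 < 1 := by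
    rw [div_lt_one (by positivity)]
    nlinarith
  obtain ⟨g, hg, C, hC, hgC⟩ := bca2 B x₀ y₀ hy (1 / (d : ℝ) ^ 2) hε1 hZ
    ((hp d hd1 q hA k hk5 x₀ y₀ hx₀ hy₀).trans hε)
  obtain ⟨σ, hσ⟩ := hB g ((mem_prps g).1 hg)
  have hσ' : ∀ P : Fin q → Prop, bN σ P =
      cnt (fun f : Site d (k + 1) → Fin q => Prp f ∧ (∀ x, x ∉ B → f x = g x) ∧ P (f x₀)) := by
    intro P
    exact (hσ P).symm
  have hT : bN σ (fun _ => True) =
      cnt (fun f : Site d (k + 1) → Fin q => Prp f ∧ ∀ x, x ∉ B → f x = g x) := by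
    rw [hσ']
    exact cnt_congr fun f => by simp
  have hTpos : 0 < bN σ (fun _ => True) := by
    rw [hT, ← mainB2_torus]
    refine Finset.card_pos.2 ⟨g, ?_⟩
    rw [mem_filter]
    exact ⟨hg, fun _ _ => rfl⟩
  have hTR : (0 : ℝ) < (bN σ (fun _ => True) : ℝ) := by exact_mod_cast hTpos
  have hnot : (bN σ (fun b => ¬ b ∈ C) : ℝ) ≤ 1 / (d : ℝ) ^ 2 * bN σ (fun _ => True) := by
    rw [hT, hσ']
    rw [mainB2_torus, mainB2_torus] at hgC
    exact hgC
  have hadd : (bN σ (fun b => b ∈ C) : ℝ) + bN σ (fun b => ¬ b ∈ C) = bN σ (fun _ => True) := by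
    exact_mod_cast bN_add σ (fun b => b ∈ C)
  have hCle : (bN σ (fun b => b ∈ C) : ℝ) ≤ bN σ (fun _ => True) := by
    exact_mod_cast bN_mono σ (P := fun b => b ∈ C) (P' := fun _ => True) (fun _ _ => trivial)
  have hsum : ∀ A : Finset (Fin q), (bN σ (fun b => b ∈ A) : ℝ) =
      ∑ c ∈ A, (bN σ (fun b => b = c) : ℝ) := by
    intro A
    rw [bN_sum]
    push_cast
    rfl
  have hcompl : bN σ (fun b => ¬ b ∈ C) = bN σ (fun b => b ∈ Cᶜ) := by
    congr 1
    funext b
    rw [mem_compl]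
  obtain ⟨C', hC'card, hC'⟩ := exists_other hq2 C hC (fun c => (bN σ (fun b => b = c) : ℝ))
    (fun c => Nat.cast_nonneg _) (bN σ (fun _ => True)) (1 / (d : ℝ) ^ 2)
    (by rw [← hsum]; exact hCle) (by rw [← hsum, ← hcompl]; exact hnot)
  obtain ⟨π, hπ⟩ := exists_perm C C' hC'card
  have hσ2 : bN (fun x => π (σ x)) (fun _ => True) = bN σ (fun _ => True) := bN_perm σ π _
  have hσ3 : bN (fun x => π (σ x)) (fun b => b ∈ C) = bN σ (fun b => b ∈ C') := by
    rw [bN_perm]
    congr 1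
    funext b
    exact propext (hπ b)
  refine ⟨σ, fun x => π (σ x), C, ?_, hTpos, ?_, ?_, ?_⟩
  · have e1 : q1 q = q / 2 := rfl
    have e2 : q2 q = q - q / 2 := rfl
    rcases hC with h | h
    · exact Or.inl (by omega)
    · exact Or.inr (by omega)
  · rw [hσ2]
    exact hTpos
  · rw [le_div_iff₀ hTR]
    nlinarith
  · rw [hσ2, hσ3, div_le_iff₀ hTR, hsum]
    exact hC'

end Pool.Agent.LO
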