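import Pool.Agent.Lib_MP_2c424f_lo.Dev

/-!
# The global majority set of available colours (piece MAJ)

`Bst f`: the colours which are not seen by at least half of the odd sites.  If the deviations from the
block labels and the disagreements with the labels of one block `t₁` are few, then `Bst f` is the label set
of `t₁`.  In all cases the number of odd sites whose set of available colours is not `Bst f` is controlled.
-/

set_option autoImplicit false

open Finset

namespace Pool.Agent.LO

variable {d k q : ℕ}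

open scoped Classical in
/-- the global majority set of available colours -/
noncomputable def Bst (f : Site d k → Fin q) : Finset (Fin q) :=
  univ.filter fun c => ((ods d k).card : ℝ) ≤ 2 * ∑ v ∈ ods d k, zz f v c

theorem mem_Bst (f : Site d k → Fin q) (c : Fin q) :
    c ∈ Bst f ↔ ((ods d k).card : ℝ) ≤ 2 * ∑ v ∈ ods d k, zz f v c := by
  unfold Bst
  rw [mem_filter]
  simp only [mem_univ, true_and]

private theorem Maj_card (hd : 1 ≤ d) :
    2 / 2 ^ d * ((ods d (k + 1)).card : ℝ) = (Fintype.card (Blk d k) : ℝ) := by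
  have h := sum_EB (k := k) hd (fun _ => (1 : ℝ))
  simp only [card_od hd] at h
  rw [sum_const, sum_const, card_univ, nsmul_eq_mul, nsmul_eq_mul, mul_one, mul_one] at h
  exact h.symm

private theorem Maj_mt (hd : 1 ≤ d) (f : Site d (k + 1) → Fin q) (c : Fin q) :
    2 / 2 ^ d * (∑ v ∈ ods d (k + 1), zz f v c) = ∑ t : Blk d k, mt f t c := by
  unfold mt
  exact (sum_EB hd (fun v => zz f v c)).symm

private theorem Maj_mem (hd : 1 ≤ d) (f : Site d (k + 1) → Fin q) (c : Fin q) :
    c ∈ Bst f ↔ (Fintype.card (Blk d k) : ℝ) ≤ 2 * ∑ t : Blk d k, mt f t c := by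
  rw [mem_Bst, ← Maj_mt hd, ← Maj_card (k := k) hd]
  have h2 : (0 : ℝ) < 2 / 2 ^ d := by positivity
  constructor
  · intro h
    have := mul_le_mul_of_nonneg_left h h2.le
    linarith
  · intro h
    have h3 : 2 / 2 ^ d * ((ods d (k + 1)).card : ℝ) ≤
        2 / 2 ^ d * (2 * ∑ v ∈ ods d (k + 1), zz f v c) := by
      linarith
    exact le_of_mul_le_mul_left h3 h2

open scoped Classical in
/-- the block `t` has another label than `t₁` -/
noncomputable def dif (f : Site d (k + 1) → Fin q) (t₁ t : Blk d k) (c : Fin q) : ℝ :=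
  if (lab1 f t c ↔ lab1 f t₁ c) then 0 else 1

theorem dif_nonneg (f : Site d (k + 1) → Fin q) (t₁ t : Blk d k) (c : Fin q) : 0 ≤ dif f t₁ t c := by
  unfold dif
  split_ifs <;> norm_num

private theorem Maj_one_le (hd : 1 ≤ d) (f : Site d (k + 1) → Fin q) (t₁ t : Blk d k) (c : Fin q)
    (h : lab1 f t₁ c) : 1 ≤ mt f t c + dev f t c + dif f t₁ t c := by
  by_cases hl : lab1 f t c
  · have := dif_nonneg f t₁ t c
    rw [dev_lab1 hd f t c hl]
    linarith
  · have h1 : dif f t₁ t c = 1 := by
      unfold dif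
      rw [if_neg]
      intro h2
      exact hl (h2.2 h)
    have h2 := mt_nonneg f t c
    have h3 := dev_nonneg f t c
    linarith

private theorem Maj_le (hd : 1 ≤ d) (f : Site d (k + 1) → Fin q) (t₁ t : Blk d k) (c : Fin q)
    (h : ¬ lab1 f t₁ c) : mt f t c ≤ dev f t c + dif f t₁ t c := by
  by_cases hl : lab1 f t c
  · have h1 : dif f t₁ t c = 1 := by
      unfold dif
      rw [if_neg]
      intro h2
      exact h (h2.1 hl)
    have h2 := mt_le_one hd f t c
    have h3 := dev_nonneg f t c
    linarith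
  · have := dif_nonneg f t₁ t c
    rw [dev_not f t c hl]
    linarith

/-- if there are few deviations then `Bst f` is the label set of `t₁` -/
private theorem Maj_eq (hd : 1 ≤ d) (f : Site d (k + 1) → Fin q) (t₁ : Blk d k)
    (h : ∑ c, ∑ t : Blk d k, dev f t c + ∑ c, ∑ t : Blk d k, dif f t₁ t c <
      (Fintype.card (Blk d k) : ℝ) / 2) (c : Fin q) : c ∈ Bst f ↔ lab1 f t₁ c := by
  have h1 : ∑ t : Blk d k, dev f t c ≤ ∑ c, ∑ t : Blk d k, dev f t c :=
    single_le_sum (f := fun c => ∑ t : Blk d k, dev f t c)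
      (fun c' _ => sum_nonneg fun t _ => dev_nonneg f t c') (mem_univ c)
  have h2 : ∑ t : Blk d k, dif f t₁ t c ≤ ∑ c, ∑ t : Blk d k, dif f t₁ t c :=
    single_le_sum (f := fun c => ∑ t : Blk d k, dif f t₁ t c)
      (fun c' _ => sum_nonneg fun t _ => dif_nonneg f t₁ t c') (mem_univ c)
  rw [Maj_mem hd]
  by_cases hl : lab1 f t₁ c
  · have h3 := sum_le_sum fun t (_ : t ∈ (univ : Finset (Blk d k))) => Maj_one_le hd f t₁ t c hl
    rw [sum_const, card_univ, nsmul_eq_mul, mul_one, sum_add_distrib, sum_add_distrib] at h3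
    constructor
    · intro _
      exact hl
    · intro _
      linarith
  · have h3 := sum_le_sum fun t (_ : t ∈ (univ : Finset (Blk d k))) => Maj_le hd f t₁ t c hl
    rw [sum_add_distrib] at h3
    constructor
    · intro h4
      exfalso
      linarith
    · intro h4
      exact absurd h4 hl

open scoped Classical in
private theorem Maj_pt (f : Site d (k + 1) → Fin q) (t₁ : Blk d k)
    (h : ∀ c, c ∈ Bst f ↔ lab1 f t₁ c) (t : Blk d k) (x : Site d (k + 1)) :
    (if (SS f x)ᶜ ≠ Bst f then (1 : ℝ) else 0) ≤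
      ∑ c, |zz f x c - (if lab1 f t c then 1 else 0)| + ∑ c, dif f t₁ t c := by
  have hn1 : ∀ c ∈ (univ : Finset (Fin q)), 0 ≤ |zz f x c - (if lab1 f t c then (1 : ℝ) else 0)| :=
    fun c _ => abs_nonneg _
  have hn2 : ∀ c ∈ (univ : Finset (Fin q)), 0 ≤ dif f t₁ t c := fun c _ => dif_nonneg f t₁ t c
  have hs1 := sum_nonneg hn1
  have hs2 := sum_nonneg hn2
  split_ifs with hne
  · obtain ⟨c, hc⟩ : ∃ c, ¬ (c ∈ (SS f x)ᶜ ↔ c ∈ Bst f) := by
      by_contra hcon
      push Not at hcon
      exact hne (Finset.ext hcon)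
    rw [mem_compl, h c] at hc
    by_cases hd : (lab1 f t c ↔ lab1 f t₁ c)
    · have h1 : |zz f x c - (if lab1 f t c then (1 : ℝ) else 0)| = 1 := by
        unfold zz
        by_cases hS : c ∈ SS f x
        · rw [if_pos hS]
          have : lab1 f t c := by
            by_contra hl
            exact hc ⟨fun h' => absurd hS h', fun h' => absurd (hd.2 h') hl⟩
          rw [if_pos this]
          norm_num
        · rw [if_neg hS]
          have : ¬ lab1 f t c := by
            intro hl
            exact hc ⟨fun _ => hd.1 hl, fun _ => hS⟩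
          rw [if_neg this]
          norm_num
      have h2 := single_le_sum hn1 (mem_univ c)
      rw [h1] at h2
      linarith
    · have h1 : dif f t₁ t c = 1 := by
        unfold dif
        rw [if_neg hd]
      have h2 := single_le_sum hn2 (mem_univ c)
      rw [h1] at h2
      linarith
  · linarith

open scoped Classical in
/-- the number of odd sites whose set of available colours is not `Bst f` -/
theorem maj_count (hd : 1 ≤ d) (f : Site d (k + 1) → Fin q) (t₁ : Blk d k) :
    2 / 2 ^ d * (∑ v ∈ ods d (k + 1), (if (SS f v)ᶜ ≠ Bst f then (1 : ℝ) else 0)) ≤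
      2 * (∑ c, ∑ t : Blk d k, dev f t c + ∑ c, ∑ t : Blk d k, dif f t₁ t c) := by
  have hn1 : 0 ≤ ∑ c, ∑ t : Blk d k, dev f t c :=
    sum_nonneg fun c _ => sum_nonneg fun t _ => dev_nonneg f t c
  have hn2 : 0 ≤ ∑ c, ∑ t : Blk d k, dif f t₁ t c :=
    sum_nonneg fun c _ => sum_nonneg fun t _ => dif_nonneg f t₁ t c
  rw [← sum_EB (k := k) hd (fun v => if (SS f v)ᶜ ≠ Bst f then (1 : ℝ) else 0)]
  by_cases h : ∑ c, ∑ t : Blk d k, dev f t c + ∑ c, ∑ t : Blk d k, dif f t₁ t c <
      (Fintype.card (Blk d k) : ℝ) / 2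
  · have hB := Maj_eq hd f t₁ h
    have h1 : ∀ t : Blk d k, EB (fun a b => if (SS f (pt t a b))ᶜ ≠ Bst f then (1 : ℝ) else 0) ≤
        ∑ c, dev f t c + ∑ c, dif f t₁ t c := by
      intro t
      have h2 : EB (fun a b => ∑ c, |zz f (pt t a b) c - (if lab1 f t c then (1 : ℝ) else 0)| +
          (∑ c, dif f t₁ t c) * 1) = ∑ c, dev f t c + ∑ c, dif f t₁ t c := by
        rw [EB_add, EB_mul, card_od hd, mul_one, EB_sum]
        rfl
      rw [← h2]
      refine EB_mono fun a b _ => ?_
      rw [mul_one]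
      exact Maj_pt f t₁ hB t (pt t a b)
    have h3 := sum_le_sum fun t (_ : t ∈ (univ : Finset (Blk d k))) => h1 t
    rw [sum_add_distrib, sum_comm, sum_comm (f := fun t c => dif f t₁ t c)] at h3
    linarith
  · have h' := not_lt.1 h
    have h1 : ∀ t : Blk d k, EB (fun a b => if (SS f (pt t a b))ᶜ ≠ Bst f then (1 : ℝ) else 0) ≤ 1 := by
      intro t
      refine le_trans (EB_mono (G := fun _ _ => (1 : ℝ)) fun a b _ => ?_) (card_od hd).le
      split_ifs <;> norm_num
    have h3 := sum_le_sum fun t (_ : t ∈ (univ : Finset (Blk d k))) => h1 t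
    rw [sum_const, card_univ, nsmul_eq_mul, mul_one] at h3
    linarith

end Pool.Agent.LO
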