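import Pool.Agent.Lib_MP_2c424f_lo.Expec

/-!
# The pair lemma (piece PAIR)

For all odd sites `x`, `y` of the torus, at any distance: except for a proportion `1/(2 d^2)` of the proper
colourings, `x` and `y` see the same set of colours, and the number of available colours is `⌊q/2⌋` or
`⌈q/2⌉`.
-/

set_option autoImplicit false

open Finset

namespace Pool.Agent.LO

open scoped Classical in
/-- the deviation from the majority set -/
theorem dvt_le : ∃ d₀ : ℕ, ∀ d : ℕ, d₀ ≤ d → ∀ q : ℕ, Adm d q → ∀ k : ℕ, d ^ 5 ≤ 2 ^ k →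
    ∀ x : Site d (k + 1), ¬ evn x →
    ∑ f ∈ prps d (k + 1) q, (if (SS f x)ᶜ ≠ Bst f then (1 : ℝ) else 0) ≤
      ZZ d (k + 1) q * (1 / (8 * (d : ℝ) ^ 2)) := by
  obtain ⟨d₁, hm⟩ := mean_dev
  refine ⟨max d₁ 243, fun d hd q hA k hk x hx => ?_⟩
  have hd1 : d₁ ≤ d := le_trans (le_max_left _ _) hd
  have hd3 : 243 ≤ d := le_trans (le_max_right _ _) hd
  obtain ⟨hdR, hqR, hqd, hk1, hN⟩ := basic_num hd3 hA hk
  have hdp : 1 ≤ d := by omega
  have h1 := hm d hd1 q hA k hk (fun _ => 0)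
  have hNk : NN d (k + 1) = NN d k * 2 ^ d := by
    unfold NN
    rw [pow_succ, mul_pow]
  have hNp : 0 < NN d k := by unfold NN; positivity
  have hcard : ((ods d (k + 1)).card : ℝ) = NN d (k + 1) / 2 := card_ods hdp (by omega)
  -- sum over the odd sites
  have h2 : ((ods d (k + 1)).card : ℝ) *
      ∑ f ∈ prps d (k + 1) q, (if (SS f x)ᶜ ≠ Bst f then (1 : ℝ) else 0) =
      ∑ f ∈ prps d (k + 1) q, ∑ v ∈ ods d (k + 1), (if (SS f v)ᶜ ≠ Bst f then (1 : ℝ) else 0) := by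
    rw [sum_comm, ← nsmul_eq_mul, ← sum_const]
    refine sum_congr rfl fun v hv => ?_
    have hv' : ¬ evn v := by
      unfold ods at hv
      exact (mem_filter.1 hv).2
    exact dvt_const (by omega) hx hv'
  have h3 : 2 / 2 ^ d *
      ∑ f ∈ prps d (k + 1) q, ∑ v ∈ ods d (k + 1), (if (SS f v)ᶜ ≠ Bst f then (1 : ℝ) else 0) ≤
      2 * ∑ f ∈ prps d (k + 1) q,
        (∑ c, ∑ t : Blk d k, dev f t c + ∑ c, ∑ t : Blk d k, dif f (fun _ => 0) t c) := by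
    rw [mul_sum, mul_sum]
    exact sum_le_sum fun f _ => maj_count hdp f (fun _ => 0)
  rw [← h2, hcard, hNk] at h3
  set S := ∑ f ∈ prps d (k + 1) q, (if (SS f x)ᶜ ≠ Bst f then (1 : ℝ) else 0) with hS
  have e1 : 2 / 2 ^ d * (NN d k * 2 ^ d / 2 * S) = NN d k * S := by
    field_simp
  rw [e1] at h3
  have h4 : NN d k * S ≤ NN d k * (ZZ d (k + 1) q * (1 / (8 * (d : ℝ) ^ 2))) := by
    refine h3.trans ((mul_le_mul_of_nonneg_left h1 (by norm_num)).trans (le_of_eq ?_))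
    field_simp
    ring
  exact le_of_mul_le_mul_left h4 hNp

open scoped Classical in
/-- the number of available colours -/
theorem avt_le : ∃ d₀ : ℕ, ∀ d : ℕ, d₀ ≤ d → ∀ q : ℕ, Adm d q → ∀ k : ℕ, d ^ 5 ≤ 2 ^ k →
    ∀ x : Site d (k + 1), ¬ evn x →
    ∑ f ∈ prps d (k + 1) q, (if ¬ (av f x = q1 q ∨ av f x = q2 q) then (1 : ℝ) else 0) ≤
      ZZ d (k + 1) q * (1 / (4 * (d : ℝ) ^ 2)) := by
  obtain ⟨d₁, hm⟩ := mean_gen
  refine ⟨max d₁ 243, fun d hd q hA k hk x hx => ?_⟩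
  have hd1 : d₁ ≤ d := le_trans (le_max_left _ _) hd
  have hd3 : 243 ≤ d := le_trans (le_max_right _ _) hd
  obtain ⟨hdR, hqR, hqd, hk1, hN⟩ := basic_num hd3 hA hk
  have hdp : 1 ≤ d := by omega
  have hq2 : 2 ≤ q := hA.1
  have hkk : d ^ 5 ≤ 2 ^ (k + 1) := le_trans hk (Nat.pow_le_pow_right (by norm_num) (by omega))
  have hNp : 0 < NN d (k + 1) := by unfold NN; positivity
  have hZ : 0 ≤ ZZ d (k + 1) q := by unfold ZZ; positivity
  have hcard : ((ods d (k + 1)).card : ℝ) = NN d (k + 1) / 2 := card_ods hdp (by omega)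
  have h1 := hm d hd1 q hA (k + 1) hkk
    (fun f => ∑ v ∈ ods d (k + 1), (if ¬ (av f v = q1 q ∨ av f v = q2 q) then (1 : ℝ) else 0))
    (4 * (q : ℝ) ^ 2) (NN d (k + 1) / 2) (by positivity) (by positivity)
    (fun f hf => avn_le_Loss hq2 hf)
    (fun f _ => by
      rw [← hcard]
      have : ∀ v ∈ ods d (k + 1), (if ¬ (av f v = q1 q ∨ av f v = q2 q) then (1 : ℝ) else 0) ≤ 1 := by
        intro v _
        split_ifs <;> norm_num
      refine (sum_le_sum this).trans (le_of_eq ?_)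
      simp)
  have h2 : ((ods d (k + 1)).card : ℝ) *
      ∑ f ∈ prps d (k + 1) q, (if ¬ (av f x = q1 q ∨ av f x = q2 q) then (1 : ℝ) else 0) =
      ∑ f ∈ prps d (k + 1) q, ∑ v ∈ ods d (k + 1),
        (if ¬ (av f v = q1 q ∨ av f v = q2 q) then (1 : ℝ) else 0) := by
    rw [sum_comm, ← nsmul_eq_mul, ← sum_const]
    refine sum_congr rfl fun v _ => ?_
    convert avt_const (q := q) x v (fun n => ¬ (n = q1 q ∨ n = q2 q))
  rw [← h2, hcard] at h1
  set S := ∑ f ∈ prps d (k + 1) q, (if ¬ (av f x = q1 q ∨ av f x = q2 q) then (1 : ℝ) else 0) with hS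
  have hd0 : (0 : ℝ) < d := by linarith
  have h3 : (4 * (4 * (q : ℝ) ^ 2) * NN d (k + 1) + NN d (k + 1) / 2) / (d : ℝ) ^ 4 * ZZ d (k + 1) q ≤
      NN d (k + 1) / 2 * (ZZ d (k + 1) q * (1 / (4 * (d : ℝ) ^ 2))) := by
    have e1 : (4 * (4 * (q : ℝ) ^ 2) * NN d (k + 1) + NN d (k + 1) / 2) / (d : ℝ) ^ 4 * ZZ d (k + 1) q =
        (NN d (k + 1) / 2 * ZZ d (k + 1) q) * ((32 * (q : ℝ) ^ 2 + 1) / (d : ℝ) ^ 4) := by
      ring
    have e2 : NN d (k + 1) / 2 * (ZZ d (k + 1) q * (1 / (4 * (d : ℝ) ^ 2))) =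
        (NN d (k + 1) / 2 * ZZ d (k + 1) q) * (1 / (4 * (d : ℝ) ^ 2)) := by
      ring
    rw [e1, e2]
    apply mul_le_mul_of_nonneg_left _ (by positivity)
    rw [div_le_div_iff₀ (by positivity) (by positivity)]
    have h4 : (32 * (q : ℝ) ^ 2 + 1) * 4 ≤ (d : ℝ) ^ 2 := by nlinarith
    have h5 : (d : ℝ) ^ 4 = (d : ℝ) ^ 2 * (d : ℝ) ^ 2 := by ring
    rw [h5, one_mul]
    have h6 := mul_le_mul_of_nonneg_right h4 (show 0 ≤ (d : ℝ) ^ 2 by positivity)
    linarith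
  have h4 := h1.trans h3
  exact le_of_mul_le_mul_left h4 (by positivity)

open scoped Classical in
theorem pair : ∃ d₀ : ℕ, ∀ d : ℕ, d₀ ≤ d → ∀ q : ℕ, Adm d q → ∀ k : ℕ, d ^ 5 ≤ 2 ^ k →
    ∀ x y : Site d (k + 1), ¬ evn x → ¬ evn y →
    (((prps d (k + 1) q).filter fun f =>
        SS f x ≠ SS f y ∨ ¬ (av f x = q1 q ∨ av f x = q2 q)).card : ℝ) ≤
      ZZ d (k + 1) q * (1 / (2 * (d : ℝ) ^ 2)) := by
  obtain ⟨d₁, h₁⟩ := dvt_le
  obtain ⟨d₂, h₂⟩ := avt_le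
  refine ⟨max (max d₁ d₂) 1, fun d hd q hA k hk x y hx hy => ?_⟩
  have hd1 : d₁ ≤ d := le_trans (le_trans (le_max_left _ _) (le_max_left _ _)) hd
  have hd2 : d₂ ≤ d := le_trans (le_trans (le_max_right _ _) (le_max_left _ _)) hd
  have hd3 : 1 ≤ d := le_trans (le_max_right _ _) hd
  have a1 := h₁ d hd1 q hA k hk x hx
  have a2 := h₁ d hd1 q hA k hk y hy
  have a3 := h₂ d hd2 q hA k hk x hx
  have hpt : ∀ f ∈ prps d (k + 1) q,
      (if (SS f x ≠ SS f y ∨ ¬ (av f x = q1 q ∨ av f x = q2 q)) then (1 : ℝ) else 0) ≤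
      (if (SS f x)ᶜ ≠ Bst f then (1 : ℝ) else 0) + (if (SS f y)ᶜ ≠ Bst f then (1 : ℝ) else 0) +
        (if ¬ (av f x = q1 q ∨ av f x = q2 q) then (1 : ℝ) else 0) := by
    intro f _
    have n1 : (0 : ℝ) ≤ (if (SS f x)ᶜ ≠ Bst f then (1 : ℝ) else 0) := by split_ifs <;> norm_num
    have n2 : (0 : ℝ) ≤ (if (SS f y)ᶜ ≠ Bst f then (1 : ℝ) else 0) := by split_ifs <;> norm_num
    have n3 : (0 : ℝ) ≤ (if ¬ (av f x = q1 q ∨ av f x = q2 q) then (1 : ℝ) else 0) := by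
      split_ifs <;> norm_num
    by_cases hav : av f x = q1 q ∨ av f x = q2 q
    · by_cases hS : SS f x = SS f y
      · rw [if_neg]
        · linarith
        · rw [not_or]
          exact ⟨not_not.2 hS, not_not.2 hav⟩
      · have hS' : (SS f x)ᶜ ≠ Bst f ∨ (SS f y)ᶜ ≠ Bst f := by
          by_contra hcon
          rw [not_or, not_not, not_not] at hcon
          exact hS (compl_injective (hcon.1.trans hcon.2.symm))
        rcases hS' with h | h
        · rw [if_pos h] at n1 ⊢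
          split_ifs <;> linarith
        · rw [if_pos h] at n2 ⊢
          split_ifs <;> linarith
    · rw [if_pos hav] at n3 ⊢
      split_ifs <;> linarith
  have h3 := sum_le_sum hpt
  rw [sum_add_distrib, sum_add_distrib] at h3
  have h4 : (((prps d (k + 1) q).filter fun f =>
        SS f x ≠ SS f y ∨ ¬ (av f x = q1 q ∨ av f x = q2 q)).card : ℝ) =
      ∑ f ∈ prps d (k + 1) q,
        (if (SS f x ≠ SS f y ∨ ¬ (av f x = q1 q ∨ av f x = q2 q)) then (1 : ℝ) else 0) := by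
    rw [sum_ite, sum_const_zero, add_zero, sum_const, nsmul_eq_mul, mul_one]
  rw [h4]
  have e : ZZ d (k + 1) q * (1 / (2 * (d : ℝ) ^ 2)) = ZZ d (k + 1) q * (1 / (8 * (d : ℝ) ^ 2)) +
      ZZ d (k + 1) q * (1 / (8 * (d : ℝ) ^ 2)) + ZZ d (k + 1) q * (1 / (4 * (d : ℝ) ^ 2)) := by
    have hd0 : (0 : ℝ) < d := by exact_mod_cast hd3
    field_simp
    ring
  rw [e]
  linarith

end Pool.Agent.LO
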