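import Pool.Agent.Lib_MP_2c424f_lo.TOne
import Pool.Agent.Lib_MP_2c424f_lo.KAll
import Pool.Agent.Lib_MP_2c424f_lo.Main23

/-!
# The coding bound (piece STAR)

`main23`, `ET1`, `KK_le` and arithmetic; `Loss ≤ (s/2)(G1+G2) + gaps` because `G1 + G2 ≥ (I + Q)/4`,
`sl q ≥ 1/q2 ≥ 4/(3q)`; `20 kp ≤ sl`; `q ≤ d/(1000 log d)`.
-/

set_option autoImplicit false

open Finset

namespace Pool.Agent.LO

variable {d k q s : ℕ}

/-- the mean of the total code length -/
private theorem Star_mean (hd : 1 ≤ d) (ε : ℝ) (f : Site d k → Fin q) :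
    (∑ i : Fin d, ∑ a : ZMod (2 ^ s), ER (fun R => TT ε s f i a R)) / (d * 2 ^ s) =
      (∑ i : Fin d, ∑ a : ZMod (2 ^ s), T1 ε s f i a) / (d * 2 ^ s) +
      ((∑ i : Fin d, ∑ a : ZMod (2 ^ s), ER (fun R => T2 s f i a R)) / (d * 2 ^ s) +
        ER (fun R => T3 ε f R) + T4 f) := by
  have hd0 : (0 : ℝ) < d := by exact_mod_cast hd
  have h1 : ∀ (i : Fin d) (a : ZMod (2 ^ s)), ER (fun R => TT ε s f i a R) =
      T1 ε s f i a + ER (fun R => T2 s f i a R) + (ER (fun R => T3 ε f R) + T4 f) := by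
    intro i a
    unfold TT
    rw [ER_add, ER_add, ER_add, ER_const, ER_const]
    ring
  have h2 : ∑ i : Fin d, ∑ a : ZMod (2 ^ s), ER (fun R => TT ε s f i a R) =
      (∑ i : Fin d, ∑ a : ZMod (2 ^ s), T1 ε s f i a) +
      (∑ i : Fin d, ∑ a : ZMod (2 ^ s), ER (fun R => T2 s f i a R)) +
      d * 2 ^ s * (ER (fun R => T3 ε f R) + T4 f) := by
    have h3 : ∀ i : Fin d, ∑ a : ZMod (2 ^ s), ER (fun R => TT ε s f i a R) =
        (∑ a : ZMod (2 ^ s), T1 ε s f i a) + (∑ a : ZMod (2 ^ s), ER (fun R => T2 s f i a R)) +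
          2 ^ s * (ER (fun R => T3 ε f R) + T4 f) := by
      intro i
      rw [Finset.sum_congr rfl (fun a _ => h1 i a), Finset.sum_add_distrib, Finset.sum_add_distrib,
        Finset.sum_const, Finset.card_univ, ZMod.card, nsmul_eq_mul]
      push_cast
      ring
    rw [Finset.sum_congr rfl (fun i _ => h3 i), Finset.sum_add_distrib, Finset.sum_add_distrib,
      Finset.sum_const, Finset.card_univ, Fintype.card_fin, nsmul_eq_mul]
    ring
  rw [h2]
  have h4 : (0 : ℝ) < d * 2 ^ s := by positivity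
  rw [add_div, add_div, mul_div_cancel_left₀ _ h4.ne']
  ring

private theorem Star_log_two : (69 / 100 : ℝ) ≤ Real.log 2 := by
  have := Real.log_two_gt_d9
  linarith

/-- the cut-off `Y` -/
private theorem Star_Y (hd : 100 ≤ d) : ∃ Y : ℕ, (1 / 2 : ℝ) ^ Y ≤ 1 / (d : ℝ) ^ 6 ∧
    (Y : ℝ) ≤ 20 * Real.log d := by
  refine ⟨6 * (Nat.log 2 d + 1), ?_, ?_⟩
  · have h1 : d < 2 ^ (Nat.log 2 d + 1) := Nat.lt_pow_succ_log_self (by norm_num) d
    have h2 : (d : ℝ) ≤ 2 ^ (Nat.log 2 d + 1) := by exact_mod_cast h1.le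
    have hd0 : (0 : ℝ) < d := by
      have : 0 < d := by omega
      exact_mod_cast this
    rw [mul_comm 6, pow_mul, one_div_pow, one_div_pow]
    apply one_div_le_one_div_of_le (by positivity)
    exact pow_le_pow_left₀ hd0.le h2 6
  · have hd0 : (0 : ℝ) < d := by
      have : 0 < d := by omega
      exact_mod_cast this
    have h1 : (2 : ℝ) ^ Nat.log 2 d ≤ d := by exact_mod_cast Nat.pow_log_le_self 2 (by omega)
    have h2 := Real.log_le_log (by positivity) h1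
    rw [Real.log_pow] at h2
    have h3 := Star_log_two
    have h4 : (1 : ℝ) ≤ Real.log d := by
      rw [Real.le_log_iff_exp_le hd0]
      have := Real.exp_one_lt_d9
      have h5 : (100 : ℝ) ≤ d := by exact_mod_cast hd
      linarith
    have h6 : (0 : ℝ) ≤ (Nat.log 2 d : ℝ) := Nat.cast_nonneg _
    push_cast
    nlinarith

private theorem Star_four (hd : 100 ≤ d) : (1 / 4 : ℝ) ^ d ≤ 1 / (d : ℝ) ^ 6 := by
  have h : ∀ n : ℕ, 10 ≤ n → n ^ 6 ≤ 4 ^ n := by
    intro n hn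
    induction n, hn using Nat.le_induction with
    | base => norm_num
    | succ n hn ih =>
      have h1 : (n + 1) ^ 6 ≤ 4 * n ^ 6 := by
        have h2 : ((n : ℝ) + 1) ^ 6 ≤ 4 * (n : ℝ) ^ 6 := by
          have hn' : (10 : ℝ) ≤ n := by exact_mod_cast hn
          have h3 : (n : ℝ) + 1 ≤ 11 / 10 * n := by linarith
          calc ((n : ℝ) + 1) ^ 6 ≤ (11 / 10 * (n : ℝ)) ^ 6 := pow_le_pow_left₀ (by positivity) h3 6
            _ = (11 / 10) ^ 6 * (n : ℝ) ^ 6 := by ring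
            _ ≤ 4 * (n : ℝ) ^ 6 := by
              apply mul_le_mul_of_nonneg_right _ (by positivity)
              norm_num
        exact_mod_cast h2
      calc (n + 1) ^ 6 ≤ 4 * n ^ 6 := h1
        _ ≤ 4 * 4 ^ n := Nat.mul_le_mul_left 4 ih
        _ = 4 ^ (n + 1) := by ring
  have h1 := h d (by omega)
  have h2 : (d : ℝ) ^ 6 ≤ 4 ^ d := by exact_mod_cast h1
  have hd0 : (0 : ℝ) < d := by
    have : 0 < d := by omega
    exact_mod_cast this
  rw [one_div_pow]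
  exact one_div_le_one_div_of_le (by positivity) h2

/-- the slope times `q` -/
private theorem Star_sl (hq : 2 ≤ q) (h : Even q ∨ 41 ≤ q) : 4 / (3 * (q : ℝ)) ≤ sl q ∧
    sl q * q ≤ 3 := by
  have hq0 : (0 : ℝ) < q := by
    have : 0 < q := by omega
    exact_mod_cast this
  have hq1 := q1_pos hq
  have hq1' : (0 : ℝ) < q1 q := by exact_mod_cast hq1
  constructor
  · refine le_trans ?_ (sl_ge hq)
    have h1 : 4 * q2 q ≤ 3 * q := by
      unfold q2
      rcases h with h | h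
      · obtain ⟨r, hr⟩ := h
        omega
      · omega
    have h2 : 0 < q2 q := by
      unfold q2
      omega
    have h1' : 4 * (q2 q : ℝ) ≤ 3 * q := by exact_mod_cast h1
    have h2' : (0 : ℝ) < q2 q := by exact_mod_cast h2
    rw [div_le_div_iff₀ (by positivity) h2']
    linarith
  · have h1 : q ≤ 3 * q1 q := by
      unfold q1
      omega
    have h1' : (q : ℝ) ≤ 3 * q1 q := by exact_mod_cast h1
    calc sl q * q ≤ 1 / (q1 q : ℝ) * q := mul_le_mul_of_nonneg_right (sl_le hq) hq0.le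
      _ = q / q1 q := by ring
      _ ≤ 3 := by
        rw [div_le_iff₀ hq1']
        linarith

/-- the arithmetic -/
private theorem Star_arith {D Q L lam S K g1 g2 I J Y : ℝ} (hD : 100 ≤ D) (hL : 1 ≤ L) (hQ : 0 < Q)
    (hA : Q * (1000 * L) ≤ D) (hlam : lam = 4 * L) (hS : 4 / (3 * Q) ≤ S)
    (hK : 20 * K ≤ S) (hg1 : 0 ≤ g1) (hg2 : 0 ≤ g2)
    (hI : I ≤ 2 * (g1 + g2)) (hJ : J ≤ 2 * g2)
    (hY0 : 0 ≤ Y) (hY : Y ≤ 20 * L) :
    4 * lam / D * I + K * (5 / 2 * g1) + 3 * (Y / (2 * D) * J) + lam * (32 / D * J) +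
      1 / (6 * Q) * (I + J) ≤ S * (g1 + g2) := by
  have hDp : (0 : ℝ) < D := by linarith
  have hLD : L / D ≤ 1 / (1000 * Q) := by
    rw [div_le_div_iff₀ hDp (by positivity)]
    linarith
  have h1 : 4 * lam / D * I ≤ 32 * (L / D) * (g1 + g2) := by
    have : 4 * lam / D = 16 * (L / D) := by rw [hlam]; ring
    rw [this]
    have h0 : 0 ≤ 16 * (L / D) := by positivity
    nlinarith [mul_le_mul_of_nonneg_left hI h0]
  have h2 : K * (5 / 2 * g1) ≤ S / 8 * g1 := by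
    nlinarith [mul_le_mul_of_nonneg_right hK hg1]
  have h3 : 3 * (Y / (2 * D) * J) ≤ 60 * (L / D) * g2 := by
    have e : 3 * (Y / (2 * D) * J) = 3 / 2 * (Y / D) * J := by ring
    rw [e]
    have h0 : 0 ≤ 3 / 2 * (Y / D) := by positivity
    have h4 : 3 / 2 * (Y / D) * J ≤ 3 / 2 * (Y / D) * (2 * g2) := mul_le_mul_of_nonneg_left hJ h0
    have h5 : Y / D ≤ 20 * (L / D) := by
      rw [← mul_div_assoc]
      exact div_le_div_of_nonneg_right hY hDp.le
    nlinarith [mul_le_mul_of_nonneg_right h5 hg2]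
  have h4 : lam * (32 / D * J) ≤ 256 * (L / D) * g2 := by
    have e : lam * (32 / D * J) = 128 * (L / D) * J := by rw [hlam]; ring
    rw [e]
    have h0 : 0 ≤ 128 * (L / D) := by positivity
    nlinarith [mul_le_mul_of_nonneg_left hJ h0]
  have h5 : 1 / (6 * Q) * (I + J) ≤ 2 / 3 * (1 / Q) * (g1 + g2) := by
    have e : 1 / (6 * Q) * (I + J) = 1 / 6 * (1 / Q) * (I + J) := by
      field_simp
    rw [e]
    have h0 : 0 ≤ 1 / 6 * (1 / Q) := by positivity
    have h6 : I + J ≤ 4 * (g1 + g2) := by linarith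
    nlinarith [mul_le_mul_of_nonneg_left h6 h0]
  have hLD' : L / D ≤ 1 / 1000 * (1 / Q) := by
    have e : 1 / (1000 * Q) = 1 / 1000 * (1 / Q) := by
      field_simp
    rw [← e]
    exact hLD
  have hS' : 4 / 3 * (1 / Q) ≤ S := by
    have e : 4 / (3 * Q) = 4 / 3 * (1 / Q) := by
      field_simp
    rw [← e]
    exact hS
  set P := 1 / Q with hP
  have hP0 : 0 < P := by positivity
  set M := L / D with hM
  have hM0 : 0 ≤ M := by positivity
  have hsum : 32 * M * (g1 + g2) + S / 8 * g1 + 60 * M * g2 + 256 * M * g2 + 2 / 3 * P * (g1 + g2) ≤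
      S * (g1 + g2) := by
    have ha : 0 ≤ g1 * (7 / 8 * S - 32 * M - 2 / 3 * P) := mul_nonneg hg1 (by linarith)
    have hb : 0 ≤ g2 * (S - 32 * M - 316 * M - 2 / 3 * P) := mul_nonneg hg2 (by linarith)
    nlinarith
  linarith

/-- the small terms -/
private theorem Star_small {D Q L lam S K N W H F : ℝ} (hD : 100 ≤ D) (hN : 0 ≤ N) (hQ : 0 < Q)
    (hL : 1 ≤ L) (hLD : L ≤ D) (hA : Q * (1000 * L) ≤ D) (hlam : lam = 4 * L)
    (hSQ : S * Q ≤ 3) (hK : 20 * K ≤ S) (hW : D ^ 5 ≤ W) (hH : H ≤ 1 / D ^ 6) (hF : F ≤ 1 / D ^ 6)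
    (hF0 : 0 ≤ F) :
    N * Q * (1 / D ^ 4) / D + N * Q / (W * D) + K * (Q * (1 / D ^ 4) * N / 4) +
      S * Q * (1 / D ^ 4) * N / 4 + 3 * (N / 2 * H) + lam * (N / 2 * F) ≤ 3 * N / D ^ 4 := by
  have hDp : (0 : ℝ) < D := by linarith
  have hWp : (0 : ℝ) < W := lt_of_lt_of_le (by positivity) hW
  have hQD : Q / D ≤ 1 / 1000 := by
    rw [div_le_div_iff₀ hDp (by norm_num)]
    nlinarith
  set E := 1 / D ^ 4 with hE
  have hE0 : 0 < E := by positivity
  have hNE : 0 ≤ N * E := by positivity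
  have h1 : N * Q * E / D ≤ 1 / 1000 * (N * E) := by
    have e : N * Q * E / D = (Q / D) * (N * E) := by ring
    rw [e]
    exact mul_le_mul_of_nonneg_right hQD hNE
  have h2 : N * Q / (W * D) ≤ 1 / 1000 * (N * E) := by
    have e : N * Q / (W * D) = (Q / D) * (N * (1 / W)) := by
      field_simp
    rw [e]
    have h3 : 1 / W ≤ E := by
      rw [hE]
      apply one_div_le_one_div_of_le (by positivity)
      refine le_trans ?_ hW
      have : D ^ 5 = D ^ 4 * D := by ring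
      rw [this]
      have h4 : 0 < D ^ 4 := by positivity
      nlinarith
    have h4 : N * (1 / W) ≤ N * E := mul_le_mul_of_nonneg_left h3 hN
    have h5 : 0 ≤ N * (1 / W) := by positivity
    calc Q / D * (N * (1 / W)) ≤ 1 / 1000 * (N * (1 / W)) := mul_le_mul_of_nonneg_right hQD h5
      _ ≤ 1 / 1000 * (N * E) := by linarith
  have hKQ : K * Q ≤ 3 / 20 := by nlinarith [mul_le_mul_of_nonneg_right hK hQ.le]
  have h3 : K * (Q * E * N / 4) ≤ 1 / 10 * (N * E) := by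
    have e : K * (Q * E * N / 4) = (K * Q) * (N * E) / 4 := by ring
    rw [e]
    nlinarith [mul_le_mul_of_nonneg_right hKQ hNE]
  have h4 : S * Q * E * N / 4 ≤ 3 / 4 * (N * E) := by
    have e : S * Q * E * N / 4 = (S * Q) * (N * E) / 4 := by ring
    rw [e]
    nlinarith [mul_le_mul_of_nonneg_right hSQ hNE]
  have hE6 : 1 / D ^ 6 ≤ 1 / 1000 * E ∧ D * (1 / D ^ 6) ≤ 1 / 100 * E := by
    have e1 : 1 / D ^ 6 = (1 / D ^ 2) * E := by
      rw [hE]
      field_simp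
    have e2 : D * (1 / D ^ 6) = (1 / D) * E := by
      rw [hE]
      field_simp
    have e3 : 1 / D ≤ 1 / 100 := one_div_le_one_div_of_le (by norm_num) hD
    have e4 : 1 / D ^ 2 ≤ 1 / 1000 := by
      apply one_div_le_one_div_of_le (by norm_num)
      nlinarith
    constructor
    · rw [e1]
      exact mul_le_mul_of_nonneg_right e4 hE0.le
    · rw [e2]
      exact mul_le_mul_of_nonneg_right e3 hE0.le
  have h5 : 3 * (N / 2 * H) ≤ 1 / 100 * (N * E) := by
    have h7 : H ≤ 1 / 1000 * E := le_trans hH hE6.1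
    nlinarith [mul_le_mul_of_nonneg_left h7 hN]
  have h6 : lam * (N / 2 * F) ≤ 1 / 10 * (N * E) := by
    have h7 : L * F ≤ D * (1 / D ^ 6) := mul_le_mul hLD hF hF0 hDp.le
    have h8 : L * F ≤ 1 / 100 * E := le_trans h7 hE6.2
    have e : lam * (N / 2 * F) = 2 * (N * (L * F)) := by
      rw [hlam]
      ring
    rw [e]
    nlinarith [mul_le_mul_of_nonneg_left h8 hN]
  have e : 3 * N / D ^ 4 = 3 * (N * E) := by
    rw [hE]
    ring
  rw [e]
  linarith

/-- `ε = d^{-4}`, `Y = ⌈6 log₂ d⌉` -/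
theorem star : ∃ d₀ : ℕ, ∀ d : ℕ, d₀ ≤ d → ∀ q : ℕ, Adm d q → ∀ k s : ℕ, d ≤ 2 ^ s → 2 ^ s < 2 * d →
    d ^ 5 ≤ 2 ^ k → ∀ f : Site d k → Fin q, Prp f →
    (∑ i : Fin d, ∑ a : ZMod (2 ^ s), ER (fun R => TT (1 / (d : ℝ) ^ 4) s f i a R)) / (d * 2 ^ s) ≤
      NN d k / 2 * Real.log ((q1 q : ℝ) * q2 q) - Loss f + 3 * NN d k / (d : ℝ) ^ 4 := by
  refine ⟨100, ?_⟩
  intro d hd q hA k s hs1 hs2 hk f hf
  obtain ⟨hq, hqq, hA'⟩ := hA
  have hdR : (100 : ℝ) ≤ d := by exact_mod_cast hd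
  have hd0 : (0 : ℝ) < d := by linarith
  have hq0 : (0 : ℝ) < q := by
    have : 0 < q := by omega
    exact_mod_cast this
  have hlog1 : (1 : ℝ) ≤ Real.log d := by
    rw [Real.le_log_iff_exp_le hd0]
    have := Real.exp_one_lt_d9
    linarith
  have hlogd : Real.log d ≤ d := by
    have := Real.log_le_sub_one_of_pos hd0
    linarith
  have hk3 : 3 ≤ k := by
    by_contra hcon
    have h1 : 2 ^ k ≤ 2 ^ 2 := Nat.pow_le_pow_right (by norm_num) (by omega)
    have h2 : 100 ^ 5 ≤ d ^ 5 := Nat.pow_le_pow_left hd 5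
    norm_num at h1 h2
    omega
  have hsk : s ≤ k := by
    by_contra hcon
    have h1 : 2 ^ k ≤ 2 ^ s := Nat.pow_le_pow_right (by norm_num) (by omega)
    have h2 : 2 * d ≤ d ^ 5 := by
      calc 2 * d ≤ d ^ 4 * d := by
            apply Nat.mul_le_mul_right
            calc 2 ≤ 100 ^ 4 := by norm_num
              _ ≤ d ^ 4 := Nat.pow_le_pow_left hd 4
        _ = d ^ 5 := by ring
    omega
  have he : (0 : ℝ) < 1 / (d : ℝ) ^ 4 := by positivity
  have he1 : 1 / (d : ℝ) ^ 4 ≤ 1 / 2 := by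
    apply one_div_le_one_div_of_le (by norm_num)
    calc (2 : ℝ) ≤ 100 ^ 4 := by norm_num
      _ ≤ (d : ℝ) ^ 4 := pow_le_pow_left₀ (by norm_num) hdR 4
  have hlam : Real.log (1 / (1 / (d : ℝ) ^ 4)) = 4 * Real.log d := by
    rw [one_div_one_div, Real.log_pow]
    norm_num
  obtain ⟨Y, hY1, hY2⟩ := Star_Y hd
  have hF := Star_four hd
  obtain ⟨hS, hSQ⟩ := Star_sl hq hqq
  have hK := kp_le hq hqq
  have hN : 0 ≤ NN d k := by unfold NN; positivity
  have hT1 := ET1 (by omega : 2 ≤ d) (by omega : 2 ≤ k) hsk hs1 he he1 f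
  have hM := main23 (s := s) (by omega : 2 ≤ d) (by omega : 2 ≤ k) hq he hf
  have hKK := KK_le (by omega : 2 ≤ d) hk3 he he1 f Y
  have hG2 := G2_ge (by omega : 1 ≤ d) (by omega : 2 ≤ k) f
  have hG12 := G12_ge f
  have hG1n := G1_nonneg f
  have hG2n := G2_nonneg f
  rw [hlam] at hT1 hKK
  rw [Star_mean (by omega) (1 / (d : ℝ) ^ 4) f]
  have hW : (d : ℝ) ^ 5 ≤ 2 ^ k := by exact_mod_cast hk
  have h1 := Star_arith (D := d) (Q := q) (L := Real.log d) (lam := 4 * Real.log d) (S := sl q)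
    (K := kp q) (g1 := G1 f) (g2 := G2 f) (I := ∑ c, II f c) (J := ∑ c, QQ f c) (Y := Y)
    hdR hlog1 hq0 hA' rfl hS hK hG1n hG2n (by linarith) (by linarith) (Nat.cast_nonneg _) hY2
  have h2 := Star_small (D := d) (Q := q) (L := Real.log d) (lam := 4 * Real.log d) (S := sl q)
    (K := kp q) (N := NN d k) (W := 2 ^ k) (H := (1 / 2 : ℝ) ^ Y) (F := (1 / 4 : ℝ) ^ d)
    hdR hN hq0 hlog1 hlogd hA' rfl hSQ hK hW hY1 hF (by positivity)
  unfold Loss
  rw [Finset.sum_add_distrib]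
  have h3 : kp q * (5 / 2 * G1 f + q * (1 / (d : ℝ) ^ 4) * NN d k / 4) =
      kp q * (5 / 2 * G1 f) + kp q * (q * (1 / (d : ℝ) ^ 4) * NN d k / 4) := by ring
  rw [h3] at hM
  have h4 : 3 * (Y / (2 * (d : ℝ)) * ∑ c, QQ f c + NN d k / 2 * (1 / 2) ^ Y) =
      3 * (Y / (2 * (d : ℝ)) * ∑ c, QQ f c) + 3 * (NN d k / 2 * (1 / 2) ^ Y) := by ring
  have h5 : 4 * Real.log d * (32 / d * ∑ c, QQ f c + NN d k / 2 * (1 / 4) ^ d) =
      4 * Real.log d * (32 / d * ∑ c, QQ f c) + 4 * Real.log d * (NN d k / 2 * (1 / 4) ^ d) := by ring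
  rw [h4, h5] at hKK
  linarith

end Pool.Agent.LO
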