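import Pool.Agent.Lib_MP_2c424f_lo.Dom

/-!
# The mean cost of the lines (piece TONE)

Every `v` with `(v i).val ≥ 2` gives the pair `(u - e_i, u + e_i)` with `u = v - e_i` even.  Sum over
`a` first (every `v` has exactly one `a`), `2^s ≥ d`, `log (1/(1-ε)) ≤ 2ε`, and
`∑_i |SS (u-e_i) ∆ SS (u+e_i)| ≤ ∑_c 2 d min (m, 1-m) ≤ 4 d ∑_c m (1-m)`.
-/

set_option autoImplicit false

open Finset

namespace Pool.Agent.LO

variable {d k q s : ℕ}

private theorem TOne_log {ε : ℝ} (he : 0 < ε) (he1 : ε ≤ 1 / 2) :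
    Real.log (1 / (1 - ε)) ≤ 2 * ε := by
  have h1 : 0 < 1 - ε := by linarith
  have h2 := Real.log_le_sub_one_of_pos (show 0 < 1 / (1 - ε) by positivity)
  have h3 : 1 / (1 - ε) - 1 ≤ 2 * ε := by
    have h4 : 1 / (1 - ε) ≤ 1 + 2 * ε := by
      rw [div_le_iff₀ h1]
      nlinarith
    linarith
  linarith

private theorem TOne_log_nonneg {ε : ℝ} (he : 0 < ε) (he1 : ε ≤ 1 / 2) :
    0 ≤ Real.log (1 / ε) := by
  apply Real.log_nonneg
  rw [le_div_iff₀ he]
  linarith

private theorem TOne_zz (f : Site d k → Fin q) (v : Site d k) (c : Fin q) :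
    zz f v c = 0 ∨ zz f v c = 1 := by
  unfold zz
  split_ifs
  · exact Or.inl rfl
  · exact Or.inr rfl

private theorem TOne_symm (f : Site d k → Fin q) (v w : Site d k) :
    ((symmDiff (SS f v) (SS f w)).card : ℝ) = ∑ c, |zz f v c - zz f w c| := by
  rw [Finset.card_eq_sum_ones, Nat.cast_sum]
  rw [← Finset.sum_subset (Finset.subset_univ (symmDiff (SS f v) (SS f w)))]
  · refine Finset.sum_congr rfl fun c hc => ?_
    rw [Finset.mem_symmDiff] at hc
    unfold zz
    rcases hc with ⟨h1, h2⟩ | ⟨h1, h2⟩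
    · rw [if_pos h1, if_neg h2]
      norm_num
    · rw [if_neg h2, if_pos h1]
      norm_num
  · intro c _ hc
    rw [Finset.mem_symmDiff, not_or] at hc
    unfold zz
    by_cases h1 : c ∈ SS f v
    · by_cases h2 : c ∈ SS f w
      · rw [if_pos h1, if_pos h2]
        norm_num
      · exact absurd ⟨h1, h2⟩ hc.1
    · by_cases h2 : c ∈ SS f w
      · exact absurd ⟨h2, h1⟩ hc.2
      · rw [if_neg h1, if_neg h2]
        norm_num

private theorem TOne_pair (hd : 1 ≤ d) (f : Site d k → Fin q) (u : Site d k) (c : Fin q) :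
    ∑ i : Fin d, |zz f (u + sv (i, true)) c - zz f (u + sv (i, false)) c| ≤
      4 * d * (mm f u c * (1 - mm f u c)) := by
  have hd0 : (0 : ℝ) < d := by exact_mod_cast hd
  set S : ℝ := ∑ σ : Stp d, zz f (u + sv σ) c with hS
  have hS2 : S = ∑ i : Fin d, (zz f (u + sv (i, true)) c + zz f (u + sv (i, false)) c) := by
    rw [hS, Fintype.sum_prod_type]
    refine Finset.sum_congr rfl fun i _ => ?_
    rw [Fintype.sum_bool]
  have hA1 : ∑ i : Fin d, |zz f (u + sv (i, true)) c - zz f (u + sv (i, false)) c| ≤ S := by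
    rw [hS2]
    refine Finset.sum_le_sum fun i _ => ?_
    rcases TOne_zz f (u + sv (i, true)) c with h | h <;>
      rcases TOne_zz f (u + sv (i, false)) c with h' | h' <;> rw [h, h'] <;> norm_num
  have hA2 : ∑ i : Fin d, |zz f (u + sv (i, true)) c - zz f (u + sv (i, false)) c| ≤
      2 * d - S := by
    have h2 : (2 * d - S : ℝ) =
        ∑ i : Fin d, (2 - (zz f (u + sv (i, true)) c + zz f (u + sv (i, false)) c)) := by
      rw [Finset.sum_sub_distrib, ← hS2, Finset.sum_const, Finset.card_univ, Fintype.card_fin,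
        nsmul_eq_mul]
      ring
    rw [h2]
    refine Finset.sum_le_sum fun i _ => ?_
    rcases TOne_zz f (u + sv (i, true)) c with h | h <;>
      rcases TOne_zz f (u + sv (i, false)) c with h' | h' <;> rw [h, h'] <;> norm_num
  set A : ℝ := ∑ i : Fin d, |zz f (u + sv (i, true)) c - zz f (u + sv (i, false)) c| with hA
  have hm : mm f u c = S / (2 * d) := rfl
  have h3 : 4 * (d : ℝ) * (mm f u c * (1 - mm f u c)) = S * (2 * d - S) / d := by
    rw [hm]
    field_simp
    ring
  rw [h3, le_div_iff₀ hd0]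
  have h0 : 0 ≤ A := Finset.sum_nonneg fun i _ => abs_nonneg _
  rcases le_total S d with h | h
  · nlinarith [mul_le_mul_of_nonneg_right hA1 hd0.le]
  · nlinarith [mul_le_mul_of_nonneg_right hA2 hd0.le]

private theorem TOne_cnt (i : Fin d) [DecidablePred fun v : Site d k => (v i).val < 2] :
    (((ods d k).filter (fun v => (v i).val < 2)).card : ℝ) * 2 ^ k ≤ NN d k := by
  classical
  set A := (ods d k).filter (fun v => (v i).val < 2) with hA
  have h : (A ×ˢ (univ : Finset (ZMod (2 ^ k)))).card ≤ (univ : Finset (Site d k)).card := by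
    refine Finset.card_le_card_of_injOn (fun p => Function.update p.1 i p.2)
      (fun _ _ => mem_univ _) ?_
    rintro ⟨v, c⟩ hv ⟨v', c'⟩ hv' he
    simp only at he
    have hc : c = c' := by
      have := congrFun he i
      simpa using this
    have hj : ∀ j, j ≠ i → v j = v' j := by
      intro j hj
      have := congrFun he j
      simpa [Function.update_of_ne hj] using this
    have hv1 : v ∈ A := (Finset.mem_product.1 hv).1
    have hv1' : v' ∈ A := (Finset.mem_product.1 hv').1
    rw [hA, Finset.mem_filter] at hv1 hv1'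
    have ho : ¬ evn v := by
      have := hv1.1
      unfold ods at this
      exact (Finset.mem_filter.1 this).2
    have ho' : ¬ evn v' := by
      have := hv1'.1
      unfold ods at this
      exact (Finset.mem_filter.1 this).2
    have hs : ∑ j ∈ univ.erase i, (v j).val = ∑ j ∈ univ.erase i, (v' j).val := by
      refine Finset.sum_congr rfl fun j hj' => ?_
      rw [hj j (Finset.ne_of_mem_erase hj')]
    have hi : (v i).val = (v' i).val := by
      unfold evn at ho ho'
      rw [← Finset.add_sum_erase _ _ (Finset.mem_univ i), Nat.even_iff] at ho ho'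
      rw [hs] at ho
      have h1 := hv1.2
      have h2 := hv1'.2
      omega
    have hvi : v i = v' i := ZMod.val_injective _ hi
    have hvv : v = v' := by
      funext j
      by_cases hji : j = i
      · rw [hji]
        exact hvi
      · exact hj j hji
    rw [hvv, hc]
  rw [Finset.card_product, Finset.card_univ, ZMod.card, Finset.card_univ] at h
  rw [← card_site d k]
  exact_mod_cast h

private theorem TOne_dir (hd : 2 ≤ d) (hk : 1 ≤ k) {ε : ℝ} (he : 0 < ε)
    (he1 : ε ≤ 1 / 2) (f : Site d k → Fin q) (i : Fin d) :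
    ∑ a : ZMod (2 ^ s), T1 ε s f i a ≤
      Real.log (1 / ε) * ∑ u ∈ evs d k, ∑ c, |zz f (u + sv (i, true)) c - zz f (u + sv (i, false)) c|
        + NN d k * q * ε + NN d k * q / 2 ^ k := by
  classical
  have hL := TOne_log_nonneg he he1
  have hE := TOne_log he he1
  have hq0 : (0 : ℝ) ≤ q := Nat.cast_nonneg q
  have hT : ∑ a : ZMod (2 ^ s), T1 ε s f i a = ∑ v ∈ ods d k,
      (if (v i).val < 2 then (q : ℝ) * Real.log 2
        else cst ε (SS f v) (SS f (v + sv (i, false) + sv (i, false)))) := by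
    unfold T1
    exact Finset.sum_fiberwise (ods d k) (fun v => hh s i v) _
  have hb : ∀ v ∈ ods d k, (if (v i).val < 2 then (q : ℝ) * Real.log 2
        else cst ε (SS f v) (SS f (v + sv (i, false) + sv (i, false)))) ≤
      (if (v i).val < 2 then (q : ℝ) else 0) +
        (Real.log (1 / ε) * ∑ c, |zz f v c - zz f (v + sv (i, false) + sv (i, false)) c|
          + q * (2 * ε)) := by
    intro v _
    have hc0 : 0 ≤ ∑ c, |zz f v c - zz f (v + sv (i, false) + sv (i, false)) c| :=
      Finset.sum_nonneg fun c _ => abs_nonneg _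
    split_ifs with h
    · have h2 : Real.log 2 ≤ 1 := by
        have := Real.log_le_sub_one_of_pos (show (0 : ℝ) < 2 by norm_num)
        linarith
      have h3 : (q : ℝ) * Real.log 2 ≤ q := by nlinarith
      have h4 : 0 ≤ Real.log (1 / ε) *
        ∑ c, |zz f v c - zz f (v + sv (i, false) + sv (i, false)) c| := mul_nonneg hL hc0
      have h5 : 0 ≤ (q : ℝ) * (2 * ε) := by positivity
      linarith
    · unfold cst
      rw [TOne_symm]
      set X := ∑ c, |zz f v c - zz f (v + sv (i, false) + sv (i, false)) c| with hX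
      have h6 : 0 ≤ Real.log (1 / (1 - ε)) := by
        apply Real.log_nonneg
        rw [le_div_iff₀ (by linarith)]
        linarith
      have h7 : (q - X) * Real.log (1 / (1 - ε)) ≤ q * (2 * ε) := by
        calc (q - X) * Real.log (1 / (1 - ε)) ≤ q * Real.log (1 / (1 - ε)) :=
              mul_le_mul_of_nonneg_right (by linarith) h6
          _ ≤ q * (2 * ε) := mul_le_mul_of_nonneg_left hE hq0
      nlinarith
  rw [hT]
  refine (Finset.sum_le_sum hb).trans ?_
  rw [Finset.sum_add_distrib, Finset.sum_add_distrib]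
  have h1 : ∑ v ∈ ods d k, (if (v i).val < 2 then (q : ℝ) else 0) ≤ NN d k * q / 2 ^ k := by
    rw [← Finset.sum_filter, Finset.sum_const, nsmul_eq_mul]
    have := TOne_cnt (d := d) (k := k) i
    rw [le_div_iff₀ (by positivity)]
    calc (((ods d k).filter (fun v => (v i).val < 2)).card : ℝ) * q * 2 ^ k
        = (((ods d k).filter (fun v => (v i).val < 2)).card : ℝ) * 2 ^ k * q := by ring
      _ ≤ NN d k * q := mul_le_mul_of_nonneg_right this hq0
  have h2 : ∑ v ∈ ods d k, (q : ℝ) * (2 * ε) = NN d k * q * ε := by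
    rw [Finset.sum_const, nsmul_eq_mul, card_ods (by omega) hk]
    ring
  have h3 : ∑ v ∈ ods d k, Real.log (1 / ε) *
      ∑ c, |zz f v c - zz f (v + sv (i, false) + sv (i, false)) c| =
      Real.log (1 / ε) * ∑ u ∈ evs d k,
        ∑ c, |zz f (u + sv (i, true)) c - zz f (u + sv (i, false)) c| := by
    rw [← Finset.mul_sum]
    congr 1
    rw [← sum_step hk (i, true) fun v =>
      ∑ c, |zz f v c - zz f (v + sv (i, false) + sv (i, false)) c|]
    refine Finset.sum_congr rfl fun u _ => ?_
    have h4 : u + sv (i, true) + sv (i, false) + sv (i, false) = u + sv (i, false) := by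
      have := sv_opp (d := d) (k := k) i true
      simp only [Bool.not_true] at this
      rw [add_assoc u, this, add_zero]
    rw [h4]
  rw [h2, h3]
  linarith

theorem ET1 (hd : 2 ≤ d) (hk : 2 ≤ k) (hs : s ≤ k) (h1 : d ≤ 2 ^ s) {ε : ℝ} (he : 0 < ε)
    (he1 : ε ≤ 1 / 2) (f : Site d k → Fin q) :
    (∑ i : Fin d, ∑ a : ZMod (2 ^ s), T1 ε s f i a) / (d * 2 ^ s) ≤
      4 * Real.log (1 / ε) / d * ∑ c, II f c + NN d k * q * ε / d + NN d k * q / (2 ^ k * d) := by
  have hd0 : (0 : ℝ) < d := by
    have : 0 < d := by omega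
    exact_mod_cast this
  have hs0 : (0 : ℝ) < 2 ^ s := by positivity
  have hds : (d : ℝ) ≤ 2 ^ s := by exact_mod_cast h1
  have hL := TOne_log_nonneg he he1
  have hq0 : (0 : ℝ) ≤ q := Nat.cast_nonneg q
  have hN0 : 0 ≤ NN d k := by unfold NN; positivity
  have hI0 : ∀ c, 0 ≤ II f c := by
    intro c
    unfold II
    refine Finset.sum_nonneg fun u _ => ?_
    have h := TOne_pair (by omega : 1 ≤ d) f u c
    have h0 : 0 ≤ ∑ i : Fin d, |zz f (u + sv (i, true)) c - zz f (u + sv (i, false)) c| :=
      Finset.sum_nonneg fun i _ => abs_nonneg _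
    have h4 : (0 : ℝ) < 4 * d := by positivity
    by_contra hneg
    push Not at hneg
    nlinarith
  have hII0 : 0 ≤ ∑ c, II f c := Finset.sum_nonneg fun c _ => hI0 c
  have hsum : ∑ i : Fin d, ∑ a : ZMod (2 ^ s), T1 ε s f i a ≤
      Real.log (1 / ε) * (4 * d * ∑ c, II f c) + d * (NN d k * q * ε) +
        d * (NN d k * q / 2 ^ k) := by
    have h2 : ∑ i : Fin d, ∑ a : ZMod (2 ^ s), T1 ε s f i a ≤
        ∑ i : Fin d, (Real.log (1 / ε) *
          ∑ u ∈ evs d k, ∑ c, |zz f (u + sv (i, true)) c - zz f (u + sv (i, false)) c|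
        + NN d k * q * ε + NN d k * q / 2 ^ k) :=
      Finset.sum_le_sum fun i _ => TOne_dir hd (by omega) he he1 f i
    refine h2.trans ?_
    rw [Finset.sum_add_distrib, Finset.sum_add_distrib, ← Finset.mul_sum]
    simp only [Finset.sum_const, Finset.card_univ, Fintype.card_fin, nsmul_eq_mul]
    have h3 : ∑ i : Fin d, ∑ u ∈ evs d k,
        ∑ c, |zz f (u + sv (i, true)) c - zz f (u + sv (i, false)) c| ≤ 4 * d * ∑ c, II f c := by
      have h4 : ∑ i : Fin d, ∑ u ∈ evs d k,
        ∑ c, |zz f (u + sv (i, true)) c - zz f (u + sv (i, false)) c| =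
          ∑ c, ∑ u ∈ evs d k,
            ∑ i : Fin d, |zz f (u + sv (i, true)) c - zz f (u + sv (i, false)) c| := by
        rw [Finset.sum_comm]
        rw [Finset.sum_comm (s := (univ : Finset (Fin q)))]
        refine Finset.sum_congr rfl fun u _ => ?_
        rw [Finset.sum_comm]
      rw [h4, Finset.mul_sum]
      refine Finset.sum_le_sum fun c _ => ?_
      unfold II
      rw [Finset.mul_sum]
      exact Finset.sum_le_sum fun u _ => TOne_pair (by omega) f u c
    have h5 := mul_le_mul_of_nonneg_left h3 hL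
    linarith
  have hX0 : 0 ≤ Real.log (1 / ε) * (4 * ∑ c, II f c) + NN d k * q * ε + NN d k * q / 2 ^ k := by
    positivity
  calc (∑ i : Fin d, ∑ a : ZMod (2 ^ s), T1 ε s f i a) / (d * 2 ^ s)
      ≤ (Real.log (1 / ε) * (4 * d * ∑ c, II f c) + d * (NN d k * q * ε) +
        d * (NN d k * q / 2 ^ k)) / (d * 2 ^ s) :=
        div_le_div_of_nonneg_right hsum (by positivity)
    _ = (Real.log (1 / ε) * (4 * ∑ c, II f c) + NN d k * q * ε + NN d k * q / 2 ^ k) / 2 ^ s := by
        field_simp
    _ ≤ (Real.log (1 / ε) * (4 * ∑ c, II f c) + NN d k * q * ε + NN d k * q / 2 ^ k) / d :=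
        div_le_div_of_nonneg_left hX0 hd0 hds
    _ = _ := by
        field_simp

end Pool.Agent.LO
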